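import Pool.Agent.Lib.MP_7f581e_Z.Alt.Spec

/-!
# Alternating step: elements fixed by inertia
-/

namespace MP7Z

open Polynomial

namespace UnrM

/-- A generator with positive order is a uniformizer. -/
theorem pord_gen {𝕜 E : Type} [Field 𝕜] [IsAlgClosed 𝕜] [Field E] [Algebra 𝕜 E]
    [IsCurveField 𝕜 E] (v : Place 𝕜 E) {t : E} (ht0 : t ≠ 0) (ht : 0 < v.pord t)
    (hgen : ∀ f : E, ∃ r s : 𝕜[X], f = aeval t r / aeval t s) : v.pord t = 1 := by
  obtain ⟨z, hz⟩ := v.exists_unif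
  have hz0 : z ≠ 0 := by
    rintro rfl
    rw [AddValuation.map_zero] at hz
    exact WithTop.top_ne_one hz
  obtain ⟨r, s, hrs⟩ := hgen z
  have hr : aeval t r ≠ 0 := by
    intro h
    rw [hrs, h, zero_div] at hz0
    exact hz0 rfl
  have hs : aeval t s ≠ 0 := by
    intro h
    rw [hrs, h, div_zero] at hz0
    exact hz0 rfl
  have hr0 : r ≠ 0 := by
    rintro rfl
    exact hr (map_zero _)
  have hs0 : s ≠ 0 := by
    rintro rfl
    exact hs (map_zero _)
  have h1 : v.pord (aeval t r) = r.natTrailingDegree * v.pord t :=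
    (v.pord_eq_iff hr _).2 (v.ord_aeval_of_pos ht0 ht hr0)
  have h2 : v.pord (aeval t s) = s.natTrailingDegree * v.pord t :=
    (v.pord_eq_iff hs _).2 (v.ord_aeval_of_pos ht0 ht hs0)
  have h3 : v.pord z = 1 := (v.pord_eq_iff hz0 1).2 (by rw [hz]; rfl)
  rw [hrs, v.pord_div hr hs, h1, h2, ← sub_mul] at h3
  exact Int.eq_one_of_dvd_one ht.le ⟨_, by rw [mul_comm]; exact h3.symm⟩

variable {p : ℕ} [Fact p.Prime] {Ω : Type} [Field Ω] [Algebra (ZMod p) Ω]

/-- The field of the elements fixed by an automorphism over the constants. -/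
def fixI (γ : Ω ≃ₐ[ZMod p] Ω) (h : γ ∈ Fx p (Cst p Ω : Set Ω)) :
    IntermediateField (Cst p Ω) Ω where
  carrier := {f | γ f = f}
  mul_mem' := by
    intro a b ha hb
    change γ (a * b) = a * b
    rw [map_mul, ha, hb]
  one_mem' := map_one γ
  add_mem' := by
    intro a b ha hb
    change γ (a + b) = a + b
    rw [map_add, ha, hb]
  zero_mem' := map_zero γ
  algebraMap_mem' := fun c => h c c.2
  inv_mem' := by
    intro a ha
    change γ a⁻¹ = a⁻¹
    rw [map_inv₀, ha]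

theorem mem_Fx_adjoin {γ : Ω ≃ₐ[ZMod p] Ω} (h : γ ∈ Fx p (Cst p Ω : Set Ω)) {S : Set Ω}
    (hS : ∀ s ∈ S, γ s = s) :
    γ ∈ Fx p (IntermediateField.adjoin (Cst p Ω) S : Set Ω) := by
  have h1 : IntermediateField.adjoin (Cst p Ω) S ≤ fixI γ h := by
    rw [IntermediateField.adjoin_le_iff]
    exact hS
  exact fun a ha => h1 ha

end UnrM

theorem tUnr (h0 : CstStmt) (h1 : LvlStmt) (h2 : BelStmt) (h3 : RamStmt) : UnrStmt := by
  intro p _ Ω _ _ x hst V hV x₀ hx₀ hxx a ha ha1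
  by_cases ha0 : a = 0
  · rw [ha0, map_zero]
    exact zero_le
  have := h0 p Ω x hst
  let K : IntermediateField (Cst p Ω) Ω := IntermediateField.adjoin (Cst p Ω) {x - x₀}
  let K' : IntermediateField (Cst p Ω) Ω := IntermediateField.adjoin (Cst p Ω) {x - x₀, a}
  have hTK : x - x₀ ∈ K := IntermediateField.mem_adjoin_simple_self _ _
  have hTK' : x - x₀ ∈ K' := IntermediateField.subset_adjoin _ _ (by simp)
  have haK' : a ∈ K' := IntermediateField.subset_adjoin _ _ (by simp)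
  have hcon : ∀ L : IntermediateField (Cst p Ω) Ω, x₀ ∈ L := fun L =>
    L.algebraMap_mem ⟨x₀, hx₀⟩
  have hmem : ∀ L : IntermediateField (Cst p Ω) Ω, x - x₀ ∈ L → x ∈ L := by
    intro L hL
    have h5 := L.add_mem hL (hcon L)
    rwa [sub_add_cancel] at h5
  have hKK : K ≤ K' := by
    rw [IntermediateField.adjoin_le_iff]
    intro b hb
    rw [Set.mem_singleton_iff.1 hb]
    exact hTK'
  have hK : IsLevel p x K :=
    ⟨hmem K hTK, IntermediateField.fg_adjoin_of_finite (Set.finite_singleton _)⟩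
  have hK' : IsLevel p x K' :=
    ⟨hmem K' hTK', IntermediateField.fg_adjoin_of_finite (Set.toFinite _)⟩
  obtain ⟨hL1, hL2⟩ := h1 p Ω x hst
  obtain ⟨hc, htr, -⟩ := hL1 K hK
  obtain ⟨hc', -, -⟩ := hL1 K' hK'
  obtain ⟨v, hv, -, hv3⟩ := h2 p Ω x hst K hK V hV
  obtain ⟨v', hv', -, hv3'⟩ := h2 p Ω x hst K' hK' V hV
  have hT0 : (⟨x - x₀, hTK⟩ : K) ≠ 0 := by
    intro h5
    have h6 : x = x₀ := sub_eq_zero.1 (congrArg Subtype.val h5)
    apply htr
    have h7 : (⟨x, hK.mem⟩ : K) = algebraMap (Cst p Ω) K ⟨x₀, hx₀⟩ := Subtype.ext h6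
    rw [h7]
    exact isAlgebraic_algebraMap _
  have hT0' : (⟨x - x₀, hTK'⟩ : K') ≠ 0 := by
    intro h5
    apply hT0
    have h6 : x - x₀ = 0 := congrArg Subtype.val h5
    exact Subtype.ext h6
  have hpos : 0 < v.pord (⟨x - x₀, hTK⟩ : K) := by
    rw [v.lt_pord_iff hT0]
    exact (hv3 _).2 hxx
  have hone : v.pord (⟨x - x₀, hTK⟩ : K) = 1 := by
    apply UnrM.pord_gen v hT0 hpos
    intro f
    obtain ⟨r, s, hrs⟩ := IntermediateField.mem_adjoin_simple_iff (Cst p Ω) (f : Ω) |>.1 f.2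
    refine ⟨r, s, Subtype.ext ?_⟩
    rw [hrs]
    have h5 : ∀ P : (Cst p Ω)[X], ((aeval (⟨x - x₀, hTK⟩ : K) P : K) : Ω) = aeval (x - x₀) P := by
      intro P
      exact (aeval_algebraMap_apply Ω (⟨x - x₀, hTK⟩ : K) P).symm
    rw [← h5, ← h5]
    rfl
  have hone' : v'.pord (⟨x - x₀, hTK'⟩ : K') = 1 := by
    have h5 := (h3 p Ω x hst K K' hKK hK hK' V hV v v' hv hv').2 (by
      intro γ hγ
      have h6 : γ ∈ Fx p (Cst p Ω : Set Ω) := fun c hc => hγ.1 c (K.algebraMap_mem ⟨c, hc⟩)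
      apply UnrM.mem_Fx_adjoin h6
      intro s hs
      rw [Set.mem_insert_iff, Set.mem_singleton_iff] at hs
      rcases hs with rfl | rfl
      · exact hγ.1 _ hTK
      · apply ha
        exact ⟨mem_Gx.2 (hγ.1 x hK.mem), h6, hγ.2⟩) ⟨x - x₀, hTK⟩
    rw [← hone, ← h5]
  have ha0' : (⟨a, haK'⟩ : K') ≠ 0 := by
    intro h5
    exact ha0 (congrArg Subtype.val h5)
  have hapos : 0 < v'.pord (⟨a, haK'⟩ : K') := by
    rw [v'.lt_pord_iff ha0']
    exact (hv3' _).2 ha1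
  have hdiv : 0 ≤ v'.pord ((⟨a, haK'⟩ : K') / ⟨x - x₀, hTK'⟩) := by
    rw [v'.pord_div ha0' hT0', hone']
    omega
  have hdiv2 : 0 ≤ v'.ord ((⟨a, haK'⟩ : K') / ⟨x - x₀, hTK'⟩) := by
    rw [v'.le_pord_iff (div_ne_zero ha0' hT0')] at hdiv
    exact hdiv
  have h5 : a / (x - x₀) ∈ V := (hv' _).1 hdiv2
  rw [← V.valuation_le_one_iff, map_div₀] at h5
  have hT : V.valuation (x - x₀) ≠ 0 := by
    rw [Valuation.ne_zero_iff]
    intro h6
    exact hT0 (Subtype.ext h6)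
  rwa [div_le_one₀ (zero_lt_iff.2 hT)] at h5

end MP7Z
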