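import Pool.Agent.Lib.MP_7f581e_Z.Alt.Spec

/-!
# Labelled roots with prescribed square root of the discriminant
-/

namespace MP7Z

open Polynomial MP7fS

namespace LabM

/-- The Vandermonde product changes sign when two labels are exchanged. -/
theorem vd_swap {Ω : Type} [Field Ω] {n : ℕ} (y : Fin n → Ω) (a b : Fin n) (hab : a ≠ b) :
    ∏ i, ∏ j ∈ Finset.Ioi i, (y (Equiv.swap a b j) - y (Equiv.swap a b i)) =
      - ∏ i, ∏ j ∈ Finset.Ioi i, (y j - y i) := by
  have h1 := Matrix.det_vandermonde (fun i => y (Equiv.swap a b i))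
  have h2 := Matrix.det_vandermonde y
  have h3 := Matrix.det_permute (Equiv.swap a b) (Matrix.vandermonde y)
  have h4 : (Matrix.vandermonde y).submatrix (Equiv.swap a b) id =
      Matrix.vandermonde (fun i => y (Equiv.swap a b i)) := by
    ext i j
    simp [Matrix.vandermonde_apply]
  rw [h4, Equiv.Perm.sign_swap hab, h1, h2] at h3
  rw [h3]
  simp

/-- Labelled roots of a separable polynomial over a separably closed field. -/
theorem exists_roots {Ω : Type} [Field Ω] [IsSepClosed Ω] (P : Polynomial Ω) (n : ℕ)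
    (hP : P.Separable) (hn : P.natDegree = n) :
    ∃ y : Fin n → Ω, Function.Injective y ∧ P = C P.leadingCoeff * ∏ i, (X - C (y i)) := by
  classical
  have hs : P.Splits := IsSepClosed.splits_of_separable P hP
  have hnd : P.roots.Nodup := nodup_roots hP
  have hc : P.roots.card = n := by
    rw [← hn]
    exact hs.natDegree_eq_card_roots.symm
  have hc' : P.roots.toFinset.card = n := by
    rw [Multiset.toFinset_card_of_nodup hnd, hc]
  let ψ := (P.roots.toFinset.equivFinOfCardEq hc').symm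
  refine ⟨fun i => (ψ i : Ω), fun i j h => ψ.injective (Subtype.ext h), ?_⟩
  have h1 : ∏ i, (X - C ((ψ i : Ω))) = ∏ x ∈ P.roots.toFinset, (X - C x) := by
    rw [Equiv.prod_comp ψ (fun x : P.roots.toFinset => (X - C (x : Ω)))]
    exact Finset.prod_coe_sort P.roots.toFinset (fun x => X - C x)
  have h2 : ∏ x ∈ P.roots.toFinset, (X - C x) = (P.roots.map (fun x => X - C x)).prod := by
    rw [Finset.prod_eq_multiset_prod, Multiset.toFinset_val, Multiset.dedup_eq_self.2 hnd]
  rw [h1, h2]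
  exact hs.eq_prod_roots

end LabM

theorem tLab (h0 : SepStmt) (h1 : DiscStmt) : LabStmt := by
  intro p n _ t
  obtain ⟨c', hc', z₀, hz⟩ := h1 p n t
  refine ⟨c', hc', z₀ * ((p * ((p - 1) / 2) : ℕ) : ℤ), ?_⟩
  intro Ω _ _ _ e τ κ d hm he hd hval
  have hodd : Odd p := (Fact.out : p.Prime).odd_of_ne_two t.odd
  have hinj : Function.Injective (algebraMap (ZMod p) Ω) := (algebraMap (ZMod p) Ω).injective
  have hca : algebraMap (ZMod p) Ω c' ≠ 0 := by
    intro h
    exact hc' (hinj (by rw [h, map_zero]))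
  have hci : algebraMap (ZMod p) Ω c'⁻¹ = (algebraMap (ZMod p) Ω c')⁻¹ := map_inv₀ _ _
  have hev : (t.f e τ κ).eval (algebraMap (ZMod p) Ω t.s) =
      (algebraMap (ZMod p) Ω c')⁻¹ * d ^ 2 := by
    rw [t.eval_f e τ κ hm, hval, hci]
  have hsep : (t.f e τ κ).Separable := by
    refine h0 p n t Ω (t.M e τ κ) (t.derivative_M e τ κ) ?_
    change (t.f e τ κ).eval (algebraMap (ZMod p) Ω t.s) ≠ 0
    rw [hev]
    exact mul_ne_zero (inv_ne_zero hca) (pow_ne_zero _ hd)
  obtain ⟨y, hy, hf⟩ := LabM.exists_roots (t.f e τ κ) n hsep (t.natDegree_f he τ κ)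
  rw [t.leadingCoeff_f he] at hf
  have hpow : ((e ^ (p * (p - 1))) ^ z₀ : Ω) =
      (e ^ (z₀ * ((p * ((p - 1) / 2) : ℕ) : ℤ))) ^ 2 := by
    have h2 : p * (p - 1) = p * ((p - 1) / 2) * 2 := by
      obtain ⟨k, hk⟩ := hodd
      have h3 : p - 1 = 2 * k := by omega
      have h4 : (p - 1) / 2 = k := by omega
      rw [h4, h3]
      ring
    rw [h2, pow_mul e, ← zpow_natCast e (p * ((p - 1) / 2)), ← zpow_natCast _ 2, ← zpow_mul,
      ← zpow_mul, ← zpow_natCast _ 2, ← zpow_mul]
    congr 1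
    ring
  have hD : (∏ i, ∏ j ∈ Finset.Ioi i, (y j - y i)) ^ 2 =
      (d * e ^ (z₀ * ((p * ((p - 1) / 2) : ℕ) : ℤ))) ^ 2 := by
    have h3 := hz Ω (t.M e τ κ) (e ^ (p * (p - 1))) y (t.derivative_M e τ κ) (pow_ne_zero _ he) hf
    have h4 : (t.V.map (algebraMap (ZMod p) Ω) * t.M e τ κ + t.W.map (algebraMap (ZMod p) Ω)).eval
        (algebraMap (ZMod p) Ω t.s) = (algebraMap (ZMod p) Ω c')⁻¹ * d ^ 2 := hev
    rw [h3, h4, hpow, mul_pow, ← mul_assoc, mul_inv_cancel₀ hca, one_mul]
  rcases sq_eq_sq_iff_eq_or_eq_neg.1 hD with h | h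
  · exact ⟨y, hy, hf, h⟩
  · have hn2 : 2 ≤ n := by
      have := t.hWn
      have hp2 := (Fact.out : p.Prime).two_le
      omega
    set a : Fin n := ⟨0, by omega⟩ with ha
    set b : Fin n := ⟨1, by omega⟩ with hb
    have hab : a ≠ b := by
      intro hh
      have := congrArg Fin.val hh
      simp [ha, hb] at this
    refine ⟨fun i => y (Equiv.swap a b i), hy.comp (Equiv.swap a b).injective, ?_, ?_⟩
    · rw [hf]
      congr 1
      exact (Equiv.prod_comp (Equiv.swap a b) (fun i => (X - C (y i) : Polynomial Ω))).symm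
    · rw [LabM.vd_swap y a b hab, h, neg_neg]

end MP7Z
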