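import Pool.Agent.Lib.MP_7f581e_Z.Alt.Spec
import Pool.Agent.Lib.MP_7f581e_Z.Fin.Main

/-!
# Theorem (H+) from the steps
-/

universe u

namespace MP7Z

theorem IsAlt.isSimpleGroup {p : ℕ} {S : Type} [Group S] (h : IsAlt p S) : IsSimpleGroup S := by
  obtain ⟨-, n, hn, -, -, ⟨e⟩⟩ := h
  have h1 : IsSimpleGroup (alternatingGroup (Fin n)) :=
    alternatingGroup.isSimpleGroup (by
      rw [Nat.card_eq_fintype_card, Fintype.card_fin]
      exact hn)
  exact MulEquiv.isSimpleGroup e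

theorem IsAlt.congr {p : ℕ} {S T : Type} [Group S] [Group T] (e : S ≃* T) (h : IsAlt p S) :
    IsAlt p T := by
  obtain ⟨h2, n, hn, h6, h3, ⟨e'⟩⟩ := h
  exact ⟨h2, n, hn, h6, h3, ⟨e.symm.trans e'⟩⟩

/-- Classical of characteristic `p`, or alternating of degree `n ≥ 5`, `n ≠ 6`, with `n ≥ p + 3` or
`p = 3` (`p` odd). -/
def IsCA (p : ℕ) (S : Type) [Group S] : Prop := MP7fE.IsClassical p S ∨ IsAlt p S

theorem lieStep_or {p : ℕ} [Fact p.Prime] (h1 : LieStep p (fun S [Group S] => MP7fE.IsClassical p S))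
    (h2 : LieStep p (fun S [Group S] => IsAlt p S)) : LieStep p (fun S [Group S] => IsCA p S) := by
  intro Ω _ _ x G _ _ ψ hψ E _ _ f hf S _ _ κ _ hS hθ hmin
  rcases hS with hS | hS
  · exact h1 Ω x G ψ hψ E f hf S κ hS hθ hmin
  · exact h2 Ω x G ψ hψ E f hf S κ hS hθ hmin

/-- Theorem (H+) from the four steps. -/
theorem mainHP (p : ℕ) [Fact p.Prime] (hL : LStep p) (hP : PStep p)
    (hLie : LieStep p (fun S [Group S] => MP7fE.IsClassical p S)) (hAlt : AStepStmt)
    (G : Type) [Group G] [Finite G]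
    (hG : MP7fC.HasFactors (fun S [Group S] => (Nat.card S).Prime ∨ IsCA p S) G) :
    (∀ (K : Type u) [Field K] [CharP K p], MP7fR.OccursRegularly G K) ∧
      ∀ (K : Type u) [Field K] [CharP K p], MP7fR.IsHilbertian K → MP7fR.Occurs G K := by
  obtain ⟨Ω, _, _, x, ψ, hψ⟩ := final p hL hP (fun S [Group S] => IsCA p S)
    (fun S _ h => h.elim (fun h => h.1) (fun h => h.isSimpleGroup))
    (fun S T _ _ e h => h.elim (fun h => Or.inl (h.congr e)) (fun h => Or.inr (h.congr e)))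
    (lieStep_or hLie (hAlt p)) G hG
  have h0 : MP7fR.OccursRegularly G (ZMod p) := reg Ω x G ψ hψ
  have h1 : ∀ (K : Type u) [Field K] [CharP K p], MP7fR.OccursRegularly G K := by
    intro K _ _
    let _ : Algebra (ZMod p) K := ZMod.algebra K p
    exact MP7fR.occursRegularly_baseChange h0
  exact ⟨h1, fun K _ _ hK => MP7fR.occurs_of_isHilbertian hK (h1 K).occurs⟩

end MP7Z
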