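import Pool.Agent.Lib.MP_7f581e_Z.Alt.Spec

/-!
# Alternating step: assembly
-/

namespace MP7Z

open Polynomial

theorem tAStep (hTyp : TypStmt) (hAct : ActStmt) (hSys : SysStmt) (hHom : HomStmt) (hSOf : SOfStmt)
    (hJor : JorStmt) (hGrp : GrpStmt) : AStepStmt := by
  intro p _ Ω _ _ x G _ _ ψ hψ E _ _ f hf S _ _ κ' _ hS hker hmin
  obtain ⟨hp2, n, hn5, hn6, hpn, ⟨eS⟩⟩ := hS
  obtain ⟨φ₀⟩ := hker
  obtain ⟨k, ⟨eκ⟩⟩ := Finite.exists_equiv_fin κ'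
  let φ : f.ker ≃* (Fin k → alternatingGroup (Fin n)) := φ₀.trans (MulEquiv.arrowCongr eκ eS)
  have hsurj : Function.Surjective ψ := fun g => by
    obtain ⟨γ, -, hγ⟩ := hψ.reg g
    exact ⟨γ, hγ⟩
  rcases Nat.eq_zero_or_pos k with hk | hk
  · -- trivial kernel
    subst hk
    have hinj : Function.Injective f := by
      rw [← MonoidHom.ker_eq_bot_iff, Subgroup.eq_bot_iff_forall]
      intro a ha
      have h1 : φ ⟨a, ha⟩ = φ 1 := funext fun i => i.elim0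
      exact congrArg Subtype.val (φ.injective h1)
    let eG : E ≃* G := MulEquiv.ofBijective f ⟨hinj, hf⟩
    have heG : ∀ g : E, eG.symm (f g) = g := fun g => eG.symm_apply_apply g
    refine ⟨x, eG.symm.toMonoidHom.comp ψ, ⟨hψ.stage, ?_, ?_, ?_⟩⟩
    · obtain ⟨A, hA⟩ := hψ.fin
      refine ⟨A, fun γ hγ => ?_⟩
      show eG.symm (ψ γ) = 1
      rw [hA γ hγ, map_one]
    · intro g
      obtain ⟨γ, hγ, hγ'⟩ := hψ.reg (f g)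
      refine ⟨γ, hγ, ?_⟩
      show eG.symm (ψ γ) = g
      rw [hγ', heG]
    · intro ℓ hℓ hℓp V hV hbad γ hγ hdvd
      apply hψ.inv ℓ hℓ hℓp V hV hbad γ hγ
      have h1 : orderOf (eG.symm.toMonoidHom.comp ψ γ) = orderOf (ψ γ) :=
        MulEquiv.orderOf_eq eG.symm (ψ γ)
      rwa [h1] at hdvd
  · let j₀ : Fin k := ⟨0, hk⟩
    obtain ⟨t⟩ := hTyp p n hp2 (by
      rcases hpn with h | h
      · exact Or.inl h
      · by_cases h7 : n = 5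
        · exact Or.inr ⟨h, h7⟩
        · left
          omega)
    obtain ⟨act, T, ε, k1, k2, k3, k4, k5, k6, k7⟩ := hAct n k hn5 hn6 E G f hf φ hmin
    obtain ⟨V₁, e, τ, κ, y, hsys⟩ := hSys p n t Ω x hψ.stage G ψ hψ.fin hsurj k act ε j₀ k6 (k7 j₀)
    obtain ⟨Ψ, hfin, hπ, hΨ⟩ := hHom p n t Ω x G ψ k act ε j₀ V₁ e τ κ y hψ.fin hsys E f T k1 k2 k3
    obtain ⟨hinv, δ, hδ, hδ1, hδ2, hδ3, hδ4, hδ5⟩ := hSOf p n t Ω x hψ.stage G ψ k act ε j₀ V₁ e τ κ y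
      hψ.inv hsys E f T k1 k2 k3 Ψ hπ hΨ
    have hT1 : ∀ j, T 1 j = 1 := by
      intro j
      have h1 := k1 1 1 j
      rw [mul_one, map_one, map_one, Equiv.Perm.one_apply] at h1
      exact (mul_eq_left.mp h1.symm)
    have hmul : ∀ γ γ' : Gx p x, ψ γ' = 1 →
        T (Ψ (γ * γ')) j₀ = T (Ψ γ) j₀ * T (Ψ γ') j₀ := by
      intro γ γ' h
      rw [map_mul, k1, hπ, h, map_one, Equiv.Perm.one_apply]
    let G₀ : Subgroup (Equiv.Perm (Fin n)) :=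
      { carrier := {ρ | ∃ γ : Gx p x, ψ γ = 1 ∧ T (Ψ γ) j₀ = ρ}
        mul_mem' := by
          rintro _ _ ⟨γ, h1, rfl⟩ ⟨γ', h2, rfl⟩
          exact ⟨γ * γ', by rw [map_mul, h1, h2, mul_one], hmul γ γ' h2⟩
        one_mem' := ⟨1, map_one _, by rw [map_one, hT1]⟩
        inv_mem' := by
          rintro _ ⟨γ, h1, rfl⟩
          refine ⟨γ⁻¹, by rw [map_inv, h1, inv_one], ?_⟩
          have h2 := hmul γ⁻¹ γ h1
          rw [inv_mul_cancel, map_one, hT1] at h2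
          exact eq_inv_of_mul_eq_one_left h2.symm }
    have hact : ∀ γ : Gx p x, ψ γ = 1 → ∀ i l, (γ : Ω ≃ₐ[ZMod p] Ω) (y j₀ i) = y j₀ l →
        T (Ψ γ) j₀ i = l := by
      intro γ hγ i l h
      have h1 := hΨ γ j₀ i
      rw [hγ, map_one, Equiv.Perm.one_apply, h] at h1
      exact (hsys.inj j₀ h1).symm
    have hG₀ : alternatingGroup (Fin n) ≤ G₀ := by
      refine hJor p n t G₀ (T (Ψ δ) j₀) ⟨δ, hδ1, rfl⟩ hδ2 hδ3 hδ4 ?_ ?_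
      · intro hm i l
        obtain ⟨γ, h1, h2⟩ := hsys.tr1 hm i l
        exact ⟨_, ⟨γ, h1, rfl⟩, hact γ h1 i l h2⟩
      · intro hm i i' l l' hi hl
        obtain ⟨γ, h1, h2, h3⟩ := hsys.tr2 hm i i' l l' hi hl
        exact ⟨_, ⟨γ, h1, rfl⟩, hact γ h1 i l h2, hact γ h1 i' l' h3⟩
    let Γ₀ : Subgroup (Gx p x) := (Fx p (Cst p Ω : Set Ω)).subgroupOf (Gx p x)
    have hΓ₀ : ∀ γ : Gx p x, γ ∈ Γ₀ ↔ (γ : Ω ≃ₐ[ZMod p] Ω) ∈ Fx p (Cst p Ω : Set Ω) := fun γ =>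
      Subgroup.mem_subgroupOf
    have hnormal : Γ₀.Normal := by
      constructor
      intro γ hγ g
      rw [hΓ₀] at hγ ⊢
      intro a ha
      have h1 : (g : Ω ≃ₐ[ZMod p] Ω)⁻¹ a ∈ (Cst p Ω : Set Ω) :=
        (map_mem_algebraicClosure_iff ((g : Ω ≃ₐ[ZMod p] Ω)⁻¹ : Ω ≃ₐ[ZMod p] Ω).toAlgHom).2 ha
      have h2 := hγ _ h1
      show (g : Ω ≃ₐ[ZMod p] Ω) ((γ : Ω ≃ₐ[ZMod p] Ω) ((g : Ω ≃ₐ[ZMod p] Ω)⁻¹ a)) = a
      rw [h2]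
      exact (g : Ω ≃ₐ[ZMod p] Ω).apply_symm_apply a
    refine ⟨x, Ψ, ⟨hψ.stage, hfin, ?_, hinv⟩⟩
    intro g
    obtain ⟨γ, h1, h2⟩ := hGrp n k hn5 E G (Gx p x) f φ act T j₀ (k7 j₀) k1 k4 k5 Γ₀ Ψ
      (fun q => by
        obtain ⟨γ, h1, h2⟩ := hψ.reg q
        exact ⟨γ, (hΓ₀ γ).2 h1, by rw [hπ, h2]⟩)
      (fun a ha => by
        obtain ⟨γ, h1, h2⟩ := hG₀ ha
        exact ⟨γ, by rw [hπ, h1], h2⟩)
      δ ((hΓ₀ δ).2 hδ) (by rw [hπ, hδ1]) hδ2 hδ5 g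
    exact ⟨γ, (hΓ₀ γ).1 h1, h2⟩

end MP7Z
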