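import Pool.Agent.Lib.MP_7f581e_Z.Alt.Spec
import Pool.Agent.Lib.MP_7f581e_nt.AutPow

/-!
# Alternating step: the data of the extension, and transitivity on the factors
-/

namespace MP7Z

namespace ActM

variable {n k : ℕ} {E G : Type} [Group E] [Group G] {f : E →* G}
  (φ : f.ker ≃* (Fin k → alternatingGroup (Fin n))) (O : Set (Fin k))

/-- The elements of the kernel supported in `O`. -/
def M' : Subgroup f.ker where
  carrier := {m | ∀ j, j ∉ O → φ m j = 1}
  mul_mem' := by
    intro a b ha hb j hj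
    rw [map_mul, Pi.mul_apply, ha j hj, hb j hj, one_mul]
  one_mem' := by
    intro j _
    rw [map_one, Pi.one_apply]
  inv_mem' := by
    intro a ha j hj
    rw [map_inv, Pi.inv_apply, ha j hj, inv_one]

theorem mem_M' {m : f.ker} : m ∈ M' φ O ↔ ∀ j, j ∉ O → φ m j = 1 := Iff.rfl

theorem single_mem {j : Fin k} (hj : j ∈ O) (a : alternatingGroup (Fin n)) :
    φ.symm (Pi.mulSingle j a) ∈ M' φ O := by
  rw [mem_M']
  intro i hi
  rw [MulEquiv.apply_symm_apply, Pi.mulSingle_eq_of_ne]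
  rintro rfl
  exact hi hj

end ActM

open ActM in
theorem tAct : ActStmt := by
  intro n k hn h6 E G _ _ _ f hf φ hmin
  obtain ⟨act', T, ε', h1, h2, h3, h4, h5⟩ :=
    Pool.Agent.Lib.MP_7f581e_nt.AutAlt.exists_perm_data' hn h6 f.ker φ
  let e0 : E ⧸ f.ker ≃* G := QuotientGroup.quotientKerEquivOfSurjective f hf
  have he : ∀ g : E, e0 (g : E ⧸ f.ker) = f g := fun g => rfl
  have he' : ∀ g : E, e0.symm (f g) = (g : E ⧸ f.ker) := fun g => by
    rw [← he, MulEquiv.symm_apply_apply]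
  let act : G →* Equiv.Perm (Fin k) := act'.comp e0.symm.toMonoidHom
  have hact : ∀ g : E, act (f g) = act' (g : E ⧸ f.ker) := fun g => by
    show act' (e0.symm (f g)) = _
    rw [he']
  have k1 : ∀ g g' j, T (g * g') j = T g (act (f g') j) * T g' j := fun g g' j => by
    rw [hact, h1]
  have k2 : ∀ g j, Equiv.Perm.sign (T g j) = ε' (e0.symm (f g)) j := fun g j => by
    rw [he', h2]
  have k4 : ∀ (g : E) (m : f.ker) j,
      (φ (MulAut.conjNormal g m) (act (f g) j) : Equiv.Perm (Fin n)) =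
        T g j * φ m j * (T g j)⁻¹ := fun g m j => by
    rw [hact, h4]
  refine ⟨act, T, fun q => ε' (e0.symm q), k1, k2, ?_, k4, h5, ?_, ?_⟩
  · intro q τ hτ
    obtain ⟨g, ⟨hg1, hg2⟩, hg3⟩ := h3 (e0.symm q) τ hτ
    have hiff : ∀ g : E, f g = q ↔ (g : E ⧸ f.ker) = e0.symm q := by
      intro g
      rw [MulEquiv.eq_symm_apply, he]
    exact ⟨g, ⟨(hiff g).mpr hg1, hg2⟩, fun g' hg' => hg3 g' ⟨(hiff g').mp hg'.1, hg'.2⟩⟩
  · intro a b j
    obtain ⟨g, rfl⟩ := hf a
    obtain ⟨g', rfl⟩ := hf b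
    have k3 := k2 (g * g') j
    rw [k1, Equiv.Perm.sign_mul, k2, k2, map_mul] at k3
    exact k3.symm
  · intro j₀ j
    by_contra hne
    push Not at hne
    let O : Set (Fin k) := {i | ∃ q, act q j₀ = i}
    have hO : j ∉ O := fun ⟨q, hq⟩ => hne q hq
    have hO0 : j₀ ∈ O := ⟨1, by rw [map_one]; rfl⟩
    have hOact : ∀ (q : G) (i : Fin k), act q i ∉ O → i ∉ O := by
      rintro q i hi ⟨r, rfl⟩
      exact hi ⟨q * r, by rw [map_mul]; rfl⟩
    obtain ⟨a, ha⟩ : ∃ a : alternatingGroup (Fin n), a ≠ 1 := by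
      have : Nontrivial (alternatingGroup (Fin n)) :=
        alternatingGroup.nontrivial_of_three_le_card (by rw [Nat.card_eq_fintype_card, Fintype.card_fin]; omega)
      exact exists_ne 1
    have hnormal : ((M' φ O).map f.ker.subtype).Normal := by
      constructor
      rintro _ ⟨m, hm, rfl⟩ g
      refine ⟨MulAut.conjNormal g m, ?_, MulAut.conjNormal_apply g m⟩
      intro i hi
      obtain ⟨i', rfl⟩ : ∃ i', act (f g) i' = i := ⟨(act (f g))⁻¹ i, by
        rw [← Equiv.Perm.mul_apply, mul_inv_cancel]; rfl⟩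
      apply Subtype.ext
      rw [k4, (hm : m ∈ M' φ O) i' (hOact _ _ hi), Subgroup.coe_one, mul_one, mul_inv_cancel]
    rcases hmin _ hnormal (Subgroup.map_subtype_le _) with h | h
    · have h7 : ((φ.symm (Pi.mulSingle j₀ a) : f.ker) : E) ∈ (M' φ O).map f.ker.subtype :=
        ⟨_, single_mem φ O hO0 a, rfl⟩
      rw [h, Subgroup.mem_bot] at h7
      have h8 : φ.symm (Pi.mulSingle j₀ a) = 1 := Subtype.ext h7
      have h9 := congrArg φ h8
      rw [MulEquiv.apply_symm_apply, map_one] at h9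
      have h10 := congrFun h9 j₀
      rw [Pi.mulSingle_eq_same] at h10
      exact ha h10
    · have h7 : ((φ.symm (Pi.mulSingle j a) : f.ker) : E) ∈ (M' φ O).map f.ker.subtype := by
        rw [h]
        exact (φ.symm (Pi.mulSingle j a)).2
      obtain ⟨m, hm, hm'⟩ := h7
      have h8 : m = φ.symm (Pi.mulSingle j a) := Subtype.ext hm'
      subst h8
      have h9 := (hm : φ.symm (Pi.mulSingle j a) ∈ M' φ O) j hO
      rw [MulEquiv.apply_symm_apply, Pi.mulSingle_eq_same] at h9
      exact ha h9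

end MP7Z
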