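import Pool.Agent.Lib.MP_7f581e_Z.BR.Spec

/-!
# Alternating step: the family of polynomials

`f(e, τ, κ) = V · (e^N A₀ + τ G₀ + κ H₀) + W`, `N = p (p - 1)`, where `V, W, A₀, G₀, H₀` have
coefficients in the prime field; `A₀ = (X^p - s) X^(p(m-1))`, and `G₀ = (X^p - s) X^(p(m-2))`,
`H₀ = 1` if `m ≥ 2`, `G₀ = 1`, `H₀ = 0` if `m = 1` (then always `τ = κ`).
-/

namespace MP7Z

open Polynomial

/-- The data of a family of polynomials of degree `n` in characteristic `p`. -/
structure AType (p n : ℕ) [Fact p.Prime] where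
  V : (ZMod p)[X]
  W : (ZMod p)[X]
  D : (ZMod p)[X]
  s : ZMod p
  c₁ : ZMod p
  m : ℕ
  k : ℕ
  odd : p ≠ 2
  hm : 1 ≤ m
  hV : V.Monic
  hW : W.Monic
  hD : D.Monic
  hn : n = p * m + V.natDegree
  hc₁ : c₁ ≠ 0
  hs : V.eval s ≠ 0
  key : V * derivative W - derivative V * W = C c₁ * (X - C s) * D
  dvd : D ∣ V ^ k
  hWV : W = 1 ∨ V = 1
  hWn : W.natDegree + p < n
  hc : ¬ p ∣ n - W.natDegree
  h0 : 2 ≤ m → V.eval 0 = 0 ∨ s = 0
  h1 : m = 1 → ∀ b, b ∣ n → p ≤ b → b = n
  hp : p + 3 ≤ n ∨ p = 3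

namespace AType

variable {p n : ℕ} [Fact p.Prime] (t : AType p n)

noncomputable def A₀ : (ZMod p)[X] := (X ^ p - C t.s) * X ^ (p * (t.m - 1))

noncomputable def G₀ : (ZMod p)[X] :=
  if t.m = 1 then 1 else (X ^ p - C t.s) * X ^ (p * (t.m - 2))

noncomputable def H₀ : (ZMod p)[X] := if t.m = 1 then 0 else 1

section ring

variable {F : Type*} [CommRing F] [Algebra (ZMod p) F]

/-- `e^N A₀ + τ G₀ + κ H₀`. -/
noncomputable def M (e τ κ : F) : F[X] :=
  C (e ^ (p * (p - 1))) * t.A₀.map (algebraMap (ZMod p) F) +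
    C τ * t.G₀.map (algebraMap (ZMod p) F) + C κ * t.H₀.map (algebraMap (ZMod p) F)

/-- The polynomial `f(e, τ, κ)`. -/
noncomputable def f (e τ κ : F) : F[X] :=
  t.V.map (algebraMap (ZMod p) F) * t.M e τ κ + t.W.map (algebraMap (ZMod p) F)

/-- `f(e, τ, κ)` has the value `V(s) κ + W(s)` at `s`. -/
noncomputable def val (κ : F) : F :=
  algebraMap (ZMod p) F (t.V.eval t.s) * κ + algebraMap (ZMod p) F (t.W.eval t.s)

theorem map_M {F' : Type*} [CommRing F'] [Algebra (ZMod p) F'] (φ : F →+* F') (e τ κ : F) :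
    (t.M e τ κ).map φ = t.M (φ e) (φ τ) (φ κ) := by
  have h : φ.comp (algebraMap (ZMod p) F) = algebraMap (ZMod p) F' := Subsingleton.elim _ _
  simp only [M, Polynomial.map_add, Polynomial.map_mul, map_C, Polynomial.map_map, h, map_pow,
    Polynomial.map_pow]

theorem map_f {F' : Type*} [CommRing F'] [Algebra (ZMod p) F'] (φ : F →+* F') (e τ κ : F) :
    (t.f e τ κ).map φ = t.f (φ e) (φ τ) (φ κ) := by
  have h : φ.comp (algebraMap (ZMod p) F) = algebraMap (ZMod p) F' := Subsingleton.elim _ _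
  simp only [f, Polynomial.map_add, Polynomial.map_mul, Polynomial.map_map, h, map_M]

theorem map_val {F' : Type*} [CommRing F'] [Algebra (ZMod p) F'] (φ : F →+* F') (κ : F) :
    φ (t.val κ) = t.val (φ κ) := by
  have h : φ.comp (algebraMap (ZMod p) F) = algebraMap (ZMod p) F' := Subsingleton.elim _ _
  simp only [val, map_add, map_mul, ← RingHom.comp_apply, h]

/-- `f = e^N (V A₀) + (V (τ G₀ + κ H₀) + W)`. -/
theorem f_eq (e τ κ : F) : t.f e τ κ =
    C (e ^ (p * (p - 1))) * (t.V * t.A₀).map (algebraMap (ZMod p) F) +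
      (t.V.map (algebraMap (ZMod p) F) * (C τ * t.G₀.map (algebraMap (ZMod p) F) +
        C κ * t.H₀.map (algebraMap (ZMod p) F)) + t.W.map (algebraMap (ZMod p) F)) := by
  rw [f, M, Polynomial.map_mul]
  ring

end ring

theorem m_eq {t : AType p n} (h : t.m ≠ 1) : 2 ≤ t.m := by
  have := t.hm
  omega

theorem derivative_A₀ : derivative t.A₀ = 0 := by
  rw [A₀, pow_mul, derivative_mul, derivative_sub, derivative_X_pow, derivative_C,
    derivative_pow, derivative_X_pow]
  simp

theorem derivative_G₀ : derivative t.G₀ = 0 := by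
  rw [G₀]
  split_ifs with h
  · exact derivative_one
  · rw [pow_mul, derivative_mul, derivative_sub, derivative_X_pow, derivative_C,
      derivative_pow, derivative_X_pow]
    simp

theorem derivative_H₀ : derivative t.H₀ = 0 := by
  rw [H₀]
  split_ifs <;> simp

theorem eval_A₀ : t.A₀.eval t.s = 0 := by
  rw [A₀, eval_mul, eval_sub, eval_pow, eval_X, eval_C, ZMod.pow_card, sub_self, zero_mul]

theorem monic_Xp : (X ^ p - C t.s : (ZMod p)[X]).Monic :=
  monic_X_pow_sub_C t.s (Fact.out : p.Prime).ne_zero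

theorem monic_A₀ : t.A₀.Monic := t.monic_Xp.mul (monic_X_pow _)

theorem monic_G₀ : t.G₀.Monic := by
  rw [G₀]
  split_ifs
  · exact monic_one
  · exact t.monic_Xp.mul (monic_X_pow _)

theorem natDegree_A₀ : t.A₀.natDegree = p * t.m := by
  have hm := t.hm
  rw [A₀, t.monic_Xp.natDegree_mul (monic_X_pow _), natDegree_X_pow_sub_C, natDegree_X_pow]
  obtain ⟨m, hm'⟩ : ∃ m, t.m = m + 1 := ⟨t.m - 1, by omega⟩
  rw [hm', Nat.add_sub_cancel]
  ring

theorem natDegree_G₀ : t.G₀.natDegree = p * (t.m - 1) := by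
  rw [G₀]
  split_ifs with h
  · rw [h]
    simp
  · have := m_eq h
    rw [t.monic_Xp.natDegree_mul (monic_X_pow _), natDegree_X_pow_sub_C, natDegree_X_pow]
    obtain ⟨m, hm'⟩ : ∃ m, t.m = m + 2 := ⟨t.m - 2, by omega⟩
    have h1 : m + 2 - 1 = m + 1 := by omega
    rw [hm', Nat.add_sub_cancel, h1]
    ring

theorem natDegree_H₀_le : t.H₀.natDegree ≤ 0 := by
  rw [H₀]
  split_ifs <;> simp

section field

variable {F : Type*} [Field F] [Algebra (ZMod p) F]

theorem eval_f (e τ κ : F) (h : t.m = 1 → τ = κ) :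
    (t.f e τ κ).eval (algebraMap (ZMod p) F t.s) = t.val κ := by
  have h1 : ∀ P : (ZMod p)[X], (P.map (algebraMap (ZMod p) F)).eval (algebraMap (ZMod p) F t.s) =
      algebraMap (ZMod p) F (P.eval t.s) := fun P => by rw [eval_map_algebraMap, aeval_algebraMap_apply_eq_algebraMap_eval]
  rw [f, M, val, eval_add, eval_mul, eval_add, eval_add, eval_mul, eval_mul, eval_mul, eval_C,
    eval_C, eval_C, h1, h1, h1, h1, h1, t.eval_A₀]
  by_cases hm : t.m = 1
  · rw [G₀, H₀, if_pos hm, if_pos hm, h hm]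
    simp
  · rw [G₀, H₀, if_neg hm, if_neg hm]
    simp [ZMod.pow_card]

theorem natDegree_B_le (τ κ : F) :
    (t.V.map (algebraMap (ZMod p) F) * (C τ * t.G₀.map (algebraMap (ZMod p) F) +
        C κ * t.H₀.map (algebraMap (ZMod p) F)) + t.W.map (algebraMap (ZMod p) F)).natDegree ≤
      n - p := by
  have hn := t.hn
  have hW := t.hWn
  have hm := t.hm
  have hle : p * (t.m - 1) + p = p * t.m := by
    obtain ⟨m, hm'⟩ : ∃ m, t.m = m + 1 := ⟨t.m - 1, by omega⟩
    rw [hm', Nat.add_sub_cancel]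
    ring
  refine (natDegree_add_le _ _).trans (max_le ?_ ?_)
  · refine natDegree_mul_le.trans ?_
    have h1 : (t.V.map (algebraMap (ZMod p) F)).natDegree = t.V.natDegree := natDegree_map _
    have h2 : (C τ * t.G₀.map (algebraMap (ZMod p) F) +
        C κ * t.H₀.map (algebraMap (ZMod p) F)).natDegree ≤ p * (t.m - 1) := by
      refine (natDegree_add_le _ _).trans (max_le ?_ ?_)
      · refine (natDegree_C_mul_le _ _).trans ?_
        rw [natDegree_map, natDegree_G₀]
      · refine (natDegree_C_mul_le _ _).trans ?_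
        rw [natDegree_map]
        exact t.natDegree_H₀_le.trans (Nat.zero_le _)
    omega
  · rw [natDegree_map]
    omega

/-- The coefficient of `X^(n-p)` of `f(0, τ, κ)` is `τ`. -/
theorem coeff_B (τ κ : F) (h : t.m = 1 → τ = κ) :
    (t.V.map (algebraMap (ZMod p) F) * (C τ * t.G₀.map (algebraMap (ZMod p) F) +
        C κ * t.H₀.map (algebraMap (ZMod p) F)) + t.W.map (algebraMap (ZMod p) F)).coeff (n - p) =
      τ := by
  have hn := t.hn
  have hW := t.hWn
  have hm := t.hm
  have hp := (Fact.out : p.Prime).pos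
  have hle : p * (t.m - 1) + p = p * t.m := by
    obtain ⟨m, hm'⟩ : ∃ m, t.m = m + 1 := ⟨t.m - 1, by omega⟩
    rw [hm', Nat.add_sub_cancel]
    ring
  have h1 : n - p = t.V.natDegree + p * (t.m - 1) := by omega
  have hV : (t.V.map (algebraMap (ZMod p) F)).Monic := t.hV.map _
  have hG : (t.G₀.map (algebraMap (ZMod p) F)).Monic := t.monic_G₀.map _
  have h2 : (t.W.map (algebraMap (ZMod p) F)).coeff (n - p) = 0 := by
    apply coeff_eq_zero_of_natDegree_lt
    rw [natDegree_map]
    omega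
  have h3 : (C τ * t.G₀.map (algebraMap (ZMod p) F) +
        C κ * t.H₀.map (algebraMap (ZMod p) F)).natDegree ≤ p * (t.m - 1) := by
    refine (natDegree_add_le _ _).trans (max_le ?_ ?_)
    · refine (natDegree_C_mul_le _ _).trans ?_
      rw [natDegree_map, natDegree_G₀]
    · refine (natDegree_C_mul_le _ _).trans ?_
      rw [natDegree_map]
      exact t.natDegree_H₀_le.trans (Nat.zero_le _)
  have h4 : (t.V.map (algebraMap (ZMod p) F)).natDegree = t.V.natDegree := natDegree_map _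
  rw [coeff_add, h2, add_zero, h1, coeff_mul_add_eq_of_natDegree_le h4.le h3]
  have h5 : (t.V.map (algebraMap (ZMod p) F)).coeff t.V.natDegree = 1 := by
    rw [← h4]
    exact hV.coeff_natDegree
  have h6 : (t.G₀.map (algebraMap (ZMod p) F)).coeff (p * (t.m - 1)) = 1 := by
    rw [← t.natDegree_G₀, ← natDegree_map (f := algebraMap (ZMod p) F) (p := t.G₀)]
    exact hG.coeff_natDegree
  rw [h5, one_mul, coeff_add, coeff_C_mul, coeff_C_mul, h6, mul_one]
  by_cases hm1 : t.m = 1
  · rw [H₀, if_pos hm1]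
    simp
  · have := m_eq hm1
    have h7 : (t.H₀.map (algebraMap (ZMod p) F)).coeff (p * (t.m - 1)) = 0 := by
      apply coeff_eq_zero_of_natDegree_lt
      rw [natDegree_map]
      refine lt_of_le_of_lt t.natDegree_H₀_le ?_
      exact Nat.mul_pos hp (by omega)
    rw [h7, mul_zero, add_zero]

theorem natDegree_f_le (e τ κ : F) : (t.f e τ κ).natDegree ≤ n := by
  rw [f_eq]
  refine (natDegree_add_le _ _).trans (max_le ?_ ((t.natDegree_B_le τ κ).trans (Nat.sub_le _ _)))
  refine (natDegree_C_mul_le _ _).trans ?_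
  rw [natDegree_map, t.hV.natDegree_mul t.monic_A₀, natDegree_A₀]
  have := t.hn
  omega

theorem coeff_f (e τ κ : F) : (t.f e τ κ).coeff n = e ^ (p * (p - 1)) := by
  have hp := (Fact.out : p.Prime).pos
  have hn := t.hn
  have hW := t.hWn
  have h1 : ((t.V * t.A₀).map (algebraMap (ZMod p) F)).coeff n = 1 := by
    have h2 : ((t.V * t.A₀).map (algebraMap (ZMod p) F)).Monic := (t.hV.mul t.monic_A₀).map _
    have h3 : ((t.V * t.A₀).map (algebraMap (ZMod p) F)).natDegree = n := by
      rw [natDegree_map, t.hV.natDegree_mul t.monic_A₀, natDegree_A₀]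
      omega
    have h4 := h2.coeff_natDegree
    rwa [h3] at h4
  rw [f_eq, coeff_add, coeff_C_mul, h1, mul_one, add_eq_left]
  apply coeff_eq_zero_of_natDegree_lt
  exact lt_of_le_of_lt (t.natDegree_B_le τ κ) (by omega)

theorem natDegree_f {e : F} (he : e ≠ 0) (τ κ : F) : (t.f e τ κ).natDegree = n := by
  refine le_antisymm (t.natDegree_f_le e τ κ) (le_natDegree_of_ne_zero ?_)
  rw [coeff_f]
  exact pow_ne_zero _ he

theorem leadingCoeff_f {e : F} (he : e ≠ 0) (τ κ : F) :
    (t.f e τ κ).leadingCoeff = e ^ (p * (p - 1)) := by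
  rw [leadingCoeff, t.natDegree_f he, coeff_f]

theorem derivative_M (e τ κ : F) : derivative (t.M e τ κ) = 0 := by
  rw [M, derivative_add, derivative_add, derivative_C_mul, derivative_C_mul, derivative_C_mul,
    derivative_map, derivative_map, derivative_map, derivative_A₀, derivative_G₀, derivative_H₀]
  simp

end field

end AType

end MP7Z
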