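import Pool.Agent.Lib.MP_7f581e_Z.Alt.Spec

/-!
# Alternating step, task Disc: the discriminant
-/

namespace MP7Z

open Polynomial

namespace DiscM

/-- The product of the values of a monic divisor of a power of `V` at the roots. -/
theorem prod_eval {p n : ℕ} [Fact p.Prime] (t : AType p n) {F : Type} [Field F]
    [Algebra (ZMod p) F] (M : F[X]) (lc : F) (y : Fin n → F) (hlc : lc ≠ 0)
    (hP : t.V.map (algebraMap (ZMod p) F) * M + t.W.map (algebraMap (ZMod p) F) =
      C lc * ∏ i, (X - C (y i))) (G : (ZMod p)[X]) (hG : G.Monic) {k : ℕ} (hGV : G ∣ t.V ^ k) :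
    ∏ i, (G.map (algebraMap (ZMod p) F)).eval (y i) = ((-1) ^ n / lc) ^ G.natDegree := by
  let L := AlgebraicClosure F
  let φ : F →+* L := algebraMap F L
  apply φ.injective
  rw [map_prod, map_pow, map_div₀, map_pow, map_neg, map_one]
  let Gm : L[X] := (G.map (algebraMap (ZMod p) F)).map φ
  have hGm : Gm.Monic := (hG.map _).map _
  have hsp : Gm.Splits := IsAlgClosed.splits Gm
  have h1 : ∀ i, φ ((G.map (algebraMap (ZMod p) F)).eval (y i)) =
      (Gm.roots.map (fun a => φ (y i) - a)).prod := by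
    intro i
    rw [← hsp.eval_eq_prod_roots_of_monic hGm]
    exact (eval_map_apply φ (y i)).symm
  simp only [h1]
  change (Multiset.map (fun i => (Gm.roots.map (fun a => φ (y i) - a)).prod)
    Finset.univ.val).prod = _
  rw [Multiset.prod_map_prod_map]
  have h2 : ∀ a ∈ Gm.roots, (Multiset.map (fun i => φ (y i) - a) Finset.univ.val).prod =
      (-1) ^ n / φ lc := by
    intro a ha
    change ∏ i, (φ (y i) - a) = _
    have ha1 : Gm.eval a = 0 := (mem_roots hGm.ne_zero).1 ha
    have hVa : ((t.V.map (algebraMap (ZMod p) F)).map φ).eval a = 0 := by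
      obtain ⟨q, hq⟩ := hGV
      have h3 : ((t.V.map (algebraMap (ZMod p) F)).map φ).eval a ^ k = 0 := by
        rw [← eval_pow, ← Polynomial.map_pow, ← Polynomial.map_pow, hq, Polynomial.map_mul,
          Polynomial.map_mul, eval_mul]
        change Gm.eval a * _ = 0
        rw [ha1, zero_mul]
      exact (pow_eq_zero_iff (n := k) (by
        rintro rfl
        rw [pow_zero] at h3
        exact one_ne_zero h3)).1 h3
    have hW : t.W = 1 := by
      rcases t.hWV with h | h
      · exact h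
      · rw [h, Polynomial.map_one, Polynomial.map_one, eval_one] at hVa
        exact absurd hVa one_ne_zero
    have h3 := congrArg (fun P : F[X] => (P.map φ).eval a) hP
    simp only [Polynomial.map_add, Polynomial.map_mul, eval_add, eval_mul, hVa, hW,
      Polynomial.map_one, eval_one, zero_mul, zero_add, map_C, eval_C, Polynomial.map_prod,
      Polynomial.map_sub, map_X, eval_prod, eval_sub, eval_X] at h3
    have h4 : ∏ i, (φ (y i) - a) = (-1) ^ n * ∏ i, (a - φ (y i)) := by
      have h5 : ∀ i, φ (y i) - a = (-1) * (a - φ (y i)) := fun i => by ring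
      simp only [h5]
      rw [Finset.prod_mul_distrib, Finset.prod_const, Finset.card_univ, Fintype.card_fin]
    have hφ : φ lc ≠ 0 := (map_ne_zero φ).2 hlc
    rw [h4, eq_div_iff hφ]
    calc ((-1) ^ n * ∏ i, (a - φ (y i))) * φ lc = (-1) ^ n * (φ lc * ∏ i, (a - φ (y i))) := by ring
      _ = (-1) ^ n := by rw [← h3, mul_one]
  rw [Multiset.map_congr rfl h2, Multiset.map_const', Multiset.prod_replicate,
    ← hsp.natDegree_eq_card_roots]
  congr 1
  change ((G.map (algebraMap (ZMod p) F)).map φ).natDegree = _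
  rw [natDegree_map, natDegree_map]

/-- The square of the Vandermonde product. -/
theorem vand {n : ℕ} {F : Type} [Field F] (y : Fin n → F) :
    ∏ i, ∏ l ∈ ({i}ᶜ : Finset (Fin n)), (y i - y l) =
      (∏ i : Fin n, ∏ _j ∈ Finset.Ioi i, (-1 : F)) *
        (∏ i, ∏ j ∈ Finset.Ioi i, (y j - y i)) ^ 2 := by
  rw [← Finset.prod_prod_Ioi_mul_eq_prod_prod_off_diag (fun j i => y i - y j),
    ← Finset.prod_pow, ← Finset.prod_mul_distrib]
  refine Finset.prod_congr rfl fun i _ => ?_
  rw [← Finset.prod_pow, ← Finset.prod_mul_distrib]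
  refine Finset.prod_congr rfl fun j _ => ?_
  ring

end DiscM

theorem tDisc : DiscStmt := by
  intro p n _ t
  let ε : ZMod p := ∏ i : Fin n, ∏ _j ∈ Finset.Ioi i, (-1 : ZMod p)
  have hε : ε ^ 2 = 1 := by
    change (∏ i : Fin n, ∏ _j ∈ Finset.Ioi i, (-1 : ZMod p)) ^ 2 = 1
    rw [← Finset.prod_pow]
    refine Finset.prod_eq_one fun i _ => ?_
    rw [← Finset.prod_pow]
    exact Finset.prod_eq_one fun j _ => by norm_num
  have hε0 : ε ≠ 0 := by
    intro h
    rw [h] at hε
    norm_num at hε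
  refine ⟨ε * t.c₁ ^ n * (-1) ^ n * ((-1) ^ n) ^ (t.D.natDegree + t.V.natDegree), ?_,
    (t.V.natDegree : ℤ) - t.D.natDegree - 1 - n, ?_⟩
  · have h1 : (-1 : ZMod p) ≠ 0 := neg_ne_zero.2 one_ne_zero
    exact mul_ne_zero (mul_ne_zero (mul_ne_zero hε0 (pow_ne_zero _ t.hc₁)) (pow_ne_zero _ h1))
      (pow_ne_zero _ (pow_ne_zero _ h1))
  intro F _ _ M lc y hM hlc hP
  set ψ := algebraMap (ZMod p) F with hψ
  set P := t.V.map ψ * M + t.W.map ψ with hPdef
  set Δ := ∏ i, ∏ j ∈ Finset.Ioi i, (y j - y i) with hΔ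
  set dV := t.V.natDegree
  set dD := t.D.natDegree
  have hεF : (∏ i : Fin n, ∏ _j ∈ Finset.Ioi i, (-1 : F)) = ψ ε := by
    change _ = ψ (∏ i : Fin n, ∏ _j ∈ Finset.Ioi i, (-1 : ZMod p))
    simp only [map_prod, map_neg, map_one]
  have hV := DiscM.prod_eval t M lc y hlc hP t.V t.hV (k := 1) (by rw [pow_one])
  have hD := DiscM.prod_eval t M lc y hlc hP t.D t.hD t.dvd
  -- values at `s`
  have hs : P.eval (ψ t.s) = lc * ∏ i, (ψ t.s - y i) := by
    rw [hP]
    simp [eval_prod]
  have hs' : ∏ i, (y i - ψ t.s) = (-1) ^ n * (P.eval (ψ t.s) / lc) := by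
    have h5 : ∀ i, y i - ψ t.s = (-1) * (ψ t.s - y i) := fun i => by ring
    rw [hs, mul_div_cancel_left₀ _ hlc]
    simp only [h5]
    rw [Finset.prod_mul_distrib, Finset.prod_const, Finset.card_univ, Fintype.card_fin]
  -- the derivative
  have hder : ∀ i, (derivative P).eval (y i) = lc * ∏ l ∈ ({i}ᶜ : Finset (Fin n)), (y i - y l) := by
    intro i
    have h1 : P = (X - C (y i)) * (C lc * ∏ l ∈ ({i}ᶜ : Finset (Fin n)), (X - C (y l))) := by
      rw [hP, ← Finset.mul_prod_erase Finset.univ _ (Finset.mem_univ i)]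
      have h2 : (Finset.univ.erase i : Finset (Fin n)) = {i}ᶜ := by
        ext l
        simp
      rw [h2]
      ring
    rw [h1, derivative_mul, eval_add]
    simp [eval_prod]
  have hroot : ∀ i, P.eval (y i) = 0 := by
    intro i
    rw [hP, eval_mul, eval_prod, Finset.prod_eq_zero (Finset.mem_univ i) (by simp), mul_zero]
  have hkey : t.V.map ψ * derivative P - derivative (t.V.map ψ) * P =
      C (ψ t.c₁) * (X - C (ψ t.s)) * t.D.map ψ := by
    have h1 := congrArg (Polynomial.map ψ) t.key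
    simp only [Polynomial.map_sub, Polynomial.map_mul, map_C, map_X] at h1
    rw [← h1, hPdef, derivative_add, derivative_mul, hM, derivative_map, derivative_map]
    ring
  have hpt : ∀ i, (t.V.map ψ).eval (y i) * (lc * ∏ l ∈ ({i}ᶜ : Finset (Fin n)), (y i - y l)) =
      ψ t.c₁ * (y i - ψ t.s) * (t.D.map ψ).eval (y i) := by
    intro i
    have h1 := congrArg (Polynomial.eval (y i)) hkey
    rw [eval_sub, eval_mul, eval_mul, hroot, mul_zero, sub_zero, hder] at h1
    rw [h1]
    simp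
  have hall := Finset.prod_congr (rfl : (Finset.univ : Finset (Fin n)) = Finset.univ)
    (fun i _ => hpt i)
  rw [Finset.prod_mul_distrib, Finset.prod_mul_distrib, Finset.prod_mul_distrib,
    Finset.prod_mul_distrib, Finset.prod_const, Finset.prod_const, Finset.card_univ,
    Fintype.card_fin, DiscM.vand, hεF, hV, hD, hs'] at hall
  -- the computation
  have hψε : ψ ε ^ 2 = 1 := by rw [← map_pow, hε, map_one]
  have hψε0 : ψ ε ≠ 0 := (map_ne_zero ψ).2 hε0
  have hσ : ((-1 : F) ^ n) ^ 2 = 1 := by rw [← pow_mul, mul_comm, pow_mul]; norm_num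
  set σ : F := (-1) ^ n with hσdef
  have hσ0 : σ ≠ 0 := by
    intro h
    rw [h] at hσ
    norm_num at hσ
  have hz : lc ^ ((dV : ℤ) - dD - 1 - n) = lc ^ dV / lc ^ dD / lc / lc ^ n := by
    rw [zpow_sub₀ hlc, zpow_sub₀ hlc, zpow_sub₀ hlc, zpow_natCast, zpow_natCast, zpow_natCast,
      zpow_one]
  have hmul : (σ / lc) ^ dV * (lc ^ n * ψ ε) ≠ 0 :=
    mul_ne_zero (pow_ne_zero _ (div_ne_zero hσ0 hlc)) (mul_ne_zero (pow_ne_zero _ hlc) hψε0)
  apply mul_left_cancel₀ hmul
  have hl : (σ / lc) ^ dV * (lc ^ n * ψ ε) * Δ ^ 2 =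
      ψ t.c₁ ^ n * (σ * (P.eval (ψ t.s) / lc)) * (σ / lc) ^ dD := by
    rw [← hall]
    ring
  have hlcV : lc ^ dV ≠ 0 := pow_ne_zero _ hlc
  have hlcD : lc ^ dD ≠ 0 := pow_ne_zero _ hlc
  have hlcn : lc ^ n ≠ 0 := pow_ne_zero _ hlc
  have hσV : σ ^ dV * σ ^ dV = 1 := by
    rw [← pow_add, ← two_mul, pow_mul, hσ, one_pow]
  have hc : ψ (ε * t.c₁ ^ n * (-1) ^ n * ((-1) ^ n) ^ (dD + dV)) =
      ψ ε * ψ t.c₁ ^ n * σ * (σ ^ dD * σ ^ dV) := by
    simp only [map_mul, map_pow, map_neg, map_one, ← hσdef, pow_add]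
  rw [hl, hz, hc, div_pow, div_pow]
  generalize σ ^ dV = a at *
  generalize σ ^ dD = b at *
  generalize lc ^ dV = x at *
  generalize lc ^ dD = w at *
  generalize lc ^ n = v at *
  generalize P.eval (ψ t.s) = u at *
  generalize ψ ε = e at *
  generalize ψ t.c₁ ^ n = c at *
  clear_value σ
  field_simp
  linear_combination (-(c * u * b)) * hσV - c * u * b * a * a * hψε

end MP7Z
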