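import Pool.Agent.Lib.MP_7f581e_Z.Alt.Spec

/-!
# Alternating step: the Eisenstein criterion (module Eis)
-/

namespace MP7Z

open Polynomial

namespace EisM

variable {F : Type} [Field F]

/-- The polynomial in two variables, constants in the outer variable. -/
theorem irr_outer (A B : F[X]) (N : ℕ) (hN : 0 < N) (hAB : IsCoprime A B) (hB : Squarefree B)
    (hd : 0 < B.natDegree) : Irreducible (C A * X ^ N + C B : F[X][X]) := by
  have hB0 : B ≠ 0 := by
    rintro rfl
    simp at hd
  have hA0 : A ≠ 0 := by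
    rintro rfl
    have h1 : IsUnit B := isCoprime_zero_left.1 hAB
    rw [natDegree_eq_zero_of_isUnit h1] at hd
    exact lt_irrefl _ hd
  obtain ⟨π, hπ, hπB⟩ := WfDvdMonoid.exists_irreducible_factor
    (fun h => by rw [natDegree_eq_zero_of_isUnit h] at hd; exact lt_irrefl _ hd) hB0
  have hπA : ¬ π ∣ A := fun h => hπ.not_isUnit (hAB.isUnit_of_dvd' h hπB)
  have hdeg : (C A * X ^ N + C B : F[X][X]).degree = N := by
    rw [degree_add_C, degree_C_mul_X_pow _ hA0]
    rw [degree_C_mul_X_pow _ hA0]
    exact_mod_cast hN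
  have hnat : (C A * X ^ N + C B : F[X][X]).natDegree = N := natDegree_eq_of_degree_eq_some hdeg
  have hcN : (C A * X ^ N + C B : F[X][X]).coeff N = A := by
    rw [coeff_add, coeff_C_mul, coeff_X_pow_self, mul_one, coeff_C_of_ne_zero hN.ne', add_zero]
  have hc0 : (C A * X ^ N + C B : F[X][X]).coeff 0 = B := by
    rw [coeff_add, coeff_C_mul, coeff_X_pow, if_neg hN.ne, mul_zero, coeff_C_zero, zero_add]
  refine irreducible_of_eisenstein_criterion (P := Ideal.span {π})
    ((Ideal.span_singleton_prime hπ.ne_zero).2 hπ.prime) ?_ ?_ ?_ ?_ ?_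
  · rw [leadingCoeff, hnat, hcN, Ideal.mem_span_singleton]
    exact hπA
  · intro n hn
    rw [hdeg] at hn
    have hn' : n < N := by exact_mod_cast hn
    rw [coeff_add, coeff_C_mul, coeff_X_pow, if_neg hn'.ne, mul_zero, zero_add, coeff_C]
    split_ifs
    · rw [Ideal.mem_span_singleton]
      exact hπB
    · exact Ideal.zero_mem _
  · rw [hdeg]
    exact_mod_cast hN
  · rw [hc0, Ideal.span_singleton_pow, Ideal.mem_span_singleton, sq]
    intro h
    exact hπ.not_isUnit (hB π h)
  · intro r hr
    rw [C_dvd_iff_dvd_coeff] at hr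
    have h1 := hr N
    have h2 := hr 0
    rw [hcN] at h1
    rw [hc0] at h2
    exact hAB.isUnit_of_dvd' h1 h2

theorem irr_inner (A B : F[X]) (N : ℕ) (hN : 0 < N) (hAB : IsCoprime A B) (hB : Squarefree B)
    (hd : 0 < B.natDegree) : Irreducible (C (X ^ N) * A.map C + B.map C : F[X][X]) := by
  have h1 := irr_outer A B N hN hAB hB hd
  rw [← MulEquiv.irreducible_iff (Polynomial.Bivariate.swap (R := F))] at h1
  rwa [map_add, map_mul, map_pow, Polynomial.Bivariate.swap_C, Polynomial.Bivariate.swap_C,
    Polynomial.Bivariate.swap_Y, ← C_pow, mul_comm (A.map C)] at h1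

theorem natDegree_inner (A B : F[X]) (N : ℕ) (hN : 0 < N) (hd : 0 < B.natDegree) :
    (C (X ^ N) * A.map C + B.map C : F[X][X]).natDegree ≠ 0 := by
  have h1 : (C (X ^ N) * A.map C + B.map C : F[X][X]).coeff B.natDegree ≠ 0 := by
    intro h
    have h2 := congrArg (eval (0 : F)) h
    rw [coeff_add, coeff_C_mul, coeff_map, coeff_map, eval_add, eval_mul, eval_pow, eval_X,
      zero_pow hN.ne', zero_mul, zero_add, eval_C, eval_zero, coeff_natDegree,
      leadingCoeff_eq_zero] at h2
    rw [h2] at hd
    simp at hd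
  have h2 := le_natDegree_of_ne_zero h1
  omega

end EisM

theorem tEis : EisStmt := by
  intro F M _ _ _ e he A B N hN hAB hB hd
  have h1 := EisM.irr_inner A B N hN hAB hB hd
  have h2 := (h1.isPrimitive (EisM.natDegree_inner A B N hN hd))
  have h3 := (h2.irreducible_iff_irreducible_map_fraction_map (K := RatFunc F)).1 h1
  have h4 := (MulEquiv.irreducible_iff (Polynomial.mapEquiv
    (RatFunc.algEquivOfTranscendental e he).toRingEquiv)).2 h3
  convert h4 using 1
  rw [Polynomial.mapEquiv_apply, Polynomial.map_map]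
  set φ : F[X] →+* IntermediateField.adjoin F {e} :=
    ((RatFunc.algEquivOfTranscendental e he).toRingEquiv : RatFunc F →+* _).comp
      (algebraMap F[X] (RatFunc F)) with hφ
  have h5 : ∀ g : F[X], φ g = aeval (IntermediateField.AdjoinSimple.gen F e) g :=
    fun g => RatFunc.algEquivOfTranscendental_algebraMap e he g
  have h6 : φ.comp C = algebraMap F (IntermediateField.adjoin F {e}) := by
    ext1 a
    rw [RingHom.comp_apply, h5, aeval_C]
  rw [Polynomial.map_add, Polynomial.map_mul, Polynomial.map_map, Polynomial.map_map, map_C, h5,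
    aeval_X_pow, h6, C_pow]

end MP7Z
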