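import Pool.Agent.Lib.MP_7f581e_Z.Alt.Spec

/-!
# Alternating step: the polynomials `A`, `B` of the Eisenstein argument
-/

set_option autoImplicit false

namespace MP7Z

open Polynomial

namespace Gen1M

variable {p n : ℕ} [Fact p.Prime] (t : AType p n) {F : Type} [Field F] [Algebra (ZMod p) F]

theorem eval_map_zmod (P : (ZMod p)[X]) (a : ZMod p) :
    (P.map (algebraMap (ZMod p) F)).eval (algebraMap (ZMod p) F a) =
      algebraMap (ZMod p) F (P.eval a) := by
  rw [eval_map_algebraMap, aeval_algebraMap_apply_eq_algebraMap_eval]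

theorem A₀_eq : t.A₀ = (X - C t.s) ^ p * X ^ (p * (t.m - 1)) := by
  have : CharP (ZMod p)[X] p := inferInstance
  rw [AType.A₀, sub_pow_char, ← C_pow, ZMod.pow_card]

theorem G₀_eq (h : t.m ≠ 1) : t.G₀ = (X - C t.s) ^ p * X ^ (p * (t.m - 2)) := by
  have : CharP (ZMod p)[X] p := inferInstance
  rw [AType.G₀, if_neg h, sub_pow_char, ← C_pow, ZMod.pow_card]

/-- `V M + W` is coprime to `V`. -/
theorem coprime_V (M : F[X]) :
    IsCoprime (t.V.map (algebraMap (ZMod p) F))
      (t.V.map (algebraMap (ZMod p) F) * M + t.W.map (algebraMap (ZMod p) F)) := by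
  rcases t.hWV with h | h
  · refine ⟨-M, 1, ?_⟩
    rw [h, Polynomial.map_one]
    ring
  · rw [h, Polynomial.map_one]
    exact isCoprime_one_left

/-- Coprime to a linear polynomial, if the value is not zero. -/
theorem coprime_lin (P : F[X]) (a : F) (h : P.eval a ≠ 0) (m : ℕ) :
    IsCoprime ((X - C a) ^ m) P := by
  apply IsCoprime.pow_left
  rw [(irreducible_X_sub_C a).coprime_iff_not_dvd, dvd_iff_isRoot]
  exact h

end Gen1M

open Gen1M in
theorem tGen1 (h0 : SepStmt) : Gen1Stmt := by
  intro p n _ t F _ _ τ κ hm hτ hv A B hA hB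
  set a := algebraMap (ZMod p) F with ha
  set M : F[X] := C τ * t.G₀.map a + C κ * t.H₀.map a with hM
  have hM0 : derivative M = 0 := by
    rw [hM, derivative_add, derivative_C_mul, derivative_C_mul, derivative_map, derivative_map,
      t.derivative_G₀, t.derivative_H₀]
    simp
  have hf : t.f 0 τ κ = B := by
    have hp := (Fact.out : p.Prime).two_le
    rw [hB, AType.f_eq, zero_pow (by
      apply mul_ne_zero
      · omega
      · omega), C_0, zero_mul, zero_add]
  have hs : B.eval (a t.s) = t.val κ := by
    rw [← hf]
    exact t.eval_f 0 τ κ hm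
  have hs' : B.eval (a t.s) ≠ 0 := by
    rw [hs]
    exact hv
  have hsep : B.Separable := by
    rw [hB]
    apply h0 p n t F M hM0
    rw [← hB]
    exact hs'
  have hB0 : B ≠ 0 := by
    rintro h
    rw [h, eval_zero] at hs'
    exact hs' rfl
  refine ⟨?_, hsep.squarefree, ?_⟩
  · rw [hA, A₀_eq, Polynomial.map_mul, Polynomial.map_mul, Polynomial.map_pow,
      Polynomial.map_sub, map_X, map_C, Polynomial.map_pow, map_X]
    refine IsCoprime.mul_left ?_ (IsCoprime.mul_left ?_ ?_)
    · rw [hB]
      exact coprime_V t M
    · exact coprime_lin B _ hs' p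
    · by_cases h1 : t.m = 1
      · rw [h1, Nat.sub_self, mul_zero, pow_zero]
        exact isCoprime_one_left
      · have h2 : B.eval 0 ≠ 0 := by
          rcases t.h0 (AType.m_eq h1) with h | h
          · -- `V(0) = 0`
            rcases t.hWV with h3 | h3
            · have h4 : (t.V.map a).eval 0 = 0 := by
                have h5 := eval_map_zmod (F := F) t.V 0
                rw [map_zero, h, map_zero] at h5
                exact h5
              rw [hB, eval_add, eval_mul, h4, zero_mul, zero_add, h3, Polynomial.map_one,
                eval_one]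
              exact one_ne_zero
            · rw [h3, eval_one] at h
              exact absurd h one_ne_zero
          · rw [h, map_zero] at hs'
            exact hs'
        have h3 := coprime_lin B 0 h2 (p * (t.m - 1))
        rwa [C_0, sub_zero] at h3
  · have h1 : B.coeff (n - p) = τ := by
      rw [hB]
      exact t.coeff_B τ κ hm
    have h2 : n - p ≤ B.natDegree := le_natDegree_of_ne_zero (by rw [h1]; exact hτ)
    have := t.hWn
    omega

end MP7Z
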