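import Pool.Agent.Lib.MP_7f581e_Z.Alt.Gen1

/-!
# Alternating step: the polynomial with one root removed
-/

set_option autoImplicit false

namespace MP7Z

open Polynomial Gen1M

theorem tGen2 (h0 : SepStmt) : Gen2Stmt := by
  intro p n _ t F _ _ κ lam y₁ B₁ hm hlam hv hB
  set a := algebraMap (ZMod p) F with ha
  have hm1 : t.m ≠ 1 := by omega
  have hp := (Fact.out : p.Prime).two_le
  set M : F[X] := C κ - C lam * t.G₀.map a with hM
  set B : F[X] := t.V.map a * M + t.W.map a with hBdef
  have hM0 : derivative M = 0 := by
    rw [hM, derivative_sub, derivative_C_mul, derivative_C, derivative_map, t.derivative_G₀]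
    simp
  have hf : t.f 0 (-lam) κ = B := by
    rw [hBdef, hM, AType.f_eq, zero_pow (by
      apply mul_ne_zero
      · omega
      · omega), C_0, zero_mul, zero_add, AType.H₀, if_neg hm1, Polynomial.map_one, mul_one,
      C_neg]
    ring
  have hs : B.eval (a t.s) = t.val κ := by
    rw [← hf]
    exact t.eval_f 0 (-lam) κ (fun h => absurd h hm1)
  have hs' : B.eval (a t.s) ≠ 0 := by
    rw [hs]
    exact hv
  have hsep : B.Separable := by
    apply h0 p n t F M hM0
    exact hs'
  have hB0 : B ≠ 0 := by
    rintro h
    rw [h, eval_zero] at hs'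
    exact hs' rfl
  have hBB : B = (X - C y₁) * B₁ := hB
  have hB1 : B₁ ≠ 0 := by
    rintro rfl
    rw [mul_zero] at hBB
    exact hB0 hBB
  have hdvd : ∀ P : F[X], IsCoprime P B → IsCoprime P B₁ := by
    intro P hP
    rw [hBB] at hP
    exact hP.of_mul_right_right
  refine ⟨?_, ?_, ?_⟩
  · refine IsCoprime.mul_left ?_ ?_
    · apply hdvd
      rw [G₀_eq t hm1, Polynomial.map_mul, Polynomial.map_mul, Polynomial.map_pow,
        Polynomial.map_sub, map_X, map_C, Polynomial.map_pow, map_X]
      refine IsCoprime.mul_left (coprime_V t M) (IsCoprime.mul_left (coprime_lin B _ hs' p) ?_)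
      by_cases h2 : t.m = 2
      · rw [h2, Nat.sub_self, mul_zero, pow_zero]
        exact isCoprime_one_left
      · have h3 : B.eval 0 ≠ 0 := by
          rcases t.h0 hm with h | h
          · rcases t.hWV with h3 | h3
            · have h4 : (t.V.map a).eval 0 = 0 := by
                have h5 := eval_map_zmod (F := F) t.V 0
                rw [map_zero, h, map_zero] at h5
                exact h5
              rw [hBdef, eval_add, eval_mul, h4, zero_mul, zero_add, h3, Polynomial.map_one,
                eval_one]
              exact one_ne_zero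
            · rw [h3, eval_one] at h
              exact absurd h one_ne_zero
          · rw [h, map_zero] at hs'
            exact hs'
        have h4 := coprime_lin B 0 h3 (p * (t.m - 2))
        rwa [C_0, sub_zero] at h4
    · apply IsCoprime.pow_left
      rw [hBB] at hsep
      exact hsep.isCoprime
  · exact hsep.squarefree.squarefree_of_dvd ⟨X - C y₁, by rw [hBB, mul_comm]⟩
  · have h1 : B.coeff (n - p) = -lam := by
      rw [← hf, AType.f_eq, zero_pow (by
        apply mul_ne_zero
        · omega
        · omega), C_0, zero_mul, zero_add]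
      exact t.coeff_B (-lam) κ (fun h => absurd h hm1)
    have h2 : n - p ≤ B.natDegree :=
      le_natDegree_of_ne_zero (by rw [h1]; exact neg_ne_zero.2 hlam)
    have h3 : B.natDegree = 1 + B₁.natDegree := by
      rw [hBB, natDegree_mul (X_sub_C_ne_zero y₁) hB1, natDegree_X_sub_C]
    have h4 := t.hn
    rcases t.hp with h5 | h5
    · omega
    · have h7 : p * t.m = 3 * t.m := congrArg (fun q : ℕ => q * t.m) h5
      omega

end MP7Z
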