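import Pool.Agent.Lib.MP_7f581e_Z.Alt.Spec

/-!
# Generic transitivity
-/

namespace MP7Z
namespace GenTM

open Polynomial MP7fS

section field

variable {L N : Type} [Field L] [Field N] [Algebra L N]

theorem conj (h0 : EisStmt) [IsAlgClosed N]
    (F : IntermediateField L N) (e : N) (he : Transcendental F e) (A B : F[X]) (k : ℕ)
    (hk : 0 < k) (hAB : IsCoprime A B) (hB : Squarefree B) (hd : 0 < B.natDegree)
    (halg : Algebra.IsAlgebraic (IntermediateField.adjoin F {e}) N) (a b : N)
    (ha : (C (e ^ k) * A.map (algebraMap F N) + B.map (algebraMap F N)).eval a = 0)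
    (hb : (C (e ^ k) * A.map (algebraMap F N) + B.map (algebraMap F N)).eval b = 0) :
    ∃ σ : N ≃ₐ[L] N, (∀ z ∈ IntermediateField.adjoin F {e}, σ z = z) ∧ σ a = b := by
  have hirr := h0 F N e he A B k hk hAB hB hd
  set K₁ := IntermediateField.adjoin F {e} with hK₁
  have hQ : (C (IntermediateField.AdjoinSimple.gen F e ^ k) * A.map (algebraMap F K₁) +
      B.map (algebraMap F K₁)).map (algebraMap K₁ N) =
      C (e ^ k) * A.map (algebraMap F N) + B.map (algebraMap F N) := by
    rw [Polynomial.map_add, Polynomial.map_mul, Polynomial.map_C, Polynomial.map_map,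
      Polynomial.map_map, ← IsScalarTower.algebraMap_eq, map_pow,
      IntermediateField.AdjoinSimple.algebraMap_gen]
  have ha' : aeval a (C (IntermediateField.AdjoinSimple.gen F e ^ k) * A.map (algebraMap F K₁) +
      B.map (algebraMap F K₁)) = 0 := by
    rw [aeval_def, ← eval_map, hQ]
    exact ha
  have hb' : aeval b (C (IntermediateField.AdjoinSimple.gen F e ^ k) * A.map (algebraMap F K₁) +
      B.map (algebraMap F K₁)) = 0 := by
    rw [aeval_def, ← eval_map, hQ]
    exact hb
  have : IsAlgClosure K₁ N := ⟨inferInstance, halg⟩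
  have : Normal K₁ N := IsAlgClosure.normal K₁ N
  have hm : IsConjRoot K₁ b a := by
    rw [IsConjRoot, ← minpoly.eq_of_irreducible hirr ha', ← minpoly.eq_of_irreducible hirr hb']
  obtain ⟨σ, hσ⟩ := isConjRoot_iff_exists_algEquiv.mp hm
  have : IsScalarTower L K₁ N := .of_algebraMap_eq fun _ => rfl
  exact ⟨σ.restrictScalars L, fun z hz => σ.commutes ⟨z, hz⟩, hσ⟩

theorem alg_mono {K₁ K₂ : IntermediateField L N}
    (h : K₁ ≤ K₂) (ha : Algebra.IsAlgebraic K₁ N) : Algebra.IsAlgebraic K₂ N := by
  let _ : Algebra K₁ K₂ := (IntermediateField.inclusion h).toRingHom.toAlgebra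
  have : IsScalarTower K₁ K₂ N := .of_algebraMap_eq (fun _ => rfl)
  exact Algebra.IsAlgebraic.tower_top (K := K₁) K₂

/-- The elements algebraic over `L(a)`. -/
noncomputable def cl (L : Type) {N : Type} [Field L] [Field N] [Algebra L N] (a : N) :
    IntermediateField L N :=
  (algebraicClosure (IntermediateField.adjoin L {a}) N).restrictScalars L

theorem mem_cl {a z : N} : z ∈ cl L a ↔ IsAlgebraic (IntermediateField.adjoin L {a}) z := by
  rw [cl, IntermediateField.mem_restrictScalars, mem_algebraicClosure_iff]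

theorem self_mem_cl (a : N) : a ∈ cl L a := by
  rw [mem_cl]
  exact isAlgebraic_algebraMap
    (⟨a, IntermediateField.mem_adjoin_simple_self L a⟩ : IntermediateField.adjoin L {a})

open scoped IntermediateField.algebraAdjoinAdjoin in
theorem no2 {U T : N} (hUT : AlgebraicIndependent L ![U, T])
    (halg : Algebra.IsAlgebraic (IntermediateField.adjoin L {U, T}) N) (a : N)
    (hU : U ∈ cl L a) (hT : T ∈ cl L a) : False := by
  have h1 : IntermediateField.adjoin L {U, T} ≤ cl L a := by
    rw [IntermediateField.adjoin_le_iff]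
    rintro z (rfl | hz)
    · exact hU
    · rw [Set.mem_singleton_iff] at hz
      rw [hz]
      exact hT
  have h2 : Algebra.IsAlgebraic (cl L a) N := alg_mono h1 halg
  have h3 : Algebra.IsAlgebraic (IntermediateField.adjoin L {a}) N := by
    have h2' : Algebra.IsAlgebraic (algebraicClosure (IntermediateField.adjoin L {a}) N) N := h2
    exact Algebra.IsAlgebraic.trans (IntermediateField.adjoin L {a})
      (algebraicClosure (IntermediateField.adjoin L {a}) N) N
  have h4 : Algebra.IsAlgebraic (Algebra.adjoin L {a}) N :=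
    (IsFractionRing.comap_isAlgebraic_iff (A := Algebra.adjoin L {a})
      (K := IntermediateField.adjoin L {a}) (C := N)).mpr h3
  have h5 : Algebra.trdeg L N ≤ 1 := by
    have := Algebra.IsAlgebraic.trdeg_le_cardinalMk (R := L) (A := N) {a}
    simpa using this
  have h6 : 2 ≤ Algebra.trdeg L N := by
    have := hUT.cardinalMk_le_trdeg
    simpa using this
  have h7 := h6.trans h5
  norm_num at h7

end field

section type

variable {p n : ℕ} [Fact p.Prime] (t : AType p n) {L N : Type} [Field L] [Field N]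
  [Algebra (ZMod p) L] [Algebra (ZMod p) N] [Algebra L N] [IsScalarTower (ZMod p) L N]

theorem eval_mem (B : IntermediateField L N) {a : N} (ha : a ∈ B) (Q : (ZMod p)[X]) :
    (Q.map (algebraMap (ZMod p) N)).eval a ∈ B := by
  have h : Q.map (algebraMap (ZMod p) N) =
      (Q.map (algebraMap (ZMod p) L)).map (algebraMap L N) := by
    rw [Polynomial.map_map, ← IsScalarTower.algebraMap_eq]
  rw [h, eval_map_algebraMap]
  have h1 := aeval_algebraMap_apply N (⟨a, ha⟩ : B) (Q.map (algebraMap (ZMod p) L))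
  have h2 : algebraMap B N ⟨a, ha⟩ = a := rfl
  rw [h2] at h1
  rw [h1]
  exact (aeval (⟨a, ha⟩ : B) (Q.map (algebraMap (ZMod p) L))).2

theorem A₀_eq (hm : 2 ≤ t.m) : t.A₀ = X ^ p * t.G₀ := by
  rw [AType.A₀, AType.G₀, if_neg (by omega)]
  obtain ⟨m, hm'⟩ : ∃ m, t.m = m + 2 := ⟨t.m - 2, by omega⟩
  rw [hm', Nat.add_sub_cancel, show m + 2 - 1 = m + 1 by omega, mul_add p m 1, pow_add]
  ring

theorem H₀_eq (hm : 2 ≤ t.m) : t.H₀ = 1 := by
  rw [AType.H₀, if_neg (by omega)]

theorem eval_f2 (hm : 2 ≤ t.m) (e τ κ a : N) : (t.f e τ κ).eval a =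
    (t.V.map (algebraMap (ZMod p) N)).eval a * (e ^ (p * (p - 1)) *
      (a ^ p * (t.G₀.map (algebraMap (ZMod p) N)).eval a) +
      τ * (t.G₀.map (algebraMap (ZMod p) N)).eval a + κ) +
      (t.W.map (algebraMap (ZMod p) N)).eval a := by
  rw [AType.f, AType.M, A₀_eq t hm, H₀_eq t hm, Polynomial.map_mul, Polynomial.map_pow, map_X]
  simp

theorem rootV (e τ κ a : N) (h : (t.f e τ κ).eval a = 0) :
    (t.V.map (algebraMap (ZMod p) N)).eval a ≠ 0 := by
  intro hv
  rw [AType.f, eval_add, eval_mul, hv, zero_mul, zero_add] at h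
  rcases t.hWV with hW | hV
  · rw [hW] at h
    simp at h
  · rw [hV] at hv
    simp at hv

theorem rootG (hm : 2 ≤ t.m) (e τ κ a : N) (hval : t.val κ ≠ 0) (h : (t.f e τ κ).eval a = 0) :
    (t.G₀.map (algebraMap (ZMod p) N)).eval a ≠ 0 := by
  intro hg
  have hcp : CharP N p := charP_of_injective_algebraMap (algebraMap (ZMod p) N).injective p
  have hs : a ≠ algebraMap (ZMod p) N t.s := by
    intro h1
    rw [h1, t.eval_f e τ κ (by omega)] at h
    exact hval h
  have hG : (t.G₀.map (algebraMap (ZMod p) N)).eval a =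
      (a ^ p - algebraMap (ZMod p) N t.s) * a ^ (p * (t.m - 2)) := by
    rw [AType.G₀, if_neg (by omega)]
    simp
  rw [hG] at hg
  rcases mul_eq_zero.mp hg with h1 | h1
  · have h2 : algebraMap (ZMod p) N t.s = algebraMap (ZMod p) N t.s ^ p := by
      rw [← map_pow, ZMod.pow_card]
    rw [h2, ← sub_pow_char] at h1
    exact hs (sub_eq_zero.mp (pow_eq_zero_iff (Fact.out : p.Prime).ne_zero |>.mp h1))
  · have h3 : a = 0 := by
      by_contra h4
      exact pow_ne_zero _ h4 h1
    have h5 : t.s ≠ 0 := by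
      intro h6
      rw [h6, map_zero] at hs
      exact hs h3
    have h7 : t.V.eval 0 = 0 := (t.h0 hm).resolve_right h5
    refine rootV t e τ κ a h ?_
    rw [h3, eval_map_algebraMap, ← map_zero (algebraMap (ZMod p) N),
      aeval_algebraMap_apply_eq_algebraMap_eval, h7, map_zero]

/-- `λ = (κ + W(a) / V(a)) / G₀(a)`. -/
noncomputable def lam (κ a : N) : N :=
  (κ + (t.W.map (algebraMap (ZMod p) N)).eval a / (t.V.map (algebraMap (ZMod p) N)).eval a) /
    (t.G₀.map (algebraMap (ZMod p) N)).eval a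

theorem tau_eq (hm : 2 ≤ t.m) (e τ κ a : N) (hval : t.val κ ≠ 0)
    (h : (t.f e τ κ).eval a = 0) : τ = -(e ^ (p * (p - 1)) * a ^ p + lam t κ a) := by
  have hv := rootV t e τ κ a h
  have hg := rootG t hm e τ κ a hval h
  rw [eval_f2 t hm] at h
  rw [lam]
  field_simp
  linear_combination h

theorem UT_mem (hm : 2 ≤ t.m) (x h κ P : L) (hP : P ≠ 0) (U T τ e : N) (hτ0 : τ ≠ 0)
    (hτ : τ = algebraMap L N x + algebraMap L N P ^ 2 * U)
    (he : e = 1 + (algebraMap L N h + algebraMap L N P * T) * τ)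
    (hv : t.val (algebraMap L N κ) ≠ 0) (B : IntermediateField L N) (a : N)
    (hroot : (t.f e τ (algebraMap L N κ)).eval a = 0) (heB : e ∈ B) (ha : a ∈ B) :
    U ∈ B ∧ T ∈ B := by
  have h1 : lam t (algebraMap L N κ) a ∈ B := by
    rw [lam]
    exact div_mem (add_mem (B.algebraMap_mem κ)
      (div_mem (eval_mem B ha _) (eval_mem B ha _))) (eval_mem B ha _)
  have h2 : τ ∈ B := by
    rw [tau_eq t hm e τ _ a hv hroot]
    exact neg_mem (add_mem (mul_mem (pow_mem heB _) (pow_mem ha _)) h1)
  have hP' : algebraMap L N P ≠ 0 := by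
    rw [Ne, map_eq_zero]
    exact hP
  constructor
  · have h3 : U = (τ - algebraMap L N x) / algebraMap L N P ^ 2 := by
      rw [hτ]
      field_simp
      ring
    rw [h3]
    exact div_mem (sub_mem h2 (B.algebraMap_mem x)) (pow_mem (B.algebraMap_mem P) _)
  · have h3 : T = ((e - 1) / τ - algebraMap L N h) / algebraMap L N P := by
      rw [he]
      field_simp
      ring
    rw [h3]
    exact div_mem (sub_mem (div_mem (sub_mem heB (one_mem B)) h2) (B.algebraMap_mem h))
      (B.algebraMap_mem P)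

omit [Algebra (ZMod p) L] [Algebra (ZMod p) N] [IsScalarTower (ZMod p) L N] in
theorem fld_sq {κ P : L} {U T : N} (hUT : AlgebraicIndependent L ![U, T])
    (halg : Algebra.IsAlgebraic (IntermediateField.adjoin L {U, T}) N) (x : L) (hP : P ≠ 0)
    (hκ : t.m = 1 → κ ≠ 0) {τ : N} (hτ : τ = (if t.m = 1 then algebraMap L N κ else
      algebraMap L N x + algebraMap L N P ^ 2 * U)) : τ ≠ 0 := by
  intro h
  by_cases hm : t.m = 1
  · rw [if_pos hm, h] at hτ
    exact hκ hm ((map_eq_zero _).mp hτ.symm)
  · rw [if_neg hm, h] at hτ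
    have hP' : algebraMap L N P ≠ 0 := by
      rw [Ne, map_eq_zero]
      exact hP
    have h3 : U = algebraMap L N (-x / P ^ 2) := by
      rw [map_div₀, map_neg, map_pow]
      field_simp
      linear_combination -hτ
    refine no2 hUT halg T ?_ (self_mem_cl T)
    rw [h3]
    exact (cl L T).algebraMap_mem _

theorem first (h0 : EisStmt) (h1 : Gen1Stmt) [IsAlgClosed N] {U T : N}
    (hUT : AlgebraicIndependent L ![U, T])
    (halg : Algebra.IsAlgebraic (IntermediateField.adjoin L {U, T}) N)
    (x h κ P : L) (hP : P ≠ 0) (hκ : t.m = 1 → κ ≠ 0) (hv : t.val κ ≠ 0)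
    (τ e : N) (hτ : τ = (if t.m = 1 then algebraMap L N κ else
      algebraMap L N x + algebraMap L N P ^ 2 * U))
    (he : e = 1 + (algebraMap L N h + algebraMap L N P * T) * τ) :
    e ≠ 0 ∧ ∀ a b : N, (t.f e τ (algebraMap L N κ)).eval a = 0 →
      (t.f e τ (algebraMap L N κ)).eval b = 0 →
      ∃ σ : N ≃ₐ[L] N, σ U = U ∧ σ T = T ∧ σ a = b := by
  have hτ0 := fld_sq t hUT halg x hP hκ hτ
  have hP' : algebraMap L N P ≠ 0 := by
    rw [Ne, map_eq_zero]
    exact hP
  have hTeq : T = ((e - 1) / τ - algebraMap L N h) / algebraMap L N P := by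
    rw [he]
    field_simp
    ring
  have hTmem : ∀ B : IntermediateField L N, τ ∈ B → e ∈ B → T ∈ B := by
    intro B hτB heB
    rw [hTeq]
    exact div_mem (sub_mem (div_mem (sub_mem heB (one_mem B)) hτB) (B.algebraMap_mem h))
      (B.algebraMap_mem P)
  have hτmem : ∀ B : IntermediateField L N, U ∈ B → τ ∈ B := by
    intro B hU
    rw [hτ]
    split_ifs
    · exact B.algebraMap_mem κ
    · exact add_mem (B.algebraMap_mem x) (mul_mem (pow_mem (B.algebraMap_mem P) _) hU)
  set F := IntermediateField.adjoin L {U} with hF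
  have htr : Transcendental F e := by
    intro h2
    have h3 : e ∈ cl L U := mem_cl.mpr h2
    exact no2 hUT halg U (self_mem_cl U)
      (hTmem _ (hτmem _ (self_mem_cl U)) h3)
  have hUF : U ∈ F := IntermediateField.mem_adjoin_simple_self L U
  have he0 : e ≠ 0 := by
    intro h2
    apply htr
    rw [h2]
    exact isAlgebraic_zero
  refine ⟨he0, fun a b ha hb => ?_⟩
  let _ : Algebra (ZMod p) F := ((algebraMap L F).comp (algebraMap (ZMod p) L)).toAlgebra
  have hT1 : (algebraMap F N).comp (algebraMap (ZMod p) F) = algebraMap (ZMod p) N :=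
    Subsingleton.elim _ _
  have hval : t.val (algebraMap L F κ) ≠ 0 := by
    rw [← t.map_val, Ne, map_eq_zero]
    exact hv
  set τ' : F := ⟨τ, hτmem F hUF⟩ with hτ'
  obtain ⟨c1, c2, c3⟩ := h1 p n t F τ' (algebraMap L F κ) (by
      intro hm
      apply Subtype.ext
      change τ = _
      rw [hτ, if_pos hm]
      rfl) (fun h2 => hτ0 (congrArg Subtype.val h2)) hval _ _ rfl rfl
  have hpp : 0 < p * (p - 1) := by
    have := (Fact.out : p.Prime).two_le
    exact Nat.mul_pos (by omega) (by omega)
  have hK : Algebra.IsAlgebraic (IntermediateField.adjoin F {e}) N := by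
    have h4 : IntermediateField.adjoin L {U, T} ≤
        (IntermediateField.adjoin F {e}).restrictScalars L := by
      have hU1 : U ∈ (IntermediateField.adjoin F {e}).restrictScalars L :=
        (IntermediateField.adjoin F {e}).algebraMap_mem ⟨U, hUF⟩
      have he1 : e ∈ (IntermediateField.adjoin F {e}).restrictScalars L :=
        IntermediateField.mem_adjoin_simple_self F e
      rw [IntermediateField.adjoin_le_iff]
      rintro z (rfl | hz)
      · exact hU1
      · rw [Set.mem_singleton_iff] at hz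
        rw [hz]
        exact hTmem _ (hτmem _ hU1) he1
    have h5 := alg_mono h4 halg
    exact h5
  have hf : C (e ^ (p * (p - 1))) * ((t.V * t.A₀).map (algebraMap (ZMod p) F)).map
      (algebraMap F N) + (t.V.map (algebraMap (ZMod p) F) * (C τ' *
        t.G₀.map (algebraMap (ZMod p) F) + C (algebraMap L F κ) *
        t.H₀.map (algebraMap (ZMod p) F)) + t.W.map (algebraMap (ZMod p) F)).map
      (algebraMap F N) = t.f e τ (algebraMap L N κ) := by
    rw [t.f_eq]
    simp only [Polynomial.map_add, Polynomial.map_mul, Polynomial.map_map, hT1, map_C]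
    rfl
  obtain ⟨σ, hσ1, hσ2⟩ := conj h0 F e htr _ _ _ hpp c1 c2 c3 hK a b
    (by rw [hf]; exact ha) (by rw [hf]; exact hb)
  have hU1 : U ∈ IntermediateField.adjoin F {e} :=
    (IntermediateField.adjoin F {e}).algebraMap_mem ⟨U, hUF⟩
  have he1 : e ∈ IntermediateField.adjoin F {e} :=
    IntermediateField.mem_adjoin_simple_self F e
  refine ⟨σ, hσ1 U hU1, hσ1 T ?_, hσ2⟩
  exact hTmem ((IntermediateField.adjoin F {e}).restrictScalars L)
    (hτmem ((IntermediateField.adjoin F {e}).restrictScalars L) hU1) he1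

theorem second (h0 : EisStmt) (h2 : Gen2Stmt) [IsAlgClosed N] {U T : N} (hm : 2 ≤ t.m)
    (hUT : AlgebraicIndependent L ![U, T])
    (halg : Algebra.IsAlgebraic (IntermediateField.adjoin L {U, T}) N)
    (x h κ P : L) (hP : P ≠ 0) (hv : t.val κ ≠ 0)
    (τ e : N) (hτ0 : τ ≠ 0) (hτ : τ = algebraMap L N x + algebraMap L N P ^ 2 * U)
    (he : e = 1 + (algebraMap L N h + algebraMap L N P * T) * τ)
    (a b c : N) (ha : (t.f e τ (algebraMap L N κ)).eval a = 0)
    (hb : (t.f e τ (algebraMap L N κ)).eval b = 0) (hc : (t.f e τ (algebraMap L N κ)).eval c = 0)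
    (hba : b ≠ a) (hca : c ≠ a) :
    ∃ σ : N ≃ₐ[L] N, σ U = U ∧ σ T = T ∧ σ a = a ∧ σ b = c := by
  have hv' : t.val (algebraMap L N κ) ≠ 0 := by
    rw [← t.map_val, Ne, map_eq_zero]
    exact hv
  have hmem : ∀ B : IntermediateField L N, e ∈ B → a ∈ B → U ∈ B ∧ T ∈ B := fun B =>
    UT_mem t hm x h κ P hP U T τ e hτ0 hτ he hv' B a ha
  set F := IntermediateField.adjoin L {a} with hF
  have haF : a ∈ F := IntermediateField.mem_adjoin_simple_self L a
  have htr : Transcendental F e := by
    intro h3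
    have h4 : e ∈ cl L a := mem_cl.mpr h3
    have h5 := hmem _ h4 (self_mem_cl a)
    exact no2 hUT halg a h5.1 h5.2
  have htra : Transcendental L a := by
    intro h3
    have h4 : a ∈ cl L e := mem_cl.mpr (h3.tower_top _)
    have h5 := hmem _ (self_mem_cl e) h4
    exact no2 hUT halg e h5.1 h5.2
  let _ : Algebra (ZMod p) F := ((algebraMap L F).comp (algebraMap (ZMod p) L)).toAlgebra
  have hT1 : (algebraMap F N).comp (algebraMap (ZMod p) F) = algebraMap (ZMod p) N :=
    Subsingleton.elim _ _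
  have hval : t.val (algebraMap L F κ) ≠ 0 := by
    rw [← t.map_val, Ne, map_eq_zero]
    exact hv
  have hV := rootV t e τ _ a ha
  have hG := rootG t hm e τ _ a hv' ha
  have hτe := tau_eq t hm e τ _ a hv' ha
  have hlmem : lam t (algebraMap L N κ) a ∈ F := by
    rw [lam]
    exact div_mem (add_mem (F.algebraMap_mem κ)
      (div_mem (eval_mem F haF _) (eval_mem F haF _))) (eval_mem F haF _)
  set lam' : F := ⟨lam t (algebraMap L N κ) a, hlmem⟩ with hlam'
  have hl0 : lam' ≠ 0 := by
    intro h3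
    have h4 : lam t (algebraMap L N κ) a = 0 := congrArg Subtype.val h3
    have h5 : (t.V.map (algebraMap (ZMod p) N)).eval a * algebraMap L N κ +
        (t.W.map (algebraMap (ZMod p) N)).eval a = 0 := by
      rw [lam, div_eq_zero_iff] at h4
      rcases h4 with h4 | h4
      · field_simp at h4
        linear_combination h4
      · exact absurd h4 hG
    have h6 : aeval a (t.V.map (algebraMap (ZMod p) L) * C κ +
        t.W.map (algebraMap (ZMod p) L)) = 0 := by
      rw [← h5, map_add, map_mul, aeval_C, aeval_def, aeval_def, ← eval_map, ← eval_map,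
        Polynomial.map_map, Polynomial.map_map, ← IsScalarTower.algebraMap_eq]
    have h7 := (transcendental_iff.mp htra) _ h6
    have h8 := congrArg (eval (algebraMap (ZMod p) L t.s)) h7
    rw [eval_add, eval_mul, eval_C, eval_map_algebraMap, eval_map_algebraMap,
      aeval_algebraMap_apply_eq_algebraMap_eval, aeval_algebraMap_apply_eq_algebraMap_eval,
      eval_zero] at h8
    exact hv h8
  set a' : F := ⟨a, haF⟩ with ha'
  set Bt : F[X] := t.V.map (algebraMap (ZMod p) F) * (C (algebraMap L F κ) - C lam' *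
    t.G₀.map (algebraMap (ZMod p) F)) + t.W.map (algebraMap (ZMod p) F) with hBt
  have hBtN : Bt.map (algebraMap F N) = t.V.map (algebraMap (ZMod p) N) *
      (C (algebraMap L N κ) - C (lam t (algebraMap L N κ) a) *
      t.G₀.map (algebraMap (ZMod p) N)) + t.W.map (algebraMap (ZMod p) N) := by
    rw [hBt]
    simp only [Polynomial.map_add, Polynomial.map_sub, Polynomial.map_mul, Polynomial.map_map,
      hT1, map_C]
    rfl
  have hroot : Bt.IsRoot a' := by
    rw [IsRoot.def]
    apply (algebraMap F N).injective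
    rw [map_zero, ← eval_map_apply, hBtN]
    change eval a _ = 0
    rw [eval_add, eval_mul, eval_sub, eval_mul, eval_C, eval_C, lam]
    field_simp
    ring
  obtain ⟨B₁, hB₁⟩ := dvd_iff_isRoot.mpr hroot
  obtain ⟨c1, c2, c3⟩ := h2 p n t F (algebraMap L F κ) lam' a' B₁ hm hl0 hval hB₁
  have hpp : 0 < p * (p - 1) := by
    have := (Fact.out : p.Prime).two_le
    exact Nat.mul_pos (by omega) (by omega)
  have ha1 : a ∈ (IntermediateField.adjoin F {e}).restrictScalars L :=
    (IntermediateField.adjoin F {e}).algebraMap_mem ⟨a, haF⟩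
  have he1 : e ∈ (IntermediateField.adjoin F {e}).restrictScalars L :=
    IntermediateField.mem_adjoin_simple_self F e
  have hUT1 := hmem _ he1 ha1
  have hK : Algebra.IsAlgebraic (IntermediateField.adjoin F {e}) N := by
    have h4 : IntermediateField.adjoin L {U, T} ≤
        (IntermediateField.adjoin F {e}).restrictScalars L := by
      rw [IntermediateField.adjoin_le_iff]
      rintro z (rfl | hz)
      · exact hUT1.1
      · rw [Set.mem_singleton_iff] at hz
        rw [hz]
        exact hUT1.2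
    have h5 := alg_mono h4 halg
    exact h5
  have hcp : CharP N p := charP_of_injective_algebraMap (algebraMap (ZMod p) N).injective p
  have hz : ∀ z : N, z ≠ a → (t.f e τ (algebraMap L N κ)).eval z = 0 →
      (C (e ^ (p * (p - 1))) * ((t.V * t.G₀).map (algebraMap (ZMod p) F) *
        (X - C a') ^ (p - 1)).map (algebraMap F N) + B₁.map (algebraMap F N)).eval z = 0 := by
    intro z hza hz
    have h6 : (z - a) * (B₁.map (algebraMap F N)).eval z = (Bt.map (algebraMap F N)).eval z := by
      rw [hB₁, Polynomial.map_mul, Polynomial.map_sub, map_X, map_C, eval_mul, eval_sub, eval_X,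
        eval_C]
      rfl
    rw [hBtN, eval_add, eval_mul, eval_sub, eval_mul, eval_C, eval_C] at h6
    have h7 : (z - a) * (z - a) ^ (p - 1) = z ^ p - a ^ p := by
      rw [← pow_succ', Nat.sub_add_cancel (Fact.out : p.Prime).one_le, sub_pow_char]
    rw [eval_f2 t hm] at hz
    have h8 : (((t.V * t.G₀).map (algebraMap (ZMod p) F) *
        (X - C a') ^ (p - 1)).map (algebraMap F N)).eval z =
        (t.V.map (algebraMap (ZMod p) N)).eval z * (t.G₀.map (algebraMap (ZMod p) N)).eval z *
          (z - a) ^ (p - 1) := by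
      rw [Polynomial.map_mul, Polynomial.map_pow, Polynomial.map_map, hT1, Polynomial.map_sub,
        map_X, map_C, Polynomial.map_mul, eval_mul, eval_mul, eval_pow, eval_sub, eval_X, eval_C]
      rfl
    rw [eval_add, eval_mul, eval_C, h8]
    have h9 : z - a ≠ 0 := sub_ne_zero.mpr hza
    apply (mul_eq_zero.mp _).resolve_left h9
    linear_combination h6 + e ^ (p * (p - 1)) * (t.V.map (algebraMap (ZMod p) N)).eval z *
      (t.G₀.map (algebraMap (ZMod p) N)).eval z * h7 + hz - (t.V.map (algebraMap (ZMod p) N)).eval z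
      * (t.G₀.map (algebraMap (ZMod p) N)).eval z * hτe
  obtain ⟨σ, hσ1, hσ2⟩ := conj h0 F e htr _ _ _ hpp c1 c2 c3 hK b c (hz b hba hb) (hz c hca hc)
  exact ⟨σ, hσ1 U hUT1.1, hσ1 T hUT1.2, hσ1 a ha1, hσ2⟩

end type

end GenTM

open Polynomial in
theorem tGenT (h0 : EisStmt) (h1 : Gen1Stmt) (h2 : Gen2Stmt) : GenTStmt := by
  intro p n _ t L N _ _ _ _ _ _ _ U T hUT halg x h κ P hP hκ hv τ e hτ he y hy hf
  obtain ⟨he0, hfirst⟩ := GenTM.first t h0 h1 hUT halg x h κ P hP hκ hv τ e hτ he
  have hroot : ∀ i, (t.f e τ (algebraMap L N κ)).eval (y i) = 0 := by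
    intro i
    rw [hf, eval_mul, eval_prod, Finset.prod_eq_zero (Finset.mem_univ i) (by simp), mul_zero]
  refine ⟨fun _ i l => hfirst _ _ (hroot i) (hroot l), fun hm i i' l l' hi hl => ?_⟩
  obtain ⟨σ, hσU, hσT, hσ⟩ := hfirst _ _ (hroot i) (hroot l)
  have hτ' : τ = algebraMap L N x + algebraMap L N P ^ 2 * U := by
    rw [hτ, if_neg (by omega)]
  have hστ : σ τ = τ := by
    rw [hτ', map_add, map_mul, map_pow, σ.commutes, σ.commutes, hσU]
  have hσe : σ e = e := by
    rw [he, map_add, map_one, map_mul, map_add, map_mul, σ.commutes, σ.commutes, hσT, hστ]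
  have hr1 : (t.f e τ (algebraMap L N κ)).eval (σ (y i')) = 0 := by
    have h3 := t.map_f (σ : N →+* N) e τ (algebraMap L N κ)
    have h4 : (σ : N →+* N) e = e := hσe
    have h5 : (σ : N →+* N) τ = τ := hστ
    have h6 : (σ : N →+* N) (algebraMap L N κ) = algebraMap L N κ := σ.commutes κ
    rw [h4, h5, h6] at h3
    rw [← h3]
    have h7 := eval_map_apply (σ : N →+* N) (p := t.f e τ (algebraMap L N κ)) (y i')
    rw [hroot, map_zero] at h7
    exact h7
  have hne : σ (y i') ≠ y l := by
    rw [← hσ]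
    intro h3
    exact hi (hy (σ.injective h3)).symm
  obtain ⟨σ₂, h3, h4, h5, h6⟩ := GenTM.second t h0 h2 hm hUT halg x h κ P hP hv τ e
    (GenTM.fld_sq t hUT halg x hP hκ hτ) hτ' he (y l) (σ (y i')) (y l') (hroot l) hr1 (hroot l')
    hne (fun h7 => hl (hy h7).symm)
  refine ⟨σ.trans σ₂, ?_, ?_, ?_, ?_⟩
  · rw [AlgEquiv.trans_apply, hσU, h3]
  · rw [AlgEquiv.trans_apply, hσT, h4]
  · rw [AlgEquiv.trans_apply, hσ, h5]
  · rw [AlgEquiv.trans_apply, h6]

end MP7Z
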