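import Pool.Agent.Lib.MP_7f581e_Z.Alt.Spec

/-!
# Alternating step: surjectivity (module Grp)
-/

namespace MP7Z

theorem tGrp : GrpStmt := by
  intro n k hn E Q Γ _ _ _ π φ act T j₀ htr hmul hconj hT Γ₀ _ Ψ hΓ₀ hA δ hδ hδ1 hδ2 hδ3
  have hact1 : act 1 = 1 := map_one act
  have hsimple : IsSimpleGroup (alternatingGroup (Fin n)) :=
    alternatingGroup.isSimpleGroup (by rw [Nat.card_eq_fintype_card, Fintype.card_fin]; exact hn)
  let Δ₀ : Subgroup π.ker := (Γ₀.map Ψ).comap π.ker.subtype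
  have hmem : ∀ m : π.ker, m ∈ Δ₀ ↔ ∃ γ ∈ Γ₀, Ψ γ = m := fun m => Iff.rfl
  have hΔconj : ∀ (γ : Γ) (m : π.ker), m ∈ Δ₀ → MulAut.conjNormal (Ψ γ) m ∈ Δ₀ := by
    intro γ m hm
    obtain ⟨γ', hγ', hm'⟩ := (hmem m).1 hm
    refine (hmem _).2 ⟨γ * γ' * γ⁻¹, Subgroup.Normal.conj_mem inferInstance _ hγ' _, ?_⟩
    rw [map_mul, map_mul, map_inv, hm', MulAut.conjNormal_apply]
  let s : Fin k → alternatingGroup (Fin n) → π.ker := fun j a => φ.symm (Pi.mulSingle j a)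
  have hφs : ∀ j a, φ (s j a) = Pi.mulSingle j a := fun j a => φ.apply_symm_apply _
  let C₀ : Subgroup (alternatingGroup (Fin n)) :=
    Δ₀.comap (φ.symm.toMonoidHom.comp
      (MonoidHom.mulSingle (fun _ : Fin k => alternatingGroup (Fin n)) j₀))
  have hC₀ : ∀ a, a ∈ C₀ ↔ s j₀ a ∈ Δ₀ := fun a => Iff.rfl
  -- conjugation of `s j₀ a`
  have hcs : ∀ (γ : Γ) (a b : alternatingGroup (Fin n)),
      (b : Equiv.Perm (Fin n)) = T (Ψ γ) j₀ * a * (T (Ψ γ) j₀)⁻¹ →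
      MulAut.conjNormal (Ψ γ) (s j₀ a) = s (act (π (Ψ γ)) j₀) b := by
    intro γ a b hb
    apply φ.injective
    rw [hφs]
    funext i
    obtain ⟨i', rfl⟩ := (act (π (Ψ γ))).surjective i
    apply Subtype.ext
    rw [hconj, hφs]
    by_cases hi : i' = j₀
    · subst hi
      rw [Pi.mulSingle_eq_same, Pi.mulSingle_eq_same, hb]
    · rw [Pi.mulSingle_eq_of_ne hi, Pi.mulSingle_eq_of_ne
        (fun h => hi ((act (π (Ψ γ))).injective h)), OneMemClass.coe_one, mul_one,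
        mul_inv_cancel]
  have hnormal : C₀.Normal := by
    refine ⟨fun a ha b => ?_⟩
    obtain ⟨γ, hγ1, hγ2⟩ := hA b b.2
    have h1 := hcs γ a (b * a * b⁻¹) (by rw [hγ2]; rfl)
    have h2 := hΔconj γ _ ((hC₀ a).1 ha)
    rw [h1, hγ1, hact1, Equiv.Perm.one_apply] at h2
    exact (hC₀ _).2 h2
  have htop : C₀ = ⊤ := by
    refine (hnormal.eq_bot_or_eq_top).resolve_left fun hbot => ?_
    let mδ : π.ker := ⟨Ψ δ, hδ1⟩
    have h1 : mδ ∈ Δ₀ := (hmem _).2 ⟨δ, hδ, rfl⟩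
    have h2 : mδ = s j₀ (φ mδ j₀) := by
      apply φ.injective
      rw [hφs]
      funext i
      by_cases hi : i = j₀
      · subst hi
        rw [Pi.mulSingle_eq_same]
      · rw [Pi.mulSingle_eq_of_ne hi]
        apply Subtype.ext
        rw [← hT]
        exact hδ3 i hi
    have h3 : φ mδ j₀ ∈ C₀ := by
      rw [hC₀, ← h2]
      exact h1
    rw [hbot, Subgroup.mem_bot] at h3
    apply hδ2
    have h4 := hT mδ j₀
    rw [h3] at h4
    exact h4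
  have hall : ∀ m : π.ker, m ∈ Δ₀ := by
    intro m
    have h1 : φ m ∈ Δ₀.comap φ.symm.toMonoidHom := by
      refine Subgroup.pi_mem_of_mulSingle_mem _ fun j => ?_
      obtain ⟨q, hq⟩ := htr j
      obtain ⟨γ, -, hγ⟩ := hΓ₀ q
      let τ := T (Ψ γ) j₀
      let b : alternatingGroup (Fin n) := ⟨τ⁻¹ * (φ m j : Equiv.Perm (Fin n)) * τ⁻¹⁻¹,
        Subgroup.Normal.conj_mem inferInstance _ (φ m j).2 _⟩
      have h2 := hcs γ b (φ m j) (by
        change (φ m j : Equiv.Perm (Fin n)) = τ * (τ⁻¹ * (φ m j : Equiv.Perm (Fin n)) * τ⁻¹⁻¹) * τ⁻¹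
        group)
      have h3 : s j₀ b ∈ Δ₀ := (hC₀ b).1 (by rw [htop]; exact Subgroup.mem_top _)
      have h4 := hΔconj γ _ h3
      rw [h2, hγ, hq] at h4
      exact h4
    have h2 : φ.symm (φ m) ∈ Δ₀ := h1
    rwa [MulEquiv.symm_apply_apply] at h2
  intro g
  obtain ⟨γ, hγ, hγ'⟩ := hΓ₀ (π g)
  have h1 : g * (Ψ γ)⁻¹ ∈ π.ker := by
    rw [MonoidHom.mem_ker, map_mul, map_inv, hγ', mul_inv_cancel]
  obtain ⟨γ', hγ₁, hγ₂⟩ := (hmem _).1 (hall ⟨_, h1⟩)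
  refine ⟨γ' * γ, Γ₀.mul_mem hγ₁ hγ, ?_⟩
  rw [map_mul, hγ₂, inv_mul_cancel_right]

end MP7Z
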