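import Pool.Agent.Lib.MP_7f581e_Z.Alt.Spec

/-!
# Hilbert irreducibility with polynomial values, two parameters
-/

set_option autoImplicit false

namespace MP7Z

open Polynomial MP7fS

namespace HR2M

/-- A subfield of `E(X)` containing `E` and `X` is everything. -/
theorem ratfunc_top {E : Type} [Field E] (S : Subfield (RatFunc E))
    (hC : ∀ c, RatFunc.C c ∈ S) (hX : RatFunc.X ∈ S) (z : RatFunc E) : z ∈ S := by
  have hpoly : ∀ f : E[X], algebraMap E[X] (RatFunc E) f ∈ S := by
    intro f
    induction f using Polynomial.induction_on' with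
    | add f g hf hg =>
      rw [map_add]
      exact S.add_mem hf hg
    | monomial n a =>
      rw [← C_mul_X_pow_eq_monomial, map_mul, map_pow, RatFunc.algebraMap_C,
        RatFunc.algebraMap_X]
      exact S.mul_mem (hC a) (S.pow_mem hX n)
  induction z using RatFunc.induction_on with
  | _ p q hq => exact S.div_mem (hpoly p) (hpoly q)

variable {K : Type} [Field K]

theorem infinite_ratFunc : Infinite (RatFunc K) :=
  Infinite.of_injective (algebraMap K[X] (RatFunc K)) (IsFractionRing.injective _ _)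

/-- `K[U, T] → K[T][U]`. -/
noncomputable def ph (K : Type) [Field K] : MvPolynomial (Fin 2) K →+* K[X][X] :=
  MvPolynomial.eval₂Hom ((C : K[X] →+* K[X][X]).comp (C : K →+* K[X])) ![X, C X]

theorem ph_C (k : K) : ph K (MvPolynomial.C k) = C (C k) := by
  rw [ph, MvPolynomial.coe_eval₂Hom, MvPolynomial.eval₂_C]
  rfl

theorem ph_X0 : ph K (MvPolynomial.X 0) = X := by
  rw [ph, MvPolynomial.coe_eval₂Hom, MvPolynomial.eval₂_X]
  rfl

theorem ph_X1 : ph K (MvPolynomial.X 1) = C X := by
  rw [ph, MvPolynomial.coe_eval₂Hom, MvPolynomial.eval₂_X]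
  rfl

theorem ev_ph (a b : K) : ((evalRingHom b).comp (evalRingHom (C a : K[X]))).comp (ph K) =
    (MvPolynomial.eval ![a, b] : MvPolynomial (Fin 2) K →+* K) := by
  refine MvPolynomial.ringHom_ext (fun r => ?_) (fun i => ?_)
  · rw [RingHom.comp_apply, ph_C, MvPolynomial.eval_C]
    change eval b (eval (C a : K[X]) (C (C r))) = r
    rw [eval_C, eval_C]
  · fin_cases i
    · change (evalRingHom b).comp (evalRingHom (C a : K[X])) (ph K (MvPolynomial.X 0)) =
        MvPolynomial.eval ![a, b] (MvPolynomial.X 0)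
      rw [ph_X0, MvPolynomial.eval_X]
      change eval b (eval (C a : K[X]) X) = a
      rw [eval_X, eval_C]
    · change (evalRingHom b).comp (evalRingHom (C a : K[X])) (ph K (MvPolynomial.X 1)) =
        MvPolynomial.eval ![a, b] (MvPolynomial.X 1)
      rw [ph_X1, MvPolynomial.eval_X]
      change eval b (eval (C a : K[X]) (C X)) = b
      rw [eval_C, eval_X]

theorem ph_injective [Infinite K] : Function.Injective (ph K) := by
  rw [injective_iff_map_eq_zero]
  intro c hc
  refine MvPolynomial.funext (fun x => ?_)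
  have h1 : x = ![x 0, x 1] := by
    funext i
    fin_cases i <;> rfl
  rw [h1, ← ev_ph, RingHom.comp_apply, hc, map_zero, map_zero]

/-- `K[U, T] → K(T)[U]`. -/
noncomputable def Ph (K : Type) [Field K] : MvPolynomial (Fin 2) K →+* (RatFunc K)[X] :=
  (mapRingHom (algebraMap K[X] (RatFunc K))).comp (ph K)

theorem Ph_injective [Infinite K] : Function.Injective (Ph K) := by
  intro a b hab
  apply ph_injective
  exact map_injective _ (IsFractionRing.injective K[X] (RatFunc K)) hab

theorem ev_Ph (a : K) : (evalRingHom (algebraMap K (RatFunc K) a)).comp (Ph K) =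
    (algebraMap K[X] (RatFunc K)).comp ((evalRingHom (C a : K[X])).comp (ph K)) := by
  refine RingHom.ext fun c => ?_
  rw [RingHom.comp_apply, RingHom.comp_apply, Ph, RingHom.comp_apply, coe_evalRingHom,
    coe_mapRingHom, RatFunc.algebraMap_eq_C, ← RatFunc.algebraMap_C, eval_map_apply,
    RingHom.comp_apply, coe_evalRingHom]

/-- `K[U, T] → K(T)(U)`. -/
noncomputable def jj (K : Type) [Field K] : MvPolynomial (Fin 2) K →+* RatFunc (RatFunc K) :=
  (algebraMap (RatFunc K)[X] (RatFunc (RatFunc K))).comp (Ph K)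

theorem jj_injective [Infinite K] : Function.Injective (jj K) :=
  (IsFractionRing.injective (RatFunc K)[X] (RatFunc (RatFunc K))).comp Ph_injective

theorem lift_bijective [Infinite K] : Function.Bijective
    (IsFractionRing.lift (K := FractionRing (MvPolynomial (Fin 2) K)) (jj_injective (K := K))) := by
  refine ⟨RingHom.injective _, ?_⟩
  obtain ⟨L, hL⟩ : ∃ L, L = (IsFractionRing.lift (K := FractionRing (MvPolynomial (Fin 2) K))
    (jj_injective (K := K))) := ⟨_, rfl⟩
  rw [← hL]
  have hLa : ∀ x, jj K x ∈ L.fieldRange := by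
    intro x
    refine ⟨algebraMap _ _ x, ?_⟩
    rw [hL]
    exact IsFractionRing.lift_algebraMap _ x
  have hC : ∀ c : RatFunc K, RatFunc.C c ∈ L.fieldRange := by
    refine ratfunc_top (L.fieldRange.comap (RatFunc.C : RatFunc K →+* RatFunc (RatFunc K)))
      (fun k => ?_) ?_
    · have h1 := hLa (MvPolynomial.C k)
      rw [jj, Ph, RingHom.comp_apply, RingHom.comp_apply, ph_C, coe_mapRingHom, map_C,
        RatFunc.algebraMap_C, RatFunc.algebraMap_C] at h1
      exact h1
    · have h1 := hLa (MvPolynomial.X 1)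
      rw [jj, Ph, RingHom.comp_apply, RingHom.comp_apply, ph_X1, coe_mapRingHom, map_C,
        RatFunc.algebraMap_C, RatFunc.algebraMap_X] at h1
      exact h1
  have hX : RatFunc.X ∈ L.fieldRange := by
    have h1 := hLa (MvPolynomial.X 0)
    rw [jj, Ph, RingHom.comp_apply, RingHom.comp_apply, ph_X0, coe_mapRingHom, map_X,
      RatFunc.algebraMap_X] at h1
    exact h1
  intro z
  exact ratfunc_top L.fieldRange hC hX z

theorem lift_comp [Infinite K] :
    (IsFractionRing.lift (K := FractionRing (MvPolynomial (Fin 2) K))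
      (jj_injective (K := K))).comp
        (algebraMap (MvPolynomial (Fin 2) K) (FractionRing (MvPolynomial (Fin 2) K))) = jj K := by
  refine RingHom.ext fun x => ?_
  rw [RingHom.comp_apply, IsFractionRing.lift_algebraMap]

theorem map_eq [Infinite K] (Q : (MvPolynomial (Fin 2) K)[X]) :
    (Q.map (Ph K)).map (algebraMap (RatFunc K)[X] (RatFunc (RatFunc K))) =
      (Q.map (algebraMap (MvPolynomial (Fin 2) K) (FractionRing (MvPolynomial (Fin 2) K)))).map
        (IsFractionRing.lift (K := FractionRing (MvPolynomial (Fin 2) K))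
          (jj_injective (K := K))) := by
  rw [Polynomial.map_map, Polynomial.map_map, lift_comp, jj]

theorem step1 [Infinite K] (Q : (MvPolynomial (Fin 2) K)[X])
    (hirr : Irreducible (Q.map (algebraMap (MvPolynomial (Fin 2) K)
      (FractionRing (MvPolynomial (Fin 2) K))))) :
    Irreducible ((Q.map (Ph K)).map (algebraMap (RatFunc K)[X] (RatFunc (RatFunc K)))) := by
  rw [map_eq]
  obtain ⟨e, he⟩ : ∃ e : FractionRing (MvPolynomial (Fin 2) K) ≃+* RatFunc (RatFunc K),
      (e : FractionRing (MvPolynomial (Fin 2) K) →+* RatFunc (RatFunc K)) =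
        IsFractionRing.lift (K := FractionRing (MvPolynomial (Fin 2) K))
          (jj_injective (K := K)) :=
    ⟨RingEquiv.ofBijective _ lift_bijective, RingHom.ext fun _ => rfl⟩
  rw [← he]
  exact (MulEquiv.irreducible_iff (Polynomial.mapEquiv e)).mpr hirr

theorem step1' [Infinite K] (Q : (MvPolynomial (Fin 2) K)[X])
    (hsep : (Q.map (algebraMap (MvPolynomial (Fin 2) K)
      (FractionRing (MvPolynomial (Fin 2) K)))).Separable) :
    ((Q.map (Ph K)).map (algebraMap (RatFunc K)[X] (RatFunc (RatFunc K)))).Separable := by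
  rw [map_eq]
  exact hsep.map

/-- The main argument over an infinite field `K`. -/
theorem main [Infinite K] (S : Set K) (hH1 : HilS K S)
    (hH2 : HilS (RatFunc K) (algebraMap K (RatFunc K) '' S))
    (Q : (MvPolynomial (Fin 2) K)[X])
    (hirr : Irreducible (Q.map (algebraMap (MvPolynomial (Fin 2) K)
      (FractionRing (MvPolynomial (Fin 2) K)))))
    (hsep : (Q.map (algebraMap (MvPolynomial (Fin 2) K)
      (FractionRing (MvPolynomial (Fin 2) K)))).Separable)
    (c : MvPolynomial (Fin 2) K) (hc : c ≠ 0) :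
    ∃ a ∈ S, ∃ b ∈ S, MvPolynomial.eval ![a, b] c ≠ 0 ∧
      Irreducible (Q.map (MvPolynomial.eval ![a, b])) ∧
      (Q.map (MvPolynomial.eval ![a, b])).Separable := by
  -- a nonzero coefficient of the derivative
  obtain ⟨i, hi⟩ : ∃ i, (derivative Q).coeff i ≠ 0 := by
    by_contra hcon
    push Not at hcon
    have h3 : derivative Q = 0 := Polynomial.ext (fun i => by rw [hcon i, coeff_zero])
    have h4 := (separable_iff_derivative_ne_zero hirr).mp hsep
    rw [derivative_map, h3, Polynomial.map_zero] at h4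
    exact h4 rfl
  -- separability of irreducible specializations
  have hsepF : ∀ (F : Type) [Field F] (f : MvPolynomial (Fin 2) K →+* F),
      f ((derivative Q).coeff i) ≠ 0 → Irreducible (Q.map f) → (Q.map f).Separable := by
    intro F _ f hf hirrF
    rw [separable_iff_derivative_ne_zero hirrF, derivative_map]
    intro h3
    apply hf
    rw [← coeff_map, h3, coeff_zero]
  obtain ⟨a', ⟨a, ha, rfl⟩, ha1, ha2⟩ := hH2 _ (step1 Q hirr) (step1' Q hsep)
    (Ph K (c * (derivative Q).coeff i)) (by
      intro h3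
      have h4 : c * (derivative Q).coeff i = 0 := Ph_injective (by rw [h3, map_zero])
      exact (mul_ne_zero hc hi) h4)
  rw [Polynomial.map_map, ev_Ph, ← Polynomial.map_map] at ha2
  have ha1' : ((algebraMap K[X] (RatFunc K)).comp
      ((evalRingHom (C a : K[X])).comp (ph K))) (c * (derivative Q).coeff i) ≠ 0 := by
    rw [← ev_Ph]
    exact ha1
  have hsep2 : ((Q.map ((evalRingHom (C a : K[X])).comp (ph K))).map
      (algebraMap K[X] (RatFunc K))).Separable := by
    rw [Polynomial.map_map] at ha2 ⊢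
    refine hsepF _ _ ?_ ha2
    rw [map_mul] at ha1'
    exact right_ne_zero_of_mul ha1'
  -- step 2
  obtain ⟨b, hb, hb1, hb2⟩ := hH1 _ ha2 hsep2
    (((evalRingHom (C a : K[X])).comp (ph K)) (c * (derivative Q).coeff i)) (by
      intro h3
      apply ha1'
      rw [RingHom.comp_apply, h3, map_zero])
  refine ⟨a, ha, b, hb, ?_⟩
  rw [← ev_ph, RingHom.comp_assoc]
  rw [Polynomial.map_map] at hb2
  have hb1' : ((evalRingHom b).comp ((evalRingHom (C a : K[X])).comp (ph K)))
      (c * (derivative Q).coeff i) ≠ 0 := hb1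
  rw [map_mul] at hb1'
  exact ⟨left_ne_zero_of_mul hb1', hb2, hsepF _ _ (right_ne_zero_of_mul hb1') hb2⟩

end HR2M

open HR2M in
theorem tHR2 (h0 : HRaStmt) (h1 : HRbStmt) (h2 : HRcStmt) : HR2Stmt := by
  intro p _ Q _ hirr hsep c hc
  have hinf : Infinite (RatFunc (ZMod p)) := infinite_ratFunc
  have hW := h0 p
  obtain ⟨a', ⟨a, rfl⟩, b', ⟨b, rfl⟩, h3, h4, h5⟩ := main _ (h2 _ _ hW) (h2 _ _ (h1 _ _ hW)) Q
    hirr hsep c hc
  refine ⟨a, b, ?_⟩
  intro ev hev
  rw [hev]
  exact ⟨h3, h4, h5⟩

end MP7Z
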