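import Pool.Agent.Lib.MP_7f581e_Z.Alt.Spec
import Pool.Agent.Lib.HilbertFq.WHk

/-!
# Alternating step: the weak Hilbert property with polynomial values
-/

set_option autoImplicit false

namespace MP7Z

open Polynomial HilbertFq MP7fL

/-- Avoiding roots over `k(X)`, `k` finite. -/
private theorem exists_avoid_ratFunc' (k : Type*) [Field k] [Finite k] {ι : Type*} [Finite ι]
    (m : ι → (RatFunc k)[X][X]) (hm : ∀ i, (m i).Monic) (hd : ∀ i, 2 ≤ (m i).natDegree)
    (hirr : ∀ i, Irreducible ((m i).map (algebraMap (RatFunc k)[X] (RatFunc (RatFunc k)))))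
    (hsep : ∀ i, ((m i).map (algebraMap (RatFunc k)[X] (RatFunc (RatFunc k)))).Separable)
    (g : (RatFunc k)[X]) (hg : g ≠ 0) :
    ∃ a ∈ Set.range (algebraMap k[X] (RatFunc k)), g.eval a ≠ 0 ∧
      ∀ i, ∀ z : RatFunc k, ((m i).map (evalRingHom a)).eval z ≠ 0 := by
  choose b h hb0 hhm hhd hhs hhirr hhsep using fun i => exists_scaled (R := k[X])
    (F := RatFunc (RatFunc k)) (m i) (hm i) (hd i) (hirr i) (hsep i)
  obtain ⟨e, he, G, hG⟩ := clear_KT (R := k[X]) g
  have hinj : Function.Injective (algebraMap k[X] (RatFunc k)) := IsFractionRing.injective _ _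
  have hG0 : G ≠ 0 := by
    rintro rfl
    rw [Polynomial.map_zero] at hG
    have h2 : (C (algebraMap k[X] (RatFunc k) e) : (RatFunc k)[X]) ≠ 0 := by
      rw [Ne, C_eq_zero, map_eq_zero_iff _ hinj]
      exact nonZeroDivisors.ne_zero he
    exact mul_ne_zero h2 hg hG.symm
  obtain ⟨a, haG, ha⟩ := exists_avoid (K := RatFunc k) h hhm (fun i => by rw [hhd]; exact hd i)
    hhirr hhsep G hG0
  have hGa : (C (algebraMap k[X] (RatFunc k) e) * g).eval (algebraMap k[X] (RatFunc k) a) ≠ 0 := by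
    rw [← hG, eval_map_algebraMap, aeval_algebraMap_apply, coe_aeval_eq_eval]
    rw [Ne, map_eq_zero_iff _ hinj]
    exact haG
  rw [eval_mul] at hGa
  refine ⟨algebraMap k[X] (RatFunc k) a, ⟨a, rfl⟩, right_ne_zero_of_mul hGa, fun i z hz => ?_⟩
  -- a root in `K` gives a root in `k[X]`
  have h9 : (evalRingHom (algebraMap k[X] (RatFunc k) a)).comp
      (mapRingHom (algebraMap k[X] (RatFunc k))) =
      (algebraMap k[X] (RatFunc k)).comp (evalRingHom a) := by
    apply Polynomial.ringHom_ext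
    · intro x
      simp
    · simp
  have h1 : ((h i).map (evalRingHom a)).map (algebraMap k[X] (RatFunc k)) =
      ((m i).map (evalRingHom (algebraMap k[X] (RatFunc k) a))).scaleRoots
        (algebraMap k[X] (RatFunc k) (b i)) := by
    rw [Polynomial.map_map, ← h9, ← Polynomial.map_map, hhs, map_scaleRoots]
    · simp only [coe_evalRingHom, eval_C]
    · rw [(hm i).leadingCoeff, map_one]
      exact one_ne_zero
  have h2 : (((h i).map (evalRingHom a)).map (algebraMap k[X] (RatFunc k))).eval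
      (algebraMap k[X] (RatFunc k) (b i) * z) = 0 := by
    rw [h1]
    have h3 := scaleRoots_eval_mul ((m i).map (evalRingHom (algebraMap k[X] (RatFunc k) a))) z
      (algebraMap k[X] (RatFunc k) (b i))
    rw [h3, hz, mul_zero]
  have hint : IsIntegral k[X] (algebraMap k[X] (RatFunc k) (b i) * z) := by
    refine ⟨(h i).map (evalRingHom a), (hhm i).map _, ?_⟩
    rw [← eval_map]
    exact h2
  obtain ⟨y, hy⟩ := IsIntegrallyClosed.isIntegral_iff.mp hint
  apply ha i y
  apply hinj
  rw [map_zero, ← h2, ← hy, eval_map_algebraMap, aeval_algebraMap_apply, coe_aeval_eq_eval]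


theorem tHRa : HRaStmt := by
  classical
  intro p₀ _ s hs g hg
  have hfac : ∀ h : (RatFunc (ZMod p₀))[X][X], h ∈ s → ∃ l : List (RatFunc (ZMod p₀))[X][X],
      (∀ p ∈ l, p.Monic ∧ Irreducible p) ∧ l.prod = h :=
    fun h hh => exists_monic_factors _ h (hs h hh).1 rfl
  choose! l hl hlp using hfac
  let S : Finset (RatFunc (ZMod p₀))[X][X] := s.biUnion fun h => (l h).toFinset
  have hS : ∀ p ∈ S, ∃ h ∈ s, p ∈ l h := by
    intro p hp
    obtain ⟨h, hh, hp⟩ := Finset.mem_biUnion.mp hp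
    exact ⟨h, hh, List.mem_toFinset.mp hp⟩
  obtain ⟨a, haS, ha1, ha2⟩ := exists_avoid_ratFunc' (ZMod p₀) (ι := S) (fun p => p.1)
    (fun p => by
      obtain ⟨h, hh, hp⟩ := hS p.1 p.2
      exact (hl h hh p.1 hp).1)
    (fun p => by
      obtain ⟨h, hh, hp⟩ := hS p.1 p.2
      obtain ⟨hpm, hpi⟩ := hl h hh p.1 hp
      by_contra hlt
      have h1 : p.1.natDegree = 1 := by
        have h2 : p.1.natDegree ≠ 0 := by
          intro h3
          have h4 : p.1 = 1 := hpm.natDegree_eq_zero.mp h3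
          rw [h4] at hpi
          exact not_irreducible_one hpi
        omega
      have h2 : p.1 = X - C (-(p.1.coeff 0)) := by
        have h3 := hpm.eq_X_add_C h1
        rw [h3]
        simp
      have h3 : p.1 ∣ h := by
        rw [← hlp h hh]
        exact List.dvd_prod hp
      rw [h2, dvd_iff_isRoot] at h3
      exact (hs h hh).2.2 _ h3)
    (fun p => by
      obtain ⟨h, hh, hp⟩ := hS p.1 p.2
      obtain ⟨hpm, hpi⟩ := hl h hh p.1 hp
      exact (hpm.irreducible_iff_irreducible_map_fraction_map (K := RatFunc (RatFunc (ZMod p₀)))).mp hpi)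
    (fun p => by
      obtain ⟨h, hh, hp⟩ := hS p.1 p.2
      have h3 : p.1 ∣ h := by
        rw [← hlp h hh]
        exact List.dvd_prod hp
      exact (hs h hh).2.1.of_dvd (Polynomial.map_dvd _ h3))
    g hg
  refine ⟨a, haS, ha1, fun h hh z hz => ?_⟩
  rw [← hlp h hh, Polynomial.map_list_prod, eval_list_prod] at hz
  rw [List.prod_eq_zero_iff] at hz
  obtain ⟨q, hq, hq0⟩ := List.mem_map.mp hz
  obtain ⟨p, hp, rfl⟩ := List.mem_map.mp hq
  exact ha2 ⟨p, Finset.mem_biUnion.mpr ⟨h, hh, List.mem_toFinset.mpr hp⟩⟩ z hq0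


end MP7Z
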