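import Pool.Agent.Lib.MP_7f581e_Z.Alt.Spec
import Pool.Agent.Lib.MP_7f581e_ntL.WH4

/-!
# Alternating step: the weak Hilbert property passes to `K(U)`, with the same values
-/

set_option autoImplicit false

namespace MP7Z

open Polynomial MP7fL

theorem tHRb : HRbStmt := by
  classical
  intro K _ _ S hK s hs g hg
  have hkey := fun (h : (RatFunc K)[X][X]) (hh : h ∈ s) =>
    key_h h (hs h hh).1 (hs h hh).2.1 (hs h hh).2.2
  choose! t G hG0 ht hfin using hkey
  -- nonvanishing of `g`
  obtain ⟨g₀, hg₀, hg₁⟩ : ∃ g₀ : K[X], g₀ ≠ 0 ∧ ∀ a : K, g₀.eval a ≠ 0 →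
      g.eval (algebraMap K (RatFunc K) a) ≠ 0 := by
    obtain ⟨b, hb0, hb⟩ := IsLocalization.integerNormalization_spec
      (nonZeroDivisors K[X]) g
    set G' := IsLocalization.integerNormalization (nonZeroDivisors K[X]) g with hG'
    have hinj : Function.Injective (algebraMap K[X] (RatFunc K)) :=
      IsFractionRing.injective K[X] (RatFunc K)
    have hG1 : G' ≠ 0 := by
      intro h0
      apply hg
      exact (IsFractionRing.integerNormalization_eq_zero_iff (A := K[X])).mp h0
    have hb' : G'.map (algebraMap K[X] (RatFunc K)) =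
        C (algebraMap K[X] (RatFunc K) b) * g := by
      rw [hb]
      ext i
      rw [coeff_smul, coeff_C_mul, Algebra.smul_def]
    obtain ⟨g₀, h0, h1⟩ := nonvanish G' hG1
    refine ⟨g₀, h0, ?_⟩
    intro a ha h2
    apply h1 a ha
    apply hinj
    have h3 : algebraMap K[X] (RatFunc K) (C a) = algebraMap K (RatFunc K) a := by
      rw [← algebraMap_eq, ← IsScalarTower.algebraMap_apply]
    rw [map_zero, eval_hom, hb', h3, eval_mul, h2, mul_zero]
  obtain ⟨a, haS, ha, hno⟩ := hK (s.biUnion t) (by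
    intro h hh
    rw [Finset.mem_biUnion] at hh
    obtain ⟨f, hf, hft⟩ := hh
    exact ht f hf h hft) (g₀ * ∏ h ∈ s, G h) (by
      apply mul_ne_zero hg₀
      rw [Finset.prod_ne_zero_iff]
      exact fun h hh => hG0 h hh)
  rw [eval_mul, eval_prod] at ha
  refine ⟨algebraMap K (RatFunc K) a, ⟨a, haS, rfl⟩, hg₁ a (left_ne_zero_of_mul ha), ?_⟩
  intro h hh ρ
  refine hfin h hh a ?_ ?_ ρ
  · exact Finset.prod_ne_zero_iff.mp (right_ne_zero_of_mul ha) h hh
  · intro f hf ρ'
    exact hno f (Finset.mem_biUnion.mpr ⟨h, hh, hf⟩) ρ'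

end MP7Z
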