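import Pool.Agent.Lib.MP_7f581e_Z.Alt.Spec
import Pool.Agent.Lib.HilbertFq.WHk

/-!
# Alternating step: the weak Hilbert property implies the Hilbert property, with the same values
-/

set_option autoImplicit false

namespace MP7Z

open Polynomial HilbertFq MP7fL MP7fR

theorem tHRc : HRcStmt := by
  classical
  intro K _ S hK f hirr hsep g hg
  let Ω := (f.map (algebraMap K[X] (RatFunc K))).SplittingField
  have hgal : IsGalois (RatFunc K) Ω := IsGalois.of_separable_splitting_field hsep
  have hsplit : (f.map (algebraMap K[X] Ω)).Splits := by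
    have h1 : ((f.map (algebraMap K[X] (RatFunc K))).map (algebraMap (RatFunc K) Ω)).Splits :=
      SplittingField.splits _
    rw [Polynomial.map_map, ← IsScalarTower.algebraMap_eq K[X] (RatFunc K) Ω] at h1
    exact h1
  obtain ⟨ι, hι, m, hm, hmain⟩ := exists_family_aux (F := RatFunc K) (Ω := Ω) f hirr hsplit
  have hfin : Fintype ι := Fintype.ofFinite ι
  have hf0 : f ≠ 0 := by
    rintro rfl
    rw [Polynomial.map_zero] at hirr
    exact not_irreducible_zero hirr
  obtain ⟨a, haS, ha1, ha2⟩ := hK (Finset.univ.image m) (by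
    intro h hh
    obtain ⟨i, -, rfl⟩ := Finset.mem_image.mp hh
    refine ⟨(hm i).1, (hm i).2.2.2, fun y hy => ?_⟩
    have h1 : Irreducible (m i) :=
      ((hm i).1.irreducible_iff_irreducible_map_fraction_map (K := RatFunc K)).mpr (hm i).2.2.1
    have h2 : X - C y ∣ m i := dvd_iff_isRoot.mpr hy
    obtain ⟨c, hc⟩ := h2
    rcases h1.isUnit_or_isUnit hc with h3 | h3
    · exact not_isUnit_X_sub_C y h3
    · have h4 : (m i).natDegree = 1 := by
        have h5 : c.natDegree = 0 := natDegree_eq_zero_of_isUnit h3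
        have h6 : c ≠ 0 := h3.ne_zero
        rw [hc, natDegree_mul (X_sub_C_ne_zero y) h6, natDegree_X_sub_C, h5]
      have := (hm i).2.1
      omega) (g * f.leadingCoeff)
    (mul_ne_zero hg (leadingCoeff_ne_zero.mpr hf0))
  rw [eval_mul] at ha1
  exact ⟨a, haS, left_ne_zero_of_mul ha1, hmain a (right_ne_zero_of_mul ha1)
    fun i z => ha2 (m i) (Finset.mem_image_of_mem m (Finset.mem_univ i)) z⟩

end MP7Z
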