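import Pool.Agent.Lib.MP_7f581e_Z.Alt.Spec
import Pool.Agent.Lib.MP_7f581e_Z.Lie.Fam

/-!
# Alternating step: specialization of Galois groups
-/

set_option autoImplicit false

namespace MP7Z

open Polynomial MP7fS

namespace HilbM

/-- A primitive element which is integral, with denominators. -/
theorem prim_int {A E N : Type} [CommRing A] [IsDomain A] [IsIntegrallyClosed A] [Field E]
    [Algebra A E] [IsFractionRing A E] [Field N] [Algebra E N] [Algebra A N]
    [IsScalarTower A E N] {ι : Type} [Finite ι] (z : ι → N) (hz : ∀ i, IsSeparable E (z i)) :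
    ∃ (θ : N) (Q : A[X]), Q.Monic ∧ Irreducible (Q.map (algebraMap A E)) ∧
      (Q.map (algebraMap A E)).Separable ∧ Q.eval₂ (algebraMap A N) θ = 0 ∧
      ∃ c : A, c ≠ 0 ∧ ∃ P : ι → A[X], ∀ i,
        algebraMap A N c * z i = (P i).eval₂ (algebraMap A N) θ := by
  classical
  have := Fintype.ofFinite ι
  let M : IntermediateField E N := IntermediateField.adjoin E (Set.range z)
  have hsep : Algebra.IsSeparable E M := by
    refine (IntermediateField.isSeparable_adjoin_iff_isSeparable E N).2 ?_
    rintro _ ⟨i, rfl⟩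
    exact hz i
  have hfin : FiniteDimensional E M := by
    refine IntermediateField.finiteDimensional_adjoin ?_
    rintro _ ⟨i, rfl⟩
    exact (hz i).isIntegral
  obtain ⟨θ', hθ'⟩ := Field.exists_primitive_element E M
  have halg : IsAlgebraic A θ' :=
    (IsFractionRing.isAlgebraic_iff A E M).2 (Algebra.IsAlgebraic.isAlgebraic θ')
  obtain ⟨a, ha, hint⟩ := halg.exists_integral_multiple
  have ha' : algebraMap A E a ≠ 0 := by
    rwa [ne_eq, IsFractionRing.to_map_eq_zero_iff]
  have hint' : IsIntegral A (a • θ') := hint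
  have htow : IsScalarTower A M N := IsScalarTower.of_algebraMap_eq fun r =>
    (IsScalarTower.algebraMap_apply A E N r).trans
      (congrArg (algebraMap M N) (IsScalarTower.algebraMap_apply A E M r)).symm
  have htop : IntermediateField.adjoin E {a • θ'} = ⊤ := by
    rw [eq_top_iff, ← hθ', IntermediateField.adjoin_simple_le_iff]
    have h1 : θ' = (algebraMap A E a)⁻¹ • (a • θ') := by
      rw [← algebraMap_smul E a θ', smul_smul, inv_mul_cancel₀ ha', one_smul]
    have h2 : (algebraMap A E a)⁻¹ • (a • θ') ∈ IntermediateField.adjoin E {a • θ'} :=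
      (IntermediateField.adjoin E {a • θ'}).smul_mem
        (IntermediateField.mem_adjoin_simple_self E (a • θ'))
    rwa [← h1] at h2
  have hmin : minpoly E (a • θ') = (minpoly A (a • θ')).map (algebraMap A E) :=
    minpoly.isIntegrallyClosed_eq_field_fractions' E hint'
  have hintE : IsIntegral E (a • θ') := Algebra.IsIntegral.isIntegral _
  have hR : ∀ i, ∃ R : E[X], z i = R.eval₂ (algebraMap E N) ((a • θ' : M) : N) := by
    intro i
    have h1 : (⟨z i, IntermediateField.subset_adjoin E _ ⟨i, rfl⟩⟩ : M) ∈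
        (IntermediateField.adjoin E {a • θ'}).toSubalgebra := by
      rw [htop]
      trivial
    rw [IntermediateField.adjoin_simple_toSubalgebra_of_isAlgebraic hintE.isAlgebraic,
      Algebra.adjoin_singleton_eq_range_aeval] at h1
    obtain ⟨R, hR⟩ := h1
    refine ⟨R, ?_⟩
    have h2 := congrArg (algebraMap M N) hR
    have h3 : algebraMap M N ((aeval (a • θ') : E[X] →ₐ[E] M).toRingHom R) =
        R.eval₂ (algebraMap E N) (algebraMap M N (a • θ')) := by
      change algebraMap M N (aeval (a • θ') R) = _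
      rw [← aeval_algebraMap_apply, aeval_def]
    exact h2.symm.trans h3
  choose R hR using hR
  have hP : ∀ i, ∃ b : A, b ≠ 0 ∧ ∃ P : A[X], P.map (algebraMap A E) =
      C (algebraMap A E b) * R i := by
    intro i
    obtain ⟨b, hb, hb'⟩ := IsLocalization.integerNormalization_spec (nonZeroDivisors A) (R i)
    refine ⟨b, nonZeroDivisors.ne_zero hb, _, hb'.trans ?_⟩
    rw [← algebraMap_smul E b (R i), smul_eq_C_mul]
  choose b hb P hP using hP
  have hbP : ∀ i, algebraMap A N (b i) * z i = (P i).eval₂ (algebraMap A N) ((a • θ' : M) : N) := by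
    intro i
    rw [IsScalarTower.algebraMap_eq A E N, ← eval₂_map, hP, eval₂_mul, eval₂_C, ← hR]
    rfl
  refine ⟨((a • θ' : M) : N), minpoly A (a • θ'), minpoly.monic hint', ?_, ?_, ?_, ∏ i, b i,
    Finset.prod_ne_zero_iff.2 fun i _ => hb i,
    fun i => C (∏ j ∈ Finset.univ.erase i, b j) * P i, fun i => ?_⟩
  · rw [← hmin]
    exact minpoly.irreducible hintE
  · rw [← hmin]
    exact Algebra.IsSeparable.isSeparable E (a • θ')
  · have h1 := congrArg (algebraMap M N) (minpoly.aeval A (a • θ'))
    rw [map_zero, ← aeval_algebraMap_apply, aeval_def] at h1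
    exact h1
  · rw [eval₂_mul, eval₂_C, ← hbP, ← mul_assoc, ← map_mul,
      Finset.prod_erase_mul _ _ (Finset.mem_univ i)]

/-- Extension of a specialization. -/
theorem spec_ext {B N Ω : Type} [CommRing B] [Field N] [Field Ω] (jB : B →+* N)
    (hj : Function.Injective jB) (ev : B →+* Ω) (s : Ω →+* B) (hs : ∀ a, ev (s a) = a) :
    ∃ (κ : Type) (_ : CommRing κ) (_ : IsDomain κ) (O : Type) (_ : CommRing O) (inc : O →+* N)
      (φ : O →+* κ) (lam : Ω →+* κ) (oB : B →+* O), Function.Injective inc ∧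
      inc.comp oB = jB ∧ φ.comp oB = lam.comp ev ∧ ∀ z, jB.IsIntegralElem z → ∃ o, inc o = z := by
  let _ : Algebra B N := jB.toAlgebra
  have hjB : algebraMap B N = jB := rfl
  have hinj : Function.Injective (algebraMap B (integralClosure B N)) := by
    intro a b hab
    apply hj
    have h1 := congrArg (algebraMap (integralClosure B N) N) hab
    exact h1
  have hker : RingHom.ker (algebraMap B (integralClosure B N)) ≤ RingHom.ker ev := by
    rw [(RingHom.injective_iff_ker_eq_bot _).1 hinj]
    exact bot_le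
  have hprime : (RingHom.ker ev).IsPrime := RingHom.ker_isPrime ev
  have hdom : IsDomain B := hj.isDomain jB
  obtain ⟨M, hM, hM'⟩ := Ideal.exists_ideal_over_prime_of_isIntegral_of_isDomain
    (R := B) (S := integralClosure B N) (RingHom.ker ev) hker
  refine ⟨integralClosure B N ⧸ M, inferInstance, inferInstance, integralClosure B N,
    inferInstance, algebraMap (integralClosure B N) N, Ideal.Quotient.mk M,
    (Ideal.Quotient.mk M).comp ((algebraMap B (integralClosure B N)).comp s),
    algebraMap B (integralClosure B N), Subtype.val_injective, rfl, ?_, ?_⟩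
  · ext b
    change Ideal.Quotient.mk M (algebraMap B (integralClosure B N) b) =
      Ideal.Quotient.mk M (algebraMap B (integralClosure B N) (s (ev b)))
    rw [Ideal.Quotient.eq, ← map_sub]
    have h1 : b - s (ev b) ∈ RingHom.ker ev := by
      rw [RingHom.mem_ker, map_sub, hs, sub_self]
    rw [← hM'] at h1
    exact h1
  · intro z hz
    exact ⟨⟨z, hz⟩, rfl⟩

/-- Roots of split polynomials in a domain. -/
theorem root_mem {Ω κ : Type} [Field Ω] [CommRing κ] [IsDomain κ] (lam : Ω →+* κ) (q : Polynomial Ω)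
    (hq : q.Splits) (hq0 : q ≠ 0) (t : κ) (ht : q.eval₂ lam t = 0) :
    ∃ ω, q.eval ω = 0 ∧ lam ω = t := by
  rw [hq.eq_prod_roots, eval₂_mul, eval₂_C, mul_eq_zero] at ht
  rcases ht with ht | ht
  · rw [map_eq_zero_iff _ lam.injective, leadingCoeff_eq_zero] at ht
    exact absurd ht hq0
  · rw [← coe_eval₂RingHom, map_multiset_prod, Multiset.prod_eq_zero_iff, Multiset.map_map,
      Multiset.mem_map] at ht
    obtain ⟨ω, hω, hω'⟩ := ht
    refine ⟨ω, (mem_roots hq0).1 hω, ?_⟩
    rw [Function.comp_apply, coe_eval₂RingHom, eval₂_sub, eval₂_X, eval₂_C, sub_eq_zero] at hω'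
    exact hω'.symm

/-- Extension of a specialization, with values in the field. -/
theorem spec_ext' {B N Ω : Type} [CommRing B] [Field N] [Field Ω] (jB : B →+* N)
    (hj : Function.Injective jB) (ev : B →+* Ω) (s : Ω →+* B) (hs : ∀ a, ev (s a) = a) :
    ∃ (R : Type) (_ : CommRing R) (inc : R →+* N) (Φ : R →+* Ω) (oB : B →+* R),
      Function.Injective inc ∧ inc.comp oB = jB ∧ Φ.comp oB = ev ∧
      ∀ q : B[X], q.Monic → (q.map ev).Splits → ∀ z, q.eval₂ jB z = 0 → ∃ r, inc r = z := by
  obtain ⟨κ, _, _, O, _, inc, φ, lam, oB, hinc, hoB, hφ, hint⟩ := spec_ext jB hj ev s hs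
  let R : Subring O := lam.range.comap φ
  let E : Ω ≃+* lam.range := RingEquiv.ofBijective lam.rangeRestrict
    ⟨fun a b hab => lam.injective (congrArg Subtype.val hab), lam.rangeRestrict_surjective⟩
  let φR : R →+* lam.range := (φ.comp R.subtype).codRestrict lam.range fun r => r.2
  have hE : ∀ r : R, lam (E.symm (φR r)) = φ r := by
    intro r
    have h1 : E (E.symm (φR r)) = φR r := E.apply_symm_apply _
    exact congrArg Subtype.val h1
  have hmem : ∀ b, oB b ∈ R := fun b => ⟨ev b, (RingHom.congr_fun hφ b).symm⟩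
  refine ⟨R, inferInstance, inc.comp R.subtype, (E.symm : lam.range →+* Ω).comp φR,
    oB.codRestrict R hmem, fun a b hab => Subtype.ext (hinc hab), ?_, ?_, ?_⟩
  · ext b
    exact RingHom.congr_fun hoB b
  · ext b
    apply lam.injective
    exact (hE _).trans (RingHom.congr_fun hφ b)
  · intro q hq hqs z hz
    obtain ⟨o, ho⟩ := hint z ⟨q, hq, hz⟩
    have h1 : q.eval₂ oB o = 0 := by
      apply hinc
      rw [hom_eval₂, hoB, ho, hz, map_zero]
    have h2 : (q.map ev).eval₂ lam (φ o) = 0 := by
      rw [eval₂_map, ← hφ, ← hom_eval₂, h1, map_zero]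
    obtain ⟨ω, -, hω⟩ := root_mem lam _ hqs (hq.map ev).ne_zero _ h2
    exact ⟨⟨o, ω, hω⟩, ho⟩

/-- Elements of `Ω` are separable. -/
theorem sep_const {p : ℕ} [Fact p.Prime] {Ω : Type} [Field Ω] [Algebra (ZMod p) Ω] {x : Ω}
    (hst : IsStage p x) {E N : Type} [Field E] [Field N] [Algebra E N] [Algebra Ω N]
    (i : IntermediateField.adjoin (ZMod p) {x} →+* E)
    (hi : (algebraMap E N).comp i =
      (algebraMap Ω N).comp (algebraMap (IntermediateField.adjoin (ZMod p) {x}) Ω)) (ω : Ω) :
    IsSeparable E (algebraMap Ω N ω) := by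
  have hsep := hst.sep
  have h1 : ((minpoly (IntermediateField.adjoin (ZMod p) {x}) ω).map i).Separable :=
    Polynomial.Separable.map
      (Algebra.IsSeparable.isSeparable (IntermediateField.adjoin (ZMod p) {x}) ω)
  refine h1.of_dvd (minpoly.dvd E _ ?_)
  rw [aeval_def, eval₂_map, hi, ← hom_eval₂, ← aeval_def, minpoly.aeval, map_zero]

/-- The roots are separable. -/
theorem sep_roots {E N Λ : Type} [Field E] [Field N] [Algebra E N] [CommRing Λ] {n : ℕ}
    (g : Λ[X]) (evN : Λ →+* N) (η : Fin n → N) (hev : ∀ a, IsSeparable E (evN a))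
    (hη : Function.Injective η) (ℓ : Λ) (hℓ : evN ℓ ≠ 0)
    (hg : g.map evN = C (evN ℓ) * ∏ i, (X - C (η i))) (i : Fin n) : IsSeparable E (η i) := by
  let evS : Λ →+* separableClosure E N := evN.codRestrict (separableClosure E N)
    fun a => mem_separableClosure_iff.2 (hev a)
  have hG : (g.map evS).map (algebraMap (separableClosure E N) N) = g.map evN := by
    rw [Polynomial.map_map]
    rfl
  have hsep : (g.map evN).Separable := by
    rw [hg]
    exact (separable_prod_X_sub_C_iff.2 hη).unit_mul (isUnit_C.2 (isUnit_iff_ne_zero.2 hℓ))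
  have hsepG : (g.map evS).Separable := by
    rw [← hG] at hsep
    exact (Polynomial.separable_map _).1 hsep
  have h1 : IsSeparable (separableClosure E N) (η i) := by
    refine hsepG.of_dvd (minpoly.dvd _ _ ?_)
    rw [aeval_def, ← eval_map, hG, hg, eval_mul, eval_prod, Finset.prod_eq_zero
      (Finset.mem_univ i), mul_zero]
    rw [eval_sub, eval_X, eval_C, sub_self]
  exact IsSeparable.of_algebra_isSeparable_of_isSeparable E h1

end HilbM

open HilbM in
/-- **Specialization of Galois groups.** -/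
theorem tHilb (h0 : HR2Stmt) : HilbStmt := by
  intro p _ Ω _ _ x hst G _ _ ψ hfin hsurj L hL N _ _ _ U T hUT halg n g ℓ c η evN hevN hη hℓ
    hc hg
  obtain ⟨α, -, hα1, hα2⟩ := FamM.exists_gen hst ψ hfin
  have hsc := hst.sepClosed
  -- the fields and rings
  let F := IntermediateField.adjoin (ZMod p) {x}
  let e : RatFunc (ZMod p) ≃ₐ[ZMod p] F := RatFunc.algEquivOfTranscendental x hst.transc
  let ι : RatFunc (ZMod p) →+* Ω :=
    (algebraMap F Ω).comp (e : RatFunc (ZMod p) →+* F)
  have hι : ∀ a : (ZMod p)[X], ι (algebraMap (ZMod p)[X] (RatFunc (ZMod p)) a) = aeval x a := by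
    intro a
    change algebraMap F Ω (e (algebraMap (ZMod p)[X] (RatFunc (ZMod p)) a)) = _
    rw [RatFunc.algEquivOfTranscendental_algebraMap, ← aeval_algebraMap_apply]
    rfl
  let mapA : MvPolynomial (Fin 2) (RatFunc (ZMod p)) →+* MvPolynomial (Fin 2) Ω :=
    MvPolynomial.map ι
  let mapL : MvPolynomial (Fin 2) L →+* MvPolynomial (Fin 2) Ω :=
    MvPolynomial.map (algebraMap L Ω)
  let jB : MvPolynomial (Fin 2) Ω →+* N :=
    MvPolynomial.eval₂Hom (algebraMap Ω N) ![U, T]
  have hjB : Function.Injective jB := by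
    intro a b hab
    exact hUT hab
  have hmapA : Function.Injective mapA := MvPolynomial.map_injective _ ι.injective
  have hmapL : Function.Injective mapL := MvPolynomial.map_injective _ (algebraMap L Ω).injective
  have hevN' : evN = jB.comp mapL := by
    rw [hevN]
    refine MvPolynomial.ringHom_ext (fun a => ?_) (fun i => ?_)
    · simp [jB, mapL]
    · simp [jB, mapL]
  let jA : MvPolynomial (Fin 2) (RatFunc (ZMod p)) →+* N := jB.comp mapA
  have hjA : Function.Injective jA := hjB.comp hmapA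
  have hinjN : Function.Injective evN := by
    rw [hevN']
    exact hjB.comp hmapL
  have hℓN : evN ℓ ≠ 0 := fun h => hℓ (hinjN (h.trans (map_zero evN).symm))
  have hcN : evN c ≠ 0 := fun h => hc (hinjN (h.trans (map_zero evN).symm))
  let _ : Algebra (MvPolynomial (Fin 2) (RatFunc (ZMod p))) N := jA.toAlgebra
  let _ : Algebra (FractionRing (MvPolynomial (Fin 2) (RatFunc (ZMod p)))) N :=
    (IsFractionRing.lift hjA : FractionRing (MvPolynomial (Fin 2) (RatFunc (ZMod p))) →+* N).toAlgebra
  have htow : IsScalarTower (MvPolynomial (Fin 2) (RatFunc (ZMod p)))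
      (FractionRing (MvPolynomial (Fin 2) (RatFunc (ZMod p)))) N :=
    IsScalarTower.of_algebraMap_eq fun r => (IsFractionRing.lift_algebraMap hjA r).symm
  -- separability
  let iF : F →+* FractionRing (MvPolynomial (Fin 2) (RatFunc (ZMod p))) :=
    (algebraMap (MvPolynomial (Fin 2) (RatFunc (ZMod p)))
      (FractionRing (MvPolynomial (Fin 2) (RatFunc (ZMod p))))).comp
      ((MvPolynomial.C : RatFunc (ZMod p) →+* MvPolynomial (Fin 2) (RatFunc (ZMod p))).comp
        (e.symm : F →+* RatFunc (ZMod p)))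
  have hiF : (algebraMap (FractionRing (MvPolynomial (Fin 2) (RatFunc (ZMod p)))) N).comp iF =
      (algebraMap Ω N).comp (algebraMap F Ω) := by
    ext y
    have h1 : algebraMap (FractionRing (MvPolynomial (Fin 2) (RatFunc (ZMod p)))) N (iF y) =
        jA (MvPolynomial.C (e.symm y)) :=
      (IsScalarTower.algebraMap_apply (MvPolynomial (Fin 2) (RatFunc (ZMod p)))
        (FractionRing (MvPolynomial (Fin 2) (RatFunc (ZMod p)))) N _).symm
    have h2 : jA (MvPolynomial.C (e.symm y)) = algebraMap Ω N (ι (e.symm y)) := by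
      simp [jA, jB, mapA]
    have h3 : ι (e.symm y) = algebraMap F Ω y := by
      change algebraMap F Ω (e (e.symm y)) = _
      rw [AlgEquiv.apply_symm_apply]
    exact (h1.trans h2).trans (congrArg _ h3)
  have hsΩ : ∀ ω : Ω, IsSeparable (FractionRing (MvPolynomial (Fin 2) (RatFunc (ZMod p))))
      (algebraMap Ω N ω) := sep_const hst iF hiF
  have hsX : ∀ i : Fin 2, ![U, T] i ∈ separableClosure
      (FractionRing (MvPolynomial (Fin 2) (RatFunc (ZMod p)))) N := by
    intro i
    have h1 : ![U, T] i = algebraMap (FractionRing (MvPolynomial (Fin 2) (RatFunc (ZMod p)))) N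
        (algebraMap (MvPolynomial (Fin 2) (RatFunc (ZMod p))) _ (MvPolynomial.X i)) := by
      rw [← IsScalarTower.algebraMap_apply]
      change _ = jA (MvPolynomial.X i)
      simp [jA, jB, mapA]
    rw [h1]
    exact IntermediateField.algebraMap_mem _ _
  have hev : ∀ a, evN a ∈ separableClosure
      (FractionRing (MvPolynomial (Fin 2) (RatFunc (ZMod p)))) N := by
    intro a
    induction a using MvPolynomial.induction_on with
    | C a =>
      rw [hevN, MvPolynomial.coe_eval₂Hom, MvPolynomial.eval₂_C]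
      exact hsΩ _
    | add a b ha hb =>
      rw [map_add]
      exact add_mem ha hb
    | mul_X a i ha =>
      rw [map_mul]
      refine mul_mem ha ?_
      rw [hevN, MvPolynomial.coe_eval₂Hom, MvPolynomial.eval₂_X]
      exact hsX i
  have hηs := sep_roots g evN η hev hη ℓ hℓN hg
  let z : Fin n ⊕ Fin 3 → N := Sum.elim η ![algebraMap Ω N α, (evN ℓ)⁻¹, (evN c)⁻¹]
  have hz : ∀ i, IsSeparable (FractionRing (MvPolynomial (Fin 2) (RatFunc (ZMod p)))) (z i) := by
    rintro (i | i)
    · exact hηs i
    · fin_cases i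
      · exact hsΩ α
      · exact inv_mem (hev ℓ)
      · exact inv_mem (hev c)
  obtain ⟨θ, Q, hQm, hQi, hQs, hQθ, c₀, hc₀, P, hP⟩ :=
    prim_int (A := MvPolynomial (Fin 2) (RatFunc (ZMod p))) z hz
  change Q.eval₂ jA θ = 0 at hQθ
  have hP' : ∀ i, jA c₀ * z i = (P i).eval₂ jA θ := hP
  obtain ⟨a, b, hab⟩ := h0 p Q hQm hQi hQs c₀ hc₀
  let evA : MvPolynomial (Fin 2) (RatFunc (ZMod p)) →+* RatFunc (ZMod p) :=
    MvPolynomial.eval ![algebraMap (ZMod p)[X] (RatFunc (ZMod p)) a,
        algebraMap (ZMod p)[X] (RatFunc (ZMod p)) b]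
  obtain ⟨hd, hirr, hsepQ⟩ := hab evA rfl
  let evB : MvPolynomial (Fin 2) Ω →+* Ω := MvPolynomial.eval ![aeval x a, aeval x b]
  have hevB : evB.comp mapA = ι.comp evA := by
    refine MvPolynomial.ringHom_ext (fun k => ?_) (fun i => ?_)
    · simp [evB, evA, mapA]
    · fin_cases i
      · simp [evB, evA, mapA, hι]
      · simp [evB, evA, mapA, hι]
  obtain ⟨R, _, inc, Φ, oB, hinc, hoB, hΦ, hroot⟩ := spec_ext' jB hjB evB
    (MvPolynomial.C : Ω →+* MvPolynomial (Fin 2) Ω) (fun a => by simp [evB])
  have hQsp : ((Q.map mapA).map evB).Splits := by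
    rw [Polynomial.map_map, hevB, ← Polynomial.map_map]
    exact hsc.splits_of_separable _ (Polynomial.Separable.map hsepQ)
  have hrootQ : ∀ t : N, Q.eval₂ jA t = 0 → ∃ r, inc r = t := by
    intro t ht
    refine hroot (Q.map mapA) (hQm.map _) hQsp t ?_
    rw [eval₂_map]
    exact ht
  have hincP : ∀ (P : (MvPolynomial (Fin 2) (RatFunc (ZMod p)))[X]) (r : R),
      inc (P.eval₂ (oB.comp mapA) r) = P.eval₂ jA (inc r) := by
    intro P r
    rw [hom_eval₂, ← RingHom.comp_assoc, hoB]
  have hΦP : ∀ (P : (MvPolynomial (Fin 2) (RatFunc (ZMod p)))[X]) (r : R),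
      Φ (P.eval₂ (oB.comp mapA) r) = P.eval₂ (ι.comp evA) (Φ r) := by
    intro P r
    rw [hom_eval₂, ← RingHom.comp_assoc, hΦ, hevB]
  have hincB : ∀ b, inc (oB b) = jB b := fun b => RingHom.congr_fun hoB b
  have hΦB : ∀ b, Φ (oB b) = evB b := fun b => RingHom.congr_fun hΦ b
  have hevBA : ∀ k, evB (mapA k) = ι (evA k) := fun k => RingHom.congr_fun hevB k
  have hroot0 : ∀ r : R, Q.eval₂ jA (inc r) = 0 → Q.eval₂ (ι.comp evA) (Φ r) = 0 := by
    intro r hr
    rw [← hΦP]
    have h1 : Q.eval₂ (oB.comp mapA) r = 0 := by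
      apply hinc
      rw [hincP, hr, map_zero]
    rw [h1, map_zero]
  obtain ⟨r, hr⟩ := hrootQ θ hQθ
  have hω0 := hroot0 r (by rw [hr]; exact hQθ)
  have hd0 : ι (evA c₀) ≠ 0 := by
    rw [ne_eq, map_eq_zero_iff _ ι.injective]
    exact hd
  -- elements with inverses
  have hinv : ∀ (s : MvPolynomial (Fin 2) L) (i : Fin n ⊕ Fin 3), evN s ≠ 0 →
      z i = (evN s)⁻¹ → evB (mapL s) ≠ 0 := by
    intro s i hs hi h
    have hs' : evN s = jB (mapL s) := RingHom.congr_fun hevN' s
    have h1 : oB (mapA c₀) = (P i).eval₂ (oB.comp mapA) r * oB (mapL s) := by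
      apply hinc
      rw [map_mul, hincP, hincB, hincB, hr, ← hP', hi, ← hs', mul_assoc, inv_mul_cancel₀ hs,
        mul_one]
      rfl
    have h2 := congrArg Φ h1
    rw [map_mul, hΦB, hΦB, h, mul_zero, hevBA] at h2
    exact hd0 h2
  refine ⟨aeval x a, aeval_mem_adjoin_singleton _ _, aeval x b, aeval_mem_adjoin_singleton _ _,
    fun ev hevv => ?_⟩
  have hev' : ev = evB.comp mapL := by
    rw [hevv]
    refine MvPolynomial.ringHom_ext (fun a => ?_) (fun i => ?_)
    · simp [evB, mapL]
    · simp [evB, mapL]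
  refine ⟨?_, ?_, fun i => (P (Sum.inl i)).eval₂ (ι.comp evA) (Φ r) / ι (evA c₀), ?_, ?_⟩
  · rw [hev']
    exact hinv ℓ (Sum.inr 1) hℓN rfl
  · rw [hev']
    exact hinv c (Sum.inr 2) hcN rfl
  · -- the factorization
    have h1 : C (oB (mapA c₀)) ^ n * g.map (oB.comp mapL) = C (oB (mapL ℓ)) *
        ∏ i : Fin n, (C (oB (mapA c₀)) * X - C ((P (Sum.inl i)).eval₂ (oB.comp mapA) r)) := by
      apply Polynomial.map_injective inc hinc
      rw [Polynomial.map_mul, Polynomial.map_pow, map_C, Polynomial.map_map,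
        ← RingHom.comp_assoc, hoB, ← hevN', hg, Polynomial.map_mul, map_C, Polynomial.map_prod,
        hincB, hincB]
      have h2 : ∀ i : Fin n, Polynomial.map inc (C (oB (mapA c₀)) * X -
          C ((P (Sum.inl i)).eval₂ (oB.comp mapA) r)) = C (jA c₀) * (X - C (η i)) := by
        intro i
        rw [Polynomial.map_sub, Polynomial.map_mul, map_C, map_X, map_C, hincP, hincB, hr, ← hP',
          mul_sub, ← C_mul]
        rfl
      rw [Finset.prod_congr rfl fun i _ => h2 i, Finset.prod_mul_distrib, Finset.prod_const,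
        Finset.card_univ, Fintype.card_fin, hevN']
      change C (jA c₀) ^ n * (C (jB (mapL ℓ)) * _) = _
      ring
    have h3 := congrArg (Polynomial.map Φ) h1
    rw [Polynomial.map_mul, Polynomial.map_pow, map_C, Polynomial.map_map,
      ← RingHom.comp_assoc, hΦ, ← hev', Polynomial.map_mul, map_C, Polynomial.map_prod,
      hΦB, hΦB, hevBA] at h3
    have h4 : ∀ i : Fin n, Polynomial.map Φ (C (oB (mapA c₀)) * X -
        C ((P (Sum.inl i)).eval₂ (oB.comp mapA) r)) = C (ι (evA c₀)) *
          (X - C ((P (Sum.inl i)).eval₂ (ι.comp evA) (Φ r) / ι (evA c₀))) := by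
      intro i
      rw [Polynomial.map_sub, Polynomial.map_mul, map_C, map_X, map_C, hΦP, hΦB, hevBA, mul_sub,
        ← C_mul, mul_div_cancel₀ _ hd0]
    rw [Finset.prod_congr rfl fun i _ => h4 i, Finset.prod_mul_distrib, Finset.prod_const,
      Finset.card_univ, Fintype.card_fin] at h3
    have h5 : C (ι (evA c₀)) ^ n ≠ 0 := pow_ne_zero _ (C_ne_zero.2 hd0)
    apply mul_left_cancel₀ h5
    rw [h3, hev']
    exact mul_left_comm _ _ _
  · intro σ hσL hσU hσT π hπ
    -- `σ` fixes the coefficients
    have hιL : ∀ k, ι k ∈ L := by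
      intro k
      rw [hL]
      intro γ _
      exact SplM.toFix γ.2 (e k).2
    have hσA : (σ : N →+* N).comp jA = jA := by
      refine MvPolynomial.ringHom_ext (fun k => ?_) (fun i => ?_)
      · have h1 : jA (MvPolynomial.C k) = algebraMap Ω N (ι k) := by
          simp [jA, jB, mapA]
        rw [RingHom.comp_apply, h1]
        exact hσL ⟨ι k, hιL k⟩
      · have h1 : jA (MvPolynomial.X i) = ![U, T] i := by
          simp [jA, jB, mapA]
        rw [RingHom.comp_apply, h1]
        fin_cases i
        · exact hσU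
        · exact hσT
    have hσP : ∀ P : (MvPolynomial (Fin 2) (RatFunc (ZMod p)))[X],
        σ (P.eval₂ jA θ) = P.eval₂ jA (σ θ) := by
      intro P
      have h1 := hom_eval₂ P jA (σ : N →+* N) θ
      rw [hσA] at h1
      exact h1
    have hσc : σ (jA c₀) = jA c₀ := RingHom.congr_fun hσA c₀
    obtain ⟨r', hr'⟩ := hrootQ (σ θ) (by rw [← hσP, hQθ, map_zero])
    have hω0' := hroot0 r' (by rw [hr', ← hσP, hQθ, map_zero])
    have hrel : ∀ i j, σ (z i) = z j →
        (P j).eval₂ (ι.comp evA) (Φ r) = (P i).eval₂ (ι.comp evA) (Φ r') := by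
      intro i j hij
      rw [← hΦP, ← hΦP]
      congr 1
      apply hinc
      rw [hincP, hincP, hr, hr', ← hσP, ← hP', ← hP', map_mul, hσc, hij]
    -- the automorphism
    have hsepF := hst.sep
    have hclos : IsSepClosure F Ω := ⟨hsc, hsepF⟩
    have hgal : IsGalois F Ω := inferInstance
    let eF : RatFunc (ZMod p) ≃+* F := e.toRingEquiv
    have hirrF : Irreducible ((Q.map evA).map (eF : RatFunc (ZMod p) →+* F)) := by
      have h1 := (MulEquiv.irreducible_iff (Polynomial.mapEquiv eF).toMulEquiv).2 hirr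
      exact h1
    have hmin : ∀ w : Ω, Q.eval₂ (ι.comp evA) w = 0 →
        (Q.map evA).map (eF : RatFunc (ZMod p) →+* F) = minpoly F w := by
      intro w hw
      refine minpoly.eq_of_irreducible_of_monic hirrF ?_ ((hQm.map _).map _)
      rw [aeval_def, eval₂_map, eval₂_map]
      exact hw
    have hconj : IsConjRoot F (Φ r') (Φ r) := (hmin _ hω0').symm.trans (hmin _ hω0)
    obtain ⟨τ, hτ⟩ := isConjRoot_iff_exists_algEquiv.1 hconj
    have hτι : ∀ k, τ (ι k) = ι k := fun k => τ.commutes (e k)
    have hτP : ∀ P : (MvPolynomial (Fin 2) (RatFunc (ZMod p)))[X],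
        τ (P.eval₂ (ι.comp evA) (Φ r)) = P.eval₂ (ι.comp evA) (Φ r') := by
      intro P
      have h1 := hom_eval₂ P (ι.comp evA) (τ : Ω →+* Ω) (Φ r)
      have h2 : ((τ : Ω →+* Ω).comp (ι.comp evA)) = ι.comp evA := by
        ext k
        · exact hτι _
        · exact hτι _
      rw [h2] at h1
      refine h1.trans ?_
      rw [← hτ]
      rfl
    refine ⟨SplM.ofGal τ, ?_, ?_⟩
    · apply hα2
      rw [SplM.ofGal_apply]
      have h1 := hrel (Sum.inr 0) (Sum.inr 0) (hσL ⟨α, (hL α).2 hα1⟩)
      have h2 : ι (evA c₀) * α = (P (Sum.inr 0)).eval₂ (ι.comp evA) (Φ r) := by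
        have h3 : oB (mapA c₀) * oB (MvPolynomial.C α) =
            (P (Sum.inr 0)).eval₂ (oB.comp mapA) r := by
          apply hinc
          rw [map_mul, hincP, hincB, hincB, hr, ← hP']
          change jA c₀ * _ = jA c₀ * algebraMap Ω N α
          simp [jB]
        have h4 := congrArg Φ h3
        rw [map_mul, hΦP, hΦB, hΦB, hevBA] at h4
        rw [← h4]
        simp [evB]
      have h5 := hτP (P (Sum.inr 0))
      rw [← h1, ← h2, map_mul, hτι] at h5
      exact mul_left_cancel₀ hd0 h5
    · intro i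
      have h1 := hrel (Sum.inl i) (Sum.inl (π i)) (hπ i)
      rw [SplM.ofGal_apply, map_div₀, hτP, hτι, ← h1]

end MP7Z
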