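import Pool.Agent.Lib.MP_7f581e_Z.Alt.Spec

namespace MP7Z

open Equiv Equiv.Perm MulAction
open scoped Pointwise

theorem tJor (hA : JorAStmt) (hB : JorBStmt) : JorStmt := by
  classical
  intro p n hpf t G σ hσ hσ1 hσp hsupp htr1 htr2
  have hp : p.Prime := hpf.out
  have hord : orderOf σ = p := by
    have h1 : orderOf σ ∣ p := orderOf_dvd_of_pow_eq_one hσp
    rcases (Nat.dvd_prime hp).mp h1 with h2 | h2
    · exact absurd (orderOf_eq_one_iff.mp h2) hσ1
    · exact h2
  have hc : σ.IsCycle := by
    apply Equiv.Perm.isCycle_of_prime_order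
    · rw [hord]
      exact hp
    · rw [hord]
      have := hp.pos
      omega
  have hcard : σ.support.card = p := by rw [← hc.orderOf, hord]
  have hprim : IsPreprimitive G (Fin n) := by
    by_cases hm : t.m = 1
    · have htr : IsPretransitive G (Fin n) := ⟨fun i l => by
        obtain ⟨g, hg, h1⟩ := htr1 hm i l
        exact ⟨⟨g, hg⟩, h1⟩⟩
      exact hA p n G htr σ hσ hc hcard (t.h1 hm)
    · have h2 : IsMultiplyPretransitive G (Fin n) 2 := by
        rw [is_two_pretransitive_iff]
        intro a b c d hab hcd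
        obtain ⟨g, hg, h1, h2⟩ := htr2 (AType.m_eq hm) a b c d hab hcd
        exact ⟨⟨g, hg⟩, h1, h2⟩
      exact isPreprimitive_of_is_two_pretransitive h2
  rcases t.hp with h3 | h3
  · exact hB p n G hprim σ hσ hc hcard h3
  · have h4 : IsThreeCycle σ := by
      rw [← card_support_eq_three_iff, hcard, h3]
    exact alternatingGroup_le_of_isPreprimitive_of_isThreeCycle_mem hprim h4 hσ

end MP7Z
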