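import Pool.Agent.Lib.MP_7f581e_Z.Alt.Spec

namespace MP7Z

open Equiv Equiv.Perm MulAction
open scoped Pointwise

theorem tJorA : JorAStmt := by
  classical
  intro p n hpf G hG σ hσ hc hcard hdiv
  have hp : p.Prime := hpf.out
  refine ⟨?_⟩
  intro B hB
  by_contra hnt
  have h1 : ¬ B.Subsingleton := fun h => hnt (Or.inl h)
  have h2 : B ≠ Set.univ := fun h => hnt (Or.inr h)
  rw [Set.not_subsingleton_iff] at h1
  have hne : B.Nonempty := h1.nonempty
  obtain ⟨x₀, hx₀⟩ : σ.support.Nonempty := by
    rw [← Finset.card_pos, hcard]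
    exact hp.pos
  obtain ⟨b, hb⟩ := hne
  obtain ⟨g, hg⟩ := MulAction.exists_smul_eq G b x₀
  set B' : Set (Fin n) := g • B with hB'def
  have hB' : IsBlock G B' := hB.translate g
  have hx₀B : x₀ ∈ B' := ⟨b, hb, hg⟩
  have hcardB : B'.ncard = B.ncard := Set.ncard_smul_set g B
  have hn : B'.ncard ∣ n := by
    have h3 := hB'.ncard_dvd_card ⟨x₀, hx₀B⟩
    rwa [Nat.card_eq_fintype_card, Fintype.card_fin] at h3
  let s : G := ⟨σ, hσ⟩
  by_cases hs : s • B' = B'
  · -- `σ` fixes the block
    have hsi : ∀ i : ℤ, s ^ i • B' = B' := by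
      intro i
      have h3 : s ∈ MulAction.stabilizer G B' := hs
      exact Subgroup.zpow_mem _ h3 i
    have hsub : (σ.support : Set (Fin n)) ⊆ B' := by
      intro y hy
      obtain ⟨i, hi⟩ := hc.sameCycle (Perm.mem_support.mp hx₀) (Perm.mem_support.mp hy)
      rw [← hsi i]
      exact ⟨x₀, hx₀B, hi⟩
    have h3 : p ≤ B'.ncard := by
      rw [← hcard, ← Set.ncard_coe_finset]
      exact Set.ncard_le_ncard hsub (Set.toFinite _)
    have h4 := hdiv _ hn h3
    apply h2
    rw [hcardB] at h4
    rw [Set.eq_univ_iff_ncard, h4, Nat.card_eq_fintype_card, Fintype.card_fin]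
  · have hdis : Disjoint (s • B') B' := by
      have h3 := (isBlock_iff_smul_eq_or_disjoint.mp hB') s
      exact h3.resolve_left hs
    have hord : σ ^ p = 1 := by
      rw [← hcard, ← hc.orderOf, pow_orderOf_eq_one]
    have hB'1 : ∀ y ∈ B', y = x₀ := by
      intro y hy
      have hysupp : y ∈ σ.support := by
        rw [Perm.mem_support]
        intro h3
        exact Set.disjoint_left.mp hdis ⟨y, hy, h3⟩ hy
      obtain ⟨i, hi⟩ := hc.sameCycle (Perm.mem_support.mp hx₀) (Perm.mem_support.mp hysupp)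
      by_cases hpi : (p : ℤ) ∣ i
      · obtain ⟨j, rfl⟩ := hpi
        rw [← hi, zpow_mul, zpow_natCast, hord, one_zpow, Perm.one_apply]
      · exfalso
        have h3 : s ^ i • B' = B' := by
          rcases (isBlock_iff_smul_eq_or_disjoint.mp hB') (s ^ i) with h4 | h4
          · exact h4
          · exact absurd hy (Set.disjoint_left.mp h4 ⟨x₀, hx₀B, hi⟩)
        have h4 : IsCoprime (p : ℤ) i :=
          (Nat.prime_iff_prime_int.mp hp).coprime_iff_not_dvd.mpr hpi
        obtain ⟨u, v, huv⟩ := h4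
        apply hs
        have h5 : s ^ (v * i) • B' = B' := by
          have h6 : s ^ i ∈ MulAction.stabilizer G B' := h3
          rw [mul_comm, zpow_mul]
          exact Subgroup.zpow_mem _ h6 v
        have h6 : s ^ (v * i) = s := by
          apply Subtype.ext
          have h7 : v * i = 1 - u * p := by linarith
          change (σ ^ (v * i) : Perm (Fin n)) = σ
          rw [h7, zpow_sub, zpow_one, mul_comm u, zpow_mul, zpow_natCast, hord, one_zpow, inv_one,
            mul_one]
        rwa [h6] at h5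
    obtain ⟨c, hc1, d, hd1, hcd⟩ := h1
    have h3 := hB'1 (g • c) ⟨c, hc1, rfl⟩
    have h4 := hB'1 (g • d) ⟨d, hd1, rfl⟩
    exact hcd (MulAction.injective g (h3.trans h4.symm))

end MP7Z
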