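import Pool.Agent.Lib.MP_7f581e_Z.Alt.Spec

namespace MP7Z

open Equiv Equiv.Perm MulAction

namespace JorBM

theorem fact_factorization (p : ℕ) (hp : p.Prime) : (p.factorial).factorization p = 1 := by
  obtain ⟨q, rfl⟩ : ∃ q, p = q + 1 := ⟨p - 1, by have := hp.pos; omega⟩
  rw [Nat.factorial_succ, Nat.factorization_mul hp.ne_zero (Nat.factorial_ne_zero q),
    Finsupp.add_apply, hp.factorization_self]
  have h1 : ¬ (q + 1) ∣ q.factorial := by
    rw [hp.dvd_factorial]
    omega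
  rw [Nat.factorization_eq_zero_of_not_dvd h1]

/-- Sylow: two subgroups of order `p` of a permutation group on `p` points are conjugate. -/
theorem conj_exists {n p : ℕ} (hp : p.Prime) (H : Subgroup (Perm (Fin n))) (S : Finset (Fin n))
    (hS : S.card = p) (hH : ∀ h ∈ H, ∀ i ∉ S, h i = i) (σ σ' : Perm (Fin n)) (hσ : σ ∈ H)
    (hσ' : σ' ∈ H) (ho : orderOf σ = p) (ho' : orderOf σ' = p) :
    ∃ h ∈ H, ∃ i : ℕ, h * σ' * h⁻¹ = σ ^ i := by
  classical
  have hfact : Fact p.Prime := ⟨hp⟩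
  -- the order of `H` divides `p!`
  have hpres : ∀ h ∈ H, ∀ i, i ∈ S ↔ h i ∈ S := by
    intro h hh i
    constructor
    · intro hi
      by_contra hcon
      have h1 := hH h hh _ hcon
      have h2 : h i = i := h.injective h1
      exact hcon (h2.symm ▸ hi)
    · intro hi
      by_contra hcon
      rw [hH h hh i hcon] at hi
      exact hcon hi
  let ρ : H →* Perm S :=
    { toFun := fun h => (h : Perm (Fin n)).subtypePerm (fun i => (hpres h h.2 i).symm)
      map_one' := rfl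
      map_mul' := fun a b => rfl }
  have hρ : Function.Injective ρ := by
    intro a b hab
    apply Subtype.ext
    ext i
    by_cases hi : i ∈ S
    · have h1 := congrArg (fun q : Perm S => ((q ⟨i, hi⟩ : S) : Fin n)) hab
      exact congrArg Fin.val h1
    · rw [hH a a.2 i hi, hH b b.2 i hi]
  have hdvd : Nat.card H ∣ p.factorial := by
    have h1 := Subgroup.card_dvd_of_injective ρ hρ
    have h2 : Nat.card (Perm S) = p.factorial := by
      rw [Nat.card_eq_fintype_card, Fintype.card_perm, Fintype.card_coe, hS]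
    rwa [h2] at h1
  have hcH : (Nat.card H).factorization p = 1 := by
    apply le_antisymm
    · have h1 := (Nat.factorization_le_iff_dvd (Nat.card_pos.ne') (Nat.factorial_ne_zero p)).mpr hdvd p
      rwa [fact_factorization p hp] at h1
    · have h1 : p ∣ Nat.card H := by
        have h2 : orderOf (⟨σ, hσ⟩ : H) = p := by rw [Subgroup.orderOf_mk, ho]
        rw [← h2]
        exact orderOf_dvd_natCard _
      exact (hp.dvd_iff_one_le_factorization Nat.card_pos.ne').mp h1
  have hcard : ∀ τ : Perm (Fin n), ∀ hτ : τ ∈ H, orderOf τ = p →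
      Nat.card (Subgroup.zpowers (⟨τ, hτ⟩ : H)) = p ^ (Nat.card H).factorization p := by
    intro τ hτ hoτ
    rw [hcH, pow_one, Nat.card_zpowers, Subgroup.orderOf_mk, hoτ]
  let P : Sylow p H := Sylow.ofCard _ (hcard σ hσ ho)
  let P' : Sylow p H := Sylow.ofCard _ (hcard σ' hσ' ho')
  obtain ⟨h, hh⟩ := MulAction.exists_smul_eq H P' P
  refine ⟨h, h.2, ?_⟩
  have h1 : h * (⟨σ', hσ'⟩ : H) * h⁻¹ ∈ P := by
    rw [← hh]
    have h2 : (⟨σ', hσ'⟩ : H) ∈ (P' : Subgroup H) := Subgroup.mem_zpowers _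
    have h3 := Subgroup.smul_mem_pointwise_smul _ (MulAut.conj h) (P' : Subgroup H) h2
    exact h3
  have h3 : h * (⟨σ', hσ'⟩ : H) * h⁻¹ ∈ Subgroup.zpowers (⟨σ, hσ⟩ : H) := h1
  rw [mem_zpowers_iff_mem_range_orderOf] at h3
  obtain ⟨i, -, hi⟩ := Finset.mem_image.mp h3
  refine ⟨i, ?_⟩
  have h4 := congrArg (Subtype.val) hi
  exact h4.symm

end JorBM

open JorBM

theorem tJorB : JorBStmt := by
  classical
  intro p n hpf G hG σ hσ hc hcard hn
  have hp : p.Prime := hpf.out
  have hp2 := hp.two_le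
  have hord : orderOf σ = p := by rw [hc.orderOf, hcard]
  set s : Set (Fin n) := (σ.support : Set (Fin n))ᶜ with hs
  have hsn : s.ncard = (n - p - 1) + 1 := by
    have h1 : ((σ.support : Set (Fin n))).ncard = p := by rw [Set.ncard_coe_finset, hcard]
    have h2 := Set.ncard_add_ncard_compl (σ.support : Set (Fin n))
    rw [h1, Nat.card_eq_fintype_card, Fintype.card_fin, ← hs] at h2
    omega
  have hprim : IsPreprimitive (fixingSubgroup G s) (SubMulAction.ofFixingSubgroup G s) := by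
    have := isPretransitive_of_isCycle_mem hc hσ
    apply IsPreprimitive.of_prime_card
    have h1 : Nat.card (SubMulAction.ofFixingSubgroup G s) = p := by
      rw [← hcard, Nat.card_eq_fintype_card, Fintype.card_subtype]
      congr 1
      ext i
      simp [SubMulAction.mem_ofFixingSubgroup_iff, hs]
    rw [h1]
    exact hp
  have hmul := hG.isMultiplyPreprimitive hsn (by
    rw [Nat.card_eq_fintype_card, Fintype.card_fin]
    omega) hprim
  have htr1 : IsMultiplyPretransitive G (Fin n) (n - p - 1 + 2) := hmul.isMultiplyPretransitive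
  have htr : IsMultiplyPretransitive G (Fin n) (n - p) :=
    MulAction.isMultiplyPretransitive_of_le' (n := n - p - 1 + 2) (by omega) (by
      rw [ENat.card_eq_coe_fintype_card, Fintype.card_fin]
      exact_mod_cast (by omega : n - p - 1 + 2 ≤ n))
  -- enumeration of the complement of the support
  let R : Finset (Fin n) := (σ.support)ᶜ
  have hR : R.card = n - p := by
    rw [Finset.card_compl, Fintype.card_fin, hcard]
  let u : Fin (n - p) ↪ Fin n := (R.orderEmbOfFin hR).toEmbedding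
  have hu : ∀ i, i ∈ R ↔ ∃ a, u a = i := by
    intro i
    have h1 := Finset.range_orderEmbOfFin R hR
    constructor
    · intro hi
      have h2 : i ∈ Set.range (R.orderEmbOfFin hR) := by rw [h1]; exact hi
      exact h2
    · rintro ⟨a, rfl⟩
      exact Finset.orderEmbOfFin_mem R hR a
  -- the pointwise stabilizer
  let H : Subgroup (Perm (Fin n)) :=
    { carrier := {g | g ∈ G ∧ ∀ i ∉ σ.support, g i = i}
      mul_mem' := by
        rintro a b ⟨ha, ha'⟩ ⟨hb, hb'⟩
        exact ⟨G.mul_mem ha hb, fun i hi => by rw [Perm.mul_apply, hb' i hi, ha' i hi]⟩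
      one_mem' := ⟨G.one_mem, fun _ _ => rfl⟩
      inv_mem' := by
        rintro a ⟨ha, ha'⟩
        exact ⟨G.inv_mem ha, fun i hi => by rw [Perm.inv_eq_iff_eq, ha' i hi]⟩ }
  have hσH : σ ∈ H := ⟨hσ, fun i hi => Perm.notMem_support.mp hi⟩
  -- elements of the normalizer
  have key : ∀ a b, a ∉ σ.support → b ∉ σ.support → ∃ g ∈ G, (∀ i ∉ σ.support, g i = swap a b i) ∧
      ∃ j : ℕ, g * σ * g⁻¹ = σ ^ j := by
    intro a b ha hb
    obtain ⟨g, hg⟩ := htr.exists_smul_eq u (u.trans (swap a b).toEmbedding)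
    have hg1 : ∀ i ∉ σ.support, (g : Perm (Fin n)) i = swap a b i := by
      intro i hi
      have h1 : i ∈ R := Finset.mem_compl.mpr hi
      obtain ⟨c, rfl⟩ := (hu i).mp h1
      have h2 := DFunLike.congr_fun hg c
      exact h2
    have hswap : ∀ i, i ∉ σ.support → swap a b i ∉ σ.support := by
      intro i hi
      rcases eq_or_ne i a with rfl | h1
      · rwa [swap_apply_left]
      rcases eq_or_ne i b with rfl | h2
      · rwa [swap_apply_right]
      rwa [swap_apply_of_ne_of_ne h1 h2]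
    have hss : ∀ i, swap a b (swap a b i) = i := fun i => by
      rw [← Perm.mul_apply, swap_mul_self, Perm.one_apply]
    have hginv : ∀ i, i ∉ σ.support → (g : Perm (Fin n))⁻¹ i = swap a b i := by
      intro i hi
      rw [Perm.inv_eq_iff_eq, hg1 _ (hswap i hi), hss]
    have hσ' : (g : Perm (Fin n)) * σ * (g : Perm (Fin n))⁻¹ ∈ H := by
      refine ⟨G.mul_mem (G.mul_mem g.2 hσ) (G.inv_mem g.2), fun i hi => ?_⟩
      rw [Perm.mul_apply, Perm.mul_apply, hginv i hi, Perm.notMem_support.mp (hswap i hi),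
        hg1 _ (hswap i hi)]
      exact hss i
    have ho' : orderOf ((g : Perm (Fin n)) * σ * (g : Perm (Fin n))⁻¹) = p := by
      have h1 : (g : Perm (Fin n)) * σ * (g : Perm (Fin n))⁻¹ = MulAut.conj (g : Perm (Fin n)) σ := rfl
      rw [h1, MulEquiv.orderOf_eq, hord]
    obtain ⟨h, hh, j, hj⟩ := conj_exists hp H σ.support hcard (fun h hh => hh.2) σ _ hσH hσ' hord ho'
    refine ⟨h * g, G.mul_mem hh.1 g.2, fun i hi => ?_, j, ?_⟩
    · rw [Perm.mul_apply, hg1 i hi, hh.2 _ (hswap i hi)]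
    · rw [← hj]
      group
  -- three points outside of the support
  obtain ⟨a, b, c, ha, hb, hcc, hab, hac, hbc⟩ : ∃ a b c, a ∈ R ∧ b ∈ R ∧ c ∈ R ∧ a ≠ b ∧ a ≠ c ∧
      b ≠ c := by
    have h1 : 2 < R.card := by omega
    obtain ⟨a, b, c, h2, h3, h4, h5, h6, h7⟩ := Finset.two_lt_card_iff.mp h1
    exact ⟨a, b, c, h2, h3, h4, h5, h6, h7⟩
  rw [Finset.mem_compl] at ha hb hcc
  obtain ⟨g₁, hg₁, hg₁', j₁, hj₁⟩ := key a b ha hb
  obtain ⟨g₂, hg₂, hg₂', j₂, hj₂⟩ := key a c ha hcc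
  have hconj : ∀ (g : Perm (Fin n)) (m : ℕ), g * σ ^ m * g⁻¹ = (g * σ * g⁻¹) ^ m :=
    fun g m => (conj_pow).symm
  have h12 : g₁ * g₂ * σ * (g₁ * g₂)⁻¹ = σ ^ (j₁ * j₂) := by
    have h1 : g₁ * g₂ * σ * (g₁ * g₂)⁻¹ = g₁ * (g₂ * σ * g₂⁻¹) * g₁⁻¹ := by group
    rw [h1, hj₂, hconj, hj₁, ← pow_mul]
  have h21 : g₂ * g₁ * σ * (g₂ * g₁)⁻¹ = σ ^ (j₁ * j₂) := by
    have h1 : g₂ * g₁ * σ * (g₂ * g₁)⁻¹ = g₂ * (g₁ * σ * g₁⁻¹) * g₂⁻¹ := by group
    rw [h1, hj₁, hconj, hj₂, ← pow_mul, mul_comm]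
  let q : Perm (Fin n) := (g₂ * g₁)⁻¹ * (g₁ * g₂)
  have hqG : q ∈ G := G.mul_mem (G.inv_mem (G.mul_mem hg₂ hg₁)) (G.mul_mem hg₁ hg₂)
  have hqσ : q * σ = σ * q := by
    have h1 : g₁ * g₂ * σ * (g₁ * g₂)⁻¹ = g₂ * g₁ * σ * (g₂ * g₁)⁻¹ := h12.trans h21.symm
    have h2 : (g₂ * g₁)⁻¹ * (g₁ * g₂ * σ * (g₁ * g₂)⁻¹) * (g₁ * g₂) =
        (g₂ * g₁)⁻¹ * (g₂ * g₁ * σ * (g₂ * g₁)⁻¹) * (g₁ * g₂) := by rw [h1]
    calc q * σ = (g₂ * g₁)⁻¹ * (g₁ * g₂ * σ * (g₁ * g₂)⁻¹) * (g₁ * g₂) := by
          simp only [q]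
          group
      _ = _ := h2
      _ = σ * q := by
          simp only [q]
          group
  have hsw : ∀ x y, x ∉ σ.support → y ∉ σ.support → ∀ i, i ∉ σ.support →
      swap x y i ∉ σ.support := by
    intro x y hx hy i hi
    rcases eq_or_ne i x with rfl | h1
    · rwa [swap_apply_left]
    rcases eq_or_ne i y with rfl | h2
    · rwa [swap_apply_right]
    rwa [swap_apply_of_ne_of_ne h1 h2]
  have hqR : ∀ i ∉ σ.support, q i = ((swap a b * swap a c) ^ 2) i := by
    intro i hi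
    have h1 : (g₂ * g₁)⁻¹ ((g₁ * g₂) i) = ((swap a b * swap a c) ^ 2) i := by
      rw [Perm.inv_eq_iff_eq]
      have h2 : ((swap a b * swap a c) ^ 2) i = swap a b (swap a c (swap a b (swap a c i))) := rfl
      rw [h2, Perm.mul_apply, Perm.mul_apply, hg₂' i hi, hg₁' _ (hsw a c ha hcc i hi)]
      have h3 := hsw a c ha hcc i hi
      have h4 := hsw a b ha hb _ h3
      have h5 := hsw a c ha hcc _ h4
      have h6 := hsw a b ha hb _ h5
      rw [hg₁' _ h6]
      have hss : ∀ x y i : Fin n, swap x y (swap x y i) = i := fun x y i => by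
        rw [← Perm.mul_apply, swap_mul_self, Perm.one_apply]
      rw [hss, hg₂' _ h5, hss]
    exact h1
  -- `q` acts on the support as a power of `σ`
  obtain ⟨x₀, hx₀⟩ : σ.support.Nonempty := by
    rw [← Finset.card_pos, hcard]
    omega
  have hqs : ∀ i, i ∈ σ.support → q i ∈ σ.support := by
    intro i hi
    rw [Perm.mem_support] at hi ⊢
    intro h1
    apply hi
    apply q.injective
    rw [← Perm.mul_apply, hqσ, Perm.mul_apply, h1]
  obtain ⟨i₀, hi₀⟩ := hc.sameCycle (Perm.mem_support.mp hx₀) (Perm.mem_support.mp (hqs x₀ hx₀))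
  have hqi : ∀ y ∈ σ.support, q y = (σ ^ i₀) y := by
    intro y hy
    obtain ⟨l, hl⟩ := hc.sameCycle (Perm.mem_support.mp hx₀) (Perm.mem_support.mp hy)
    have hcomm : Commute q σ := hqσ
    have h1 : q ((σ ^ l) x₀) = (σ ^ l) (q x₀) := by
      rw [← Perm.mul_apply, (hcomm.zpow_right l).eq, Perm.mul_apply]
    rw [← hl, h1, ← hi₀, ← Perm.mul_apply, ← Perm.mul_apply, ← zpow_add, ← zpow_add, add_comm]
  have hfix : ∀ i ∉ σ.support, ∀ l : ℤ, (σ ^ l) i = i := by
    intro i hi l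
    exact Perm.zpow_apply_eq_self_of_apply_eq_self (Perm.notMem_support.mp hi) l
  have hsupp : ∀ l : ℤ, ∀ i ∈ σ.support, (σ ^ l) i ∈ σ.support := by
    intro l i hi
    exact (Perm.zpow_apply_mem_support).mpr hi
  have hd : q * σ ^ (-i₀) = (swap a b * swap a c) ^ 2 := by
    ext i
    congr 1
    by_cases hi : i ∈ σ.support
    · rw [Perm.mul_apply, hqi _ (hsupp _ i hi), ← Perm.mul_apply, ← zpow_add, add_neg_cancel,
        zpow_zero, Perm.one_apply]
      have h1 : ∀ x y, x ∉ σ.support → y ∉ σ.support → swap x y i = i := by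
        intro x y hx hy
        apply swap_apply_of_ne_of_ne
        · rintro rfl
          exact hx hi
        · rintro rfl
          exact hy hi
      have h2 : ((swap a b * swap a c) ^ 2) i = swap a b (swap a c (swap a b (swap a c i))) := rfl
      rw [h2, h1 a c ha hcc, h1 a b ha hb, h1 a c ha hcc, h1 a b ha hb]
    · rw [Perm.mul_apply, hfix i hi, hqR i hi]
  have h3 : IsThreeCycle ((swap a b * swap a c) ^ 2) := by
    rw [pow_two]
    exact (isThreeCycle_swap_mul_swap_same hab hac hbc).isThreeCycle_sq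
  rw [← hd] at h3
  exact alternatingGroup_le_of_isPreprimitive_of_isThreeCycle_mem hG h3
    (G.mul_mem hqG (G.zpow_mem hσ _))

end MP7Z
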