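import Pool.Agent.Lib.MP_7f581e_Z.Alt.Spec

/-!
# Alternating step: good places
-/

namespace MP7Z

open Polynomial

namespace LocAM

theorem pow_dvd_of_card {k : Type*} [Field k] {n : ℕ} (y : Fin n → k) (a : k)
    (T : Finset (Fin n)) (hT : ∀ i ∈ T, y i = a) (b : k[X]) :
    (X - C a) ^ T.card ∣ b * ∏ i, (X - C (y i)) := by
  have h1 : (X - C a) ^ T.card = ∏ i ∈ T, (X - C (y i)) := by
    rw [← Finset.prod_const]
    exact Finset.prod_congr rfl fun i hi => by rw [hT i hi]
  rw [h1]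
  exact (Finset.prod_dvd_prod_of_subset _ _ _ (Finset.subset_univ T)).mul_left b

/-- Permutations which move only indices with the same value. -/
theorem perm_eq_one {k : Type*} [Field k] {n : ℕ} (y : Fin n → k) (s : k) (b F : k[X])
    (hF : F = b * ∏ i, (X - C (y i))) (h2 : ∀ r : k, (X - C r) ^ 2 ∣ F → r = s)
    (h3 : ¬ (X - C s) ^ 3 ∣ F) (ρ : Equiv.Perm (Fin n)) (hρ : ∀ i, y (ρ i) = y i)
    (hs : Equiv.Perm.sign ρ = 1) : ρ = 1 := by
  have hmv : ∀ i, ρ i ≠ i → y i = s := by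
    intro i hi
    apply h2
    rw [hF]
    have h := pow_dvd_of_card y (y i) {i, ρ i} (by
      intro j hj
      rw [Finset.mem_insert, Finset.mem_singleton] at hj
      rcases hj with rfl | rfl
      · rfl
      · exact hρ i) b
    rwa [Finset.card_pair hi.symm] at h
  have hcard : ρ.support.card ≤ 2 := by
    by_contra hcon
    apply h3
    refine (pow_dvd_pow _ (by omega : 3 ≤ ρ.support.card)).trans ?_
    rw [hF]
    exact pow_dvd_of_card y s _ (fun i hi => hmv i (Equiv.Perm.mem_support.1 hi)) b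
  rcases Nat.lt_or_ge ρ.support.card 2 with h | h
  · exact Equiv.Perm.card_support_le_one.1 (by omega)
  · have h4 : ρ.support.card = 2 := le_antisymm hcard h
    have h5 := (Equiv.Perm.card_support_eq_two.1 h4).sign_eq
    rw [hs] at h5
    exact absurd h5 (by decide)

end LocAM

theorem tLocA (h0 : ResStmt) (h1 : MulStmt) : LocAStmt := by
  intro p n _ t Ω _ _ x hst V hV e τ κ y he hτ hκ hve hinj hf
  obtain ⟨hc, -, -, hδ⟩ := h0 p Ω x hst V hV
  have hz : ∀ c : ZMod p, algebraMap (ZMod p) Ω c ∈ V := fun c =>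
    hc _ ((Cst p Ω).algebraMap_mem c)
  let φ : ZMod p →+* V := (algebraMap (ZMod p) Ω).codRestrict V.toSubring hz
  let : Algebra (ZMod p) V := φ.toAlgebra
  obtain ⟨e', he'⟩ : ∃ e' : V, (e' : Ω) = e := ⟨⟨e, he⟩, rfl⟩
  obtain ⟨τ', hτ'⟩ : ∃ e' : V, (e' : Ω) = τ := ⟨⟨τ, hτ⟩, rfl⟩
  obtain ⟨κ', hκ'⟩ : ∃ e' : V, (e' : Ω) = κ := ⟨⟨κ, hκ⟩, rfl⟩
  have hinjV : Function.Injective (algebraMap V Ω) := Subtype.val_injective
  have hfV : (t.f e' τ' κ').map (algebraMap V Ω) = t.f e τ κ := by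
    rw [t.map_f]
    have h1 : algebraMap V Ω e' = e := he'
    have h2 : algebraMap V Ω τ' = τ := hτ'
    have h3 : algebraMap V Ω κ' = κ := hκ'
    rw [h1, h2, h3]
  have hu : IsUnit e' := by
    rw [V.valuation_eq_one_iff, he']
    exact hve
  obtain ⟨u, hu'⟩ := hu
  have hyV : ∀ i, y i ∈ V := by
    intro i
    have hg : (C ((↑(u⁻¹) : V) ^ (p * (p - 1))) * t.f e' τ' κ').map (algebraMap V Ω) =
        ∏ i, (X - C (y i)) := by
      rw [Polynomial.map_mul, hfV, hf, map_C, ← mul_assoc, ← C_mul, map_pow, ← mul_pow]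
      have h1 : algebraMap V Ω (↑(u⁻¹) : V) * e = 1 := by
        have h2 : e = algebraMap V Ω (u : V) := by rw [hu']; exact he'.symm
        rw [h2, ← map_mul, Units.inv_mul, map_one]
      rw [h1, one_pow, C_1, one_mul]
    have hm : (C ((↑(u⁻¹) : V) ^ (p * (p - 1))) * t.f e' τ' κ').Monic := by
      apply Polynomial.monic_of_injective hinjV
      rw [hg]
      exact monic_prod_of_monic _ _ fun i _ => monic_X_sub_C _
    have hint : IsIntegral V (y i) := by
      refine ⟨_, hm, ?_⟩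
      rw [← eval_map, hg, eval_prod]
      exact Finset.prod_eq_zero (Finset.mem_univ i) (by simp)
    obtain ⟨z, hz⟩ := (IsIntegrallyClosed.isIntegral_iff (R := V) (K := Ω)).1 hint
    rw [← hz]
    exact z.2
  refine ⟨hyV, fun δ hδI ρ hρ hs => ?_⟩
  have hf2 : t.f e' τ' κ' = C (e' ^ (p * (p - 1))) * ∏ i, (X - C (⟨y i, hyV i⟩ : V)) := by
    apply Polynomial.map_injective _ hinjV
    have h1 : algebraMap V Ω e' = e := he'
    rw [hfV, hf, Polynomial.map_mul, map_C, map_pow (algebraMap V Ω), Polynomial.map_prod, h1]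
    congr 1
    apply Finset.prod_congr rfl
    intro i _
    rw [Polynomial.map_sub, map_X, map_C]
    rfl
  have hf3 : t.f (IsLocalRing.residue V e') (IsLocalRing.residue V τ')
      (IsLocalRing.residue V κ') = C (IsLocalRing.residue V e' ^ (p * (p - 1))) *
        ∏ i, (X - C (IsLocalRing.residue V ⟨y i, hyV i⟩)) := by
    rw [← t.map_f, hf2, Polynomial.map_mul, map_C, map_pow, Polynomial.map_prod]
    congr 1
    apply Finset.prod_congr rfl
    intro i _
    rw [Polynomial.map_sub, map_X, map_C]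
  obtain ⟨h2, h3⟩ := h1 p n t (IsLocalRing.ResidueField V)
    (t.M (IsLocalRing.residue V e') (IsLocalRing.residue V τ') (IsLocalRing.residue V κ'))
    (t.derivative_M _ _ _)
  refine LocAM.perm_eq_one (fun i => IsLocalRing.residue V ⟨y i, hyV i⟩)
    (algebraMap (ZMod p) (IsLocalRing.ResidueField V) t.s) _ _ hf3 h2 h3 ρ (fun i => ?_) hs
  obtain ⟨hδ1, hδ2⟩ := hδI
  have h4 := hδ 1 δ hδ2 (fun c hc => by rw [pow_one]; exact hδ1 c hc) (y i) (hyV i)
  rw [pow_one, hρ i] at h4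
  rw [← sub_eq_zero]
  change IsLocalRing.residue V ⟨y (ρ i), hyV (ρ i)⟩ - IsLocalRing.residue V ⟨y i, hyV i⟩ = 0
  rw [← map_sub, IsLocalRing.residue_eq_zero_iff, V.valuation_lt_one_iff]
  exact h4

end MP7Z
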