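import Pool.Agent.Lib.MP_7f581e_Z.Alt.Spec

/-!
# Alternating step: inertia at the bad places
-/

set_option autoImplicit false

namespace MP7Z

open Polynomial MP7fS

namespace LocBM

/-- A sequence in a valued field whose differences are constant modulo the maximal ideal. -/
theorem tele {p : ℕ} [Fact p.Prime] {Ω : Type} [Field Ω] [Algebra (ZMod p) Ω]
    (V : ValuationSubring Ω) (g : ℕ → Ω)
    (h : ∀ k, V.valuation ((g (k + 1 + 1) - g (k + 1)) - (g (k + 1) - g k)) < 1) :
    V.valuation (g p - g 0) < 1 := by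
  have h1 : ∀ k, V.valuation ((g (k + 1) - g k) - (g 1 - g 0)) < 1 := by
    intro k
    induction k with
    | zero =>
      rw [zero_add, sub_self, map_zero]
      exact zero_lt_one
    | succ k ih =>
      have h2 : (g (k + 1 + 1) - g (k + 1)) - (g 1 - g 0) =
          ((g (k + 1 + 1) - g (k + 1)) - (g (k + 1) - g k)) +
            ((g (k + 1) - g k) - (g 1 - g 0)) := by ring
      rw [h2]
      exact Valuation.map_add_lt _ (h k) ih
  have h3 : g p - g 0 = ∑ k ∈ Finset.range p, ((g (k + 1) - g k) - (g 1 - g 0)) := by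
    have hp0 : (p : Ω) = 0 := by
      rw [← map_natCast (algebraMap (ZMod p) Ω) p, ZMod.natCast_self, map_zero]
    rw [Finset.sum_sub_distrib, Finset.sum_range_sub, Finset.sum_const, Finset.card_range,
      nsmul_eq_mul, hp0, zero_mul, sub_zero]
  rw [h3]
  refine Valuation.map_sum_lt' _ zero_lt_one (fun k _ => h1 k)

end LocBM

open LocBM in
theorem tLocB (h0 : ResStmt) (h1 : LocNStmt) (h2 : LocVStmt) : LocBStmt := by
  intro p n _ t Ω _ _ x hst V hV e τ κ y he0 he1 hτ hκ hτκ hinj hf δ hδ hδe ρ hρ hsgn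
  obtain ⟨-, hN2, hN3⟩ := h1 p n t Ω V hV e τ κ y he0 he1 hτ hκ hτκ hf
  obtain ⟨-, hLV⟩ := h2 p n t Ω V hV e τ κ he0 he1 hτ hκ hτκ
  obtain ⟨-, -, -, hRes⟩ := h0 p Ω x hst V hV
  have hδV : ∀ f, δ f ∈ V ↔ f ∈ V := hδ.2
  have hmod : ∀ u ∈ V, V.valuation (δ u - u) < 1 := by
    intro u hu
    have h3 := hRes 1 δ hδ.2 (fun c hc => by
      rw [pow_one]
      exact hδ.1 c hc) u hu
    rwa [pow_one] at h3
  have hroot : ∀ i, (t.f e τ κ).eval (y i) = 0 := by
    intro i
    rw [hf, eval_mul, eval_prod, Finset.prod_eq_zero (Finset.mem_univ i), mul_zero]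
    rw [eval_sub, eval_X, eval_C, sub_self]
  have hmem : ∀ i, y (ρ i) ∈ V ↔ y i ∈ V := by
    intro i
    rw [← hρ i]
    exact hδV (y i)
  have hmemp : ∀ (k : ℕ) (i : Fin n), y ((ρ ^ k) i) ∈ V ↔ y i ∈ V := by
    intro k i
    induction k with
    | zero => rfl
    | succ k ih =>
      rw [pow_succ', Equiv.Perm.mul_apply, hmem]
      exact ih
  have hve0 : V.valuation e ≠ 0 := by
    rw [Valuation.ne_zero_iff]
    exact he0
  -- infinite roots
  have hS : ∀ i, y i ∉ V → (ρ ^ p) i = i := by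
    intro i hi
    by_contra hne
    have hunit : ∀ j l : Fin n, y j ∉ V → y l ∉ V → j ≠ l →
        V.valuation (((y j)⁻¹ - (y l)⁻¹) / e ^ (n - t.W.natDegree - 1)) = 1 := by
      intro j l hj hl hjl
      have h3 := hLV (y j) (y l) hj hl (fun h => hjl (hinj h)) (hroot j) (hroot l)
      rw [map_div₀, h3, map_pow, div_self]
      exact pow_ne_zero _ hve0
    have hin : ∀ k, y ((ρ ^ k) i) ∉ V := fun k h => hi ((hmemp k i).mp h)
    have hg := tele (p := p) V
      (fun k => (y ((ρ ^ k) i))⁻¹ / e ^ (n - t.W.natDegree - 1)) (fun k => by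
        have hk1 : δ ((y ((ρ ^ (k + 1)) i))⁻¹ / e ^ (n - t.W.natDegree - 1) -
            (y ((ρ ^ k) i))⁻¹ / e ^ (n - t.W.natDegree - 1)) =
            (y ((ρ ^ (k + 1 + 1)) i))⁻¹ / e ^ (n - t.W.natDegree - 1) -
            (y ((ρ ^ (k + 1)) i))⁻¹ / e ^ (n - t.W.natDegree - 1) := by
          rw [map_sub, map_div₀, map_div₀, map_inv₀, map_inv₀, map_pow, hδe, hρ, hρ,
            pow_succ' ρ (k + 1), Equiv.Perm.mul_apply, pow_succ' ρ k, Equiv.Perm.mul_apply]
        have hk2 : (y ((ρ ^ (k + 1)) i))⁻¹ / e ^ (n - t.W.natDegree - 1) -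
            (y ((ρ ^ k) i))⁻¹ / e ^ (n - t.W.natDegree - 1) ∈ V := by
          rw [← sub_div]
          by_cases h4 : (ρ ^ (k + 1)) i = (ρ ^ k) i
          · rw [h4, sub_self, zero_div]
            exact V.zero_mem
          · rw [← V.valuation_le_one_iff]
            exact (hunit _ _ (hin _) (hin _) h4).le
        have h5 := hmod _ hk2
        rw [hk1] at h5
        exact h5)
    have h6 := hunit _ _ (hin p) hi hne
    beta_reduce at hg
    rw [pow_zero, Equiv.Perm.one_apply, ← sub_div, h6] at hg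
    exact lt_irrefl _ hg
  -- finite roots
  have hres : ∀ i, y i ∈ V → ρ i ≠ i →
      V.valuation (y i - algebraMap (ZMod p) Ω t.s) < 1 ∧
      V.valuation (y (ρ i) - algebraMap (ZMod p) Ω t.s) < 1 := by
    intro i hi hne
    have h3 := hmod _ hi
    rw [hρ] at h3
    have hi' := (hmem i).mpr hi
    refine ⟨hN2 i (ρ i) (Ne.symm hne) hi hi' ?_, hN2 (ρ i) i hne hi' hi h3⟩
    rw [Valuation.map_sub_swap]
    exact h3
  have hfix : ∀ i, y i ∈ V → ρ i = i := by
    by_contra hcon
    push Not at hcon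
    obtain ⟨i, hi, hne⟩ := hcon
    have hi' := (hmem i).mpr hi
    have hne' : ρ (ρ i) ≠ ρ i := fun h => hne (ρ.injective h)
    obtain ⟨r1, r2⟩ := hres i hi hne
    obtain ⟨-, r3⟩ := hres (ρ i) hi' hne'
    have hρ2 : ρ (ρ i) = i := by
      by_contra h
      exact hN3 i (ρ i) (ρ (ρ i)) (Ne.symm hne) (Ne.symm hne') (Ne.symm h) r1 r2 r3
    have hoth : ∀ l, y l ∈ V → l ≠ i → l ≠ ρ i → ρ l = l := by
      intro l hl hl1 hl2
      by_contra h
      exact hN3 i (ρ i) l (Ne.symm hne) (Ne.symm hl2) (Ne.symm hl1) r1 r2 (hres l hl h).1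
    obtain ⟨q, hq⟩ : ∃ q, p = 2 * q + 1 := (Fact.out : p.Prime).eq_two_or_odd'.resolve_left t.odd
    have hev : ∀ q : ℕ, (ρ ^ (2 * q)) i = i := by
      intro q
      induction q with
      | zero => rfl
      | succ q ih =>
        rw [mul_add, mul_one, pow_add, Equiv.Perm.mul_apply, pow_two, Equiv.Perm.mul_apply, hρ2]
        exact ih
    have hpi : (ρ ^ p) i = ρ i := by
      rw [hq, pow_succ', Equiv.Perm.mul_apply, hev]
    have hpi' : (ρ ^ p) (ρ i) = i := by
      rw [← Equiv.Perm.mul_apply, ← pow_succ, pow_succ', Equiv.Perm.mul_apply, hpi, hρ2]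
    have hsw : ρ ^ p = Equiv.swap i (ρ i) := by
      refine Equiv.ext fun l => ?_
      by_cases hl1 : l = i
      · rw [hl1, hpi, Equiv.swap_apply_left]
      · by_cases hl2 : l = ρ i
        · rw [hl2, hpi', Equiv.swap_apply_right]
        · rw [Equiv.swap_apply_of_ne_of_ne hl1 hl2]
          by_cases hl : y l ∈ V
          · exact Function.IsFixedPt.perm_pow (hoth l hl hl1 hl2) p
          · exact hS l hl
    have h7 : Equiv.Perm.sign (ρ ^ p) = 1 := by rw [map_pow, hsgn, one_pow]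
    rw [hsw, Equiv.Perm.sign_swap (Ne.symm hne)] at h7
    exact absurd h7 (by decide)
  refine ⟨?_, hfix⟩
  refine Equiv.ext fun l => ?_
  rw [Equiv.Perm.one_apply]
  by_cases hl : y l ∈ V
  · exact Function.IsFixedPt.perm_pow (hfix l hl) p
  · exact hS l hl

end MP7Z
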