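import Pool.Agent.Lib.MP_7f581e_Z.Alt.Spec

/-!
# Alternating step: the equation of the infinite roots
-/

set_option autoImplicit false

namespace MP7Z

open Polynomial MP7fS

namespace LocEM

section

variable {p : ℕ} [Fact p.Prime] {Ω : Type} [Field Ω] [Algebra (ZMod p) Ω]
  (V : ValuationSubring Ω)

theorem c_le (c : ZMod p) : V.valuation (algebraMap (ZMod p) Ω c) ≤ 1 := by
  rw [V.valuation_le_one_iff, ← ZMod.natCast_zmod_val c, map_natCast]
  exact natCast_mem V _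

theorem mul_le {a b : Ω} {g : V.ValueGroup} (ha : V.valuation a ≤ 1) (hb : V.valuation b ≤ g) :
    V.valuation (a * b) ≤ g := by
  rw [map_mul]
  calc V.valuation a * V.valuation b ≤ 1 * V.valuation b := mul_le_mul_left ha _
    _ = V.valuation b := one_mul _
    _ ≤ g := hb

theorem pow_le {a : Ω} (ha : V.valuation a ≤ 1) (n : ℕ) : V.valuation (a ^ n) ≤ 1 := by
  rw [map_pow]
  exact pow_le_one' ha n

theorem pow_sub {a b : Ω} (ha : V.valuation a ≤ 1) (hb : V.valuation b ≤ 1) (n : ℕ) :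
    V.valuation (a ^ n - b ^ n) ≤ V.valuation (a - b) := by
  induction n with
  | zero =>
    rw [pow_zero, pow_zero, sub_self, map_zero]
    exact zero_le
  | succ n ih =>
    have h1 : a ^ (n + 1) - b ^ (n + 1) = a * (a ^ n - b ^ n) + b ^ n * (a - b) := by ring
    rw [h1]
    exact Valuation.map_add_le _ (mul_le V ha ih) (mul_le V (pow_le V hb n) le_rfl)

theorem aeval_sub (P : (ZMod p)[X]) {a b : Ω} (ha : V.valuation a ≤ 1)
    (hb : V.valuation b ≤ 1) : V.valuation (aeval a P - aeval b P) ≤ V.valuation (a - b) := by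
  induction P using Polynomial.induction_on' with
  | add f g hf hg =>
    have h1 : aeval a (f + g) - aeval b (f + g) =
        (aeval a f - aeval b f) + (aeval a g - aeval b g) := by
      rw [map_add, map_add]
      ring
    rw [h1]
    exact Valuation.map_add_le _ hf hg
  | monomial n c =>
    have h1 : aeval a (monomial n c) - aeval b (monomial n c) =
        algebraMap (ZMod p) Ω c * (a ^ n - b ^ n) := by
      rw [aeval_monomial, aeval_monomial]
      ring
    rw [h1]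
    exact mul_le V (c_le V c) (pow_sub V ha hb n)

theorem rv_zero {P : (ZMod p)[X]} (hP : P.Monic) : aeval (0 : Ω) P.reverse = 1 := by
  rw [← coeff_zero_eq_aeval_zero', coeff_zero_reverse, hP.leadingCoeff, map_one]

theorem rv_inv (P : (ZMod p)[X]) {ζ : Ω} (hζ : ζ ≠ 0) :
    aeval ζ P.reverse = ζ ^ P.natDegree * aeval ζ⁻¹ P := by
  let _ : Invertible (ζ⁻¹) := invertibleOfNonzero (inv_ne_zero hζ)
  have h1 := eval₂_reverse_mul_pow (algebraMap (ZMod p) Ω) (ζ⁻¹) P
  rw [invOf_eq_inv, inv_inv] at h1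
  rw [aeval_def, aeval_def, ← h1, mul_comm, mul_assoc, ← mul_pow, inv_mul_cancel₀ hζ, one_pow,
    mul_one]

theorem rv_sub_one {P : (ZMod p)[X]} (hP : P.Monic) {ζ : Ω} (hζ : V.valuation ζ < 1) :
    V.valuation (aeval ζ P.reverse - 1) < 1 := by
  have h1 := aeval_sub V P.reverse (a := ζ) (b := 0) hζ.le (by
    rw [map_zero]
    exact zero_le)
  rw [rv_zero hP, sub_zero] at h1
  exact lt_of_le_of_lt h1 hζ

theorem one_of_sub {a : Ω} (ha : V.valuation (a - 1) < 1) : V.valuation a = 1 := by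
  have h1 : a = 1 + (a - 1) := by ring
  rw [h1, Valuation.map_add_eq_of_lt_left, map_one]
  rw [map_one]
  exact ha

end

end LocEM

open LocEM in
theorem tLocE : LocEStmt := by
  intro p n _ t Ω _ _ V _ e τ κ he hτ hκ hτκ
  have hτ' : V.valuation τ ≤ 1 := (V.valuation_le_one_iff τ).mpr hτ
  have hκ' : V.valuation κ ≤ 1 := (V.valuation_le_one_iff κ).mpr hκ
  have hp := (Fact.out : p.Prime).pos
  obtain ⟨s, hs⟩ : ∃ s, s = algebraMap (ZMod p) Ω t.s := ⟨_, rfl⟩
  have hs' : V.valuation s ≤ 1 := by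
    rw [hs]
    exact c_le V t.s
  -- evaluation of `f`
  have hf : ∀ y : Ω, (t.f e τ κ).eval y = aeval y t.V * (e ^ (p * (p - 1)) * aeval y t.A₀ +
      τ * aeval y t.G₀ + κ * aeval y t.H₀) + aeval y t.W := by
    intro y
    rw [AType.f, AType.M]
    simp only [eval_add, eval_mul, eval_C, eval_map_algebraMap]
  have hA : ∀ y : Ω, aeval y t.A₀ = (y ^ p - s) * (y ^ p) ^ (t.m - 1) := by
    intro y
    rw [AType.A₀, map_mul, map_sub, map_pow, map_pow, aeval_X, aeval_C, hs, pow_mul]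
  have hv1 : ∀ ζ : Ω, V.valuation ζ < 1 → V.valuation (aeval ζ t.V.reverse) = 1 :=
    fun ζ hζ => one_of_sub V (rv_sub_one V t.hV hζ)
  have hw1 : ∀ ζ : Ω, V.valuation ζ < 1 → V.valuation (aeval ζ t.W.reverse) = 1 :=
    fun ζ hζ => one_of_sub V (rv_sub_one V t.hW hζ)
  have hv0 : ∀ ζ : Ω, V.valuation ζ < 1 → aeval ζ t.V.reverse ≠ 0 := by
    intro ζ hζ h
    have h1 := hv1 ζ hζ
    rw [h, map_zero] at h1
    exact zero_ne_one h1
  -- the quotient
  have hlam1 : ∀ ζ : Ω, V.valuation ζ < 1 →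
      V.valuation (aeval ζ t.W.reverse / aeval ζ t.V.reverse - 1) < 1 := by
    intro ζ hζ
    have h1 : aeval ζ t.W.reverse / aeval ζ t.V.reverse - 1 =
        ((aeval ζ t.W.reverse - 1) - (aeval ζ t.V.reverse - 1)) / aeval ζ t.V.reverse := by
      field_simp [hv0 ζ hζ]
      ring
    rw [h1, map_div₀, hv1 ζ hζ, div_one]
    exact Valuation.map_sub_lt _ (rv_sub_one V t.hW hζ) (rv_sub_one V t.hV hζ)
  have hlam2 : ∀ ζ₁ ζ₂ : Ω, V.valuation ζ₁ < 1 → V.valuation ζ₂ < 1 →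
      V.valuation (aeval ζ₁ t.W.reverse / aeval ζ₁ t.V.reverse -
        aeval ζ₂ t.W.reverse / aeval ζ₂ t.V.reverse) ≤ V.valuation (ζ₁ - ζ₂) := by
    intro ζ₁ ζ₂ h1 h2
    have h3 : aeval ζ₁ t.W.reverse / aeval ζ₁ t.V.reverse -
        aeval ζ₂ t.W.reverse / aeval ζ₂ t.V.reverse =
        (aeval ζ₂ t.V.reverse * (aeval ζ₁ t.W.reverse - aeval ζ₂ t.W.reverse) -
          aeval ζ₂ t.W.reverse * (aeval ζ₁ t.V.reverse - aeval ζ₂ t.V.reverse)) /
        (aeval ζ₁ t.V.reverse * aeval ζ₂ t.V.reverse) := by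
      field_simp [hv0 ζ₁ h1, hv0 ζ₂ h2]
      ring
    rw [h3, map_div₀, map_mul V.valuation (aeval ζ₁ t.V.reverse), hv1 ζ₁ h1, hv1 ζ₂ h2, mul_one,
      div_one]
    exact Valuation.map_sub_le _ (mul_le V (hv1 ζ₂ h2).le (aeval_sub V _ h1.le h2.le))
      (mul_le V (hw1 ζ₂ h2).le (aeval_sub V _ h1.le h2.le))
  have hc : n = (n - t.W.natDegree) + t.W.natDegree := by
    have := t.hWn
    omega
  by_cases hm : t.m = 1
  · -- `m = 1`
    refine ⟨fun _ => τ - s * e ^ (p * (p - 1)),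
      fun ζ => aeval ζ t.W.reverse / aeval ζ t.V.reverse, ?_, ?_⟩
    · intro ζ hζ hζ0 hfζ
      refine ⟨?_, ?_, hlam1 ζ hζ⟩
      · have hG : aeval ζ⁻¹ t.G₀ = 1 := by rw [AType.G₀, if_pos hm, map_one]
        have hH : aeval ζ⁻¹ t.H₀ = 0 := by rw [AType.H₀, if_pos hm, map_zero]
        rw [hf, hA, hG, hH, hm] at hfζ
        have hn := t.hn
        rw [hm, mul_one] at hn
        have hv := rv_inv t.V hζ0
        have hw := rv_inv t.W hζ0
        have hYZ : ζ ^ p * ζ⁻¹ ^ p = 1 := by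
          rw [← mul_pow, mul_inv_cancel₀ hζ0, one_pow]
        have hexp : n - t.W.natDegree + t.W.natDegree = p + t.V.natDegree := by omega
        have hpow : ζ ^ p * ζ ^ t.V.natDegree =
            ζ ^ (n - t.W.natDegree) * ζ ^ t.W.natDegree := by
          rw [← pow_add, ← pow_add, hexp]
        simp only [Nat.sub_self, mul_zero, pow_zero, mul_one, add_zero] at hfζ
        have key : aeval ζ t.V.reverse * (e ^ (p * (p - 1)) + ζ ^ p *
            (τ - s * e ^ (p * (p - 1)))) + ζ ^ (n - t.W.natDegree) * aeval ζ t.W.reverse = 0 := by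
          rw [hv, hw]
          linear_combination (ζ ^ p * ζ ^ t.V.natDegree) * hfζ -
            (ζ ^ t.V.natDegree * aeval ζ⁻¹ t.V * e ^ (p * (p - 1))) * hYZ -
            (aeval ζ⁻¹ t.W) * hpow
        have hvne := hv0 ζ hζ
        apply mul_left_cancel₀ hvne
        rw [mul_zero, ← key]
        field_simp
      · change V.valuation (τ - s * e ^ (p * (p - 1)) - τ) ≤ _
        have h1 : τ - s * e ^ (p * (p - 1)) - τ = -(s * e ^ (p * (p - 1))) := by ring
        rw [h1, Valuation.map_neg]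
        refine mul_le V hs' ?_
        rw [map_pow]
        exact le_max_left _ _
    · intro ζ₁ ζ₂ h1 h2
      refine ⟨?_, hlam2 ζ₁ ζ₂ h1 h2⟩
      change V.valuation (τ - s * e ^ (p * (p - 1)) - (τ - s * e ^ (p * (p - 1)))) ≤ _
      rw [sub_self, map_zero]
      exact zero_le
  · -- `m ≥ 2`
    obtain ⟨m, hm2⟩ : ∃ m, t.m = m + 2 := ⟨t.m - 2, by
      have := AType.m_eq hm
      omega⟩
    have hm3 : t.m - 1 = m + 1 := by omega
    have hm4 : t.m - 2 = m := by omega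
    refine ⟨fun ζ => τ - s * e ^ (p * (p - 1)) - s * τ * ζ ^ p + κ * (ζ ^ p) ^ (m + 1),
      fun ζ => aeval ζ t.W.reverse / aeval ζ t.V.reverse, ?_, ?_⟩
    · intro ζ hζ hζ0 hfζ
      refine ⟨?_, ?_, hlam1 ζ hζ⟩
      · have hG : aeval ζ⁻¹ t.G₀ = (ζ⁻¹ ^ p - s) * (ζ⁻¹ ^ p) ^ m := by
          rw [AType.G₀, if_neg hm, map_mul, map_sub, map_pow, map_pow, aeval_X, aeval_C, hs, hm4,
            pow_mul]
        have hH : aeval ζ⁻¹ t.H₀ = 1 := by rw [AType.H₀, if_neg hm, map_one]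
        rw [hf, hA, hG, hH, hm3] at hfζ
        have hn := t.hn
        rw [hm2] at hn
        have hv := rv_inv t.V hζ0
        have hw := rv_inv t.W hζ0
        have hYZ : ζ ^ p * ζ⁻¹ ^ p = 1 := by
          rw [← mul_pow, mul_inv_cancel₀ hζ0, one_pow]
        have hYZm : (ζ ^ p) ^ m * (ζ⁻¹ ^ p) ^ m = 1 := by
          rw [← mul_pow, hYZ, one_pow]
        have hexp : n - t.W.natDegree + t.W.natDegree = p * (m + 2) + t.V.natDegree := by omega
        have hpow : (ζ ^ p) ^ m * (ζ ^ p) ^ 2 * ζ ^ t.V.natDegree =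
            ζ ^ (n - t.W.natDegree) * ζ ^ t.W.natDegree := by
          rw [← pow_add (ζ ^ p), ← pow_mul, ← pow_add, ← pow_add, hexp]
        obtain ⟨Z, hZ⟩ : ∃ Z, Z = ζ ^ p := ⟨_, rfl⟩
        obtain ⟨Y, hY⟩ : ∃ Y, Y = ζ⁻¹ ^ p := ⟨_, rfl⟩
        rw [← hZ, ← hY] at hYZ hYZm
        rw [← hZ] at hpow
        rw [← hY] at hfζ
        have key : aeval ζ t.V.reverse * (e ^ (p * (p - 1)) + Z *
            (τ - s * e ^ (p * (p - 1)) - s * τ * Z + κ * Z ^ (m + 1))) +
              ζ ^ (n - t.W.natDegree) * aeval ζ t.W.reverse = 0 := by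
          rw [hv, hw]
          obtain ⟨A, hA'⟩ : ∃ A, A = Z ^ m := ⟨_, rfl⟩
          obtain ⟨B, hB'⟩ : ∃ B, B = Y ^ m := ⟨_, rfl⟩
          rw [pow_succ, ← hA']
          rw [pow_succ Y m, ← hB'] at hfζ
          rw [← hA'] at hpow hYZm
          rw [← hB'] at hYZm
          obtain ⟨E, hE⟩ : ∃ E, E = e ^ (p * (p - 1)) := ⟨_, rfl⟩
          rw [← hE] at hfζ ⊢
          obtain ⟨D, hD⟩ : ∃ D, D = ζ ^ t.V.natDegree := ⟨_, rfl⟩
          rw [← hD] at hpow ⊢
          obtain ⟨Vy, hVy⟩ : ∃ Vy, Vy = aeval ζ⁻¹ t.V := ⟨_, rfl⟩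
          rw [← hVy] at hfζ ⊢
          obtain ⟨Wy, hWy⟩ : ∃ Wy, Wy = aeval ζ⁻¹ t.W := ⟨_, rfl⟩
          rw [← hWy] at hfζ ⊢
          have e1 : A * Z ^ 2 * D * (Vy * (E * ((Y - s) * (B * Y)) + τ * ((Y - s) * B) + κ * 1) +
              Wy) = D * Vy * (E * ((Z * Y - s * Z) * (A * B) * (Z * Y)) +
                τ * Z * ((Z * Y - s * Z) * (A * B)) + κ * (A * Z ^ 2)) + A * Z ^ 2 * D * Wy := by
            ring
          rw [hfζ, mul_zero, hYZ, hYZm, hpow] at e1
          linear_combination -e1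
        have hvne := hv0 ζ hζ
        beta_reduce
        rw [← hZ]
        apply mul_left_cancel₀ hvne
        rw [mul_zero, ← key]
        field_simp
      · change V.valuation (τ - s * e ^ (p * (p - 1)) - s * τ * ζ ^ p + κ * (ζ ^ p) ^ (m + 1) -
          τ) ≤ _
        have h1 : τ - s * e ^ (p * (p - 1)) - s * τ * ζ ^ p + κ * (ζ ^ p) ^ (m + 1) - τ =
            -(s * e ^ (p * (p - 1))) + (-(s * (τ * ζ ^ p)) + κ * ((ζ ^ p) ^ m * ζ ^ p)) := by
          ring
        rw [h1]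
        refine Valuation.map_add_le _ ?_ (Valuation.map_add_le _ ?_ ?_)
        · rw [Valuation.map_neg]
          refine mul_le V hs' ?_
          rw [map_pow]
          exact le_max_left _ _
        · rw [Valuation.map_neg]
          refine mul_le V hs' (mul_le V hτ' ?_)
          rw [map_pow]
          exact le_max_right _ _
        · refine mul_le V hκ' (mul_le V (pow_le V (pow_le V hζ.le p) m) ?_)
          rw [map_pow]
          exact le_max_right _ _
    · intro ζ₁ ζ₂ h1 h2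
      refine ⟨?_, hlam2 ζ₁ ζ₂ h1 h2⟩
      have h3 : τ - s * e ^ (p * (p - 1)) - s * τ * ζ₁ ^ p + κ * (ζ₁ ^ p) ^ (m + 1) -
          (τ - s * e ^ (p * (p - 1)) - s * τ * ζ₂ ^ p + κ * (ζ₂ ^ p) ^ (m + 1)) =
          -(s * (τ * (ζ₁ ^ p - ζ₂ ^ p))) + κ * ((ζ₁ ^ p) ^ (m + 1) - (ζ₂ ^ p) ^ (m + 1)) := by
        ring
      beta_reduce
      rw [h3]
      refine Valuation.map_add_le _ ?_ ?_
      · rw [Valuation.map_neg]
        exact mul_le V hs' (mul_le V hτ' le_rfl)
      · exact mul_le V hκ' (pow_sub V (pow_le V h1.le p) (pow_le V h2.le p) _)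

end MP7Z
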