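import Pool.Agent.Lib.MP_7f581e_Z.Alt.Spec

/-!
# Alternating step: valuations of the infinite roots (module LocV)
-/

namespace MP7Z

open Polynomial

namespace LocVM

variable {Ω : Type} [Field Ω] (V : ValuationSubring Ω)

theorem pow_one_add {μ : Ω} (hμ : μ ∈ V) (c : ℕ) :
    ∃ s ∈ V, (1 + μ) ^ c = 1 + c * μ + μ ^ 2 * s := by
  induction c with
  | zero => exact ⟨0, V.zero_mem, by simp⟩
  | succ c ih =>
    obtain ⟨s, hs, h⟩ := ih
    refine ⟨c + s + μ * s, V.add_mem _ _ (V.add_mem _ _ (natCast_mem V c) hs)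
      (V.mul_mem _ _ hμ hs), ?_⟩
    rw [pow_succ, h]
    push_cast
    ring

theorem val_natCast (p : ℕ) [Fact p.Prime] [Algebra (ZMod p) Ω] {c : ℕ} (hc : ¬ p ∣ c) :
    V.valuation (c : Ω) = 1 := by
  have h0 : (c : ZMod p) ≠ 0 := by
    rw [Ne, ZMod.natCast_eq_zero_iff]
    exact hc
  have h1 : (c : Ω) ^ (p - 1) = 1 := by
    have h2 := congrArg (algebraMap (ZMod p) Ω) (ZMod.pow_card_sub_one_eq_one h0)
    rwa [map_pow, map_natCast, map_one] at h2
  have h2 : V.valuation (c : Ω) ^ (p - 1) = 1 := by rw [← map_pow, h1, map_one]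
  have hp := (Fact.out : p.Prime).two_le
  exact (pow_eq_one_iff.1 h2).resolve_right (by omega)

/-- The difference of two `c`-th powers. -/
theorem val_pow_sub (p : ℕ) [Fact p.Prime] [Algebra (ZMod p) Ω] {c : ℕ} (hc : ¬ p ∣ c)
    (hc0 : 0 < c) {a b : Ω} (hb : b ≠ 0) (h : V.valuation (a - b) < V.valuation b) :
    V.valuation (a ^ c - b ^ c) = V.valuation (a - b) * V.valuation b ^ (c - 1) := by
  have hvb : V.valuation b ≠ 0 := (Valuation.ne_zero_iff _).2 hb
  have hvb' : 0 < V.valuation b := zero_lt_iff.2 hvb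
  set μ := (a - b) / b with hμ
  have hab : a = b * (1 + μ) := by
    rw [hμ]
    field_simp
    ring
  have hμ1 : V.valuation μ < 1 := by
    rw [hμ, map_div₀, div_lt_one₀ hvb']
    exact h
  have hμV : μ ∈ V := (V.valuation_le_one_iff μ).1 hμ1.le
  obtain ⟨s, hs, hs'⟩ := pow_one_add V hμV c
  have h1 : a ^ c - b ^ c = (a - b) * (b ^ (c - 1) * (c + μ * s)) := by
    have h2 : a - b = b * μ := by rw [hab]; ring
    have h3 : b ^ c = b ^ (c - 1) * b := by
      rw [← pow_succ, Nat.sub_add_cancel hc0]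
    rw [h2, hab, mul_pow, hs', h3]
    ring
  have h2 : V.valuation (c + μ * s) = 1 := by
    have h3 : V.valuation (μ * s) < V.valuation (c : Ω) := by
      rw [val_natCast V p hc, map_mul]
      have h4 : V.valuation s ≤ 1 := (V.valuation_le_one_iff s).2 hs
      calc V.valuation μ * V.valuation s ≤ V.valuation μ * 1 := by gcongr
        _ < 1 := by rw [mul_one]; exact hμ1
    rw [Valuation.map_add_eq_of_lt_left _ h3, val_natCast V p hc]
  rw [h1, map_mul, map_mul, map_pow, h2, mul_one]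

end LocVM

open LocVM in
theorem tLocV (h0 : LocEStmt) : LocVStmt := by
  intro p n _ t Ω _ _ V hV e τ κ he he1 hτ hκ hm
  have hp := (Fact.out : p.Prime)
  have hp2 := hp.two_le
  have : CharP Ω p := charP_of_injective_algebraMap (algebraMap (ZMod p) Ω).injective p
  have hτV : τ ∈ V := (V.valuation_le_one_iff τ).1 hτ.le
  obtain ⟨u, lam, hE, hL⟩ := h0 p n t Ω V hV e τ κ he1 hτV hκ hm
  set c := n - t.W.natDegree with hc
  have hpc : p < c := by
    have := t.hWn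
    omega
  have hcp : ¬ p ∣ c := t.hc
  have hve : V.valuation e ≠ 0 := (Valuation.ne_zero_iff _).2 he
  have hve' : 0 < V.valuation e := zero_lt_iff.2 hve
  have hNpos : p * (p - 1) ≠ 0 := Nat.mul_ne_zero (by omega) (by omega)
  -- facts on one root
  have hone : ∀ y : Ω, y ∉ V → (t.f e τ κ).eval y = 0 →
      y⁻¹ ≠ 0 ∧ V.valuation y⁻¹ < 1 ∧ V.valuation y⁻¹ = V.valuation e ^ (p - 1) ∧
      e ^ (p * (p - 1)) + y⁻¹ ^ p * u y⁻¹ + y⁻¹ ^ c * lam y⁻¹ = 0 ∧
      V.valuation (u y⁻¹) = 1 ∧ V.valuation (lam y⁻¹) = 1 := by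
    intro y hy hfy
    have hy0 : y ≠ 0 := by
      rintro rfl
      exact hy V.zero_mem
    have hvy : 1 < V.valuation y := by
      rw [← not_le, V.valuation_le_one_iff]
      exact hy
    have hζ0 : y⁻¹ ≠ 0 := inv_ne_zero hy0
    have hζ1 : V.valuation y⁻¹ < 1 := by
      rw [map_inv₀]
      exact inv_lt_one_of_one_lt₀ hvy
    obtain ⟨h1, h2, h3⟩ := hE y⁻¹ hζ1 hζ0 (by rw [inv_inv]; exact hfy)
    set ζ := y⁻¹ with hζ
    have hvζ0 : V.valuation ζ ≠ 0 := (Valuation.ne_zero_iff _).2 hζ0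
    have hvζ0' : 0 < V.valuation ζ := zero_lt_iff.2 hvζ0
    have h4 : V.valuation (u ζ - τ) < V.valuation τ := by
      rw [hτ]
      refine lt_of_le_of_lt h2 (max_lt ?_ ?_)
      · exact pow_lt_one₀ zero_le he1 hNpos
      · exact pow_lt_one₀ zero_le hζ1 (by omega)
    have h5 : V.valuation (u ζ) = 1 := by
      have h6 : u ζ = τ + (u ζ - τ) := by ring
      rw [h6, Valuation.map_add_eq_of_lt_left _ h4, hτ]
    have h7 : V.valuation (lam ζ) = 1 := by
      have h6 : lam ζ = 1 + (lam ζ - 1) := by ring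
      have h8 : V.valuation (lam ζ - 1) < V.valuation (1 : Ω) := by
        rw [map_one]
        exact h3
      rw [h6, Valuation.map_add_eq_of_lt_left _ h8, map_one]
    refine ⟨hζ0, hζ1, ?_, h1, h5, h7⟩
    have h8 : V.valuation (ζ ^ c * lam ζ) < V.valuation (ζ ^ p * u ζ) := by
      rw [map_mul, map_mul, h5, h7, mul_one, mul_one, map_pow, map_pow]
      exact pow_lt_pow_right_of_lt_one₀ hvζ0' hζ1 hpc
    have h9 : V.valuation (e ^ (p * (p - 1))) = V.valuation (ζ ^ p * u ζ) := by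
      have h10 : e ^ (p * (p - 1)) = -(ζ ^ p * u ζ + ζ ^ c * lam ζ) := by
        linear_combination h1
      rw [h10, Valuation.map_neg, Valuation.map_add_eq_of_lt_left _ h8]
    rw [map_mul, h5, mul_one, map_pow, map_pow, mul_comm p (p - 1), pow_mul] at h9
    exact ((pow_left_inj₀ zero_le zero_le (by omega : p ≠ 0)).1 h9).symm
  refine ⟨fun y hy hfy => (hone y hy hfy).2.2.1, ?_⟩
  intro y y' hy hy' hne hfy hfy'
  obtain ⟨hz0, hz1, hzq, h1, hu1, hl1⟩ := hone y hy hfy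
  obtain ⟨hz0', hz1', hzq', h2, hu2, hl2⟩ := hone y' hy' hfy'
  have hne' : y⁻¹ ≠ y'⁻¹ := fun h => hne (inv_injective h)
  set ζ₁ := y⁻¹
  set ζ₂ := y'⁻¹
  obtain ⟨hLu, hLl⟩ := hL ζ₁ ζ₂ hz1 hz1'
  set q := V.valuation e ^ (p - 1) with hq
  have hq0 : 0 < q := pow_pos hve' _
  have hq1 : q < 1 := pow_lt_one₀ zero_le he1 (by omega)
  have hchar : ζ₁ ^ p - ζ₂ ^ p = (ζ₁ - ζ₂) ^ p := (sub_pow_char ζ₁ ζ₂).symm
  rw [hchar, map_pow] at hLu
  set D := V.valuation (ζ₁ - ζ₂) with hD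
  have hD0 : 0 < D := zero_lt_iff.2 ((Valuation.ne_zero_iff _).2 (sub_ne_zero.2 hne'))
  have hDq : D ≤ q := by
    refine (Valuation.map_sub _ _ _).trans (max_le ?_ ?_)
    · rw [hzq]
    · rw [hzq']
  have hD1 : D < 1 := hDq.trans_lt hq1
  -- `D < q`
  have hlt : D < q := by
    have h3 : V.valuation ((ζ₁ ^ p - ζ₂ ^ p) * u ζ₁) < q ^ p := by
      have h4 : (ζ₁ ^ p - ζ₂ ^ p) * u ζ₁ =
          -(ζ₁ ^ c * lam ζ₁) + (ζ₂ ^ c * lam ζ₂ + -(ζ₂ ^ p * (u ζ₁ - u ζ₂))) := by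
        linear_combination h1 - h2
      rw [h4]
      have hqc : q ^ c < q ^ p := pow_lt_pow_right_of_lt_one₀ hq0 hq1 hpc
      refine lt_of_le_of_lt (Valuation.map_add _ _ _) (max_lt ?_ (lt_of_le_of_lt
        (Valuation.map_add _ _ _) (max_lt ?_ ?_)))
      · rw [Valuation.map_neg, map_mul, hl1, mul_one, map_pow, hzq]
        exact hqc
      · rw [map_mul, hl2, mul_one, map_pow, hzq']
        exact hqc
      · rw [Valuation.map_neg, map_mul, map_pow, hzq']
        have h5 : V.valuation (u ζ₁ - u ζ₂) < 1 :=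
          lt_of_le_of_lt hLu (pow_lt_one₀ zero_le hD1 (by omega))
        calc q ^ p * V.valuation (u ζ₁ - u ζ₂) < q ^ p * 1 :=
              mul_lt_mul_of_pos_left h5 (pow_pos hq0 _)
          _ = q ^ p := mul_one _
    rw [map_mul, hu1, mul_one, hchar, map_pow] at h3
    exact lt_of_pow_lt_pow_left₀ p zero_le h3
  have hT1 : V.valuation ((ζ₁ ^ p - ζ₂ ^ p) * u ζ₁) = D ^ p := by
    rw [map_mul, hu1, mul_one, hchar, map_pow]
  have hT2 : V.valuation (ζ₂ ^ p * (u ζ₁ - u ζ₂)) < D ^ p := by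
    rw [map_mul, map_pow, hzq']
    calc q ^ p * V.valuation (u ζ₁ - u ζ₂) ≤ q ^ p * D ^ p := by gcongr
      _ < 1 * D ^ p := by
          refine mul_lt_mul_of_pos_right ?_ (pow_pos hD0 _)
          exact pow_lt_one₀ zero_le hq1 (by omega)
      _ = D ^ p := one_mul _
  have hT3 : V.valuation ((ζ₁ ^ c - ζ₂ ^ c) * lam ζ₁) = D * q ^ (c - 1) := by
    rw [map_mul, hl1, mul_one, val_pow_sub V p hcp (by omega) hz0' (by rw [hzq']; exact hlt), hzq']
  have hT4 : V.valuation (ζ₂ ^ c * (lam ζ₁ - lam ζ₂)) < D * q ^ (c - 1) := by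
    rw [map_mul, map_pow, hzq']
    calc q ^ c * V.valuation (lam ζ₁ - lam ζ₂) ≤ q ^ c * D := by gcongr
      _ = D * (q ^ (c - 1) * q) := by
          rw [← pow_succ, Nat.sub_add_cancel (by omega : 1 ≤ c), mul_comm]
      _ < D * (q ^ (c - 1) * 1) := by
          refine mul_lt_mul_of_pos_left ?_ hD0
          exact mul_lt_mul_of_pos_left hq1 (pow_pos hq0 _)
      _ = D * q ^ (c - 1) := by rw [mul_one]
  have hkey : D ^ p = D * q ^ (c - 1) := by
    have h3 : (ζ₁ ^ p - ζ₂ ^ p) * u ζ₁ + ζ₂ ^ p * (u ζ₁ - u ζ₂) =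
        -((ζ₁ ^ c - ζ₂ ^ c) * lam ζ₁ + ζ₂ ^ c * (lam ζ₁ - lam ζ₂)) := by
      linear_combination h1 - h2
    have h4 := congrArg V.valuation h3
    rw [Valuation.map_neg, Valuation.map_add_eq_of_lt_left _ (by rw [hT1]; exact hT2),
      Valuation.map_add_eq_of_lt_left _ (by rw [hT3]; exact hT4), hT1, hT3] at h4
    exact h4
  have hkey2 : D ^ (p - 1) = (V.valuation e ^ (c - 1)) ^ (p - 1) := by
    have h3 : D * D ^ (p - 1) = D * q ^ (c - 1) := by
      rw [← pow_succ', Nat.sub_add_cancel (by omega : 1 ≤ p)]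
      exact hkey
    have h4 := mul_left_cancel₀ hD0.ne' h3
    rw [h4, hq, ← pow_mul, ← pow_mul, mul_comm]
  exact (pow_left_inj₀ zero_le zero_le (by omega : p - 1 ≠ 0)).1 hkey2

end MP7Z
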