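import Pool.Agent.Lib.MP_7f581e_Z.Alt.Spec

/-!
# Alternating step: multiple roots
-/

namespace MP7Z

open Polynomial

namespace MulM

variable {p n : ℕ} [Fact p.Prime] (t : AType p n) {F : Type} [Field F] [Algebra (ZMod p) F]

/-- `V P' - V' P = c₁ (X - s) D`. -/
theorem wronski {M : F[X]} (hM : derivative M = 0) :
    t.V.map (algebraMap (ZMod p) F) *
        derivative (t.V.map (algebraMap (ZMod p) F) * M + t.W.map (algebraMap (ZMod p) F)) -
      derivative (t.V.map (algebraMap (ZMod p) F)) *
        (t.V.map (algebraMap (ZMod p) F) * M + t.W.map (algebraMap (ZMod p) F)) =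
      C (algebraMap (ZMod p) F t.c₁) * (X - C (algebraMap (ZMod p) F t.s)) *
        t.D.map (algebraMap (ZMod p) F) := by
  have h := congrArg (Polynomial.map (algebraMap (ZMod p) F)) t.key
  simp only [Polynomial.map_sub, Polynomial.map_mul, map_C, map_X] at h
  rw [← derivative_map, ← derivative_map] at h
  rw [← h, derivative_add, derivative_mul, hM]
  ring

/-- A root of `D` is a root of `V`. -/
theorem root_V {r : F} (h : (t.D.map (algebraMap (ZMod p) F)).eval r = 0) :
    (t.V.map (algebraMap (ZMod p) F)).eval r = 0 := by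
  obtain ⟨Q, hQ⟩ := t.dvd
  have h1 := congrArg (fun R : (ZMod p)[X] => (R.map (algebraMap (ZMod p) F)).eval r) hQ
  simp only [Polynomial.map_mul, Polynomial.map_pow, eval_mul, eval_pow, h, zero_mul] at h1
  exact eq_zero_of_pow_eq_zero h1

theorem c_ne : algebraMap (ZMod p) F t.c₁ ≠ 0 := by
  rw [Ne, FaithfulSMul.algebraMap_eq_zero_iff]
  exact t.hc₁

end MulM

open MulM

/-- **Mul.** Multiple roots: only `s`, only of multiplicity two. -/
theorem tMul : MulStmt := by
  intro p n _ t F _ _ M hM
  have hw := wronski t hM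
  refine ⟨fun r hr => ?_, fun h3 => ?_⟩
  · by_contra hne
    have hP : X - C r ∣ t.V.map (algebraMap (ZMod p) F) * M + t.W.map (algebraMap (ZMod p) F) :=
      (dvd_pow_self _ two_ne_zero).trans hr
    have hP' : X - C r ∣ derivative
        (t.V.map (algebraMap (ZMod p) F) * M + t.W.map (algebraMap (ZMod p) F)) := by
      have h1 := pow_sub_one_dvd_derivative_of_pow_dvd hr
      rwa [show 2 - 1 = 1 from rfl, pow_one] at h1
    have h2 := dvd_sub (hP'.mul_left (t.V.map (algebraMap (ZMod p) F)))
      (hP.mul_left (derivative (t.V.map (algebraMap (ZMod p) F))))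
    rw [hw, dvd_iff_isRoot, IsRoot, eval_mul, eval_mul, eval_C, eval_sub, eval_X, eval_C] at h2
    have h4 : (t.D.map (algebraMap (ZMod p) F)).eval r = 0 :=
      (mul_eq_zero.mp h2).resolve_left (mul_ne_zero (c_ne t) (sub_ne_zero.mpr hne))
    have h5 := root_V t h4
    rw [dvd_iff_isRoot, IsRoot, eval_add, eval_mul, h5, zero_mul, zero_add] at hP
    rcases t.hWV with h6 | h6
    · rw [h6, Polynomial.map_one, eval_one] at hP
      exact one_ne_zero hP
    · rw [h6, Polynomial.map_one, eval_one] at h5
      exact one_ne_zero h5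
  · have hP' : (X - C (algebraMap (ZMod p) F t.s)) ^ 2 ∣ derivative
        (t.V.map (algebraMap (ZMod p) F) * M + t.W.map (algebraMap (ZMod p) F)) := by
      have h1 := pow_sub_one_dvd_derivative_of_pow_dvd h3
      rwa [show 3 - 1 = 2 from rfl] at h1
    have hP : (X - C (algebraMap (ZMod p) F t.s)) ^ 2 ∣
        t.V.map (algebraMap (ZMod p) F) * M + t.W.map (algebraMap (ZMod p) F) :=
      (pow_dvd_pow _ (by norm_num)).trans h3
    have h2 := dvd_sub (hP'.mul_left (t.V.map (algebraMap (ZMod p) F)))
      (hP.mul_left (derivative (t.V.map (algebraMap (ZMod p) F))))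
    rw [hw] at h2
    obtain ⟨Q, hQ⟩ := h2
    have h4 : C (algebraMap (ZMod p) F t.c₁) * t.D.map (algebraMap (ZMod p) F) =
        (X - C (algebraMap (ZMod p) F t.s)) * Q := by
      apply mul_left_cancel₀ (X_sub_C_ne_zero (algebraMap (ZMod p) F t.s))
      linear_combination hQ
    have h5 := congrArg (eval (algebraMap (ZMod p) F t.s)) h4
    rw [eval_mul, eval_mul, eval_C, eval_sub, eval_X, eval_C, sub_self, zero_mul] at h5
    have h6 := root_V t ((mul_eq_zero.mp h5).resolve_left (c_ne t))
    rw [eval_map_algebraMap, aeval_algebraMap_apply_eq_algebraMap_eval,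
      FaithfulSMul.algebraMap_eq_zero_iff] at h6
    exact t.hs h6

end MP7Z
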