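import Pool.Agent.Lib.MP_7f581e_Z.Alt.Spec
import Pool.Agent.Lib.MP_7f581e_Z.Lie.Pres

set_option autoImplicit false

/-! The equivariant parameters and the totally split place. -/

namespace MP7Z

open Polynomial

namespace ParM

section

variable {p : ℕ} [Fact p.Prime] {Ω : Type} [Field Ω] [Algebra (ZMod p) Ω]

/-- Values of a polynomial over the prime field at two points of `V`. -/
theorem aeval_sub {V : ValuationSubring Ω} {a b : Ω} (ha : a ∈ V) (hb : b ∈ V)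
    (P : (ZMod p)[X]) :
    V.valuation (aeval a P - aeval b P) ≤ V.valuation (a - b) := by
  have hZ : ∀ r : ZMod p, algebraMap (ZMod p) Ω r ∈ V := by
    intro r
    rw [← ZMod.natCast_zmod_val r, map_natCast]
    exact natCast_mem _ _
  let f : ZMod p →+* V := (algebraMap (ZMod p) Ω).codRestrict V.toSubring hZ
  obtain ⟨s, hs⟩ := Polynomial.sub_dvd_eval_sub (⟨a, ha⟩ : V) ⟨b, hb⟩ (P.map f)
  have hev : ∀ c : V, ((eval c (P.map f) : V) : Ω) = aeval (c : Ω) P := by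
    intro c
    rw [eval_map, aeval_def]
    exact Polynomial.hom_eval₂ P f V.subtype c
  have h1 : aeval a P - aeval b P = (a - b) * (s : Ω) := by
    have h2 := congrArg (Subtype.val) hs
    have h3 := hev ⟨a, ha⟩
    have h4 := hev ⟨b, hb⟩
    rw [← h3, ← h4]
    exact h2
  rw [h1, map_mul]
  exact mul_le_of_le_one_right' ((V.valuation_le_one_iff _).2 s.2)

/-- The residues of `x` at the members of a split family are pairwise different. -/
theorem res_inj {x : Ω} {V W : ValuationSubring Ω} (hV : x ∈ V) (hW : x ∈ W) {c : Ω}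
    (hc : c ∈ Cst p Ω) (h1 : V.valuation (x - c) < 1) (h2 : W.valuation (x - c) < 1) {t : Ω}
    (ht : t ∈ Algebra.adjoin (ZMod p) {x}) (h3 : V.valuation t < 1) : W.valuation t < 1 := by
  rw [Algebra.adjoin_singleton_eq_range_aeval] at ht
  obtain ⟨P, rfl⟩ := ht
  have hP : aeval c P ∈ Cst p Ω := by
    have h := Polynomial.aeval_algebraMap_apply (A := Cst p Ω) Ω ⟨c, hc⟩ P
    have h' : aeval c P = ((aeval (⟨c, hc⟩ : Cst p Ω) P : Cst p Ω) : Ω) := h
    rw [h']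
    exact (aeval (⟨c, hc⟩ : Cst p Ω) P).2
  have h4 := lt_of_le_of_lt (aeval_sub hV (ResAux.val_le hc V) P) h1
  have h5 := lt_of_le_of_lt (aeval_sub hW (ResAux.val_le hc W) P) h2
  have h6 : aeval c P = 0 := by
    by_contra h0
    have h7 := ResAux.val_const hP h0 V
    have h8 : aeval c P = aeval x P - (aeval x P - aeval c P) := by ring
    rw [h8] at h7
    exact (lt_of_le_of_lt (V.valuation.map_sub _ _) (max_lt h3 h4)).ne h7
  rw [h6, sub_zero] at h5
  exact h5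

theorem val_eps (V : ValuationSubring Ω) (u : ℤˣ) : V.valuation ((u : ℤ) : Ω) = 1 := by
  rcases Int.units_eq_one_or u with rfl | rfl
  · simp
  · simp

/-- `γ z` depends only on `ψ γ`. -/
theorem eq_of {x : Ω} {Q : Type} [Group Q] {ψ : Gx p x →* Q} {z : Ω}
    (hz : ∀ γ : Gx p x, ψ γ = 1 → (γ : Ω ≃ₐ[ZMod p] Ω) z = z) {γ γ' : Gx p x} (h : ψ γ = ψ γ') :
    (γ : Ω ≃ₐ[ZMod p] Ω) z = (γ' : Ω ≃ₐ[ZMod p] Ω) z := by
  have h1 := hz (γ'⁻¹ * γ) (by rw [map_mul, map_inv, h, inv_mul_cancel])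
  have h2 : (γ' : Ω ≃ₐ[ZMod p] Ω) (((γ'⁻¹ * γ : Gx p x) : Ω ≃ₐ[ZMod p] Ω) z) =
      (((γ' * (γ'⁻¹ * γ) : Gx p x)) : Ω ≃ₐ[ZMod p] Ω) z := rfl
  rw [h1, mul_inv_cancel_left] at h2
  exact h2.symm

/-- The twisted sums of conjugates. -/
theorem sums {x : Ω} {Q : Type} [Group Q] [Finite Q] {ψ : Gx p x →* Q}
    (hψ : Function.Surjective ψ) {k : ℕ} (act : Q →* Equiv.Perm (Fin k)) (j₀ : Fin k)
    (c : Q → ℤˣ) (d : Q → Fin k → ℤˣ) (hcd : ∀ a b, c (a * b) = d a (act b j₀) * c b)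
    (hc1 : c 1 = 1) {z a : Ω} (hint : IsIntegral (Algebra.adjoin (ZMod p) {x}) z)
    (hz : ∀ γ : Gx p x, ψ γ = 1 → (γ : Ω ≃ₐ[ZMod p] Ω) z = z) {V : ValuationSubring Ω}
    (hza : V.valuation (z - a) < 1)
    (hz0 : ∀ γ : Gx p x, ψ γ ≠ 1 → V.valuation ((γ : Ω ≃ₐ[ZMod p] Ω) z) < 1) :
    ∃ w : Fin k → Ω, (∀ j, IsIntegral (Algebra.adjoin (ZMod p) {x}) (w j)) ∧
      (∀ (γ : Gx p x) (j : Fin k), (γ : Ω ≃ₐ[ZMod p] Ω) (w j) =
          ((d (ψ γ) j : ℤ) : Ω) * w (act (ψ γ) j)) ∧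
      V.valuation (w j₀ - a) < 1 ∧ ∀ j, j ≠ j₀ → V.valuation (w j) < 1 := by
  classical
  cases nonempty_fintype Q
  choose g hg using hψ
  set T : Q → Ω := fun q => ((c q : ℤ) : Ω) * (g q : Ω ≃ₐ[ZMod p] Ω) z with hT
  have hTv : ∀ q, q ≠ 1 → V.valuation (T q) < 1 := by
    intro q hq
    rw [hT]
    simp only [map_mul, val_eps, one_mul]
    exact hz0 _ (by rw [hg]; exact hq)
  refine ⟨fun j => ∑ q, if act q j₀ = j then T q else 0, ?_, ?_, ?_, ?_⟩
  · intro j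
    refine IsIntegral.sum _ fun q _ => ?_
    by_cases h : act q j₀ = j
    · rw [if_pos h]
      refine IsIntegral.mul ?_ (RQ_int (g q) hint)
      exact isIntegral_algebraMap (R := Algebra.adjoin (ZMod p) {x})
        (x := (((c q : ℤ)) : Algebra.adjoin (ZMod p) {x}))
    · rw [if_neg h]
      exact isIntegral_zero
  · intro γ j
    have h1 : ∀ q, (γ : Ω ≃ₐ[ZMod p] Ω) (T q) = ((d (ψ γ) (act q j₀) : ℤ) : Ω) * T (ψ γ * q) := by
      intro q
      have h2 : (γ : Ω ≃ₐ[ZMod p] Ω) ((g q : Ω ≃ₐ[ZMod p] Ω) z) =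
          (g (ψ γ * q) : Ω ≃ₐ[ZMod p] Ω) z :=
        eq_of hz (γ := γ * g q) (γ' := g (ψ γ * q)) (by rw [map_mul, hg, hg])
      rw [hT]
      simp only [map_mul, map_intCast, h2, hcd, Units.val_mul, Int.cast_mul]
      have h3 : ((d (ψ γ) (act q j₀) : ℤ) : Ω) * ((d (ψ γ) (act q j₀) : ℤ) : Ω) = 1 := by
        rw [← Int.cast_mul, ← Units.val_mul, Int.units_mul_self, Units.val_one, Int.cast_one]
      rw [← mul_assoc, ← mul_assoc, h3, one_mul]
    rw [map_sum, Finset.mul_sum]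
    rw [← Equiv.sum_comp (Equiv.mulLeft (ψ γ)) (fun q => ((d (ψ γ) j : ℤ) : Ω) *
      (if act q j₀ = act (ψ γ) j then T q else 0))]
    refine Finset.sum_congr rfl fun q _ => ?_
    rw [Equiv.coe_mulLeft]
    by_cases h : act q j₀ = j
    · have h2 : act (ψ γ * q) j₀ = act (ψ γ) j := by
        rw [map_mul, Equiv.Perm.mul_apply, h]
      rw [if_pos h, if_pos h2, h1, h]
    · have h2 : ¬ act (ψ γ * q) j₀ = act (ψ γ) j := by
        rw [map_mul, Equiv.Perm.mul_apply]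
        exact fun h' => h ((act (ψ γ)).injective h')
      rw [if_neg h, if_neg h2, map_zero, mul_zero]
  · change V.valuation ((∑ q, if act q j₀ = j₀ then T q else 0) - a) < 1
    rw [← Finset.add_sum_erase _ _ (Finset.mem_univ (1 : Q))]
    have h1 : act 1 j₀ = j₀ := by rw [map_one]; rfl
    have h2 : T 1 = z := by
      rw [hT]
      simp only [hc1, Units.val_one, Int.cast_one, one_mul]
      exact hz _ (hg 1)
    rw [if_pos h1, h2, add_sub_right_comm]
    refine V.valuation.map_add_lt hza (V.valuation.map_sum_lt one_ne_zero fun q hq => ?_)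
    by_cases h : act q j₀ = j₀
    · rw [if_pos h]
      exact hTv q (Finset.ne_of_mem_erase hq)
    · rw [if_neg h, map_zero]
      exact zero_lt_one
  · intro j hj
    refine V.valuation.map_sum_lt one_ne_zero fun q _ => ?_
    by_cases h : act q j₀ = j
    · rw [if_pos h]
      refine hTv q fun h1 => hj ?_
      rw [← h, h1, map_one]
      rfl
    · rw [if_neg h, map_zero]
      exact zero_lt_one

end

end ParM

theorem tPar (h0 : ResStmt) (h1 : FamStmt) (h2 : PresStmt) : ParStmt := by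
  classical
  intro p _ Ω _ _ x hst Q _ _ ψ hfin hψ k act ε j₀ hε htr B
  obtain ⟨V, hV⟩ := h1 p Ω x hst 1 one_pos Q ψ hfin (B.card + 1)
  have hres : ∀ j, ∃ c ∈ Cst p Ω, (V j).valuation (x - c) < 1 := by
    intro j
    obtain ⟨c, hc, hcv, -⟩ := (h0 p Ω x hst (V j) (hV.ne_top j)).2.2.1 x (hV.mem j)
    exact ⟨c, hc, hcv⟩
  choose c hc hcv using hres
  have hinj : Function.Injective c := by
    intro i j hij
    by_contra hne
    obtain ⟨t, ht, ht1, ht2⟩ := hV.sep i j hne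
    have h3 := ParM.res_inj (hV.mem i) (hV.mem j) (hc i) (hcv i) (by rw [hij]; exact hcv j) ht ht1
    exact h3.ne ht2
  obtain ⟨j₁, hj₁⟩ : ∃ j₁, c j₁ ∉ B := by
    by_contra hcon
    push Not at hcon
    have h3 : (Finset.univ.image c).card ≤ B.card := by
      apply Finset.card_le_card
      intro y hy
      obtain ⟨j, -, rfl⟩ := Finset.mem_image.1 hy
      exact hcon j
    rw [Finset.card_image_of_injective _ hinj, Finset.card_univ, Fintype.card_fin] at h3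
    omega
  set V₁ := V j₁ with hV₁
  set x₀ := c j₁ with hx₀
  have hx₀c : x₀ ∈ Cst p Ω := hc j₁
  have hxx₀ : V₁.valuation (x - x₀) < 1 := hcv j₁
  have hfam : SplitFam 1 ψ (fun _ : Fin 1 => V₁) :=
    { ne_top := fun _ => hV.ne_top j₁
      mem := fun _ => hV.mem j₁
      dec := fun _ => hV.dec j₁
      deg := fun _ => hV.deg j₁
      sep := fun i j hij => absurd (Subsingleton.elim i j) hij
      prim := by
        obtain ⟨α, ha1, ha2, ha3⟩ := hV.prim
        exact ⟨α, ha1, ha2, fun γ γ' h _ => ha3 γ γ' h j₁⟩ }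
  have hpres : ∀ a ∈ Cst p Ω, (∀ δ ∈ Gx p x ⊓ Dec p V₁, δ a = a) →
      ∃ z : Ω, IsIntegral (Algebra.adjoin (ZMod p) {x}) z ∧
        (∀ γ : Gx p x, ψ γ = 1 → (γ : Ω ≃ₐ[ZMod p] Ω) z = z) ∧
        V₁.valuation (z - a) < 1 ∧
        ∀ γ : Gx p x, ψ γ ≠ 1 → V₁.valuation ((γ : Ω ≃ₐ[ZMod p] Ω) z) < 1 := by
    intro a ha hfix
    obtain ⟨z, hz1, hz2, hz3, hz4⟩ := h2 p Ω x hst Q ψ hψ 1 1 (fun _ => V₁) hfam (fun _ => a)
      (fun _ => ha) (fun _ => hfix)
    exact ⟨z, hz1, hz2, hz3 0, fun γ hγ => hz4 γ hγ 0⟩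
  have hε1 : ε 1 j₀ = 1 := by
    have h3 := hε 1 1 j₀
    rw [map_one, mul_one, Equiv.Perm.one_apply] at h3
    exact (mul_eq_left.1 h3.symm)
  refine ⟨V₁, hV.ne_top j₁, hV.mem j₁, hV.dec j₁, x₀, hx₀c, hj₁, hxx₀, ?_, ?_, ?_⟩
  · -- the polynomial
    have halg : IsAlgebraic (ZMod p) x₀ := mem_algebraicClosure_iff.1 hx₀c
    refine ⟨aeval x (minpoly (ZMod p) x₀), ?_, ?_, ?_⟩
    · rw [Algebra.adjoin_singleton_eq_range_aeval]
      exact ⟨_, rfl⟩
    · intro h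
      exact hst.transc ⟨minpoly (ZMod p) x₀, minpoly.ne_zero halg.isIntegral, h⟩
    · have h3 := ParM.aeval_sub (hV.mem j₁) (ResAux.val_le hx₀c V₁) (minpoly (ZMod p) x₀)
      rw [minpoly.aeval, sub_zero] at h3
      exact h3
  · obtain ⟨z, hz1, hz2, hz3, hz4⟩ := hpres 1 (one_mem _) (fun δ _ => map_one δ)
    obtain ⟨w, hw1, hw2, hw3, -⟩ := ParM.sums hψ act j₀ (fun q => ε q j₀) ε
      (fun a b => hε a b j₀) hε1 hz1 hz2 hz3 hz4
    have hw0 : w j₀ ≠ 0 := by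
      intro h
      rw [h, zero_sub, Valuation.map_neg, map_one] at hw3
      exact lt_irrefl _ hw3
    refine ⟨w, ?_, hw1, hw2, hw3⟩
    intro j hj
    obtain ⟨q, hq⟩ := htr j
    obtain ⟨γ, hγ⟩ := hψ q
    have h3 := hw2 γ j₀
    rw [hγ, hq, hj, mul_zero] at h3
    exact hw0 ((map_eq_zero _).1 h3)
  · intro a ha hfix
    obtain ⟨z, hz1, hz2, hz3, hz4⟩ := hpres a ha hfix
    obtain ⟨w, hw1, hw2, hw3, hw4⟩ := ParM.sums hψ act j₀ (fun _ => 1) (fun _ _ => 1)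
      (fun a b => (mul_one _).symm) rfl hz1 hz2 hz3 hz4
    refine ⟨w, hw1, fun γ j => ?_, hw3, hw4⟩
    have h3 := hw2 γ j
    rw [Units.val_one, Int.cast_one, one_mul] at h3
    exact h3

end MP7Z
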