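import Pool.Agent.Lib.MP_7f581e_Z.Alt.Spec

/-!
# Alternating step: separability
-/

set_option autoImplicit false

namespace MP7Z

open Polynomial

/-- The relation between `f` and its derivative. -/
theorem SepM.key {p n : ℕ} [Fact p.Prime] (t : AType p n) {F : Type} [Field F]
    [Algebra (ZMod p) F] {M : F[X]} (hM : derivative M = 0) :
    t.V.map (algebraMap (ZMod p) F) *
        derivative (t.V.map (algebraMap (ZMod p) F) * M + t.W.map (algebraMap (ZMod p) F)) -
      derivative (t.V.map (algebraMap (ZMod p) F)) *
        (t.V.map (algebraMap (ZMod p) F) * M + t.W.map (algebraMap (ZMod p) F)) =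
      C (algebraMap (ZMod p) F t.c₁) * (X - C (algebraMap (ZMod p) F t.s)) *
        t.D.map (algebraMap (ZMod p) F) := by
  have h1 := congrArg (fun P : (ZMod p)[X] => P.map (algebraMap (ZMod p) F)) t.key
  simp only [Polynomial.map_sub, Polynomial.map_mul, map_C, map_X, ← derivative_map] at h1
  rw [← h1, derivative_add, derivative_mul, hM, mul_zero, add_zero]
  ring

theorem tSep : SepStmt := by
  intro p n _ t F _ _ M hM hs
  have key := SepM.key t hM
  set V := t.V.map (algebraMap (ZMod p) F) with hV
  set W := t.W.map (algebraMap (ZMod p) F) with hW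
  set P := V * M + W with hP
  have h1 : IsCoprime P V := by
    rcases t.hWV with h | h
    · refine ⟨1, -M, ?_⟩
      rw [hP, hW, h, Polynomial.map_one]
      ring
    · rw [hV, h, Polynomial.map_one]
      exact isCoprime_one_right
  have h2 : IsCoprime P (t.D.map (algebraMap (ZMod p) F)) := by
    have h3 : t.D.map (algebraMap (ZMod p) F) ∣ V ^ t.k := by
      rw [hV, ← Polynomial.map_pow]
      exact Polynomial.map_dvd _ t.dvd
    exact IsCoprime.of_isCoprime_of_dvd_right (h1.pow_right (n := t.k)) h3
  have h3 : IsCoprime P (X - C (algebraMap (ZMod p) F t.s)) := by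
    rw [isCoprime_comm, (irreducible_X_sub_C (algebraMap (ZMod p) F t.s)).coprime_iff_not_dvd,
      dvd_iff_isRoot]
    exact hs
  have hc : IsUnit (C (algebraMap (ZMod p) F t.c₁)) := by
    rw [isUnit_C, isUnit_iff_ne_zero, Ne, map_eq_zero]
    exact t.hc₁
  have h4 : IsCoprime P (V * derivative P - derivative V * P) := by
    rw [key, mul_assoc, isCoprime_mul_unit_left_right hc]
    exact h3.mul_right h2
  have h5 : V * derivative P - derivative V * P = V * derivative P + P * (-derivative V) := by
    ring
  rw [h5] at h4
  exact (h4.of_add_mul_left_right).of_mul_right_right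

end MP7Z
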