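import Pool.Agent.Lib.MP_7f581e_Z.Alt.Spec

set_option autoImplicit false

namespace MP7Z

theorem tSgn : SgnStmt := by
  intro n Ω _ h2 σ y y' ρ ε a a' hσ hinj ha ha' hε
  have h1 : σ a = ((Equiv.Perm.sign ρ : ℤˣ) : Ω) * a' := by
    have hv : Matrix.vandermonde (fun i => y' (ρ i)) = (Matrix.vandermonde y').submatrix ρ id := rfl
    have h3 := Matrix.det_vandermonde (fun i => y' (ρ i))
    rw [hv, Matrix.det_permute, Matrix.det_vandermonde, ha'] at h3
    rw [h3, ← ha, map_prod]
    refine Finset.prod_congr rfl fun i _ => ?_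
    rw [map_prod]
    refine Finset.prod_congr rfl fun j _ => ?_
    rw [map_sub, hσ, hσ]
  have ha0 : a' ≠ 0 := by
    rw [← ha', ← Matrix.det_vandermonde]
    exact Matrix.det_vandermonde_ne_zero_iff.2 hinj
  have h4 : ((Equiv.Perm.sign ρ : ℤˣ) : Ω) = ((ε : ℤ) : Ω) := by
    rw [h1] at hε
    exact mul_right_cancel₀ ha0 hε
  have hne : (1 : Ω) ≠ -1 := by
    intro h
    apply h2
    linear_combination h
  rcases Int.units_eq_one_or (Equiv.Perm.sign ρ) with h5 | h5 <;>
    rcases Int.units_eq_one_or ε with h6 | h6 <;> rw [h5, h6] at h4 ⊢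
  · exact absurd (by simpa using h4) hne
  · exact absurd (by simpa using h4.symm) hne

end MP7Z
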