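import Pool.Agent.Lib.MP_7f581e_Z.Alt.Spec
import Pool.Agent.Lib.MP_7f581e_Z.Lie.Int
import Pool.Agent.Lib.MP_7f581e_Z.BR.ResT

/-!
# Existence of the system of polynomials
-/

namespace MP7Z
namespace SysM

open Polynomial MP7fS

section

variable {p : ℕ} [Fact p.Prime] {Ω : Type} [Field Ω] [Algebra (ZMod p) Ω]

theorem zmod_cst (c : ZMod p) : algebraMap (ZMod p) Ω c ∈ Cst p Ω :=
  (Cst p Ω).algebraMap_mem c

theorem map_cst (δ : Ω ≃ₐ[ZMod p] Ω) {c : Ω} (hc : c ∈ Cst p Ω) : δ c ∈ Cst p Ω :=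
  (cstAut δ ⟨c, hc⟩).2

theorem two_ne (hp : p ≠ 2) : (2 : Ω) ≠ 0 := by
  have hcp : CharP Ω p := charP_of_injective_algebraMap (algebraMap (ZMod p) Ω).injective p
  intro h
  have h1 : ((2 : ℕ) : Ω) = 0 := by exact_mod_cast h
  rw [CharP.cast_eq_zero_iff Ω p] at h1
  exact hp ((Nat.prime_dvd_prime_iff_eq (Fact.out : p.Prime) Nat.prime_two).1 h1)

theorem kap_val (V : ValuationSubring Ω) {c cV cW w x x₀ : Ω} (hc : V.valuation c = 1)
    (hcV : V.valuation cV = 1) (hx : V.valuation (x - x₀) < 1) (hx1 : V.valuation x ≤ 1)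
    (h0 : V.valuation (2 * x₀) = 1)
    (hw : V.valuation (w - 1) < V.valuation (x - x₀)) :
    V.valuation ((c⁻¹ * (w * x) ^ 2 - cW) / cV - (c⁻¹ * x₀ ^ 2 - cW) / cV) =
      V.valuation (x - x₀) := by
  have h1 : (c⁻¹ * (w * x) ^ 2 - cW) / cV - (c⁻¹ * x₀ ^ 2 - cW) / cV =
      c⁻¹ * cV⁻¹ * ((w * x - x₀) * (w * x + x₀)) := by
    rw [div_sub_div_same, div_eq_mul_inv]
    ring
  have h2 : V.valuation (w * x - x₀) = V.valuation (x - x₀) := by
    have h3 : w * x - x₀ = (w - 1) * x + (x - x₀) := by ring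
    rw [h3]
    apply Valuation.map_add_eq_of_lt_right
    rw [map_mul]
    exact lt_of_le_of_lt (mul_le_of_le_one_right zero_le hx1) hw
  have h4 : V.valuation (w * x + x₀) = 1 := by
    have h3 : w * x + x₀ = (w * x - x₀) + 2 * x₀ := by ring
    rw [h3, Valuation.map_add_eq_of_lt_right, h0]
    rw [h2, h0]
    exact hx
  rw [h1, map_mul, map_mul, map_mul, map_inv₀, map_inv₀, hc, hcV, h2, h4]
  simp

theorem int_zmod (x : Ω) (c : ZMod p) :
    IsIntegral (Algebra.adjoin (ZMod p) {x}) (algebraMap (ZMod p) Ω c) := by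
  rw [IsScalarTower.algebraMap_apply (ZMod p) (Algebra.adjoin (ZMod p) {x}) Ω]
  exact isIntegral_algebraMap

theorem int_adj {x a : Ω} (ha : a ∈ Algebra.adjoin (ZMod p) {x}) :
    IsIntegral (Algebra.adjoin (ZMod p) {x}) a :=
  isIntegral_algebraMap (x := (⟨a, ha⟩ : Algebra.adjoin (ZMod p) {x}))

theorem x_mem (x : Ω) : x ∈ Algebra.adjoin (ZMod p) {x} :=
  Algebra.subset_adjoin (Set.mem_singleton x)

theorem units_pow {p : ℕ} (hp : p.Prime) (hp2 : p ≠ 2) (u : ℤˣ) : u ^ p = u := by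
  rcases Int.units_eq_one_or u with rfl | rfl
  · simp
  · exact (hp.odd_of_ne_two hp2).neg_one_pow

end

end SysM

open Polynomial SysM in
theorem tSys (_h0 : ResStmt) (h1 : LabStmt) (h2 : SgnStmt) (h3 : UnrStmt) (h4 : TransStmt)
    (h5 : ParStmt) : SysStmt := by
  classical
  intro p n _ t Ω _ _ x hst Q _ _ ψ hfin hsurj k act ε j₀ hε htr
  have hsc : IsSepClosed Ω := hst.sepClosed
  have hcp : CharP Ω p := charP_of_injective_algebraMap (algebraMap (ZMod p) Ω).injective p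
  have hpp : p.Prime := Fact.out
  obtain ⟨c', hc', z, hLab⟩ := h1 p n t
  set c : Ω := algebraMap (ZMod p) Ω c' with hc
  set cV : Ω := algebraMap (ZMod p) Ω (t.V.eval t.s) with hcV
  set cW : Ω := algebraMap (ZMod p) Ω (t.W.eval t.s) with hcW
  have hc0 : c ≠ 0 := by
    rw [hc, Ne, map_eq_zero]
    exact hc'
  have hcV0 : cV ≠ 0 := by
    rw [hcV, Ne, map_eq_zero]
    exact t.hs
  -- the finite set
  have hB : ∃ B : Finset Ω, ∀ b : Ω, b ∉ B → b ≠ 0 ∧ b ^ 2 ≠ c * cW := by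
    refine ⟨insert 0 (X ^ 2 - C (c * cW) : Polynomial Ω).roots.toFinset, fun b hb => ⟨?_, ?_⟩⟩
    · rintro rfl
      exact hb (Finset.mem_insert_self _ _)
    · intro h6
      apply hb
      rw [Finset.mem_insert]
      right
      rw [Multiset.mem_toFinset, mem_roots (X_pow_sub_C_ne_zero (by norm_num) _), IsRoot.def]
      simp [h6]
  obtain ⟨B, hB⟩ := hB
  obtain ⟨V₁, hV₁, hxV, hdec, x₀, hx₀, hx₀B, hxx₀, ⟨P, hP, hP0, hPv⟩, ⟨w', hw0, hwi, hwact, hw1⟩,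
    hh⟩ := h5 p Ω x hst Q ψ hfin hsurj k act ε j₀ hε htr B
  obtain ⟨hx₀0, hx₀W⟩ := hB x₀ hx₀B
  have hε1 : ∀ j, ε 1 j = 1 := by
    intro j
    have h6 := hε 1 1 j
    rw [mul_one, map_one] at h6
    exact (mul_eq_left.mp h6.symm)
  have hxne : x - x₀ ≠ 0 := by
    intro h6
    have h7 : x = x₀ := sub_eq_zero.mp h6
    apply hst.transc
    rw [h7]
    exact mem_algebraicClosure_iff.1 hx₀
  have hq0 : V₁.valuation (x - x₀) ≠ 0 := (Valuation.ne_zero_iff _).2 hxne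
  have hxV1 : V₁.valuation x ≤ 1 := (V₁.valuation_le_one_iff x).2 hxV
  -- the value of `w' j₀`
  have hw2 : V₁.valuation (w' j₀ - 1) ≤ V₁.valuation (x - x₀) := by
    refine h3 p Ω x hst V₁ hV₁ x₀ hx₀ hxx₀ (w' j₀ - 1) (fun δ hδ => ?_) hw1
    have h6 : ψ ⟨δ, hδ.1⟩ = 1 := hdec ⟨δ, hδ.1⟩ hδ.2.2
    have h7 := hwact ⟨δ, hδ.1⟩ j₀
    rw [h6, map_one, hε1] at h7
    rw [map_sub, map_one]
    change δ (w' j₀) = _ at h7
    rw [h7]
    simp
  set w : Fin k → Ω := fun j => w' j ^ p with hw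
  have hwne : ∀ j, w j ≠ 0 := fun j => pow_ne_zero _ (hw0 j)
  have hwint : ∀ j, IsIntegral (Algebra.adjoin (ZMod p) {x}) (w j) := fun j => (hwi j).pow p
  have hwact' : ∀ (γ : Gx p x) (j : Fin k), (γ : Ω ≃ₐ[ZMod p] Ω) (w j) =
      ((ε (ψ γ) j : ℤ) : Ω) * w (act (ψ γ) j) := by
    intro γ j
    simp only [hw]
    rw [map_pow, hwact, mul_pow]
    congr 1
    have h6 := units_pow hpp t.odd (ε (ψ γ) j)
    conv_rhs => rw [← h6]
    push_cast
    rfl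
  have hwv : V₁.valuation (w j₀ - 1) < V₁.valuation (x - x₀) := by
    have h6 : w j₀ - 1 = (w' j₀ - 1) ^ p := by rw [sub_pow_char, one_pow]
    rw [h6, map_pow]
    exact lt_of_le_of_lt (pow_le_pow_left' hw2 p)
      (pow_lt_self_of_lt_one₀ (zero_lt_iff.2 hq0) hxx₀ hpp.one_lt)
  -- the parameter `κ`
  set κ : Fin k → Ω := fun j => (c⁻¹ * (w j * x) ^ 2 - cW) / cV with hκ
  set κ₀ : Ω := (c⁻¹ * x₀ ^ 2 - cW) / cV with hκ₀
  have hcc : c ∈ Cst p Ω := zmod_cst _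
  have hcVc : cV ∈ Cst p Ω := zmod_cst _
  have hcWc : cW ∈ Cst p Ω := zmod_cst _
  have hκ₀c : κ₀ ∈ Cst p Ω :=
    div_mem (sub_mem (mul_mem (inv_mem hcc) (pow_mem hx₀ 2)) hcWc) hcVc
  have hκ₀0 : κ₀ ≠ 0 := by
    intro h6
    rw [hκ₀, div_eq_zero_iff] at h6
    rcases h6 with h6 | h6
    · apply hx₀W
      field_simp at h6
      linear_combination h6
    · exact hcV0 h6
  have hκv : V₁.valuation (κ j₀ - κ₀) = V₁.valuation (x - x₀) := by
    refine kap_val V₁ (ResAux.val_const hcc hc0 V₁) (ResAux.val_const hcVc hcV0 V₁) hxx₀ hxV1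
      (ResAux.val_const (mul_mem ?_ hx₀) (mul_ne_zero (two_ne t.odd) hx₀0) V₁) hwv
    have h6 : (2 : Ω) = algebraMap (ZMod p) Ω 2 := by rw [map_ofNat]
    rw [h6]
    exact zmod_cst _
  have hκval : ∀ j, t.val (κ j) = algebraMap (ZMod p) Ω c'⁻¹ * (w j * x) ^ 2 := by
    intro j
    rw [AType.val, ← hcV, ← hcW, map_inv₀, ← hc, hκ]
    field_simp
    ring
  have hx0 : x ≠ 0 := by
    rintro rfl
    exact hst.transc isAlgebraic_zero
  have hκval0 : ∀ j, t.val (κ j) ≠ 0 := by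
    intro j
    rw [hκval, map_inv₀]
    exact mul_ne_zero (inv_ne_zero hc0) (pow_ne_zero _ (mul_ne_zero (hwne j) hx0))
  have hκint : ∀ j, IsIntegral (Algebra.adjoin (ZMod p) {x}) (κ j) := by
    intro j
    have h6 : κ j = algebraMap (ZMod p) Ω (t.V.eval t.s)⁻¹ * (algebraMap (ZMod p) Ω c'⁻¹ *
        (w j * x) ^ 2 - cW) := by
      rw [map_inv₀, map_inv₀, ← hc, ← hcV, hκ]
      field_simp
    rw [h6]
    exact (int_zmod x _).mul (((int_zmod x _).mul (((hwint j).mul (int_adj (x_mem x))).pow 2)).sub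
      (int_zmod x _))
  have hγx : ∀ γ : Gx p x, (γ : Ω ≃ₐ[ZMod p] Ω) x = x := fun γ => mem_Gx.1 γ.2
  have hγP : ∀ (γ : Gx p x), ∀ a ∈ Algebra.adjoin (ZMod p) {x}, (γ : Ω ≃ₐ[ZMod p] Ω) a = a :=
    fun γ => Int_.fixes_adjoin γ.2
  have hκact : ∀ (γ : Gx p x) (j : Fin k), (γ : Ω ≃ₐ[ZMod p] Ω) (κ j) = κ (act (ψ γ) j) := by
    intro γ j
    have h6 : ((ε (ψ γ) j : ℤ) : Ω) ^ 2 = 1 := by
      rcases Int.units_eq_one_or (ε (ψ γ) j) with h6 | h6 <;> rw [h6] <;> simp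
    simp only [hκ]
    rw [map_div₀, map_sub, map_mul, map_inv₀, map_pow, map_mul, hwact', hγx, hc, hcV, hcW,
      AlgEquiv.commutes, AlgEquiv.commutes, AlgEquiv.commutes]
    congr 2
    rw [show ((ε (ψ γ) j : ℤ) : Ω) * w (act (ψ γ) j) * x = ((ε (ψ γ) j : ℤ) : Ω) *
      (w (act (ψ γ) j) * x) by ring, mul_pow, h6, one_mul]
  -- `τ₀`
  set τ₀ : Ω := if t.m = 1 then κ₀ else x₀ with hτ₀
  have hτ₀c : τ₀ ∈ Cst p Ω := by
    rw [hτ₀]
    split_ifs
    · exact hκ₀c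
    · exact hx₀
  have hτ₀0 : τ₀ ≠ 0 := by
    rw [hτ₀]
    split_ifs
    · exact hκ₀0
    · exact hx₀0
  have hδx₀ : ∀ δ ∈ Gx p x ⊓ Dec p V₁, δ x₀ = x₀ := by
    intro δ hδ
    by_contra h6
    have h7 := ResAux.val_const (sub_mem (map_cst δ hx₀) hx₀) (sub_ne_zero.2 h6) V₁
    have h8 : V₁.valuation (δ (x - x₀)) < 1 := ResAux.dec_val hδ.2 hxx₀
    rw [map_sub, mem_Gx.1 hδ.1] at h8
    have h9 : δ x₀ - x₀ = (x - x₀) - (x - δ x₀) := by ring
    rw [h9] at h7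
    have h10 := lt_of_le_of_lt (V₁.valuation.map_sub (x - x₀) (x - δ x₀)) (max_lt hxx₀ h8)
    rw [h7] at h10
    exact lt_irrefl _ h10
  have hδτ₀ : ∀ δ ∈ Gx p x ⊓ Dec p V₁, δ (-τ₀⁻¹) = -τ₀⁻¹ := by
    intro δ hδ
    have h6 : δ τ₀ = τ₀ := by
      rw [hτ₀]
      split_ifs
      · rw [hκ₀, map_div₀, map_sub, map_mul, map_inv₀, map_pow, hδx₀ δ hδ, hc, hcV, hcW,
          AlgEquiv.commutes, AlgEquiv.commutes, AlgEquiv.commutes]
      · exact hδx₀ δ hδ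
    rw [map_neg, map_inv₀, h6]
  obtain ⟨h, hhi, hhact, hhv, hhv'⟩ := hh (-τ₀⁻¹) (neg_mem (inv_mem hτ₀c)) hδτ₀
  have hψ1 : ∀ (f : Fin k → Ω), (∀ (γ : Gx p x) (j : Fin k),
      (γ : Ω ≃ₐ[ZMod p] Ω) (f j) = f (act (ψ γ) j)) → ∀ γ : Gx p x, ψ γ = 1 →
      (γ : Ω ≃ₐ[ZMod p] Ω) (f j₀) = f j₀ := by
    intro f hf γ hγ
    rw [hf, hγ, map_one]
    rfl
  have hκ1 : t.m = 1 → κ j₀ ≠ 0 := by
    intro _ h6
    rw [h6, zero_sub, Valuation.map_neg, ResAux.val_const hκ₀c hκ₀0] at hκv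
    rw [← hκv] at hxx₀
    exact lt_irrefl _ hxx₀
  obtain ⟨U, hU, T, hT, hUT⟩ := h4 p n t Ω x hst Q ψ hfin hsurj (h j₀) (κ j₀) P (hψ1 h hhact)
    (hψ1 κ hκact) hP hP0 hκ1 (hκval0 j₀)
  set τ : Fin k → Ω := fun j => if t.m = 1 then κ j else x + P ^ 2 * U with hτ
  set e : Fin k → Ω := fun j => 1 + (h j + P * T) * τ j with he
  obtain ⟨hτj0, hej0, hy₀⟩ := hUT (τ j₀) (e j₀) rfl rfl
  have hPU : x + P ^ 2 * U ∈ Algebra.adjoin (ZMod p) {x} :=
    add_mem (x_mem x) (mul_mem (pow_mem hP 2) hU)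
  have hPT : P * T ∈ Algebra.adjoin (ZMod p) {x} := mul_mem hP hT
  have hτact : ∀ (γ : Gx p x) (j : Fin k), (γ : Ω ≃ₐ[ZMod p] Ω) (τ j) = τ (act (ψ γ) j) := by
    intro γ j
    simp only [hτ]
    split_ifs
    · exact hκact γ j
    · exact hγP γ _ hPU
  have heact : ∀ (γ : Gx p x) (j : Fin k), (γ : Ω ≃ₐ[ZMod p] Ω) (e j) = e (act (ψ γ) j) := by
    intro γ j
    simp only [he]
    rw [map_add, map_one, map_mul, map_add, hhact, hγP γ _ hPT, hτact]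
  have hτint : ∀ j, IsIntegral (Algebra.adjoin (ZMod p) {x}) (τ j) := by
    intro j
    simp only [hτ]
    split_ifs
    · exact hκint j
    · exact int_adj hPU
  have heint : ∀ j, IsIntegral (Algebra.adjoin (ZMod p) {x}) (e j) := by
    intro j
    simp only [he]
    exact isIntegral_one.add (((hhi j).add (int_adj hPT)).mul (hτint j))
  have hene : ∀ j, e j ≠ 0 := by
    intro j
    obtain ⟨q, hq⟩ := htr j
    obtain ⟨γ, hγ⟩ := hsurj q
    rw [← hq, ← hγ, ← heact, Ne, map_eq_zero]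
    exact hej0
  have hm1 : t.m = 1 → ∀ j, τ j = κ j := by
    intro hm j
    simp only [hτ]
    rw [if_pos hm]
  choose y hyinj hyfac hyd using fun j => hLab Ω (e j) (τ j) (κ j) (w j * x)
    (fun hm => hm1 hm j) (hene j) (mul_ne_zero (hwne j) hx0) (hκval j)
  have hP1 : V₁.valuation P < 1 := lt_of_le_of_lt hPv hxx₀
  have hadj : ∀ a ∈ Algebra.adjoin (ZMod p) {x}, V₁.valuation a ≤ 1 := fun a ha =>
    (V₁.valuation_le_one_iff a).2 (Int_.adjoin_sub hxV a ha)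
  have hPTv : V₁.valuation (P * T) < 1 := by
    rw [map_mul]
    exact mul_lt_one_of_lt_of_le hP1 (hadj T hT)
  have hτv : V₁.valuation (τ j₀ - τ₀) = V₁.valuation (x - x₀) := by
    simp only [hτ, hτ₀]
    split_ifs
    · exact hκv
    · have h6 : x + P ^ 2 * U - x₀ = (x - x₀) + P ^ 2 * U := by ring
      rw [h6]
      apply Valuation.map_add_eq_of_lt_left
      rw [map_mul, map_pow, pow_two]
      calc V₁.valuation P * V₁.valuation P * V₁.valuation U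
          ≤ V₁.valuation P * V₁.valuation P := mul_le_of_le_one_right zero_le (hadj U hU)
        _ ≤ V₁.valuation (x - x₀) * V₁.valuation P := mul_le_mul_left hPv _
        _ < V₁.valuation (x - x₀) := mul_lt_of_lt_one_right (zero_lt_iff.2 hq0) hP1
  have hτV : ∀ j, V₁.valuation (τ j) ≤ 1 := fun j =>
    (V₁.valuation_le_one_iff _).2 (Int_.integral_mem hxV (hτint j))
  refine ⟨V₁, e, τ, κ, y, heact, hτact, hκact, hm1, hene, heint, hτint, hκint, ?_, hyinj,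
    hyfac, ?_, hV₁, hxV, hdec, ?_, ?_, ⟨x₀, hx₀, hxx₀, τ₀, hτ₀c, hτv⟩,
    (hy₀ (y j₀) (hyfac j₀)).1, (hy₀ (y j₀) (hyfac j₀)).2⟩
  · intro V hV j hj
    have h6 : V.valuation (τ j) ≤ 1 :=
      (V.valuation_le_one_iff _).2 (Int_.integral_mem hV (hτint j))
    have h7 : V.valuation (h j + P * T) ≤ 1 :=
      (V.valuation_le_one_iff _).2 (Int_.integral_mem hV ((hhi j).add (int_adj hPT)))
    by_contra h8
    have h9 : V.valuation ((h j + P * T) * τ j) < 1 := by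
      rw [map_mul, mul_comm]
      exact mul_lt_one_of_lt_of_le (lt_of_le_of_ne h6 h8) h7
    have h10 : V.valuation (e j) = 1 := by
      simp only [he]
      rw [Valuation.map_add_eq_of_lt_left, map_one]
      rw [map_one]
      exact h9
    exact absurd h10 hj.ne
  · intro γ j ρ hρ
    refine h2 n Ω (two_ne t.odd) ((γ : Ω ≃ₐ[ZMod p] Ω) : Ω ≃+* Ω) (y j) (y (act (ψ γ) j)) ρ
      (ε (ψ γ) j) _ _ hρ (hyinj _) (hyd j) (hyd (act (ψ γ) j)) ?_
    change (γ : Ω ≃ₐ[ZMod p] Ω) (w j * x * e j ^ z) = _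
    rw [map_mul, map_mul, map_zpow₀, hwact', hγx, heact]
    ring
  · have h6 : e j₀ = (h j₀ - -τ₀⁻¹) * τ j₀ + P * T * τ j₀ - (τ j₀ - τ₀) * τ₀⁻¹ := by
      simp only [he]
      field_simp
      ring
    rw [h6]
    have h7 : V₁.valuation ((h j₀ - -τ₀⁻¹) * τ j₀) < 1 := by
      rw [map_mul]
      exact mul_lt_one_of_lt_of_le hhv (hτV j₀)
    have h8 : V₁.valuation (P * T * τ j₀) < 1 := by
      rw [map_mul]
      exact mul_lt_one_of_lt_of_le hPTv (hτV j₀)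
    have h9 : V₁.valuation ((τ j₀ - τ₀) * τ₀⁻¹) < 1 := by
      rw [map_mul, map_inv₀, ResAux.val_const hτ₀c hτ₀0, inv_one, mul_one, hτv]
      exact hxx₀
    exact lt_of_le_of_lt (V₁.valuation.map_sub _ _)
      (max_lt (lt_of_le_of_lt (V₁.valuation.map_add _ _) (max_lt h7 h8)) h9)
  · intro j hj
    have h6 : V₁.valuation ((h j + P * T) * τ j) < 1 := by
      rw [map_mul]
      exact mul_lt_one_of_lt_of_le
        (lt_of_le_of_lt (V₁.valuation.map_add _ _) (max_lt (hhv' j hj) hPTv)) (hτV j)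
    simp only [he]
    rw [Valuation.map_add_eq_of_lt_left, map_one]
    rw [map_one]
    exact h6

end MP7Z
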