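import Pool.Agent.Lib.MP_7f581e_Z.Alt.Spec

/-!
# Alternating step: the totally split place, inertia moves a root
-/

namespace MP7Z

open Polynomial

namespace WildM

/-- The equation of `ζ' = ζ / e^(p-1)`. -/
theorem eq_scaled {F : Type*} [Field F] {e z u l : F} {p c : ℕ} (he : e ≠ 0) (hp : 3 ≤ p)
    (hc : p + 1 ≤ c) (h : e ^ (p * (p - 1)) + (z * e ^ (p - 1)) ^ p * u +
      (z * e ^ (p - 1)) ^ c * l = 0) :
    1 + z ^ p * u + e ^ 2 * e ^ ((p - 1) * (c - p) - 2) * z ^ c * l = 0 := by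
  obtain ⟨a, ha⟩ : ∃ a, p = a + 3 := ⟨p - 3, by omega⟩
  obtain ⟨b, hb⟩ : ∃ b, c = p + 1 + b := ⟨c - (p + 1), by omega⟩
  have h1 : (z * e ^ (p - 1)) ^ p = z ^ p * e ^ (p * (p - 1)) := by
    rw [mul_pow, ← pow_mul, mul_comm (p - 1)]
  have h2 : (z * e ^ (p - 1)) ^ c = z ^ c * (e ^ (p * (p - 1)) *
      (e ^ 2 * e ^ ((p - 1) * (c - p) - 2))) := by
    rw [mul_pow, ← pow_mul, ← pow_add, ← pow_add]
    congr 2
    have h3 : p - 1 = a + 2 := by omega
    have h4 : c - p = b + 1 := by omega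
    rw [h3, h4]
    have h5 : 2 ≤ (a + 2) * (b + 1) := by nlinarith
    have h6 : 2 + ((a + 2) * (b + 1) - 2) = (a + 2) * (b + 1) := by omega
    rw [h6, hb, ha]
    ring
  rw [h1, h2] at h
  have h3 : e ^ (p * (p - 1)) * (1 + z ^ p * u +
      e ^ 2 * e ^ ((p - 1) * (c - p) - 2) * z ^ c * l) = 0 := by
    rw [← h]
    ring
  exact (mul_eq_zero.1 h3).resolve_left (pow_ne_zero _ he)

end WildM

theorem tWild (h0 : ResStmt) (h1 : LocNStmt) (h2 : LocEStmt) (h3 : LocVStmt) (h4 : UnrStmt) :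
    WildStmt := by
  intro p n _ t Ω _ _ x hst V hV e τ κ x₀ τ₀ y he hev hτ hκ hm hx₀ hx hτ₀ hq hfix hf
  by_contra hcon
  push Not at hcon
  have hp := (Fact.out : p.Prime)
  have hp3 : 3 ≤ p := by
    have h5 := hp.two_le
    have h6 := t.odd
    omega
  have : CharP Ω p := charP_of_injective_algebraMap (algebraMap (ZMod p) Ω).injective p
  obtain ⟨hc0, hc1, hres, -⟩ := h0 p Ω x hst V hV
  obtain ⟨hcard, -, -⟩ := h1 p n t Ω V hV e τ κ y he hev hτ hκ hm hf
  obtain ⟨i, hi⟩ : ∃ i, y i ∉ V := by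
    have h5 : Nat.card {i // y i ∉ V} ≠ 0 := by
      rw [hcard]
      exact hp.ne_zero
    obtain ⟨⟨⟨i, hi⟩⟩, -⟩ := Nat.card_ne_zero.1 h5
    exact ⟨i, hi⟩
  have hroot : (t.f e τ κ).eval (y i) = 0 := by
    rw [hf, eval_mul, eval_prod, Finset.prod_eq_zero (Finset.mem_univ i), mul_zero]
    simp
  have hy0 : y i ≠ 0 := by
    intro h
    rw [h] at hi
    exact hi V.zero_mem
  have hζv := (h3 p n t Ω V hV e τ κ he hev hτ hκ hm).1 (y i) hi hroot
  have he0 : V.valuation e ≠ 0 := by rwa [Valuation.ne_zero_iff]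
  have hepos : 0 < V.valuation e := zero_lt_iff.2 he0
  obtain ⟨z, hz⟩ : ∃ z : Ω, z = (y i)⁻¹ / e ^ (p - 1) := ⟨_, rfl⟩
  have hz1 : (y i)⁻¹ = z * e ^ (p - 1) := by
    rw [hz, div_mul_cancel₀ _ (pow_ne_zero _ he)]
  have hzv : V.valuation z = 1 := by
    rw [hz, map_div₀, hζv, map_pow, div_self (pow_ne_zero _ he0)]
  have hτV : τ ∈ V := by
    rw [← V.valuation_le_one_iff, hτ]
  obtain ⟨u, lam, hul, -⟩ := h2 p n t Ω V hV e τ κ hev hτV hκ hm
  have hζ1 : V.valuation (y i)⁻¹ < 1 := by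
    rw [hζv]
    exact pow_lt_one₀ hepos.le hev (by omega)
  obtain ⟨heq, hu, hl⟩ := hul (y i)⁻¹ hζ1 (inv_ne_zero hy0) (by rw [inv_inv]; exact hroot)
  obtain ⟨U, hU⟩ : ∃ U, U = u (y i)⁻¹ := ⟨_, rfl⟩
  obtain ⟨L, hL⟩ : ∃ L, L = lam (y i)⁻¹ := ⟨_, rfl⟩
  rw [← hU] at hu heq
  rw [← hL] at hl heq
  rw [hz1] at heq
  have hWn := t.hWn
  have heq2 := WildM.eq_scaled he hp3 (by omega : p + 1 ≤ n - t.W.natDegree) heq
  -- valuations
  have hq0 : V.valuation (x - x₀) ≠ 0 := by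
    rw [Valuation.ne_zero_iff]
    intro h
    apply hst.transc
    rw [sub_eq_zero.1 h]
    exact (mem_algebraicClosure_iff.1 hx₀)
  have hqpos : 0 < V.valuation (x - x₀) := zero_lt_iff.2 hq0
  have heq3 : V.valuation e ≤ V.valuation (x - x₀) := h4 p Ω x hst V hV x₀ hx₀ hx e hfix hev
  have he2 : V.valuation e ^ 2 < V.valuation (x - x₀) := by
    rw [pow_two]
    exact lt_of_lt_of_le (mul_lt_of_lt_one_left hepos hev) heq3
  have hNle : V.valuation e ^ (p * (p - 1)) ≤ V.valuation e ^ 2 := by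
    apply pow_le_pow_of_le_one hepos.le hev.le
    have h5 : 2 ≤ p - 1 := by omega
    nlinarith
  have hUτ : V.valuation (U - τ) ≤ V.valuation e ^ 2 := by
    refine hu.trans (max_le hNle ?_)
    rw [hζv, ← pow_mul, mul_comm (p - 1)]
    exact hNle
  have hL1 : V.valuation L ≤ 1 := by
    have h5 : L = (L - 1) + 1 := by ring
    rw [h5]
    refine (V.valuation.map_add _ _).trans (max_le hl.le ?_)
    rw [map_one]
  have hmain : V.valuation (1 + τ * z ^ p) ≤ V.valuation e ^ 2 := by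
    have h5 : 1 + τ * z ^ p = -(z ^ p * (U - τ)) -
        e ^ 2 * e ^ ((p - 1) * (n - t.W.natDegree - p) - 2) * z ^ (n - t.W.natDegree) * L := by
      linear_combination heq2
    rw [h5]
    refine (V.valuation.map_sub _ _).trans (max_le ?_ ?_)
    · rw [Valuation.map_neg, map_mul, map_pow, hzv, one_pow, one_mul]
      exact hUτ
    · rw [map_mul, map_mul, map_mul, map_pow, map_pow, map_pow, hzv, one_pow, mul_one]
      calc V.valuation e ^ 2 * V.valuation e ^ _ * V.valuation L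
          ≤ V.valuation e ^ 2 * 1 * 1 := by
            gcongr
            exact pow_le_one₀ hepos.le hev.le
        _ = V.valuation e ^ 2 := by rw [mul_one, mul_one]
  -- the residue
  obtain ⟨z₀, hz₀, hzz, -⟩ := hres z (by rw [← V.valuation_le_one_iff, hzv])
  have hb : V.valuation (z - z₀) ≤ V.valuation (x - x₀) := by
    apply h4 p Ω x hst V hV x₀ hx₀ hx _ _ hzz
    intro δ hδ
    have h5 : δ z₀ = z₀ := hδ.2.1 z₀ hz₀
    rw [map_sub, h5, hz, map_div₀, map_inv₀, map_pow, hcon δ hδ i, hfix δ hδ]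
  have hbp : V.valuation (z - z₀) ^ p < V.valuation (x - x₀) := by
    calc V.valuation (z - z₀) ^ p ≤ V.valuation (x - x₀) ^ p := by gcongr
      _ ≤ V.valuation (x - x₀) ^ 2 := pow_le_pow_of_le_one hqpos.le hx.le (by omega)
      _ < V.valuation (x - x₀) := by
        rw [pow_two]
        exact mul_lt_of_lt_one_left hqpos hx
  have hid : 1 + τ * z ^ p = (1 + τ₀ * z₀ ^ p) + τ * (z - z₀) ^ p + (τ - τ₀) * z₀ ^ p := by
    rw [sub_pow_char]
    ring
  have hz₀v : V.valuation z₀ ≤ 1 := (V.valuation_le_one_iff _).2 (hc0 z₀ hz₀)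
  have hconst : 1 + τ₀ * z₀ ^ p = 0 := by
    by_contra h5
    have h6 : 1 + τ₀ * z₀ ^ p ∈ Cst p Ω :=
      add_mem (one_mem _) (mul_mem hτ₀ (pow_mem hz₀ p))
    have h7 := hc1 _ h6 h5
    have h8 : 1 + τ₀ * z₀ ^ p = (1 + τ * z ^ p) - (τ * (z - z₀) ^ p + (τ - τ₀) * z₀ ^ p) := by
      rw [hid]
      ring
    have h9 : V.valuation (1 + τ₀ * z₀ ^ p) < 1 := by
      rw [h8]
      refine lt_of_le_of_lt (V.valuation.map_sub _ _) (max_lt ?_ ?_)
      · exact lt_of_le_of_lt hmain (he2.trans hx)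
      · refine lt_of_le_of_lt (V.valuation.map_add _ _) (max_lt ?_ ?_)
        · rw [map_mul, hτ, one_mul, map_pow]
          exact hbp.trans hx
        · rw [map_mul, map_pow, hq]
          calc V.valuation (x - x₀) * V.valuation z₀ ^ p ≤ V.valuation (x - x₀) * 1 := by
                gcongr
                exact pow_le_one₀ zero_le hz₀v
            _ < 1 := by rw [mul_one]; exact hx
    rw [h7] at h9
    exact lt_irrefl _ h9
  have hz₀0 : z₀ ≠ 0 := by
    rintro rfl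
    rw [zero_pow hp.ne_zero, mul_zero, add_zero] at hconst
    exact one_ne_zero hconst
  have hz₀1 := hc1 z₀ hz₀ hz₀0
  have hfin : (τ - τ₀) * z₀ ^ p = (1 + τ * z ^ p) - τ * (z - z₀) ^ p := by
    rw [hid, hconst]
    ring
  have hlast : V.valuation (x - x₀) < V.valuation (x - x₀) := by
    calc V.valuation (x - x₀) = V.valuation ((τ - τ₀) * z₀ ^ p) := by
          rw [map_mul, map_pow, hz₀1, one_pow, mul_one, hq]
      _ = V.valuation ((1 + τ * z ^ p) - τ * (z - z₀) ^ p) := by rw [hfin]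
      _ ≤ max (V.valuation (1 + τ * z ^ p)) (V.valuation (τ * (z - z₀) ^ p)) :=
          V.valuation.map_sub _ _
      _ < V.valuation (x - x₀) := by
          apply max_lt (lt_of_le_of_lt hmain he2)
          rw [map_mul, hτ, one_mul, map_pow]
          exact hbp
  exact lt_irrefl _ hlast

end MP7Z
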