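import Pool.Agent.Lib.MP_7f581e_Z.BR.Main
import Pool.Agent.Lib.MP_7f581e_Z.Lie.All
import Pool.Agent.Lib.MP_7f581e_Z.Alt.AStep
import Pool.Agent.Lib.MP_7f581e_Z.Alt.Act
import Pool.Agent.Lib.MP_7f581e_Z.Alt.Disc
import Pool.Agent.Lib.MP_7f581e_Z.Alt.Eis
import Pool.Agent.Lib.MP_7f581e_Z.Alt.Gen1
import Pool.Agent.Lib.MP_7f581e_Z.Alt.Gen2
import Pool.Agent.Lib.MP_7f581e_Z.Alt.GenT
import Pool.Agent.Lib.MP_7f581e_Z.Alt.Grp
import Pool.Agent.Lib.MP_7f581e_Z.Alt.HR2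
import Pool.Agent.Lib.MP_7f581e_Z.Alt.HRa
import Pool.Agent.Lib.MP_7f581e_Z.Alt.HRb
import Pool.Agent.Lib.MP_7f581e_Z.Alt.HRc
import Pool.Agent.Lib.MP_7f581e_Z.Alt.Hilb
import Pool.Agent.Lib.MP_7f581e_Z.Alt.Hom
import Pool.Agent.Lib.MP_7f581e_Z.Alt.Jor
import Pool.Agent.Lib.MP_7f581e_Z.Alt.JorA
import Pool.Agent.Lib.MP_7f581e_Z.Alt.JorB
import Pool.Agent.Lib.MP_7f581e_Z.Alt.Lab
import Pool.Agent.Lib.MP_7f581e_Z.Alt.LocA
import Pool.Agent.Lib.MP_7f581e_Z.Alt.LocB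
import Pool.Agent.Lib.MP_7f581e_Z.Alt.LocE
import Pool.Agent.Lib.MP_7f581e_Z.Alt.LocN
import Pool.Agent.Lib.MP_7f581e_Z.Alt.LocV
import Pool.Agent.Lib.MP_7f581e_Z.Alt.Mul
import Pool.Agent.Lib.MP_7f581e_Z.Alt.Par
import Pool.Agent.Lib.MP_7f581e_Z.Alt.SOf
import Pool.Agent.Lib.MP_7f581e_Z.Alt.Sep
import Pool.Agent.Lib.MP_7f581e_Z.Alt.Sgn
import Pool.Agent.Lib.MP_7f581e_Z.Alt.Sys
import Pool.Agent.Lib.MP_7f581e_Z.Alt.Trans
import Pool.Agent.Lib.MP_7f581e_Z.Alt.Typ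
import Pool.Agent.Lib.MP_7f581e_Z.Alt.Unr
import Pool.Agent.Lib.MP_7f581e_Z.Alt.Wild

/-! # The alternating step, complete -/

namespace MP7Z

theorem alt_sep : SepStmt := tSep
theorem alt_mul : MulStmt := tMul
theorem alt_disc : DiscStmt := tDisc
theorem alt_lab : LabStmt := tLab alt_sep alt_disc
theorem alt_locA : LocAStmt := tLocA br_res alt_mul
theorem alt_locN : LocNStmt := tLocNA alt_mul
theorem alt_locE : LocEStmt := tLocE
theorem alt_locV : LocVStmt := tLocV alt_locE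
theorem alt_locB : LocBStmt := tLocB br_res alt_locN alt_locV
theorem alt_unr : UnrStmt := tUnr br_cst br_lvl br_bel br_ram
theorem alt_wild : WildStmt := tWild br_res alt_locN alt_locE alt_locV alt_unr
theorem alt_genT : GenTStmt := tGenT tEis (tGen1 alt_sep) (tGen2 alt_sep)
theorem alt_hr2 : HR2Stmt := tHR2 tHRa tHRb tHRc
theorem alt_hilb : HilbStmt := tHilb alt_hr2
theorem alt_trans : TransStmt := tTrans alt_sep alt_genT alt_hilb
theorem alt_par : ParStmt := tPar br_res lie_fam lie_pres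
theorem alt_sys : SysStmt := tSys br_res alt_lab tSgn alt_unr alt_trans alt_par
theorem alt_sOf : SOfStmt := tSOf alt_locA alt_locB alt_locN alt_wild
theorem alt_jor : JorStmt := tJor tJorA tJorB

/-- **The alternating step.** -/
theorem alt_step : AStepStmt := tAStep tTyp tAct alt_sys tHom alt_sOf alt_jor tGrp

end MP7Z
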