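import Pool.Agent.Lib.MP_7f581e_Z.Alt.Defs
import Pool.Agent.Lib.MP_7f581e_Z.Lie.Spec

/-!
# Alternating step: statements with complete proofs in the docstrings

Goal: `LieStep p 𝒮` for `𝒮` = the alternating groups `A_n`, `n ≥ p + 3` (or `p = 3`, `n ≥ 5`),
`n ≠ 6`, `p` odd.  Each `def XStmt : Prop` is one Lean task: file `Alt/X.lean`, import only this
file (and files named in the task), `theorem tX : XStmt`; statements listed under *Uses* are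
hypotheses.  `Alt/Defs.lean` has the family `f = V (e^N A₀ + τ G₀ + κ H₀) + W`, `N = p (p - 1)`, and
elementary facts (degrees, leading coefficients, `map_f`, `eval_f`).

Notation of the docstrings: polynomials in `Y`, `P(a)` = value at `a`; `|a| = V.valuation a`;
for `P` in `(ZMod p)[X]` the same letter is used for its image over a field of characteristic `p`.
-/

namespace MP7Z

open Polynomial MP7fS

/-! ## Part 1.  Algebra of the family -/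

/-- **Typ.** The families.

*Proof.*  Let `r = n mod p`.
(a) `r ∈ {2, …, p-1}`: `V = X^(r-1) (X - 1)`, `W = 1`, `D = X^(r-2)`, `s = (r-1)/r`, `c₁ = -r`, `k = 1`,
`m = (n - r)/p ≥ 1` (`n ≥ p + 2`).  `V W' - V' W = -V' = -X^(r-2) ((r-1)(X-1) + X) = -r (X - s) X^(r-2)`.
`V(s) = s^(r-1) (s-1) ≠ 0` (`s ≠ 0`, `s - 1 = -1/r`).  `V(0) = 0` (`r ≥ 2`).  `hc`: `n - 0 = n`.  `h1`: `m = 1`,
`n = p + r < 2p`; a divisor `b ≠ n` of `n` is `≤ n/2 < p`.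
(b) `r = 1`: then `n ≥ 2p + 1` (also if `p = 3`: `n = 5` has `r = 2`).  `V = X^2 (X-1)^(p-1)`, `W = 1`,
`D = X (X-1)^(p-2)`, `s = 2`, `c₁ = -1`, `k = 1`, `m = (n - p - 1)/p ≥ 1`.  `V' = 2X(X-1)^(p-1) - X^2 (X-1)^(p-2) =
X (X-1)^(p-2) (X - 2)`.  `V(2) = 4 ≠ 0`.  `h1`: `m = 1`, `n = 2p + 1`, a divisor `b ≥ p`, `b ≠ n`, is `≤ n/2`,
so `b = p`, but `p ∤ 2p + 1`.
(c) `r = 0`: `n ≥ 2p`, `V = 1`, `W = X^2`, `D = 1`, `s = 0`, `c₁ = 2`, `k = 0`, `m = n/p ≥ 2`.  `2 + p < n`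
(`p ≥ 3`).  `hc`: `n - 2 ≡ -2`.  `h1` is empty.
`hp`: `p + 3 ≤ n` or `p = 3`. -/
def TypStmt : Prop :=
  ∀ (p n : ℕ) [Fact p.Prime], p ≠ 2 → (p + 3 ≤ n ∨ (p = 3 ∧ n = 5)) → Nonempty (AType p n)

/-- **Sep.** Separability.

*Proof.*  `P = V M + W`, `M' = 0`: `V P' - V' P = V W' - V' W = c₁ (X - s) D` (`key`, mapped to `F`).  `P` is
coprime to `V` (`W = 1`: `P - V M = 1`; or `V = 1`), so to `V^k`, so to `D`; and to `X - s` because `P(s) ≠ 0`;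
and to the constant `c₁`.  So `a P + b (V P' - V' P) = 1` for some `a, b`. -/
def SepStmt : Prop :=
  ∀ (p n : ℕ) [Fact p.Prime] (t : AType p n) (F : Type) [Field F] [Algebra (ZMod p) F] (M : F[X]),
    derivative M = 0 →
    (t.V.map (algebraMap (ZMod p) F) * M + t.W.map (algebraMap (ZMod p) F)).eval
      (algebraMap (ZMod p) F t.s) ≠ 0 →
    (t.V.map (algebraMap (ZMod p) F) * M + t.W.map (algebraMap (ZMod p) F)).Separable

/-- **Mul.** Multiple roots: only `s`, only of multiplicity two.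

*Proof.*  `P = V M + W`, `V P' - V' P = c₁ (X - s) D` as in *Sep*.  If `(X - r)^2 ∣ P` then `X - r` divides
`c₁ (X - s) D`; so `r = s` or `D(r) = 0`, and then `V(r) = 0` (`dvd`), so `V ≠ 1`, `W = 1`, `P(r) = 1`,
contradiction.  If `(X - s)^3 ∣ P` then `(X - s)^2 ∣ c₁ (X - s) D`, so `D(s) = 0`, `V(s) = 0`, contradiction
to `hs` (`ZMod p → F` is injective). -/
def MulStmt : Prop :=
  ∀ (p n : ℕ) [Fact p.Prime] (t : AType p n) (F : Type) [Field F] [Algebra (ZMod p) F] (M : F[X]),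
    derivative M = 0 →
    (∀ r : F, (X - C r) ^ 2 ∣
      t.V.map (algebraMap (ZMod p) F) * M + t.W.map (algebraMap (ZMod p) F) →
        r = algebraMap (ZMod p) F t.s) ∧
    ¬ (X - C (algebraMap (ZMod p) F t.s)) ^ 3 ∣
      t.V.map (algebraMap (ZMod p) F) * M + t.W.map (algebraMap (ZMod p) F)

/-- **Disc.** The discriminant is a constant times the value at `s` times a power of the leading
coefficient.

*Proof.*  `P = V M + W = lc ∏ (X - y_i)`.  `P'(y_i) = lc ∏_{l ≠ i} (y_i - y_l)`.  `V(y_i) P'(y_i) =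
c₁ (y_i - s) D(y_i)` (as in *Sep*, `P(y_i) = 0`).  Multiply over `i`:
`∏ V(y_i) · lc^n (-1)^(n(n-1)/2) Δ^2 = c₁^n ∏ (y_i - s) ∏ D(y_i)`, `∏ (y_i - s) = (-1)^n P(s) / lc`.
If `V = 1` then `D = 1` (monic, divides `1`).  If `W = 1`: for `G = V` and `G = D` (monic divisors of a power of
`V`): `∏ G(y_i) = (-1)^(n deg G) lc^(-deg G)`: over the algebraic closure `G = ∏ (X - g)`, `V(g) = 0`, so
`P(g) = 1`, and `∏_i (y_i - g) = (-1)^n P(g) / lc = (-1)^n / lc`.  So `Δ^2 = ± c₁^n P(s) lc^z` with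
`z = -1 - n` or `z = -1 - n - deg D + deg V`, and the sign depends only on `t`. -/
def DiscStmt : Prop :=
  ∀ (p n : ℕ) [Fact p.Prime] (t : AType p n), ∃ c' : ZMod p, c' ≠ 0 ∧ ∃ z : ℤ,
    ∀ (F : Type) [Field F] [Algebra (ZMod p) F] (M : F[X]) (lc : F) (y : Fin n → F),
      derivative M = 0 → lc ≠ 0 →
      t.V.map (algebraMap (ZMod p) F) * M + t.W.map (algebraMap (ZMod p) F) =
        C lc * ∏ i, (X - C (y i)) →
      (∏ i, ∏ j ∈ Finset.Ioi i, (y j - y i)) ^ 2 = algebraMap (ZMod p) F c' *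
        (t.V.map (algebraMap (ZMod p) F) * M + t.W.map (algebraMap (ZMod p) F)).eval
          (algebraMap (ZMod p) F t.s) * lc ^ z

/-- **Lab.** Labelled roots with prescribed square root of the discriminant.

*Proof.*  `c'` and `z₀` from *Disc*, `z = z₀ · (p(p-1)/2)` (`p - 1` is even).  `f = f(e, τ, κ) = V M + W` with
`M = t.M e τ κ`, `M' = 0` (`derivative_M`), `f(s) = val κ = c'⁻¹ d^2 ≠ 0` (`eval_f`), so `f` is separable
(*Sep*), of degree `n` with leading coefficient `e^N` (`natDegree_f`, `leadingCoeff_f`), and splits over the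
separably closed field `Ω`: `f = e^N ∏ (X - y_i)` with `y` injective.  *Disc*: `Δ^2 = c' f(s) e^(N z₀) =
d^2 e^(N z₀) = (d e^z)^2`, so `Δ = ± d e^z`.  If the sign is `-` replace `y` by `y ∘ swap 0 1` (`n ≥ 2`), which
changes the sign of `Δ` (Vandermonde determinant, `Matrix.det_vandermonde`, `Matrix.det_permute`).
*Uses*: Sep, Disc. -/
def LabStmt : Prop :=
  ∀ (p n : ℕ) [Fact p.Prime] (t : AType p n), ∃ c' : ZMod p, c' ≠ 0 ∧ ∃ z : ℤ,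
    ∀ (Ω : Type) [Field Ω] [Algebra (ZMod p) Ω] [IsSepClosed Ω] (e τ κ d : Ω),
      (t.m = 1 → τ = κ) → e ≠ 0 → d ≠ 0 → t.val κ = algebraMap (ZMod p) Ω c'⁻¹ * d ^ 2 →
      ∃ y : Fin n → Ω, Function.Injective y ∧
        t.f e τ κ = C (e ^ (p * (p - 1))) * ∏ i, (X - C (y i)) ∧
        ∏ i, ∏ j ∈ Finset.Ioi i, (y j - y i) = d * e ^ z

/-- **Sgn.** The sign of the permutation of labelled roots.

*Proof.*  `σ a = ∏_i ∏_{j > i} (y'_{ρ j} - y'_{ρ i}) = sign(ρ) a'` (Vandermonde determinant with permuted rows),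
`a' ≠ 0` because `y'` is injective.  So `sign ρ = ε` in `Ω`, so in `ℤˣ` because `2 ≠ 0`. -/
def SgnStmt : Prop :=
  ∀ (n : ℕ) (Ω : Type) [Field Ω], (2 : Ω) ≠ 0 → ∀ (σ : Ω ≃+* Ω) (y y' : Fin n → Ω)
    (ρ : Equiv.Perm (Fin n)) (ε : ℤˣ) (a a' : Ω), (∀ i, σ (y i) = y' (ρ i)) →
    Function.Injective y' → ∏ i, ∏ j ∈ Finset.Ioi i, (y j - y i) = a →
    ∏ i, ∏ j ∈ Finset.Ioi i, (y' j - y' i) = a' → σ a = ((ε : ℤ) : Ω) * a' →
    Equiv.Perm.sign ρ = ε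

/-! ## Part 2.  Local analysis -/

/-- **LocA.** Good places: inertia acts trivially if its sign is `1`.

*Proof.*  Let `k = IsLocalRing.ResidueField V` (a field of characteristic `p`; `V ⊇` prime field).  All
coefficients of `f = f(e, τ, κ)` are in `V` and the leading coefficient `e^N` is a unit of `V`, so the `y_i`
are integral over `V`, so in `V`.  Reduction: `f̄ = f(ē, τ̄, κ̄) = ē^N ∏ (X - ȳ_i)` in `k[X]` (`map_f`; it is
convenient to view `f` as a polynomial over the ring `V` with the algebra structure `ZMod.algebra V p`).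
`δ` preserves `V` and acts trivially on `k` (*Res*, `Q = 1`: `|δ u - u| < 1` for `u ∈ V`; `δ` fixes the
constants).  So `ȳ_{ρ i} = ȳ_i`.  If `ρ i ≠ i` then `(X - ȳ_i)^2 ∣ f̄`, so `ȳ_i = s` (*Mul* for `k`,
`M = t.M ē τ̄ κ̄`), and at most two indices `i` have `ȳ_i = s` (otherwise `(X - s)^3 ∣ f̄`).  So `ρ` moves at
most two points, it is the identity or a transposition, and a transposition has sign `-1`.
*Uses*: Res (of BR), Mul. -/
def LocAStmt : Prop :=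
  ∀ (p n : ℕ) [Fact p.Prime] (t : AType p n) (Ω : Type) [Field Ω] [Algebra (ZMod p) Ω] (x : Ω),
    IsStage p x → ∀ V : ValuationSubring Ω, V ≠ ⊤ → ∀ (e τ κ : Ω) (y : Fin n → Ω),
    e ∈ V → τ ∈ V → κ ∈ V → V.valuation e = 1 → Function.Injective y →
    t.f e τ κ = C (e ^ (p * (p - 1))) * ∏ i, (X - C (y i)) →
    (∀ i, y i ∈ V) ∧
    ∀ δ ∈ Inert p V, ∀ ρ : Equiv.Perm (Fin n), (∀ i, δ (y i) = y (ρ i)) →
      Equiv.Perm.sign ρ = 1 → ρ = 1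

/-- **LocN.** Bad places: exactly `p` roots are not in `V`, and two finite roots with the same residue
have the residue `s`, which at most two finite roots have.

*Proof.*  Let `S` be the set of the `i` with `y_i ∉ V`, `ζ_i = 1/y_i` for `i ∈ S` (`|ζ_i| < 1`).
`f = c g`, `c = e^N ∏_{i ∈ S} (-y_i)`, `g = ∏_{i ∈ S} (1 - ζ_i X) ∏_{i ∉ S} (X - y_i) ∈ V[X]`.  The reduction
`ḡ = ∏_{i ∉ S} (X - ȳ_i)` is monic of degree `n - |S|`.  `f ∈ V[X]` and its reduction `f̄ = f(0, τ̄, κ̄)` has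
degree `n - p` with leading coefficient `τ̄ ≠ 0` (`natDegree_B_le`, `coeff_B`, `f_eq`, `ē = 0`).  As `g` has a
coefficient which is a unit and `f = c g` has coefficients in `V`: `c ∈ V`; so `f̄ = c̄ ḡ`, `c̄ ≠ 0`, and
`n - p = n - |S|`.  The claims on residues: `f̄ = c̄ ∏_{i ∉ S} (X - ȳ_i)` and *Mul* for
`k = IsLocalRing.ResidueField V`, `M = t.M 0 τ̄ κ̄`: if `|y_i - y_j| < 1`, `i ≠ j`, then `(X - ȳ_i)^2 ∣ f̄`,
so `ȳ_i = s`, that is `|y_i - s| < 1`; if `|y_i - s| < 1` for three different `i` then `(X - s)^3 ∣ f̄`.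
*Uses*: Mul. -/
def LocNStmt : Prop :=
  ∀ (p n : ℕ) [Fact p.Prime] (t : AType p n) (Ω : Type) [Field Ω] [Algebra (ZMod p) Ω]
    (V : ValuationSubring Ω), V ≠ ⊤ → ∀ (e τ κ : Ω) (y : Fin n → Ω),
    e ≠ 0 → V.valuation e < 1 → V.valuation τ = 1 → κ ∈ V → (t.m = 1 → τ = κ) →
    t.f e τ κ = C (e ^ (p * (p - 1))) * ∏ i, (X - C (y i)) →
    Nat.card {i // y i ∉ V} = p ∧
    (∀ i j, i ≠ j → y i ∈ V → y j ∈ V → V.valuation (y i - y j) < 1 →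
      V.valuation (y i - algebraMap (ZMod p) Ω t.s) < 1) ∧
    ∀ i j l, i ≠ j → j ≠ l → i ≠ l → V.valuation (y i - algebraMap (ZMod p) Ω t.s) < 1 →
      V.valuation (y j - algebraMap (ZMod p) Ω t.s) < 1 →
      ¬ V.valuation (y l - algebraMap (ZMod p) Ω t.s) < 1

/-- **LocE.** The equation of the infinite roots: for `y ∉ V`, `f(y) = 0`, `ζ = 1/y`:
`e^N + ζ^p u + ζ^c λ = 0` with `|u - τ| ≤ max(|e|^N, |ζ|^p)` and `|λ - 1| < 1`, `c = n - deg W`.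

*Proof.*  Multiply `f(y) = 0` by `ζ^n`: `v(ζ) (e^N a + τ g + κ h) + ζ^c w = 0`, where `v = ζ^(deg V) V(y) =
V.reverse(ζ)`, `w = ζ^(deg W) W(y)`: `|v - 1| < 1`, `|w - 1| < 1` (monic polynomials over the prime field:
`ζ^d P(1/ζ) = 1 + Σ_{i<d} P_i ζ^(d-i)`), `a = ζ^(pm) A₀(y) = 1 - s ζ^p`, `g = ζ^(pm) G₀(y) = ζ^p (1 - s ζ^p)`
if `m ≥ 2` and `ζ^p` if `m = 1`, `h = ζ^(pm) H₀(y) = ζ^(pm)` if `m ≥ 2` and `0` if `m = 1`; `n = pm + deg V`.
Divide by `v`: `e^N + ζ^p u + ζ^c λ = 0` with `λ = w/v`, and `u = τ - s e^N - s τ ζ^p + κ ζ^(p(m-1))` if `m ≥ 2`,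
`u = τ - s e^N` if `m = 1`.  (For the difference of two roots one needs the explicit `u` and `λ`: third
claim.)  Third claim: for two such roots `|u₁ - u₂| ≤ |ζ₁^p - ζ₂^p|` (`u` is a polynomial in `ζ^p` with
coefficients in `V`) and `|λ₁ - λ₂| ≤ |ζ₁ - ζ₂|` (`λ` is a quotient of polynomials in `ζ` over the prime field
with unit values). -/
def LocEStmt : Prop :=
  ∀ (p n : ℕ) [Fact p.Prime] (t : AType p n) (Ω : Type) [Field Ω] [Algebra (ZMod p) Ω]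
    (V : ValuationSubring Ω), V ≠ ⊤ → ∀ (e τ κ : Ω),
    V.valuation e < 1 → τ ∈ V → κ ∈ V → (t.m = 1 → τ = κ) →
    ∃ u lam : Ω → Ω, (∀ ζ, V.valuation ζ < 1 → ζ ≠ 0 → (t.f e τ κ).eval ζ⁻¹ = 0 →
      e ^ (p * (p - 1)) + ζ ^ p * u ζ + ζ ^ (n - t.W.natDegree) * lam ζ = 0 ∧
      V.valuation (u ζ - τ) ≤ max (V.valuation e ^ (p * (p - 1))) (V.valuation ζ ^ p) ∧
      V.valuation (lam ζ - 1) < 1) ∧
    ∀ ζ₁ ζ₂, V.valuation ζ₁ < 1 → V.valuation ζ₂ < 1 →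
      V.valuation (u ζ₁ - u ζ₂) ≤ V.valuation (ζ₁ ^ p - ζ₂ ^ p) ∧
      V.valuation (lam ζ₁ - lam ζ₂) ≤ V.valuation (ζ₁ - ζ₂)

/-- **LocV.** Valuations of the infinite roots and of their differences.

*Proof.*  Let `|τ| = 1`, `ζ_i = 1/y_i`, `c = n - deg W > p`, `p ∤ c` (`hWn`, `hc`).  *LocE*:
`e^N + ζ^p u + ζ^c λ = 0`, `|u| = 1` (because `|u - τ| < 1`), `|λ| = 1`, so `|ζ^c λ| < |ζ^p u|` and
`|e|^N = |ζ|^p`, `N = p (p-1)`, so `|ζ| = |e|^(p-1)` (`x ↦ x^p` is injective on a linearly ordered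
commutative group with zero).  Two roots `ζ₁ ≠ ζ₂`.  Subtract:
`(ζ₁^p - ζ₂^p) u₁ + ζ₂^p (u₁ - u₂) + (ζ₁^c - ζ₂^c) λ₁ + ζ₂^c (λ₁ - λ₂) = 0`.
`ζ₁^p - ζ₂^p = (ζ₁ - ζ₂)^p`.  The first two terms: `|ζ₂^p (u₁ - u₂)| < |ζ₁^p - ζ₂^p|`, so their sum has the
value `|ζ₁ - ζ₂|^p`.  `|ζ₁/ζ₂ - 1| < 1`: from the equations `ζ_i^p u_i = -e^N (1 + m_i)`, `|m_i| < 1`, and
`|u_1 - u_2| < 1`: `|(ζ₁/ζ₂)^p - 1| < 1`, and `(ζ₁/ζ₂)^p - 1 = (ζ₁/ζ₂ - 1)^p`.  So `ζ₁^c - ζ₂^c = (ζ₁ - ζ₂) Σ_{a<c}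
ζ₁^a ζ₂^(c-1-a)`, and the sum is `ζ₂^(c-1) (c + m)`, `|m| < 1`, of value `|ζ₂|^(c-1)` (`p ∤ c`, `|c| = 1`).
`|ζ₂^c (λ₁ - λ₂)| ≤ |ζ₂|^c |ζ₁ - ζ₂| < |ζ₂|^(c-1) |ζ₁ - ζ₂|`.  So `|ζ₁ - ζ₂|^p = |ζ₁ - ζ₂| |ζ₂|^(c-1)`,
`|ζ₁ - ζ₂|^(p-1) = |ζ₂|^(c-1) = |e|^((p-1)(c-1))`, `|ζ₁ - ζ₂| = |e|^(c-1)`.
*Uses*: LocE. -/
def LocVStmt : Prop :=
  ∀ (p n : ℕ) [Fact p.Prime] (t : AType p n) (Ω : Type) [Field Ω] [Algebra (ZMod p) Ω]
    (V : ValuationSubring Ω), V ≠ ⊤ → ∀ (e τ κ : Ω),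
    e ≠ 0 → V.valuation e < 1 → V.valuation τ = 1 → κ ∈ V → (t.m = 1 → τ = κ) →
    (∀ y : Ω, y ∉ V → (t.f e τ κ).eval y = 0 → V.valuation y⁻¹ = V.valuation e ^ (p - 1)) ∧
    ∀ y y' : Ω, y ∉ V → y' ∉ V → y ≠ y' → (t.f e τ κ).eval y = 0 → (t.f e τ κ).eval y' = 0 →
      V.valuation (y⁻¹ - y'⁻¹) = V.valuation e ^ (n - t.W.natDegree - 1)

/-- **LocB.** Bad places: inertia of sign `1` has order dividing `p` and fixes the finite roots.

*Proof.*  `S = {i : y_i ∉ V}`, stable under `ρ` (`δ` preserves `V`).  `θ_{ij} = (ζ_i - ζ_j)/e^(c-1)`,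
`ζ_i = 1/y_i`, `c = n - deg W`: for `i ≠ j` in `S` it is a unit (*LocV*).  `δ` fixes `e`, so `δ θ_{ij} =
θ_{ρ i, ρ j}` has the same residue as `θ_{ij}` (*Res*, `Q = 1`).  Fix `i₀ ∈ S` and let `θ_i` be the residue of
`θ_{i i₀}` in `k = IsLocalRing.ResidueField V`: `θ_i ≠ θ_j` for `i ≠ j` in `S`, and `θ_{ρ i} - θ_{ρ i₀} = θ_i`, so
`θ_{ρ i} = θ_i + a` with `a = θ_{ρ i₀}`, `θ_{ρ^p i} = θ_i + p a = θ_i`: `ρ^p i = i` for `i ∈ S`.  On the complement of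
`S` residues of the `y_i` are preserved; by *LocN* a point `i ∉ S` with `ρ i ≠ i` has residue `s`, and
at most two points have residue `s`; so `ρ` is the identity or a transposition on the complement.  If it
is a transposition there, then `ρ^p` (`p` odd) is a transposition of `Fin n`, of sign `-1`, but
`sign (ρ^p) = (sign ρ)^p = 1`.
*Uses*: Res (of BR), LocN, LocV. -/
def LocBStmt : Prop :=
  ∀ (p n : ℕ) [Fact p.Prime] (t : AType p n) (Ω : Type) [Field Ω] [Algebra (ZMod p) Ω] (x : Ω),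
    IsStage p x → ∀ V : ValuationSubring Ω, V ≠ ⊤ → ∀ (e τ κ : Ω) (y : Fin n → Ω),
    e ≠ 0 → V.valuation e < 1 → V.valuation τ = 1 → κ ∈ V → (t.m = 1 → τ = κ) →
    Function.Injective y → t.f e τ κ = C (e ^ (p * (p - 1))) * ∏ i, (X - C (y i)) →
    ∀ δ ∈ Inert p V, δ e = e → ∀ ρ : Equiv.Perm (Fin n), (∀ i, δ (y i) = y (ρ i)) →
      Equiv.Perm.sign ρ = 1 → ρ ^ p = 1 ∧ ∀ i, y i ∈ V → ρ i = i

/-- **Unr.** Elements fixed by inertia: the extension is unramified.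

*Proof.*  Let `K = 𝔽(x)` (`IntermediateField.adjoin (Cst p Ω) {x}`), a level, `v` its place below `V` (*Bel*).
`v.pord (x - x₀) = 1`: every nonzero `f ∈ K` is `(x - x₀)^j g(x)/h(x)` with `g(x₀) h(x₀) ≠ 0` (`x` is
transcendental over `𝔽`, *Lvl*), so `v.pord f = j v.pord (x - x₀)` (`g(x)` has residue `g(x₀) ≠ 0` at `V`, so
`|g(x)| = 1`, so `v.pord (g(x)) = 0` by *Bel*), and `v.pord` takes the value `1`; `v.pord (x - x₀) > 0`.
Let `a ≠ 0`, `K' = 𝔽(x, a)`, a level, `v'` its place below `V`.  `Gx ⊓ Inert V = Fx K ⊓ Dec V`, and it fixes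
`K'`; so by *Ram* `v'.pord (x - x₀) = v.pord (x - x₀) = 1`.  `|a| < 1`: `v'.pord a ≥ 1` (*Bel*), so
`v'.pord (a / (x - x₀)) ≥ 0`, `a / (x - x₀) ∈ V`.
*Uses*: Cst, Lvl, Bel, Ram (of BR). -/
def UnrStmt : Prop :=
  ∀ (p : ℕ) [Fact p.Prime] (Ω : Type) [Field Ω] [Algebra (ZMod p) Ω] (x : Ω), IsStage p x →
    ∀ V : ValuationSubring Ω, V ≠ ⊤ → ∀ x₀ ∈ Cst p Ω, V.valuation (x - x₀) < 1 →
    ∀ a : Ω, (∀ δ ∈ Gx p x ⊓ Inert p V, δ a = a) → V.valuation a < 1 →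
      V.valuation a ≤ V.valuation (x - x₀)

/-- **Wild.** At a zero of `e` where `τ` is not constant to the first order, inertia moves a root.

*Proof.*  By *LocN* some `y_i ∉ V`; suppose that all `δ ∈ Gx ⊓ Inert V` fix `y_i`, `ζ = 1/y_i`.
`|ζ| = |e|^(p-1)` (*LocV*), `ζ' = ζ / e^(p-1)`, `|ζ'| = 1`, fixed by `Gx ⊓ Inert V`, also `e`.  *Unr*:
`|e| ≤ |x - x₀| =: q`, so `|e|^2 < q` (`0 < q < 1`: `x ≠ x₀` because `x` is not algebraic).  *LocE* divided by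
`e^N`: `1 + ζ'^p u + e^((p-1)c - N) ζ'^c λ = 0`, `(p-1) c - p (p-1) = (p-1)(c-p) ≥ 2` and
`|u - τ| ≤ max(|e|^N, |ζ|^p) ≤ |e|^2` (`N ≥ 2`); so `|1 + τ ζ'^p| ≤ |e|^2 < q`.  Let `ζ₀ ∈ 𝔽` be the residue of
`ζ'` (*Res*); `1 + τ₀ ζ₀^p` is a constant with `|1 + τ₀ ζ₀^p| < 1` (`|τ - τ₀| = q < 1`), so `τ₀ ζ₀^p = -1` (nonzero
constants have value `1`).  `1 + τ ζ'^p = τ (ζ'^p - ζ₀^p) + (τ - τ₀) ζ₀^p`; `|(τ - τ₀) ζ₀^p| = q`, so
`|ζ'^p - ζ₀^p| = q`, `b = ζ' - ζ₀`, `|b|^p = q`.  But `b` is fixed by `Gx ⊓ Inert V` (inertia fixes constants) and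
`|b| < 1`, so `|b| ≤ q` (*Unr*), `|b|^p ≤ q^p < q`, contradiction.
*Uses*: Res (of BR), LocN, LocE, LocV, Unr. -/
def WildStmt : Prop :=
  ∀ (p n : ℕ) [Fact p.Prime] (t : AType p n) (Ω : Type) [Field Ω] [Algebra (ZMod p) Ω] (x : Ω),
    IsStage p x → ∀ V : ValuationSubring Ω, V ≠ ⊤ → ∀ (e τ κ x₀ τ₀ : Ω) (y : Fin n → Ω),
    e ≠ 0 → V.valuation e < 1 → V.valuation τ = 1 → κ ∈ V → (t.m = 1 → τ = κ) →
    x₀ ∈ Cst p Ω → V.valuation (x - x₀) < 1 → τ₀ ∈ Cst p Ω →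
    V.valuation (τ - τ₀) = V.valuation (x - x₀) →
    (∀ δ ∈ Gx p x ⊓ Inert p V, δ e = e) →
    t.f e τ κ = C (e ^ (p * (p - 1))) * ∏ i, (X - C (y i)) →
    ∃ δ ∈ Gx p x ⊓ Inert p V, ∃ i, δ (y i) ≠ y i

/-! ## Part 3.  Generic transitivity -/

/-- **Eis.** Eisenstein: `e^N A + B` is irreducible over `F(e)`.

*Proof.*  Consider `P = A X^N + B` in `F[Y][X]` (outer variable `X`, coefficients in `F[Y]`): `B` has an
irreducible factor `π` in `F[Y]` (`deg B > 0`), `π² ∤ B` (squarefree), `π ∤ A` (coprime).  The reversed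
Eisenstein criterion is not needed: all coefficients of `P` except the leading one `A ∉ (π)` are in `(π)`,
`B ∉ (π²)`, `P` is primitive because `A, B` are coprime: `Polynomial.irreducible_of_eisenstein_criterion`.
Exchange the variables (`Polynomial.Bivariate.swap` or `MvPolynomial`): `Q = C(X^N) A + B ∈ F[X][Y]`
(outer variable `Y`) is irreducible; its degree in `Y` is positive (the coefficient of `Y^(deg B)` is
`a X^N + b`, `b ≠ 0`), so it is primitive and irreducible over the fraction field (Gauss,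
`IsPrimitive.irreducible_iff_irreducible_map_fraction_map`).  `F(e)` is a fraction field of `F[X]` through
`X ↦ e` (`e` is transcendental). -/
def EisStmt : Prop :=
  ∀ (F M : Type) [Field F] [Field M] [Algebra F M] (e : M), Transcendental F e →
    ∀ (A B : F[X]) (N : ℕ), 0 < N → IsCoprime A B → Squarefree B → 0 < B.natDegree →
    Irreducible (C (IntermediateField.AdjoinSimple.gen F e ^ N) *
      A.map (algebraMap F (IntermediateField.adjoin F {e})) +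
      B.map (algebraMap F (IntermediateField.adjoin F {e})))

/-- **Gen1.** The polynomials `A = V A₀` and `B = V (τ G₀ + κ H₀) + W` satisfy the conditions of *Eis*.

*Proof.*  `B = V M + W` with `M' = 0` (`derivative_G₀`, `derivative_H₀`) and `B(s) = val κ ≠ 0`
(`eval_f` for `e = 0`), so `B` is separable (*Sep*), so squarefree; degree `n - p > 0` (`coeff_B`, `τ ≠ 0`).
Coprime: to `V`: `W = 1` or `V = 1`; to `A₀ = (X - s)^p X^(p(m-1))` (`X^p - s = (X - s)^p` as `s^p = s`): `B(s) ≠ 0`;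
if `m ≥ 2`: `B(0) ≠ 0` by `h0`: if `s = 0` then `B(0) = B(s)`; if `V(0) = 0` then `V ≠ 1`, `W = 1`, `B(0) = 1`.
*Uses*: Sep. -/
def Gen1Stmt : Prop :=
  ∀ (p n : ℕ) [Fact p.Prime] (t : AType p n) (F : Type) [Field F] [Algebra (ZMod p) F] (τ κ : F),
    (t.m = 1 → τ = κ) → τ ≠ 0 → t.val κ ≠ 0 →
    ∀ A B : F[X], A = (t.V * t.A₀).map (algebraMap (ZMod p) F) →
    B = t.V.map (algebraMap (ZMod p) F) * (C τ * t.G₀.map (algebraMap (ZMod p) F) +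
        C κ * t.H₀.map (algebraMap (ZMod p) F)) + t.W.map (algebraMap (ZMod p) F) →
    IsCoprime A B ∧ Squarefree B ∧ 0 < B.natDegree

/-- **Gen2.** The same for the polynomial with one root removed, `m ≥ 2`.

*Proof.*  `B̃ = V (κ - λ G₀) + W` has the form `V M + W`, `M' = 0`, `G₀(s) = 0` (`m ≥ 2`), so `B̃(s) = val κ ≠ 0`: `B̃`
is separable (*Sep*), of degree `n - p` (leading coefficient `-λ ≠ 0`; `coeff_B` with `τ = -λ`).
`B̃ = (X - y₁) B₁`, so `B₁` is squarefree of degree `n - p - 1 ≥ 1` (`hp`: `n ≥ p + 3`, or `p = 3`, then by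
`hn` and `m ≥ 2` `n ≥ 6`), and `B₁(y₁) ≠ 0`.  `B̃` is coprime to `V` (`W = 1` or `V = 1`), to `X - s`, and if `m ≥ 3`
to `X` (`G₀(0) = 0`; `h0` as in *Gen1*); `G₀ = (X - s)^p X^(p(m-2))`.  So `B₁` is coprime to
`V G₀ (X - y₁)^(p-1)`.
*Uses*: Sep. -/
def Gen2Stmt : Prop :=
  ∀ (p n : ℕ) [Fact p.Prime] (t : AType p n) (F : Type) [Field F] [Algebra (ZMod p) F]
    (κ lam y₁ : F) (B₁ : F[X]), 2 ≤ t.m → lam ≠ 0 → t.val κ ≠ 0 →
    t.V.map (algebraMap (ZMod p) F) * (C κ - C lam * t.G₀.map (algebraMap (ZMod p) F)) +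
      t.W.map (algebraMap (ZMod p) F) = (X - C y₁) * B₁ →
    IsCoprime ((t.V * t.G₀).map (algebraMap (ZMod p) F) * (X - C y₁) ^ (p - 1)) B₁ ∧
      Squarefree B₁ ∧ 0 < B₁.natDegree

/-- **GenT.** Transitivity of the generic Galois group (`m = 1`) and double transitivity (`m ≥ 2`).

*Proof.*  `N` is algebraically closed and algebraic over `L₁ = L(U, T)`.  General fact (G): if `L ≤ K₁ ≤ N` are
fields, `N` algebraic over `K₁`, `P ∈ K₁[X]` irreducible, `a, b ∈ N` roots of `P`, then there is an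
automorphism of `N` over `K₁` with `a ↦ b` (`N` is a normal extension of `K₁`, equal minimal polynomials).
FIRST: `F = L(U) ⊂ N`, `τ ∈ F`, `τ ≠ 0` (`m = 1`: `κ ≠ 0`; `m ≥ 2`: `U` is transcendental over `L`, `P ≠ 0`).
`e = (1 + h τ) + P τ T` is transcendental over `F` because `T` is, and `P τ ≠ 0`; `F(e) = L(U, T)`.  `f =
e^N V A₀ + B` (`f_eq`), irreducible over `F(e)` by *Gen1* and *Eis*.  By (G) for `K₁ = F(e)` and any `i, l`
there is `σ` over `F(e) ∋ U, T` with `σ y_i = y_l`.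
SECOND, `m ≥ 2`: fix `l` and let `a = y_l`.  `V(a) G₀(a) ≠ 0`: `f(a) = 0`; if `V(a) = 0` then `V ≠ 1`, `W = 1`,
`f(a) = 1`; if `G₀(a) = 0` then `a = s`, `f(s) = val κ ≠ 0`, or `a = 0`, `m ≥ 3`, and `f(0) = V(0) κ + W(0)`
(`A₀(0) = G₀(0) = 0`) `≠ 0` by `h0` as in *Gen1*.  `f(a) = 0` gives (`A₀ = X^p G₀`, `H₀ = 1`):
`τ = -(e^N a^p + λ)` with `λ = (κ + W(a)/V(a)) / G₀(a) ∈ F₁ = L(a)`.  Then
`f = e^N V G₀ (X - a)^p + (V (κ - λ G₀) + W)` (because `X^p - a^p = (X - a)^p`); the second summand vanishes at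
`a`, `= (X - a) B₁`, `B₁ ∈ F₁[X]`, `f = (X - a) (e^N V G₀ (X - a)^(p-1) + B₁)`.  `e` is transcendental over `F₁`:
otherwise `e`, so `τ`, so `U = (τ - x)/P²` and `T = ((e-1)/τ - h)/P` are algebraic over `L(a)`, impossible for two
algebraically independent elements (transcendence degree of `L(a)` over `L` is at most `1`).  `a` is
transcendental over `L` (else `U, T` would be algebraic over `L(e)`), so `κ V(a) + W(a) ≠ 0` (the polynomial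
`κ V + W` is not `0`: its value at `s` is `val κ`), `λ ≠ 0`.  *Gen2* and *Eis*: `e^N V G₀ (X - a)^(p-1) + B₁` is
irreducible over `F₁(e)`, and `U, T ∈ F₁(e)`.  The `y_i`, `i ≠ l`, are its roots (`y` is injective), so by (G)
for all `i'', l' ≠ l` there is `σ₂` with `σ₂ a = a`, `σ₂ y_{i''} = y_{l'}`, `σ₂ U = U`, `σ₂ T = T`.  Given `i ≠ i'`,
`l ≠ l'`: `σ₁ y_i = y_l` (first part), `σ₁ y_{i'} = y_{i''}`, `i'' ≠ l`; `σ = σ₂ σ₁`.
*Uses*: Eis, Gen1, Gen2. -/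
def GenTStmt : Prop :=
  ∀ (p n : ℕ) [Fact p.Prime] (t : AType p n) (L N : Type) [Field L] [Field N]
    [Algebra (ZMod p) L] [Algebra (ZMod p) N] [Algebra L N] [IsScalarTower (ZMod p) L N]
    [IsAlgClosed N] (U T : N), AlgebraicIndependent L ![U, T] →
    Algebra.IsAlgebraic (IntermediateField.adjoin L {U, T}) N →
    ∀ (x h κ P : L), P ≠ 0 → (t.m = 1 → κ ≠ 0) → t.val κ ≠ 0 →
    ∀ (τ e : N), τ = (if t.m = 1 then algebraMap L N κ else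
      algebraMap L N x + algebraMap L N P ^ 2 * U) →
    e = 1 + (algebraMap L N h + algebraMap L N P * T) * τ →
    ∀ y : Fin n → N, Function.Injective y →
    t.f e τ (algebraMap L N κ) = C (e ^ (p * (p - 1))) * ∏ i, (X - C (y i)) →
    (t.m = 1 → ∀ i l, ∃ σ : N ≃ₐ[L] N, σ U = U ∧ σ T = T ∧ σ (y i) = y l) ∧
    (2 ≤ t.m → ∀ i i' l l', i ≠ i' → l ≠ l' →
      ∃ σ : N ≃ₐ[L] N, σ U = U ∧ σ T = T ∧ σ (y i) = y l ∧ σ (y i') = y l')

/-! ## Part 4.  Hilbert irreducibility with polynomial values -/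

/-- The weak Hilbert property (`MP7fL.WH`) with values in the set `S`. -/
def WHS (K : Type) [Field K] (S : Set K) : Prop :=
  ∀ s : Finset K[X][X],
    (∀ h ∈ s, h.Monic ∧ (h.map (algebraMap K[X] (RatFunc K))).Separable ∧
      ∀ y : K[X], h.eval y ≠ 0) →
    ∀ g : K[X], g ≠ 0 → ∃ a ∈ S, g.eval a ≠ 0 ∧
      ∀ h ∈ s, ∀ ρ : K, (h.map (evalRingHom a)).eval ρ ≠ 0

/-- The Hilbert property with values in the set `S`. -/
def HilS (K : Type) [Field K] (S : Set K) : Prop :=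
  ∀ f : K[X][X], Irreducible (f.map (algebraMap K[X] (RatFunc K))) →
    (f.map (algebraMap K[X] (RatFunc K))).Separable →
    ∀ g : K[X], g ≠ 0 → ∃ a ∈ S, g.eval a ≠ 0 ∧ Irreducible (f.map (evalRingHom a))

/-- **HRa.** The weak Hilbert property of `𝔽_p(x)` with values in `𝔽_p[x]`.

*Proof.*  Repeat the proofs of `MP7fR.exists_avoid_ratFunc` (`HilbertFq/Main.lean`, line 209: the value
produced is `algebraMap k[X] (RatFunc k) a`; prove the same statement with this additional information)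
and of `MP7fR.wh_ratFunc_finite` (`HilbertFq/WHk.lean`).  Import `Pool.Agent.Lib.HilbertFq.WHk`. -/
def HRaStmt : Prop :=
  ∀ (p : ℕ) [Fact p.Prime], WHS (RatFunc (ZMod p))
    (Set.range (algebraMap (ZMod p)[X] (RatFunc (ZMod p))))

/-- **HRb.** The weak Hilbert property passes to `K(U)`, with the same values.

*Proof.*  The proof of `MP7fL.wh_ratFunc` (`MP_7f581e_ntL/WH4.lean`, line 174): the value found there is
`algebraMap K (RatFunc K) a` with `a` provided by the property of `K` (`key_h` is used as it is). -/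
def HRbStmt : Prop :=
  ∀ (K : Type) [Field K] [Infinite K] (S : Set K), WHS K S →
    WHS (RatFunc K) (algebraMap K (RatFunc K) '' S)

/-- **HRc.** The weak property implies the Hilbert property, with the same values.

*Proof.*  The proof of `MP7fR.isHilbertian_of_wh` (`HilbertFq/WHk.lean`). -/
def HRcStmt : Prop := ∀ (K : Type) [Field K] (S : Set K), WHS K S → HilS K S

/-- **HR2.** Two parameters.

*Proof.*  `K = RatFunc (ZMod p)`, `R` = the image of `(ZMod p)[X]`.  `K(U)` has the Hilbert property with values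
in `R` (*HRa*, *HRb*, *HRc*), and so has `K` (*HRa*, *HRc*).  View `Q ∈ K[U, T][Y]` as an element `Q₁` of `K(U)[T][Y]`
(`MvPolynomial (Fin 2) K ≃ K[U][T] ⊂ K(U)[T]`, `MvPolynomial.finSuccEquiv` or
`MvPolynomial.optionEquivLeft`): it is irreducible and separable over the fraction field `K(U, T) = K(U)(T)`.
`K(U)` has the Hilbert property: there is `b ∈ R` with `Q(U, b, Y)` irreducible over `K(U)` and
`c'(U, b) ≠ 0` in `K(U)`, where `c' = c · a` and `a ∈ K[U, T]` is a nonzero coefficient of the derivative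
`∂Q/∂Y` (`Q` is separable, monic of positive degree).  `Q(U, b, Y) ∈ K[U][Y]` is monic, irreducible over
`K(U)`, with nonzero derivative, so separable.  The Hilbert property of `K` gives `a₀ ∈ R` with
`Q(a₀, b, Y)` irreducible over `K` and `c'(a₀, b) ≠ 0`; it has nonzero derivative, so it is separable.
*Uses*: HRa, HRb, HRc. -/
def HR2Stmt : Prop :=
  ∀ (p : ℕ) [Fact p.Prime] (Q : (MvPolynomial (Fin 2) (RatFunc (ZMod p)))[X]), Q.Monic →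
    Irreducible (Q.map (algebraMap (MvPolynomial (Fin 2) (RatFunc (ZMod p)))
      (FractionRing (MvPolynomial (Fin 2) (RatFunc (ZMod p)))))) →
    (Q.map (algebraMap (MvPolynomial (Fin 2) (RatFunc (ZMod p)))
      (FractionRing (MvPolynomial (Fin 2) (RatFunc (ZMod p)))))).Separable →
    ∀ c : MvPolynomial (Fin 2) (RatFunc (ZMod p)), c ≠ 0 →
    ∃ a b : (ZMod p)[X], ∀ ev : MvPolynomial (Fin 2) (RatFunc (ZMod p)) →+* RatFunc (ZMod p),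
      ev = MvPolynomial.eval ![algebraMap (ZMod p)[X] (RatFunc (ZMod p)) a,
        algebraMap (ZMod p)[X] (RatFunc (ZMod p)) b] →
      ev c ≠ 0 ∧ Irreducible (Q.map ev) ∧ (Q.map ev).Separable

/-- **Hilb.** Specialization of Galois groups.

*Proof.*  Let `K₀ = RatFunc (ZMod p) → Ω`, `X ↦ x` (injective, image `K = 𝔽_p(x)`), `A = K₀[U, T]`
(`MvPolynomial (Fin 2) K₀`) `→ N` injective, `E₀ = K(U, T) ⊂ N` its fraction field, `B = Ω[U, T] → N`,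
`𝒪` = integral closure of `B` in `N`.  `N` is algebraic over `E₀` (`Ω` is algebraic over `K`) and
algebraically closed.  `ℓ η_i` is integral over `L[U, T]`, so over `A` (`L` is algebraic over `K`).
STEP 1. `α ∈ L` integral over `K`, with `γ α = α ⇒ ψ γ = 1` for `γ ∈ Gx` (from *Fam* with `r = 1`, `m₀ = 1`: the
element of `SplitFam.prim`).  The elements `z₀ = α`, `z_i = ℓ η_i` are separable over `E₀`: `α` over `K`; `η_i`
over `L(U, T)` (root of a polynomial with `n` distinct roots), and `L(U, T) / E₀` is separable (generated by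
separable elements of `L`).  `ℓ ∈ L[U, T]` also.
STEP 2. Let `N₀ ⊂ N` be a finite Galois extension of `E₀` containing `α`, all `z_i` and `ℓ` (normal closure),
`θ` a primitive element, integral over `A` (multiply by an element of `A`).  `Q = minpoly A θ`, monic, and
`Q` over `E₀` is the minimal polynomial of `θ` (`A` is integrally closed), irreducible and separable.
For every `z ∈ {α, ℓ, z_i}`: `c_z z = P_z(θ)`, `0 ≠ c_z ∈ A`, `P_z ∈ A[Y]`.  For `0 ≠ a ∈ L[U, T]` (`a = ℓ, c`) there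
is `0 ≠ a₀ ∈ A` such that `a₀(u, v) ≠ 0` implies `a(u, v) ≠ 0` for all `u, v ∈ Ω`: the constant coefficient of
a minimal monic equation of `a` over `A` (`a` is integral over `A` since `L` is over `K₀`); it specializes.
STEP 3. *HR2* for `Q` and the product of all `c_z`, `ℓ₀`, `c₀`: `u, v ∈ 𝔽_p[x]`, `Q_{u,v} ∈ K[Y]` irreducible and
separable, `c_z(u, v) ≠ 0`, `ℓ(u, v) ≠ 0`, `c(u, v) ≠ 0`.
STEP 4. The ring homomorphism `B → Ω → Ω̄` (`Ω̄ = AlgebraicClosure Ω`), `(U, T) ↦ (u, v)`, extends to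
`φ : 𝒪 → Ω̄` (integral extension, algebraically closed target: a prime of `𝒪` over the kernel, the residue
field is algebraic over that of `B`; `Ideal.exists_ideal_over_prime_of_isIntegral`, `IsAlgClosed.lift`).
STEP 5. Let `σ` be an automorphism of `N` fixing `L`, `U`, `T`.  `θ, σ θ ∈ 𝒪` are roots of `Q`, so `φ θ`,
`φ(σ θ)` are roots of the irreducible separable `Q_{u,v} ∈ K[Y]`; they are in `Ω` (separably closed), and
there is `γ ∈ Gal(Ω/K) = Gx` with `γ (φ θ) = φ (σ θ)` (`Ω / K` is normal).  For `z ∈ {α, ℓ, z_i}`, apply `φ` and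
`φ ∘ σ` to `c_z z = P_z(θ)`: `φ z = P_z(φ θ)/c_z(u,v) ∈ Ω`, and `φ(σ z) = P_z(φ(σ θ))/c_z(u,v) = γ (φ z)` (the
coefficients are in `K`).  For `z = α`: `φ α = α = σ α`, so `γ α = α`, `ψ γ = 1`, `γ` fixes `L`.
`y_i := φ(z_i)/ℓ(u,v) ∈ Ω`.  Applying `φ` to the identity of polynomials over `𝒪`
`ℓ^(n-1) g(Y/ℓ)`-version: `Σ_k g_k ℓ^(n-1-k) Y^k = ∏ (Y - ℓ η_i)` (or: to `ℓ^n g(Y) = ℓ ∏ (ℓ Y - ℓ η_i)`, an identity
over `𝒪`) gives `g_{u,v} = ℓ(u,v) ∏ (Y - y_i)`.  If `σ η_i = η_{π i}` then `σ z_i = z_{π i}` (`σ ℓ = ℓ`), so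
`γ (φ z_i) = φ(z_{π i})`, `γ y_i = y_{π i}` (`γ` fixes `ℓ(u,v) ∈ L`).
*Uses*: HR2, Fam (of Lie). -/
def HilbStmt : Prop :=
  ∀ (p : ℕ) [Fact p.Prime] (Ω : Type) [Field Ω] [Algebra (ZMod p) Ω] (x : Ω), IsStage p x →
    ∀ (Q : Type) [Group Q] [Finite Q] (ψ : Gx p x →* Q), FinLevel ψ → Function.Surjective ψ →
    ∀ (L : IntermediateField (ZMod p) Ω),
    (∀ a, a ∈ L ↔ ∀ γ : Gx p x, ψ γ = 1 → (γ : Ω ≃ₐ[ZMod p] Ω) a = a) →
    ∀ (N : Type) [Field N] [Algebra Ω N] [IsAlgClosed N] (U T : N),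
    AlgebraicIndependent Ω ![U, T] →
    Algebra.IsAlgebraic (IntermediateField.adjoin Ω {U, T}) N →
    ∀ (n : ℕ) (g : (MvPolynomial (Fin 2) L)[X]) (ℓ c : MvPolynomial (Fin 2) L) (η : Fin n → N)
      (evN : MvPolynomial (Fin 2) L →+* N),
    evN = MvPolynomial.eval₂Hom ((algebraMap Ω N).comp (algebraMap L Ω)) ![U, T] →
    Function.Injective η → ℓ ≠ 0 → c ≠ 0 →
    g.map evN = C (evN ℓ) * ∏ i, (X - C (η i)) →
    ∃ u ∈ Algebra.adjoin (ZMod p) {x}, ∃ v ∈ Algebra.adjoin (ZMod p) {x},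
    ∀ ev : MvPolynomial (Fin 2) L →+* Ω,
      ev = MvPolynomial.eval₂Hom (algebraMap L Ω) ![u, v] →
      ev ℓ ≠ 0 ∧ ev c ≠ 0 ∧ ∃ y : Fin n → Ω, g.map ev = C (ev ℓ) * ∏ i, (X - C (y i)) ∧
      ∀ σ : N ≃+* N, (∀ a : L, σ (algebraMap Ω N a) = algebraMap Ω N a) → σ U = U → σ T = T →
      ∀ π : Equiv.Perm (Fin n), (∀ i, σ (η i) = η (π i)) →
        ∃ γ : Gx p x, ψ γ = 1 ∧ ∀ i, (γ : Ω ≃ₐ[ZMod p] Ω) (y i) = y (π i)

/-- **Trans.** Choice of the parameters: transitivity.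

*Proof.*  Let `L` be the intermediate field of the elements of `Ω` fixed by `ker ψ`;
`N = AlgebraicClosure (FractionRing (MvPolynomial (Fin 2) Ω))`, `U`, `T` the images of the variables `0`, `1`.
In `A_L = MvPolynomial (Fin 2) L`: `τ_L = C κ` if `m = 1`, `C x + C P^2 X_0` if `m ≥ 2`;
`e_L = 1 + (C h + C P X_1) τ_L`, `g = t.f e_L τ_L (C κ)`, `ℓ = e_L^N`, `c = τ_L` (`τ_L ≠ 0`, `e_L ≠ 0`: `P ≠ 0`,
`κ ≠ 0` if `m = 1`).  Over `N`: `g_N = t.f e τ κ` (`map_f`) is separable (*Sep*: `val κ ≠ 0`) of degree `n`, so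
`g_N = e^N ∏ (X - η_i)` with `η` injective.  *Hilb* gives `u = U`, `v = T` in `𝔽_p[x]`: `e ≠ 0`, `τ ≠ 0`, and `y'`.
For `y` as in the statement: `y = y' ∘ π₀` for a permutation `π₀` (`t.f e τ κ` over `Ω` is separable, so both
families are injective with the same set of values).  `m = 1`: given `i, l`, *GenT* gives `σ` with
`σ η_{π₀ i} = η_{π₀ l}`; `σ` permutes the roots of `g_N` (its coefficients are fixed by `σ`):
`σ η_a = η_{π a}`; *Hilb*: `γ`, `ψ γ = 1`, `γ y'_a = y'_{π a}`; `γ y_i = γ y'_{π₀ i} = y'_{π₀ l} = y_l`.  `m ≥ 2`: the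
same with pairs.
*Uses*: Sep, GenT, Hilb. -/
def TransStmt : Prop :=
  ∀ (p n : ℕ) [Fact p.Prime] (t : AType p n) (Ω : Type) [Field Ω] [Algebra (ZMod p) Ω] (x : Ω),
    IsStage p x → ∀ (Q : Type) [Group Q] [Finite Q] (ψ : Gx p x →* Q), FinLevel ψ →
    Function.Surjective ψ → ∀ (h κ P : Ω),
    (∀ γ : Gx p x, ψ γ = 1 → (γ : Ω ≃ₐ[ZMod p] Ω) h = h) →
    (∀ γ : Gx p x, ψ γ = 1 → (γ : Ω ≃ₐ[ZMod p] Ω) κ = κ) →
    P ∈ Algebra.adjoin (ZMod p) {x} → P ≠ 0 → (t.m = 1 → κ ≠ 0) → t.val κ ≠ 0 →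
    ∃ U ∈ Algebra.adjoin (ZMod p) {x}, ∃ T ∈ Algebra.adjoin (ZMod p) {x}, ∀ τ e : Ω,
      τ = (if t.m = 1 then κ else x + P ^ 2 * U) → e = 1 + (h + P * T) * τ →
      τ ≠ 0 ∧ e ≠ 0 ∧ ∀ y : Fin n → Ω,
        t.f e τ κ = C (e ^ (p * (p - 1))) * ∏ i, (X - C (y i)) →
        (t.m = 1 → ∀ i l, ∃ γ : Gx p x, ψ γ = 1 ∧ (γ : Ω ≃ₐ[ZMod p] Ω) (y i) = y l) ∧
        (2 ≤ t.m → ∀ i i' l l', i ≠ i' → l ≠ l' → ∃ γ : Gx p x, ψ γ = 1 ∧
          (γ : Ω ≃ₐ[ZMod p] Ω) (y i) = y l ∧ (γ : Ω ≃ₐ[ZMod p] Ω) (y i') = y l')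

/-! ## Part 5.  Global assembly -/

/-- **Par.** The equivariant parameters and the totally split place.

*Proof.*  *Fam* with `m₀ = 1` and `r = |B| + 1` gives `V_0, …, V_{r-1}`; the residues `x_j ∈ 𝔽` of `x` (*Res*) are
pairwise distinct: by `sep` there is `t ∈ 𝔽_p[x]` with `|t|_i < 1`, `|t|_j = 1`, `t = g(x)`, so `g(x_i) = 0`,
`g(x_j) ≠ 0`.  So some `x_j ∉ B`; `V₁ = V_j`, `x₀ = x_j`; the family with the one member `V₁` is again a
`SplitFam`.  `P = P₀(x)`, `P₀` the minimal polynomial of `x₀` over `ZMod p`: `P ≠ 0` (`x` is transcendental), and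
`P = ∏ (x - x₀')` over the conjugates, one factor is `x - x₀`, the others are in `V₁`: `|P| ≤ |x - x₀|`.
Let `γ_q ∈ Gx`, `ψ γ_q = q`.  For `a ∈ 𝔽` fixed by `Gx ⊓ Dec V₁` let `z` be as in *Pres* (`r = 1`, value `a`),
`q z := γ_q z` (independent of the choice), `h_j = Σ_{q : act q j₀ = j} q z`: integral; `γ h_j = h_{act (ψ γ) j}`
(substitute `q ↦ ψ γ · q`); in `h_{j₀}` the summand `q = 1` is `z`, `|z - a| < 1`, all other summands have value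
`< 1`; in `h_j`, `j ≠ j₀`, all summands have `q ≠ 1`.  For `w` take `a = 1`, `z` as before and
`w_j = Σ_{q : act q j₀ = j} ε(q)_{j₀} q z`.  `γ w_j = Σ_q ε(q)_{j₀} (ψ γ · q) z`, and `ε(ψ γ · q)_{j₀} =
ε(ψ γ)_{act q j₀} ε(q)_{j₀}`, so `ε(q)_{j₀} = ε(ψ γ)_j ε(ψ γ q)_{j₀}` and `γ w_j = ε(ψ γ)_j w_{act (ψ γ) j}`.
`ε(1)_{j₀} = 1` (cocycle relation for `1 · 1`), so `|w_{j₀} - 1| < 1`, `w_{j₀} ≠ 0`, and all `w_j ≠ 0` by
transitivity.
*Uses*: Res (of BR), Fam, Pres (of Lie). -/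
def ParStmt : Prop :=
  ∀ (p : ℕ) [Fact p.Prime] (Ω : Type) [Field Ω] [Algebra (ZMod p) Ω] (x : Ω), IsStage p x →
    ∀ (Q : Type) [Group Q] [Finite Q] (ψ : Gx p x →* Q), FinLevel ψ → Function.Surjective ψ →
    ∀ (k : ℕ) (act : Q →* Equiv.Perm (Fin k)) (ε : Q → Fin k → ℤˣ) (j₀ : Fin k),
    (∀ a b j, ε (a * b) j = ε a (act b j) * ε b j) → (∀ j, ∃ q, act q j₀ = j) →
    ∀ B : Finset Ω, ∃ V₁ : ValuationSubring Ω, V₁ ≠ ⊤ ∧ x ∈ V₁ ∧
      (∀ γ : Gx p x, (γ : Ω ≃ₐ[ZMod p] Ω) ∈ Dec p V₁ → ψ γ = 1) ∧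
      ∃ x₀ ∈ Cst p Ω, x₀ ∉ B ∧ V₁.valuation (x - x₀) < 1 ∧
      (∃ P ∈ Algebra.adjoin (ZMod p) {x}, P ≠ 0 ∧ V₁.valuation P ≤ V₁.valuation (x - x₀)) ∧
      (∃ w : Fin k → Ω, (∀ j, w j ≠ 0) ∧
        (∀ j, IsIntegral (Algebra.adjoin (ZMod p) {x}) (w j)) ∧
        (∀ (γ : Gx p x) (j : Fin k), (γ : Ω ≃ₐ[ZMod p] Ω) (w j) =
          ((ε (ψ γ) j : ℤ) : Ω) * w (act (ψ γ) j)) ∧
        V₁.valuation (w j₀ - 1) < 1) ∧
      ∀ a ∈ Cst p Ω, (∀ δ ∈ Gx p x ⊓ Dec p V₁, δ a = a) →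
        ∃ h : Fin k → Ω, (∀ j, IsIntegral (Algebra.adjoin (ZMod p) {x}) (h j)) ∧
        (∀ (γ : Gx p x) (j : Fin k), (γ : Ω ≃ₐ[ZMod p] Ω) (h j) = h (act (ψ γ) j)) ∧
        V₁.valuation (h j₀ - a) < 1 ∧ ∀ j, j ≠ j₀ → V₁.valuation (h j) < 1

/-- The system of polynomials with labelled roots. -/
structure AltSys {p n : ℕ} [Fact p.Prime] (t : AType p n) {Ω : Type} [Field Ω]
    [Algebra (ZMod p) Ω] {x : Ω} {Q : Type} [Group Q] (ψ : Gx p x →* Q) {k : ℕ}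
    (act : Q →* Equiv.Perm (Fin k)) (ε : Q → Fin k → ℤˣ) (j₀ : Fin k)
    (V₁ : ValuationSubring Ω) (e τ κ : Fin k → Ω) (y : Fin k → Fin n → Ω) : Prop where
  he : ∀ (γ : Gx p x) j, (γ : Ω ≃ₐ[ZMod p] Ω) (e j) = e (act (ψ γ) j)
  hτ : ∀ (γ : Gx p x) j, (γ : Ω ≃ₐ[ZMod p] Ω) (τ j) = τ (act (ψ γ) j)
  hκ : ∀ (γ : Gx p x) j, (γ : Ω ≃ₐ[ZMod p] Ω) (κ j) = κ (act (ψ γ) j)
  hm : t.m = 1 → ∀ j, τ j = κ j
  ne : ∀ j, e j ≠ 0
  inte : ∀ j, IsIntegral (Algebra.adjoin (ZMod p) {x}) (e j)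
  intτ : ∀ j, IsIntegral (Algebra.adjoin (ZMod p) {x}) (τ j)
  intκ : ∀ j, IsIntegral (Algebra.adjoin (ZMod p) {x}) (κ j)
  unit : ∀ V : ValuationSubring Ω, x ∈ V → ∀ j, V.valuation (e j) < 1 → V.valuation (τ j) = 1
  inj : ∀ j, Function.Injective (y j)
  fac : ∀ j, t.f (e j) (τ j) (κ j) = C (e j ^ (p * (p - 1))) * ∏ i, (X - C (y j i))
  sgn : ∀ (γ : Gx p x) j (ρ : Equiv.Perm (Fin n)),
    (∀ i, (γ : Ω ≃ₐ[ZMod p] Ω) (y j i) = y (act (ψ γ) j) (ρ i)) →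
      Equiv.Perm.sign ρ = ε (ψ γ) j
  top : V₁ ≠ ⊤
  mem : x ∈ V₁
  dec : ∀ γ : Gx p x, (γ : Ω ≃ₐ[ZMod p] Ω) ∈ Dec p V₁ → ψ γ = 1
  e₀ : V₁.valuation (e j₀) < 1
  e₁ : ∀ j, j ≠ j₀ → V₁.valuation (e j) = 1
  res : ∃ x₀ ∈ Cst p Ω, V₁.valuation (x - x₀) < 1 ∧ ∃ τ₀ ∈ Cst p Ω,
    V₁.valuation (τ j₀ - τ₀) = V₁.valuation (x - x₀)
  tr1 : t.m = 1 → ∀ i l, ∃ γ : Gx p x, ψ γ = 1 ∧ (γ : Ω ≃ₐ[ZMod p] Ω) (y j₀ i) = y j₀ l
  tr2 : 2 ≤ t.m → ∀ i i' l l', i ≠ i' → l ≠ l' → ∃ γ : Gx p x, ψ γ = 1 ∧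
    (γ : Ω ≃ₐ[ZMod p] Ω) (y j₀ i) = y j₀ l ∧ (γ : Ω ≃ₐ[ZMod p] Ω) (y j₀ i') = y j₀ l'

/-- **Sys.** Existence of the system.

*Proof.*  Let `c', z` be as in *Lab*, `B = {0} ∪ {b ∈ Ω : b^2 = c' W(s)}` (a finite set), and `V₁, x₀, P, w'` from *Par*.
`w_j = w'_j ^ p`: `γ w_j = ε(ψ γ)_j w_{act j}` (`p` is odd), nonzero, integral, and `|w_{j₀} - 1| = |w'_{j₀} - 1|^p <
|x - x₀|`, because `|w'_{j₀} - 1| ≤ |x - x₀| < 1` by *Unr* (`w'_{j₀}` is fixed by `Gx ⊓ Inert V₁ ⊆ ker ψ`: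
`ε(1)_{j₀} = 1`, `act 1 = 1`).  `d_j = w_j x ≠ 0`, `κ_j = (c'⁻¹ d_j^2 - W(s))/V(s)` (`c'`, `W(s)`, `V(s) ≠ 0` in the prime
field): `val κ_j = c'⁻¹ d_j^2 ≠ 0`, integral, `γ κ_j = κ_{act j}` (`ε^2 = 1`).  `κ₀ = (c'⁻¹ x₀^2 - W(s))/V(s) ∈ 𝔽`, `κ₀ ≠ 0`
(`x₀ ∉ B`).  `|κ_{j₀} - κ₀| = |d^2 - x₀^2| = |d - x₀| |d + x₀|` with `d = d_{j₀} = w x`: `d - x₀ = (w - 1) x + (x - x₀)`
has value `|x - x₀|`, and `d + x₀ = (d - x₀) + 2 x₀` is a unit (`x₀ ≠ 0`, `p ≠ 2`).  So `|κ_{j₀} - κ₀| = |x - x₀|`.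
`τ₀ = κ₀` if `m = 1`, `τ₀ = x₀` if `m ≥ 2`; `τ₀ ≠ 0`, fixed by `Gx ⊓ Dec V₁` (`δ x = x` implies `|x - δ x₀| < 1`, so
`δ x₀ = x₀`, uniqueness in *Res*).  `h` from *Par* for `a = -1/τ₀`.  *Trans* for `h_{j₀}, κ_{j₀}, P` (fixed by
`ker ψ`; if `m = 1`, `κ_{j₀} ≠ 0` because `|κ_{j₀} - κ₀| < 1`, `κ₀ ≠ 0`): `U, T`.  `τ_j = κ_j` if `m = 1`, `x + P^2 U` if
`m ≥ 2`; `e_j = 1 + (h_j + P T) τ_j`; equivariant and integral.  `e_{j₀} ≠ 0`, so all `e_j ≠ 0` (transitivity).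
`unit`: `x ∈ V`: all integral elements are in `V`; `|e_j| < 1` implies `|(h_j + P T) τ_j| = 1`, both factors are in
`V`, so `|τ_j| = 1`.  *Lab* for each `j`: `y_j` with `Δ(y_j) = d_j e_j^z` (`IsStage` gives `IsSepClosed`).  `sgn`:
*Sgn* for `γ`, `y_j`, `y_{act j}`, `a = d_j e_j^z`, `a' = d_{act j} e_{act j}^z`; `γ a = ε a'`.  At `V₁`: `|P| ≤
|x - x₀| < 1`; if `m ≥ 2`: `|τ - x₀| = |x - x₀ + P^2 U| = |x - x₀|`; so in both cases `|τ_{j₀} - τ₀| = |x - x₀|`.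
`e₀`: `e_{j₀} = 1 + (h + P T) τ ≡ 1 - τ₀/τ₀ = 0`.  `e₁`: `h_j + P T ≡ 0`, `τ_j ∈ V₁`.  `tr1`, `tr2`: *Trans*.
*Uses*: Res (of BR), Lab, Sgn, Unr, Trans, Par. -/
def SysStmt : Prop :=
  ∀ (p n : ℕ) [Fact p.Prime] (t : AType p n) (Ω : Type) [Field Ω] [Algebra (ZMod p) Ω] (x : Ω),
    IsStage p x → ∀ (Q : Type) [Group Q] [Finite Q] (ψ : Gx p x →* Q), FinLevel ψ →
    Function.Surjective ψ →
    ∀ (k : ℕ) (act : Q →* Equiv.Perm (Fin k)) (ε : Q → Fin k → ℤˣ) (j₀ : Fin k),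
    (∀ a b j, ε (a * b) j = ε a (act b j) * ε b j) → (∀ j, ∃ q, act q j₀ = j) →
    ∃ (V₁ : ValuationSubring Ω) (e τ κ : Fin k → Ω) (y : Fin k → Fin n → Ω),
      AltSys t ψ act ε j₀ V₁ e τ κ y

/-- **Hom.** The homomorphism defined by a system.

*Proof.*  For `γ ∈ Gx` and `j`: `γ` maps the polynomial `f_j` to `f_{act (ψ γ) j}` (`map_f`), so it maps roots to
roots: `γ y_{j,i} = y_{act (ψ γ) j, τ_j(γ) i}` for a unique permutation `τ_j(γ)` (`fac`, `ne`, `inj`).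
`τ_j(γ γ') = τ_{act (ψ γ') j}(γ) τ_j(γ')`.  `sign τ_j(γ) = ε(ψ γ)_j` (`sgn`).  `Ψ γ` = the unique `g ∈ E` with
`π g = ψ γ`, `T g = τ(γ)`.  `Ψ (γ γ') = Ψ γ Ψ γ'` by uniqueness and the multiplication rule for `T`.  Finite level:
the set for `ψ` and all `y_{j,i}`: then `ψ γ = 1`, `τ(γ) = 1`, and `T 1 = 1` (from `T (1 · 1)`), `Ψ γ = 1`. -/
def HomStmt : Prop :=
  ∀ (p n : ℕ) [Fact p.Prime] (t : AType p n) (Ω : Type) [Field Ω] [Algebra (ZMod p) Ω] (x : Ω)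
    (Q : Type) [Group Q] (ψ : Gx p x →* Q) (k : ℕ) (act : Q →* Equiv.Perm (Fin k))
    (ε : Q → Fin k → ℤˣ) (j₀ : Fin k) (V₁ : ValuationSubring Ω) (e τ κ : Fin k → Ω)
    (y : Fin k → Fin n → Ω), FinLevel ψ → AltSys t ψ act ε j₀ V₁ e τ κ y →
    ∀ (E : Type) [Group E] (π : E →* Q) (T : E → Fin k → Equiv.Perm (Fin n)),
    (∀ g g' j, T (g * g') j = T g (act (π g') j) * T g' j) →
    (∀ g j, Equiv.Perm.sign (T g j) = ε (π g) j) →
    (∀ (q : Q) (τ : Fin k → Equiv.Perm (Fin n)), (∀ j, Equiv.Perm.sign (τ j) = ε q j) →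
      ∃! g : E, π g = q ∧ T g = τ) →
    ∃ Ψ : Gx p x →* E, FinLevel Ψ ∧ (∀ γ, π (Ψ γ) = ψ γ) ∧
      ∀ (γ : Gx p x) j i, (γ : Ω ≃ₐ[ZMod p] Ω) (y j i) = y (act (ψ γ) j) (T (Ψ γ) j i)

/-- **SOf.** The invariant (S), and a `p`-cycle.

*Proof.*  (1) Let `V` be a valuation ring of `Ω`, `V ≠ ⊤`, `x ∈ V`, `γ ∈ Gx ⊓ Inert V`, `ψ γ = 1`.  For each `j` the
permutation `ρ = T (Ψ γ) j` satisfies `γ y_{j,i} = y_{j, ρ i}` and has sign `ε(1)_j = 1`; `e_j, τ_j, κ_j ∈ V` (integral)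
are fixed by `γ`.  If `|e_j| = 1`: `ρ = 1` (*LocA*); if `|e_j| < 1`: `|τ_j| = 1` (`unit`) and `ρ^p = 1` (*LocB*).
So `T ((Ψ γ)^p) j = ρ^p = 1` (multiplication rule, `act 1 = 1`), and `(Ψ γ)^p = 1` (uniqueness).
(S): let `V` be `ℓ`-bad, `ℓ ≠ p`; `x ∈ V` (`|x| < 1`, or `|x^m - 1| < 1` implies `|x| = 1`); `γ ∈ Gx ⊓ Inert V`, `m` the
order of `ψ γ`, prime to `ℓ` (`SInv` for `ψ`).  `γ^m ∈ ker ψ`, so `(Ψ γ)^(m p) = 1`; the order of `Ψ γ` divides `m p`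
and is prime to `ℓ`.
(2) `V = V₁`: *Wild* for `j₀` (`Gx ⊓ Inert V₁ ⊆ Dec V₁` is in `ker ψ` by `dec`, so it fixes `e_{j₀}`; `|τ_{j₀}| = 1` by
`unit`, `x ∈ V₁`): `δ ∈ Gx ⊓ Inert V₁` with `δ y_{j₀,i} ≠ y_{j₀,i}` for some `i`.  `ρ = T (Ψ δ) j₀ ≠ 1`, `ρ^p = 1`, `ρ i = i`
if `y_{j₀,i} ∈ V₁` (*LocB*), so the support has at most `p` elements (*LocN*).  For `j ≠ j₀` `|e_j| = 1` and
`T (Ψ δ) j = 1` (*LocA*).
*Uses*: LocA, LocB, LocN, Wild. -/
def SOfStmt : Prop :=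
  ∀ (p n : ℕ) [Fact p.Prime] (t : AType p n) (Ω : Type) [Field Ω] [Algebra (ZMod p) Ω] (x : Ω),
    IsStage p x → ∀ (Q : Type) [Group Q] [Finite Q] (ψ : Gx p x →* Q) (k : ℕ)
    (act : Q →* Equiv.Perm (Fin k)) (ε : Q → Fin k → ℤˣ) (j₀ : Fin k)
    (V₁ : ValuationSubring Ω) (e τ κ : Fin k → Ω)
    (y : Fin k → Fin n → Ω), SInv p x ψ → AltSys t ψ act ε j₀ V₁ e τ κ y →
    ∀ (E : Type) [Group E] (π : E →* Q) (T : E → Fin k → Equiv.Perm (Fin n)),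
    (∀ g g' j, T (g * g') j = T g (act (π g') j) * T g' j) →
    (∀ g j, Equiv.Perm.sign (T g j) = ε (π g) j) →
    (∀ (q : Q) (τ : Fin k → Equiv.Perm (Fin n)), (∀ j, Equiv.Perm.sign (τ j) = ε q j) →
      ∃! g : E, π g = q ∧ T g = τ) →
    ∀ Ψ : Gx p x →* E, (∀ γ, π (Ψ γ) = ψ γ) →
      (∀ (γ : Gx p x) j i, (γ : Ω ≃ₐ[ZMod p] Ω) (y j i) = y (act (ψ γ) j) (T (Ψ γ) j i)) →
      SInv p x Ψ ∧ ∃ δ : Gx p x, (δ : Ω ≃ₐ[ZMod p] Ω) ∈ Fx p (Cst p Ω : Set Ω) ∧ ψ δ = 1 ∧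
        T (Ψ δ) j₀ ≠ 1 ∧ T (Ψ δ) j₀ ^ p = 1 ∧ (T (Ψ δ) j₀).support.card ≤ p ∧
        ∀ j, j ≠ j₀ → T (Ψ δ) j = 1

/-! ## Part 6.  Group theory -/

/-- **JorA.** A transitive group with a `p`-cycle and no block size.

*Proof.*  Let `B` be a block, `1 < |B|`, `B` not everything; `b = |B|` divides `n` (transitivity:
`MulAction.IsBlock.ncard_dvd_card` or the like), `b ≤ n/2`.  All translates of `B` have `b` elements and
partition `Fin n`.  Let `B'` be a translate which meets `S = support σ`.  If `σ B' ≠ B'` then `σ B'` is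
disjoint from `B'`, so all points of `B'` are moved: `B' ⊆ S`; the translates `σ^i B'` are contained in `S`, they
are blocks, and they cover `S` (`σ` is transitive on `S`), so `b ∣ p`, `b = p` (`b > 1`), `B' = S`,
`σ B' = B'`, contradiction.  So `σ B' = B'`, and as `σ` is transitive on `S`: `S ⊆ B'`, `p ≤ b`.  By hypothesis
`b = n`, contradiction. -/
def JorAStmt : Prop :=
  ∀ (p n : ℕ) [Fact p.Prime] (G : Subgroup (Equiv.Perm (Fin n))),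
    MulAction.IsPretransitive G (Fin n) → ∀ σ ∈ G, σ.IsCycle → σ.support.card = p →
    (∀ b, b ∣ n → p ≤ b → b = n) → MulAction.IsPreprimitive G (Fin n)

/-- **JorB.** Jordan's theorem: a primitive group of degree `n ≥ p + 3` with a `p`-cycle contains the
alternating group (`proof_wanted` in `Mathlib/GroupTheory/GroupAction/Jordan.lean`).

*Proof.*  If `p = 3` this is `Equiv.Perm.alternatingGroup_le_of_isPreprimitive_of_isThreeCycle_mem`, and if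
`p = 2` the version for transpositions; in general: let `S = support σ`, `R` its complement, `|R| = n - p ≥ 3`.
The pointwise stabilizer `H` of `R` in `G` contains `σ`, which is transitive on `S`, `|S| = p` prime, so
`H` is primitive on `S`.  Jordan's theorem in Mathlib
(`MulAction.IsPreprimitive.isMultiplyPreprimitive`) gives that `G` is `(n - p + 1)`-fold transitive; so every
permutation of `R` is induced by an element of `G` (which stabilizes `R`).  `P = ⟨σ⟩` is a Sylow `p`-subgroup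
of `H`: `|H|` divides `p!` (`H` acts faithfully on `S`), and `p² ∤ p!`.  For `g ∈ G` with `g R = R`: `g H g⁻¹ = H`,
`g P g⁻¹` is a Sylow subgroup of `H`, so `= h P h⁻¹` with `h ∈ H`; `h⁻¹ g` normalizes `P` and acts on `R` as `g`.
Take `g₁, g₂ ∈ N_G(P)` inducing on `R` two permutations whose commutator is a `3`-cycle (for `a, b, c ∈ R`:
the transpositions `(a b)`, `(a c)`).  `c = [g₁, g₂]` centralizes `P` (the automorphism group of the cyclic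
group `P` is commutative), stabilizes `S` (`= support σ`) and acts on `S` as a permutation commuting with the
`p`-cycle `σ|S`, so as a power `σ^i` (`Equiv.Perm.IsCycle.commute_iff` or: compare the images of one point).
`c σ^(-i) ∈ G` is a `3`-cycle.  Apply the theorem for `3`-cycles. -/
def JorBStmt : Prop :=
  ∀ (p n : ℕ) [Fact p.Prime] (G : Subgroup (Equiv.Perm (Fin n))),
    MulAction.IsPreprimitive G (Fin n) → ∀ σ ∈ G, σ.IsCycle → σ.support.card = p →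
    p + 3 ≤ n → alternatingGroup (Fin n) ≤ G

/-- **Jor.** Recognition of the alternating group.

*Proof.*  `σ^p = 1`, `σ ≠ 1`: `σ` has order `p` and at most `p` points in its support, so it is a cycle of
length `p` (`Equiv.Perm.isCycle_of_prime_order`).  `m = 1`: `G` is transitive, and primitive by *JorA* and `h1`.
`m ≥ 2`: `G` is `2`-transitive, so primitive (`MulAction.isPreprimitive_of_is_two_pretransitive`).  If
`p + 3 ≤ n`: *JorB*.  If `p = 3`: `σ` is a `3`-cycle, Mathlib's theorem.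
*Uses*: JorA, JorB. -/
def JorStmt : Prop :=
  ∀ (p n : ℕ) [Fact p.Prime] (t : AType p n) (G : Subgroup (Equiv.Perm (Fin n))),
    ∀ σ ∈ G, σ ≠ 1 → σ ^ p = 1 → σ.support.card ≤ p →
    (t.m = 1 → ∀ i l, ∃ g ∈ G, g i = l) →
    (2 ≤ t.m → ∀ i i' l l', i ≠ i' → l ≠ l' → ∃ g ∈ G, g i = l ∧ g i' = l') →
    alternatingGroup (Fin n) ≤ G

/-- **Grp.** Surjectivity.

*Proof.*  Identify `N` with `(Fin k → A_n)` by `φ`; `T m j = φ m j` for `m ∈ N`.  `Δ₀ = Ψ(Γ₀ ⊓ ker ψ) ⊆ N` (as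
`π ∘ Ψ = ψ`, `ker π = N`); it is normalized by `Ψ(Γ)` (`Γ₀` and `ker ψ` are normal).  Let
`C₁ = {m ∈ Δ₀ : φ m j = 1 for all j ≠ j₀}`; it contains `Ψ δ`.  Its image `C₀ ≤ A_n` under `m ↦ φ m j₀` is normal in
`A_n`: for `a ∈ A_n` take `γ ∈ ker ψ` with `T (Ψ γ) j₀ = a`; conjugation by `Ψ γ ∈ N` preserves `Δ₀` and the
condition, and acts on the component `j₀` as conjugation by `a`.  `C₀ ≠ 1` and `A_n` is simple (`n ≥ 5`), so
`C₀ = A_n`: `Δ₀` contains all `m` with `φ m j = 1` for `j ≠ j₀`.  For any `j` take `γ ∈ Γ` with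
`act (ψ γ) j₀ = j`; conjugation by `Ψ γ` maps this subgroup onto `{m : φ m i = 1 for i ≠ j}`
(fourth property of `T`).  So `Δ₀ ⊇ N`.  For `g ∈ E` take `γ ∈ Γ₀` with `ψ γ = π g` (surjectivity); `g (Ψ γ)⁻¹ ∈ N`,
`= Ψ γ'`, `γ' ∈ Γ₀`; `g = Ψ (γ' γ)`. -/
def GrpStmt : Prop :=
  ∀ (n k : ℕ), 5 ≤ n → ∀ (E Q Γ : Type) [Group E] [Group Q] [Group Γ] (π : E →* Q)
    (φ : π.ker ≃* (Fin k → alternatingGroup (Fin n))) (act : Q →* Equiv.Perm (Fin k))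
    (T : E → Fin k → Equiv.Perm (Fin n)) (j₀ : Fin k), (∀ j, ∃ q, act q j₀ = j) →
    (∀ g g' j, T (g * g') j = T g (act (π g') j) * T g' j) →
    (∀ (g : E) (m : π.ker) j,
      (φ (MulAut.conjNormal g m) (act (π g) j) : Equiv.Perm (Fin n)) =
        T g j * φ m j * (T g j)⁻¹) →
    (∀ (m : π.ker) j, T m j = φ m j) →
    ∀ (Γ₀ : Subgroup Γ) [Γ₀.Normal] (Ψ : Γ →* E), (∀ q, ∃ γ ∈ Γ₀, π (Ψ γ) = q) →
    (∀ a ∈ alternatingGroup (Fin n), ∃ γ, π (Ψ γ) = 1 ∧ T (Ψ γ) j₀ = a) →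
    ∀ δ ∈ Γ₀, π (Ψ δ) = 1 → T (Ψ δ) j₀ ≠ 1 → (∀ j, j ≠ j₀ → T (Ψ δ) j = 1) →
    ∀ g : E, ∃ γ ∈ Γ₀, Ψ γ = g

/-- The alternating groups of the theorem. -/
def IsAlt (p : ℕ) (S : Type) [Group S] : Prop :=
  p ≠ 2 ∧ ∃ n : ℕ, 5 ≤ n ∧ n ≠ 6 ∧ (p + 3 ≤ n ∨ p = 3) ∧ Nonempty (S ≃* alternatingGroup (Fin n))

/-- **Act.** The data of the extension, and transitivity on the factors.

*Proof.*  `Pool.Agent.Lib.MP_7f581e_nt.AutAlt.exists_perm_data'` (`MP_7f581e_nt/AutPow.lean`) for `N = f.ker`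
gives `act', T, ε'` over `E ⧸ N`; transport them to `G` by `E ⧸ f.ker ≃* G`
(`QuotientGroup.quotientKerEquivOfSurjective`).  The cocycle relation of `ε` is the sign of the
multiplication rule (`f` is onto).  Transitivity: let `O` be an orbit of `G` on `Fin k`; `M = {m ∈ N : φ m j = 1
for j ∉ O}` is normal in `E` (fourth property) and not trivial (`O ≠ ∅`, `n ≥ 5`), so `M = N` and `O` is
everything (`A_n ≠ 1`). -/
def ActStmt : Prop :=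
  ∀ (n k : ℕ), 5 ≤ n → n ≠ 6 → ∀ (E G : Type) [Group E] [Finite E] [Group G] (f : E →* G),
    Function.Surjective f → ∀ (φ : f.ker ≃* (Fin k → alternatingGroup (Fin n))),
    (∀ N : Subgroup E, N.Normal → N ≤ f.ker → N = ⊥ ∨ N = f.ker) →
    ∃ (act : G →* Equiv.Perm (Fin k)) (T : E → Fin k → Equiv.Perm (Fin n))
      (ε : G → Fin k → ℤˣ),
    (∀ g g' j, T (g * g') j = T g (act (f g') j) * T g' j) ∧
    (∀ g j, Equiv.Perm.sign (T g j) = ε (f g) j) ∧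
    (∀ (q : G) (τ : Fin k → Equiv.Perm (Fin n)), (∀ j, Equiv.Perm.sign (τ j) = ε q j) →
      ∃! g : E, f g = q ∧ T g = τ) ∧
    (∀ (g : E) (m : f.ker) j,
      (φ (MulAut.conjNormal g m) (act (f g) j) : Equiv.Perm (Fin n)) =
        T g j * φ m j * (T g j)⁻¹) ∧
    (∀ (m : f.ker) j, T m j = φ m j) ∧
    (∀ a b j, ε (a * b) j = ε a (act b j) * ε b j) ∧
    ∀ j₀ j, ∃ q, act q j₀ = j

/-- **AStep.** The alternating step.

*Proof.*  Let `S ≃ A_n`, `κ` finite with `k` elements: `φ : f.ker ≃* (Fin k → A_n)`.  If `k = 0` the kernel is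
trivial, `f` is an isomorphism, `ψ' = f⁻¹ ∘ ψ`, `x' = x`.  Otherwise `t : AType p n` from *Typ* (`p = 3`: `n ≥ 5`,
`n ≠ 6`, so `n = 5` or `n ≥ 7 > 6`), `j₀ : Fin k`, the data from *Act*; `ψ` is onto (`GoodR.reg`); *Sys*, *Hom* (with
`π = f`), *SOf* give `Ψ`, `δ`.  Let `G₀ ≤ Perm (Fin n)` be the set of the `T (Ψ γ) j₀`, `ψ γ = 1` (a subgroup by
the multiplication rule, `act 1 = 1`); it satisfies the conditions of *Jor*: `tr1`, `tr2` of the system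
(`γ y_{j₀,i} = y_{j₀,l}` means `T (Ψ γ) j₀ i = l`, injectivity), `σ = T (Ψ δ) j₀`.  So `A_n ≤ G₀`.  *Grp* with
`Γ = Gx`, `Γ₀` = the elements of `Gx` which fix `𝔽` (normal: all automorphisms map `𝔽` to itself); the
hypothesis on `Γ₀` is `GoodR.reg` of `ψ`.  So `Ψ` satisfies `reg`; `fin` by *Hom*, `inv` by *SOf*.
*Uses*: Typ, Act, Sys, Hom, SOf, Jor, Grp. -/
def AStepStmt : Prop := ∀ (p : ℕ) [Fact p.Prime], LieStep p (fun S [Group S] => IsAlt p S)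

end MP7Z
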