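import Pool.Agent.Lib.MP_7f581e_Z.Alt.Spec

/-!
# The families of polynomials
-/

namespace MP7Z

open Polynomial

namespace TypM

theorem natCast_ne {p : ℕ} [Fact p.Prime] {a : ℕ} (h0 : 0 < a) (h : a < p) :
    (a : ZMod p) ≠ 0 := by
  rw [Ne, ZMod.natCast_eq_zero_iff]
  intro hd
  exact absurd (Nat.le_of_dvd h0 hd) (not_le.2 h)

/-- the case `n mod p ≥ 2` -/
theorem caseA {p n q : ℕ} [Fact p.Prime] (hp2 : p ≠ 2) (hr : n % p = q + 2) (hpn : p < n)
    (hp : p + 3 ≤ n ∨ p = 3) : Nonempty (AType p n) := by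
  have hpp : p.Prime := Fact.out
  have hppos : 0 < p := hpp.pos
  have hq : q + 2 < p := by
    rw [← hr]
    exact Nat.mod_lt _ hppos
  have hq1 : ((q + 1 : ℕ) : ZMod p) ≠ 0 := natCast_ne (by omega) (by omega)
  have hq2 : ((q + 2 : ℕ) : ZMod p) ≠ 0 := natCast_ne (by omega) (by omega)
  have hdiv := Nat.div_add_mod n p
  have hmon : (X - C (1 : ZMod p) : (ZMod p)[X]).Monic := monic_X_sub_C 1
  have hdeg : (X ^ (q + 1) * (X - C (1 : ZMod p)) : (ZMod p)[X]).natDegree = q + 2 := by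
    rw [(monic_X_pow (q + 1)).natDegree_mul hmon, natDegree_X_pow, natDegree_X_sub_C]
  have hm : 1 ≤ n / p := (Nat.one_le_div_iff hppos).2 hpn.le
  obtain ⟨s, hs⟩ : ∃ s : ZMod p, ((q + 2 : ℕ) : ZMod p) * s = ((q + 1 : ℕ) : ZMod p) :=
    ⟨((q + 1 : ℕ) : ZMod p) / ((q + 2 : ℕ) : ZMod p), mul_div_cancel₀ _ hq2⟩
  refine ⟨⟨X ^ (q + 1) * (X - C 1), 1, X ^ q, s, -((q + 2 : ℕ) : ZMod p), n / p, 1, hp2, hm,
    (monic_X_pow _).mul hmon, monic_one, monic_X_pow _, ?_, neg_ne_zero.2 hq2, ?_, ?_, ?_,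
    Or.inl rfl, ?_, ?_, ?_, ?_, hp⟩⟩
  · rw [hdeg]
    omega
  · rw [eval_mul, eval_pow, eval_X, eval_sub, eval_X, eval_C]
    refine mul_ne_zero (pow_ne_zero _ ?_) ?_
    · intro h0
      rw [h0, mul_zero] at hs
      exact hq1 hs.symm
    · intro h1
      have h2 : s = 1 := sub_eq_zero.1 h1
      rw [h2, mul_one] at hs
      have h3 : (1 : ZMod p) = 0 := by
        have h4 : ((q + 2 : ℕ) : ZMod p) = ((q + 1 : ℕ) : ZMod p) + 1 := by push_cast; ring
        rw [h4] at hs
        exact add_eq_left.1 hs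
      exact one_ne_zero h3
  · have h1 : C (-((q + 2 : ℕ) : ZMod p)) * (X - C s) * X ^ q =
        -(C ((q + 2 : ℕ) : ZMod p) * X - C (((q + 2 : ℕ) : ZMod p) * s)) * X ^ q := by
      rw [C_neg, C_mul]
      ring
    rw [h1, hs, derivative_one, mul_zero, zero_sub, mul_one, derivative_mul, derivative_X_pow,
      derivative_sub, derivative_X, derivative_C, Nat.add_sub_cancel, pow_succ]
    simp only [Nat.cast_add, Nat.cast_one, Nat.cast_ofNat, C_add, C_1, map_natCast]
    rw [show (C (2 : ZMod p)) = (2 : (ZMod p)[X]) from rfl]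
    ring
  · rw [pow_one, pow_succ]
    exact Dvd.intro _ (by rw [mul_assoc])
  · rw [natDegree_one]
    omega
  · rw [natDegree_one, Nat.sub_zero]
    intro h
    rw [Nat.mod_eq_zero_of_dvd h] at hr
    omega
  · intro _
    left
    rw [eval_mul, eval_pow, eval_X, zero_pow (Nat.succ_ne_zero q), zero_mul]
  · intro h1 b hb hpb
    obtain ⟨c, hc⟩ := hb
    rcases c with _ | _ | c
    · omega
    · omega
    · exfalso
      have h2 : n < 2 * p := by
        rw [h1] at hdiv
        omega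
      have h3 : 2 * p ≤ n := by
        rw [hc]
        calc 2 * p ≤ b * 2 := by omega
          _ ≤ b * (c + 1 + 1) := Nat.mul_le_mul_left _ (by omega)
      omega

/-- the case `n mod p = 1` -/
theorem caseB {p n : ℕ} [Fact p.Prime] (hp2 : p ≠ 2) (hr : n % p = 1) (hpn : p + 3 ≤ n) :
    Nonempty (AType p n) := by
  have hpp : p.Prime := Fact.out
  have hppos : 0 < p := hpp.pos
  have hp3 : 3 ≤ p := by
    have := hpp.two_le
    omega
  have hdiv := Nat.div_add_mod n p
  have hm : 2 ≤ n / p := by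
    by_contra hlt
    have h1 : n / p ≤ 1 := by omega
    have h2 : p * (n / p) ≤ p * 1 := Nat.mul_le_mul_left _ h1
    omega
  obtain ⟨m, hm'⟩ : ∃ m, n / p = m + 1 := ⟨n / p - 1, by omega⟩
  rw [hm', hr] at hdiv
  have hmon : (X - C (1 : ZMod p) : (ZMod p)[X]).Monic := monic_X_sub_C 1
  have hdeg : (X ^ 2 * (X - C (1 : ZMod p)) ^ (p - 1) : (ZMod p)[X]).natDegree = p + 1 := by
    rw [(monic_X_pow 2).natDegree_mul (hmon.pow _), natDegree_X_pow, hmon.natDegree_pow,
      natDegree_X_sub_C]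
    omega
  have h2 : (2 : ZMod p) ≠ 0 := by
    have := natCast_ne (p := p) (a := 2) (by omega) (by omega)
    simpa using this
  refine ⟨⟨X ^ 2 * (X - C 1) ^ (p - 1), 1, X * (X - C 1) ^ (p - 2), 2, -1, m, 1, hp2, by omega,
    (monic_X_pow _).mul (hmon.pow _), monic_one, monic_X.mul (hmon.pow _), ?_,
    neg_ne_zero.2 one_ne_zero, ?_, ?_, ?_, Or.inl rfl, ?_, ?_, ?_, ?_, Or.inl hpn⟩⟩
  · rw [hdeg, ← hdiv]
    ring
  · rw [eval_mul, eval_pow, eval_pow, eval_X, eval_sub, eval_X, eval_C]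
    refine mul_ne_zero (pow_ne_zero _ h2) (pow_ne_zero _ ?_)
    intro h3
    have h4 : (2 : ZMod p) - 1 = 1 := by ring
    rw [h4] at h3
    exact one_ne_zero h3
  · obtain ⟨t, ht⟩ : ∃ t, p - 2 = t := ⟨_, rfl⟩
    have h3 : p - 1 = t + 1 := by omega
    have h4 : ((t + 1 : ℕ) : ZMod p) = -1 := by
      have h5 : ((t + 1 + 1 : ℕ) : ZMod p) = 0 := by
        rw [show t + 1 + 1 = p by omega]
        exact ZMod.natCast_self p
      rw [Nat.cast_add, Nat.cast_one] at h5
      exact eq_neg_of_add_eq_zero_left h5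
    rw [ht, h3, derivative_one, mul_zero, zero_sub, mul_one, derivative_mul, derivative_X_pow,
      derivative_pow, derivative_sub, derivative_X, derivative_C, Nat.add_sub_cancel, h4,
      pow_succ (X - C 1) t]
    simp only [Nat.cast_ofNat, C_1, C_neg, Nat.add_one_sub_one, pow_one]
    rw [show (C (2 : ZMod p)) = (2 : (ZMod p)[X]) from rfl]
    ring
  · rw [pow_one]
    have h3 : p - 1 = p - 2 + 1 := by omega
    rw [h3, pow_succ (X - C 1)]
    exact Dvd.intro (X * (X - C 1)) (by ring)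
  · rw [natDegree_one]
    omega
  · rw [natDegree_one, Nat.sub_zero]
    intro h
    rw [Nat.mod_eq_zero_of_dvd h] at hr
    omega
  · intro _
    left
    rw [eval_mul, eval_pow, eval_X, zero_pow two_ne_zero, zero_mul]
  · intro h1 b hb hpb
    obtain ⟨c, hc⟩ := hb
    rw [h1] at hdiv
    rcases c with _ | _ | _ | c
    · omega
    · omega
    · omega
    · exfalso
      have h3 : 3 * p ≤ n := by
        rw [hc]
        calc 3 * p ≤ b * 3 := by omega
          _ ≤ b * (c + 1 + 1 + 1) := Nat.mul_le_mul_left _ (by omega)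
      omega

/-- the case `p ∣ n` -/
theorem caseC {p n : ℕ} [Fact p.Prime] (hp2 : p ≠ 2) (hr : n % p = 0) (hpn : p + 3 ≤ n) :
    Nonempty (AType p n) := by
  have hpp : p.Prime := Fact.out
  have hppos : 0 < p := hpp.pos
  have hp3 : 3 ≤ p := by
    have := hpp.two_le
    omega
  have hdiv := Nat.div_add_mod n p
  rw [hr, add_zero] at hdiv
  have hm : 1 ≤ n / p := (Nat.one_le_div_iff hppos).2 (by omega)
  have h2 : (2 : ZMod p) ≠ 0 := by
    have := natCast_ne (p := p) (a := 2) (by omega) (by omega)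
    simpa using this
  refine ⟨⟨1, X ^ 2, 1, 0, 2, n / p, 0, hp2, hm, monic_one, monic_X_pow 2, monic_one, ?_, h2, ?_,
    ?_, ?_, Or.inr rfl, ?_, ?_, fun _ => Or.inr rfl, ?_, Or.inl hpn⟩⟩
  · rw [natDegree_one, add_zero, hdiv]
  · rw [eval_one]
    exact one_ne_zero
  · rw [derivative_one, derivative_X_pow, C_0]
    simp only [Nat.cast_ofNat, Nat.add_one_sub_one, pow_one]
    ring
  · rw [pow_zero]
  · rw [natDegree_X_pow]
    omega
  · rw [natDegree_X_pow]
    intro h
    have h3 : p ∣ n := Nat.dvd_of_mod_eq_zero hr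
    have h4 : p ∣ n - (n - 2) := Nat.dvd_sub h3 h
    rw [show n - (n - 2) = 2 by omega] at h4
    have := Nat.le_of_dvd (by norm_num) h4
    omega
  · intro h1
    rw [h1] at hdiv
    omega

end TypM

theorem tTyp : TypStmt := by
  intro p n _ hp2 hn
  have hpp : p.Prime := Fact.out
  rcases hr : n % p with _ | _ | q
  · rcases hn with hn | ⟨h3, h5⟩
    · exact TypM.caseC hp2 hr hn
    · subst h3
      subst h5
      norm_num at hr
  · rcases hn with hn | ⟨h3, h5⟩
    · exact TypM.caseB hp2 hr hn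
    · subst h3
      subst h5
      norm_num at hr
  · refine TypM.caseA hp2 (q := q) hr ?_ ?_
    · rcases hn with hn | ⟨h3, h5⟩ <;> omega
    · rcases hn with hn | ⟨h3, h5⟩
      · exact Or.inl hn
      · exact Or.inr h3

end MP7Z
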